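import Pool.Agent.Helper47.LB.APiso

/-!
# A priori bounds for the moments of the directions

From `grad_bound` (Helper24/Zono/Grad3):
`|DD x (fun u => dPsi ⟨u,y⟩ ⟨u,v⟩)| ≤ Γ ‖v‖ (1 + ‖y‖/√n)`, `Γ = Cg ε p √p`.

* `iso_moment`: `isoI (⟨·,u⟩^{2l}) ≤ C √n n^{-l}` for `‖u‖ ≤ 1` (`angular_moment_sharp`; scale
  for `‖u‖ < 1`).
* `ap_avg` (`l ≥ 1`, `s = l - 1`, `2l - 1 = 2s+1` independent Gaussian vectors `g`, `y = ∑ g_k`,
  `v(g) = ∑_i wt_i prf(u_i)(g) • u_i`): integrate the gradient bound at `(y, v(g))` over `g`. By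
  `integral_dPsi_prf` (for `u = dir x j` unit resp. `u = z/‖z‖`)
  `∫ dPsi⟨u,y⟩ ⟨u,v(g)⟩ = ∑_i wt_i ⟨u,u_i⟩ (±cD s ⟨u,u_i⟩^{2s+1}) = ± cD s ∑_i wt_i ⟨u,u_i⟩^{2l}`,
  so `∫ DD(...) = ± cD s (Q - ∑_i wt_i isoI(⟨·,u_i⟩^{2l}))`, `Q = ∑_j wt_j SS x l (dir x j)`
  (Fubini for the isotropic part). Upper bound: `∫ Γ ‖v‖ (1+‖y‖/√n) ≤ Γ √(∫‖v‖²) √(∫(1+‖y‖/√n)²)`
  `≤ Γ √Q √(2 + 2(2s+1))`, as `∫‖v‖² = ∑_{ij} wt_i wt_j ⟨u_i,u_j⟩^{2l} = Q`,
  `∫‖y‖² = (2s+1) n`. So `cD s (Q - U) ≤ C Γ √Q`, `U ≤ W C √n n^{-l} ≤ C' n^{1-l}` (`W_le`), hence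
  `Q ≤ 2U + (CΓ/cD s)²`.
* `ap_sup` : same with `l = 2`, three Gaussian vectors `g`, `y = ∑ g_k`, `v(g) = prf(u)(g) • u` for
  the fixed unit vector `u`:
  `cD 1 (SS x 2 u - isoI(⟨·,u⟩⁴)) ≤ ∫ Γ |prf(u)(g)| (1+‖y‖/√n) ≤ C Γ`.
-/

open MeasureTheory ProbabilityTheory Matrix
open scoped RealInnerProductSpace ENNReal
open Pool.Agent.Helper24.Zono

namespace Pool.Agent.Helper47.LB

private noncomputable def yy {n s : ℕ} (g : Fin s → En n) : En n := ∑ k, g k

private noncomputable def vv {n N s : ℕ} (x : Fin N → En n) (g : Fin s → En n) : En n :=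
  ∑ i, (wt x i * prf (fun _ => dir x i) g) • dir x i

private lemma measurable_yy {n s : ℕ} : Measurable (yy : (Fin s → En n) → En n) :=
  Finset.measurable_sum _ fun k _ => measurable_pi_apply k

private lemma measurable_vv {n N s : ℕ} (x : Fin N → En n) :
    Measurable (vv x : (Fin s → En n) → En n) :=
  Finset.measurable_sum _ fun _ _ => (measurable_const.mul (measurable_prf _)).smul_const _

private lemma memLp_vv {n N s : ℕ} (x : Fin N → En n) :
    MemLp (fun g : Fin s → En n => ‖vv x g‖) 2 (PG n s) := by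
  refine MemLp.norm ?_
  refine memLp_finsetSum _ fun i _ => ?_
  have h := memLp_prf (fun _ : Fin s => dir x i) 2
  have h2 : MemLp (fun g : Fin s → En n => wt x i * prf (fun _ => dir x i) g) 2 (PG n s) := by
    exact MemLp.const_mul (by exact_mod_cast h) _
  refine MemLp.of_le_mul (c := ‖dir x i‖) h2 ?_ ?_
  · exact ((measurable_const.mul (measurable_prf _)).smul_const _).aestronglyMeasurable
  · refine Filter.Eventually.of_forall fun g => ?_
    rw [norm_smul, mul_comm]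

private lemma memLp_yy {n s : ℕ} :
    MemLp (fun g : Fin s → En n => ‖yy g‖) 2 (PG n s) := by
  refine MemLp.norm ?_
  refine memLp_finsetSum _ fun k _ => ?_
  have h1 : MemLp (id : En n → En n) 2 (stdGaussian (En n)) := IsGaussian.memLp_two_id
  have h2 := measurePreserving_eval (fun _ : Fin s => stdGaussian (En n)) k
  exact h1.comp_measurePreserving h2

private lemma integral_yy {n s : ℕ} :
    ∫ g : Fin s → En n, ‖yy g‖ ^ 2 ∂(PG n s) ≤ s ^ 2 * n := by
  have h0 : ∀ k : Fin s, Integrable (fun g : Fin s → En n => ‖g k‖ ^ 2) (PG n s) := by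
    intro k
    have h2 := measurePreserving_eval (fun _ : Fin s => stdGaussian (En n)) k
    exact h2.integrable_comp_of_integrable integrable_norm_sq
  have h1 : ∀ g : Fin s → En n, ‖yy g‖ ^ 2 ≤ s * ∑ k, ‖g k‖ ^ 2 := by
    intro g
    have h2 : ‖yy g‖ ≤ ∑ k, ‖g k‖ := norm_sum_le _ _
    calc ‖yy g‖ ^ 2 ≤ (∑ k, ‖g k‖) ^ 2 := pow_le_pow_left₀ (norm_nonneg _) h2 2
      _ ≤ (Finset.univ : Finset (Fin s)).card * ∑ k, ‖g k‖ ^ 2 := sq_sum_le_card_mul_sum_sq
      _ = _ := by simp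
  calc ∫ g : Fin s → En n, ‖yy g‖ ^ 2 ∂(PG n s)
      ≤ ∫ g : Fin s → En n, s * ∑ k, ‖g k‖ ^ 2 ∂(PG n s) := by
        refine integral_mono (memLp_yy.integrable_sq) ?_ h1
        exact (integrable_finsetSum _ fun k _ => h0 k).const_mul _
    _ = s ^ 2 * n := by
        rw [integral_const_mul, integral_finsetSum _ fun k _ => h0 k]
        have h3 : ∀ k : Fin s, ∫ g : Fin s → En n, ‖g k‖ ^ 2 ∂(PG n s) = n := by
          intro k
          have h4 := integral_comp_eval (μ := fun _ : Fin s => stdGaussian (En n)) (i := k)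
            (f := fun g : En n => ‖g‖ ^ 2) (integrable_norm_sq.aestronglyMeasurable)
          rw [h4, integral_norm_sq]
        simp only [h3]
        simp
        ring

private lemma inner_vv {n N s : ℕ} (x : Fin N → En n) (u : En n) (g : Fin s → En n) :
    ⟪u, vv x g⟫ = ∑ i, wt x i * ⟪u, dir x i⟫ * prf (fun _ => dir x i) g := by
  unfold vv
  rw [inner_sum]
  refine Finset.sum_congr rfl fun i _ => ?_
  rw [inner_smul_right]; ring

private lemma integral_vv_sq {n N : ℕ} (x : Fin N → En n) (s : ℕ) :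
    ∫ g : Fin (2 * s + 1) → En n, ‖vv x g‖ ^ 2 ∂(PG n (2 * s + 1)) =
      ∑ j, wt x j * SS x (s + 1) (dir x j) := by
  have h1 : ∀ g : Fin (2 * s + 1) → En n, ‖vv x g‖ ^ 2 = ∑ j, ∑ i, wt x j * wt x i *
      ⟪dir x j, dir x i⟫ * (prf (fun _ => dir x j) g * prf (fun _ => dir x i) g) := by
    intro g
    rw [← real_inner_self_eq_norm_sq, inner_vv]
    refine Finset.sum_congr rfl fun j _ => ?_
    rw [real_inner_comm, inner_vv, Finset.mul_sum, Finset.sum_mul]
    refine Finset.sum_congr rfl fun i _ => ?_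
    ring
  have h2 : ∀ i j : Fin N, Integrable (fun g : Fin (2 * s + 1) → En n =>
      prf (fun _ => dir x j) g * prf (fun _ => dir x i) g) (PG n (2 * s + 1)) := by
    intro i j
    have e1 := memLp_prf (fun _ : Fin (2 * s + 1) => dir x j) 2
    have e2 := memLp_prf (fun _ : Fin (2 * s + 1) => dir x i) 2
    exact MemLp.integrable_mul (p := 2) (q := 2) (by exact_mod_cast e1) (by exact_mod_cast e2)
  simp only [h1]
  rw [integral_finsetSum _ fun j _ => integrable_finsetSum _ fun i _ => (h2 i j).const_mul _]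
  refine Finset.sum_congr rfl fun j _ => ?_
  rw [integral_finsetSum _ fun i _ => (h2 i j).const_mul _]
  unfold SS
  rw [Finset.mul_sum]
  refine Finset.sum_congr rfl fun i _ => ?_
  rw [integral_const_mul, integral_prf_mul_prf, Finset.prod_const, Finset.card_univ,
    Fintype.card_fin, real_inner_comm (dir x i) (dir x j)]
  ring

/-- The linear term for one unit vector. -/
private lemma integral_unit {n N : ℕ} (x : Fin N → En n) (s : ℕ) (u : En n) (hu : ‖u‖ = 1) :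
    ∫ g : Fin (2 * s + 1) → En n, dPsi ⟪u, yy g⟫ * ⟪u, vv x g⟫ ∂(PG n (2 * s + 1)) =
      (-1) ^ s * cD s * SS x (s + 1) u := by
  have h1 : ∀ g : Fin (2 * s + 1) → En n, dPsi ⟪u, yy g⟫ * ⟪u, vv x g⟫ =
      ∑ i, (wt x i * ⟪u, dir x i⟫) *
        (dPsi (∑ l, ⟪u, g l⟫) * prf (fun _ => dir x i) g) := by
    intro g
    rw [inner_vv]
    unfold yy
    rw [inner_sum, Finset.mul_sum]
    refine Finset.sum_congr rfl fun i _ => ?_
    ring
  have hm : Measurable (fun g : Fin (2 * s + 1) → En n => dPsi (∑ l, ⟪u, g l⟫)) := by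
    refine measurable_dPsi.comp ?_
    exact (by fun_prop : Continuous fun g : Fin (2 * s + 1) → En n => ∑ l, ⟪u, g l⟫).measurable
  have h2 : ∀ i : Fin N, Integrable (fun g : Fin (2 * s + 1) → En n =>
      dPsi (∑ l, ⟪u, g l⟫) * prf (fun _ => dir x i) g) (PG n (2 * s + 1)) := by
    intro i
    have e1 := memLp_prf (fun _ : Fin (2 * s + 1) => dir x i) 1
    have e2 : Integrable (prf (fun _ : Fin (2 * s + 1) => dir x i)) (PG n (2 * s + 1)) :=
      memLp_one_iff_integrable.1 (by exact_mod_cast e1)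
    refine e2.bdd_mul (c := 1) hm.aestronglyMeasurable ?_
    refine Filter.Eventually.of_forall fun g => ?_
    rw [Real.norm_eq_abs]
    exact abs_dPsi_le _
  simp only [h1]
  rw [integral_finsetSum _ fun i _ => (h2 i).const_mul _]
  unfold SS
  rw [Finset.mul_sum]
  refine Finset.sum_congr rfl fun i _ => ?_
  rw [integral_const_mul, integral_dPsi_prf u hu, Finset.prod_const, Finset.card_univ,
    Fintype.card_fin, real_inner_comm (dir x i) u]
  ring

private lemma abs_F_le {n N s : ℕ} (x : Fin N → En n) (u : En n) (hu : ‖u‖ ≤ 1)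
    (g : Fin s → En n) : |dPsi ⟪u, yy g⟫ * ⟪u, vv x g⟫| ≤ ‖vv x g‖ := by
  rw [abs_mul]
  calc |dPsi ⟪u, yy g⟫| * |⟪u, vv x g⟫| ≤ 1 * (‖u‖ * ‖vv x g‖) := by
        gcongr
        · exact abs_dPsi_le _
        · exact abs_real_inner_le_norm _ _
    _ ≤ 1 * (1 * ‖vv x g‖) := by gcongr
    _ = _ := by ring

private lemma integrable_vv {n N s : ℕ} (x : Fin N → En n) :
    Integrable (fun g : Fin s → En n => ‖vv x g‖) (PG n s) :=
  (memLp_vv x).integrable (by norm_num)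

private lemma measurable_F {n N s : ℕ} (x : Fin N → En n) (u : En n) :
    Measurable (fun g : Fin s → En n => dPsi ⟪u, yy g⟫ * ⟪u, vv x g⟫) :=
  (measurable_dPsi.comp (measurable_const.inner measurable_yy)).mul
    (measurable_const.inner (measurable_vv x))

private lemma integrable_F {n N s : ℕ} (x : Fin N → En n) (u : En n) (hu : ‖u‖ ≤ 1) :
    Integrable (fun g : Fin s → En n => dPsi ⟪u, yy g⟫ * ⟪u, vv x g⟫) (PG n s) := by
  refine (integrable_vv x).mono' (measurable_F x u).aestronglyMeasurable ?_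
  refine Filter.Eventually.of_forall fun g => ?_
  rw [Real.norm_eq_abs]
  exact abs_F_le x u hu g

private lemma integrable_joint {n N s : ℕ} (x : Fin N → En n) :
    Integrable (Function.uncurry fun (g : Fin s → En n) (z : En n) =>
      ‖z‖ * (dPsi ⟪‖z‖⁻¹ • z, yy g⟫ * ⟪‖z‖⁻¹ • z, vv x g⟫))
      ((PG n s).prod (stdGaussian (En n))) := by
  have h1 : Integrable (fun p : (Fin s → En n) × En n => ‖vv x p.1‖ * ‖p.2‖)
      ((PG n s).prod (stdGaussian (En n))) := (integrable_vv x).mul_prod integrable_norm'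
  refine h1.mono' ?_ ?_
  · refine Measurable.aestronglyMeasurable ?_
    have m1 : Measurable (fun p : (Fin s → En n) × En n => ‖p.2‖⁻¹ • p.2) :=
      measurable_hat.comp measurable_snd
    have m2 : Measurable (fun p : (Fin s → En n) × En n => yy p.1) :=
      measurable_yy.comp measurable_fst
    have m3 : Measurable (fun p : (Fin s → En n) × En n => vv x p.1) :=
      (measurable_vv x).comp measurable_fst
    exact (measurable_norm.comp measurable_snd).mul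
      ((measurable_dPsi.comp (m1.inner m2)).mul (m1.inner m3))
  · refine Filter.Eventually.of_forall fun p => ?_
    rw [Function.uncurry, norm_mul, norm_norm, Real.norm_eq_abs, mul_comm]
    exact mul_le_mul_of_nonneg_right (abs_F_le x _ (norm_hat_le _) p.1) (norm_nonneg _)

private lemma integral_isoI {n N : ℕ} (x : Fin N → En n) (s : ℕ) :
    Integrable (fun g : Fin (2 * s + 1) → En n =>
      isoI (fun u => dPsi ⟪u, yy g⟫ * ⟪u, vv x g⟫)) (PG n (2 * s + 1)) ∧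
    ∫ g : Fin (2 * s + 1) → En n, isoI (fun u => dPsi ⟪u, yy g⟫ * ⟪u, vv x g⟫)
      ∂(PG n (2 * s + 1)) = (-1) ^ s * cD s * isoI (SS x (s + 1)) := by
  have hj := integrable_joint (s := 2 * s + 1) x
  constructor
  · unfold isoI
    exact (hj.integral_prod_left).const_mul _
  · unfold isoI
    rw [integral_const_mul, integral_integral_swap hj]
    have h1 : ∀ z : En n, ∫ g : Fin (2 * s + 1) → En n,
        ‖z‖ * (dPsi ⟪‖z‖⁻¹ • z, yy g⟫ * ⟪‖z‖⁻¹ • z, vv x g⟫) ∂(PG n (2 * s + 1)) =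
        ((-1) ^ s * cD s) * (‖z‖ * SS x (s + 1) (‖z‖⁻¹ • z)) := by
      intro z
      rw [integral_const_mul]
      rcases eq_or_ne z 0 with h | h
      · subst h; simp
      · have h2 : ‖‖z‖⁻¹ • z‖ = 1 := by
          rw [norm_smul, norm_inv, norm_norm, inv_mul_cancel₀ (norm_ne_zero_iff.2 h)]
        rw [integral_unit x s _ h2]
        ring
    simp only [h1]
    rw [integral_const_mul]
    ring

private lemma integral_DD {n N : ℕ} (x : Fin N → En n) (s : ℕ) :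
    Integrable (fun g : Fin (2 * s + 1) → En n =>
      DD x (fun u => dPsi ⟪u, yy g⟫ * ⟪u, vv x g⟫)) (PG n (2 * s + 1)) ∧
    ∫ g : Fin (2 * s + 1) → En n, DD x (fun u => dPsi ⟪u, yy g⟫ * ⟪u, vv x g⟫)
      ∂(PG n (2 * s + 1)) = (-1) ^ s * cD s *
        (∑ j, wt x j * SS x (s + 1) (dir x j) - isoI (SS x (s + 1))) := by
  obtain ⟨i1, i2⟩ := integral_isoI x s
  have i3 : Integrable (fun g : Fin (2 * s + 1) → En n =>
      ∑ j, wt x j * (dPsi ⟪dir x j, yy g⟫ * ⟪dir x j, vv x g⟫)) (PG n (2 * s + 1)) :=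
    integrable_finsetSum _ fun j _ => (integrable_F x _ (norm_dir_le x j)).const_mul _
  constructor
  · unfold DD
    exact i3.sub i1
  · unfold DD
    rw [integral_sub i3 i1, i2, integral_finsetSum _ fun j _ =>
      (integrable_F x _ (norm_dir_le x j)).const_mul _, mul_sub, Finset.mul_sum]
    congr 1
    refine Finset.sum_congr rfl fun j _ => ?_
    rw [integral_const_mul]
    rcases wt_or x j with h | h
    · rw [h]; ring
    · rw [integral_unit x s _ h]; ring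

private lemma isoI_SS {n N : ℕ} (x : Fin N → En n) (l : ℕ) :
    isoI (SS x l) = ∑ i, wt x i * isoI (fun v => ⟪v, dir x i⟫ ^ (2 * l)) := by
  have h1 : ∀ i : Fin N, Nice (fun v : En n => wt x i * ⟪v, dir x i⟫ ^ (2 * l)) := by
    intro i
    refine Nice.const_mul ?_ _
    refine nice_of_bdd _ (by fun_prop) 1 ?_
    intro v hv
    rw [abs_pow]
    refine pow_le_one₀ (abs_nonneg _) ?_
    exact (abs_real_inner_le_norm _ _).trans (mul_le_one₀ hv (norm_nonneg _) (norm_dir_le x i))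
  have h2 : SS x l = fun v => ∑ i, wt x i * ⟪v, dir x i⟫ ^ (2 * l) := by
    funext v
    unfold SS
    refine Finset.sum_congr rfl fun i _ => ?_
    rw [real_inner_comm]
  rw [h2, isoI_sum h1]
  refine Finset.sum_congr rfl fun i _ => ?_
  rw [isoI_const_mul]

theorem ap_avg (l : ℕ) (hl : 1 ≤ l) : ∃ C : ℝ, 1 ≤ C ∧ ∀ (n N : ℕ) (x : Fin N → En n) (ε : ℝ)
    (p : ℕ), 1 ≤ n → 0 < ε → ε ≤ 1 / 2 → 1 ≤ p → Real.exp (-(p : ℝ)) ≤ ε →
    (∀ y, (1 - ε) * ‖y‖ ≤ ∑ j, |⟪y, x j⟫|) → (∀ y, ∑ j, |⟪y, x j⟫| ≤ (1 + ε) * ‖y‖) →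
    ∑ j, wt x j * SS x l (dir x j) ≤ C * (n / (n : ℝ) ^ l + ε ^ 2 * p ^ 3) := by
  obtain ⟨s, rfl⟩ : ∃ s, l = s + 1 := ⟨l - 1, by omega⟩
  obtain ⟨C1, hC1, hiso⟩ := iso_moment (s + 1) hl
  obtain ⟨Cg, hCg, hgrad⟩ := grad_bound
  have hcD := cD_pos s
  set M : ℝ := 2 + 2 * ((2 * s + 1 : ℕ) : ℝ) ^ 2 with hM
  have hM0 : 0 ≤ M := by positivity
  refine ⟨30 * C1 + Cg ^ 2 * M / cD s ^ 2, ?_, ?_⟩
  · have : 0 ≤ Cg ^ 2 * M / cD s ^ 2 := by positivity
    linarith
  intro n N x ε p hn hε hε2 hp hpε hlow hup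
  have hnR : (1 : ℝ) ≤ n := by exact_mod_cast hn
  have hn0 : (0 : ℝ) < n := by linarith
  have hS0 : 0 < Real.sqrt n := Real.sqrt_pos.2 hn0
  have hSS : Real.sqrt n * Real.sqrt n = n := Real.mul_self_sqrt hn0.le
  have hp0 : (0 : ℝ) < p := by exact_mod_cast hp
  have hsp : Real.sqrt p * Real.sqrt p = p := Real.mul_self_sqrt hp0.le
  set Q : ℝ := ∑ j, wt x j * SS x (s + 1) (dir x j) with hQ
  set G : ℝ := Cg * (ε * ((p : ℝ) * Real.sqrt p)) with hG
  have hG0 : 0 < G := by positivity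
  have hG2 : G ^ 2 = Cg ^ 2 * (ε ^ 2 * (p : ℝ) ^ 3) := by
    calc G ^ 2 = Cg ^ 2 * (ε ^ 2 * ((p : ℝ) ^ 2 * (Real.sqrt p * Real.sqrt p))) := by
          rw [hG]; ring
      _ = _ := by rw [hsp]; ring
  -- isotropic part
  have hU : isoI (SS x (s + 1)) ≤ 15 * C1 * (n / (n : ℝ) ^ (s + 1)) := by
    rw [isoI_SS]
    calc ∑ i, wt x i * isoI (fun v => ⟪v, dir x i⟫ ^ (2 * (s + 1)))
        ≤ ∑ i, wt x i * (C1 * Real.sqrt n / (n : ℝ) ^ (s + 1)) :=
          Finset.sum_le_sum fun i _ => mul_le_mul_of_nonneg_left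
            (hiso n (dir x i) hn (norm_dir_le x i)) (wt_nonneg x i)
      _ = (∑ i, wt x i) * (C1 * Real.sqrt n / (n : ℝ) ^ (s + 1)) := by rw [Finset.sum_mul]
      _ ≤ (15 * Real.sqrt n) * (C1 * Real.sqrt n / (n : ℝ) ^ (s + 1)) := by
          refine mul_le_mul_of_nonneg_right ?_ (by positivity)
          refine (W_le x ε hup).trans ?_
          nlinarith
      _ = 15 * C1 * ((Real.sqrt n * Real.sqrt n) / (n : ℝ) ^ (s + 1)) := by ring
      _ = _ := by rw [hSS]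
  -- the pairing
  obtain ⟨iD, eD'⟩ := integral_DD x s
  rw [← hQ] at eD'
  have hB : ∀ g : Fin (2 * s + 1) → En n, |DD x (fun u => dPsi ⟪u, yy g⟫ * ⟪u, vv x g⟫)| ≤
      cD s / 2 * ‖vv x g‖ ^ 2 + G ^ 2 / (2 * cD s) * (2 + 2 / n * ‖yy g‖ ^ 2) := by
    intro g
    have h1 := hgrad n N x ε (by omega) hε (by linarith) hlow hup p hp hpε (yy g) (vv x g)
    rw [← hG] at h1
    refine h1.trans ?_
    set a := ‖vv x g‖ with ha
    set b := 1 + ‖yy g‖ / Real.sqrt n with hb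
    have h2 : G * a * b ≤ cD s / 2 * a ^ 2 + G ^ 2 / (2 * cD s) * b ^ 2 := by
      have h3 : cD s / 2 * a ^ 2 + G ^ 2 / (2 * cD s) * b ^ 2 - G * a * b =
          (cD s * a - G * b) ^ 2 / (2 * cD s) := by
        field_simp
        ring
      have h4 : 0 ≤ (cD s * a - G * b) ^ 2 / (2 * cD s) := by positivity
      linarith
    refine h2.trans ?_
    have h5 : b ^ 2 ≤ 2 + 2 / n * ‖yy g‖ ^ 2 := by
      have h6 : (‖yy g‖ / Real.sqrt n) ^ 2 = 1 / n * ‖yy g‖ ^ 2 := by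
        rw [div_pow, Real.sq_sqrt hn0.le]; ring
      have h7 : 2 / (n : ℝ) * ‖yy g‖ ^ 2 = 2 * (‖yy g‖ / Real.sqrt n) ^ 2 := by
        rw [h6]; ring
      rw [h7, hb]
      nlinarith [sq_nonneg (1 - ‖yy g‖ / Real.sqrt n)]
    have h8 : 0 ≤ G ^ 2 / (2 * cD s) := by positivity
    have := mul_le_mul_of_nonneg_left h5 h8
    linarith
  have iV : Integrable (fun g : Fin (2 * s + 1) → En n => cD s / 2 * ‖vv x g‖ ^ 2)
      (PG n (2 * s + 1)) := ((memLp_vv x).integrable_sq).const_mul _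
  have iY : Integrable (fun g : Fin (2 * s + 1) → En n => 2 / (n : ℝ) * ‖yy g‖ ^ 2)
      (PG n (2 * s + 1)) := ((memLp_yy).integrable_sq).const_mul _
  have iY2 : Integrable (fun g : Fin (2 * s + 1) → En n =>
      G ^ 2 / (2 * cD s) * (2 + 2 / (n : ℝ) * ‖yy g‖ ^ 2))
      (PG n (2 * s + 1)) := ((integrable_const _).add iY).const_mul _
  have hmain : cD s * (Q - isoI (SS x (s + 1))) ≤
      cD s / 2 * Q + G ^ 2 / (2 * cD s) * M := by
    calc cD s * (Q - isoI (SS x (s + 1)))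
        ≤ |(-1) ^ s * cD s * (Q - isoI (SS x (s + 1)))| := by
          rw [abs_mul, abs_mul, abs_pow, abs_neg, abs_one, one_pow, one_mul, abs_of_pos hcD]
          exact mul_le_mul_of_nonneg_left (le_abs_self _) hcD.le
      _ = |∫ g : Fin (2 * s + 1) → En n, DD x (fun u => dPsi ⟪u, yy g⟫ * ⟪u, vv x g⟫)
            ∂(PG n (2 * s + 1))| := by rw [eD']
      _ ≤ ∫ g : Fin (2 * s + 1) → En n, |DD x (fun u => dPsi ⟪u, yy g⟫ * ⟪u, vv x g⟫)|
            ∂(PG n (2 * s + 1)) := abs_integral_le_integral_abs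
      _ ≤ ∫ g : Fin (2 * s + 1) → En n, (cD s / 2 * ‖vv x g‖ ^ 2 +
            G ^ 2 / (2 * cD s) * (2 + 2 / (n : ℝ) * ‖yy g‖ ^ 2)) ∂(PG n (2 * s + 1)) :=
          integral_mono iD.abs (iV.add iY2) hB
      _ = cD s / 2 * Q + G ^ 2 / (2 * cD s) * (2 + 2 / (n : ℝ) *
            ∫ g : Fin (2 * s + 1) → En n, ‖yy g‖ ^ 2 ∂(PG n (2 * s + 1))) := by
          rw [integral_add iV iY2, integral_const_mul, integral_const_mul,
            integral_add (integrable_const _) iY, integral_const_mul, integral_vv_sq, ← hQ]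
          simp
      _ ≤ cD s / 2 * Q + G ^ 2 / (2 * cD s) * M := by
          have h1 := integral_yy (n := n) (s := 2 * s + 1)
          have h2 : 2 / (n : ℝ) * ∫ g : Fin (2 * s + 1) → En n, ‖yy g‖ ^ 2 ∂(PG n (2 * s + 1))
              ≤ 2 * ((2 * s + 1 : ℕ) : ℝ) ^ 2 := by
            calc 2 / (n : ℝ) * ∫ g : Fin (2 * s + 1) → En n, ‖yy g‖ ^ 2 ∂(PG n (2 * s + 1))
                ≤ 2 / (n : ℝ) * (((2 * s + 1 : ℕ) : ℝ) ^ 2 * n) :=
                  mul_le_mul_of_nonneg_left h1 (by positivity)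
              _ = _ := by field_simp
          have h3 : 0 ≤ G ^ 2 / (2 * cD s) := by positivity
          have h4 := mul_le_mul_of_nonneg_left (add_le_add_right h2 2) h3
          rw [← hM] at h4
          linarith
  have h1 : Q ≤ 2 * isoI (SS x (s + 1)) + G ^ 2 * M / cD s ^ 2 := by
    have h2 : cD s * Q ≤ 2 * (cD s * isoI (SS x (s + 1))) + G ^ 2 / cD s * M := by
      have h3 : G ^ 2 / (2 * cD s) * M = (G ^ 2 / cD s * M) / 2 := by field_simp
      rw [h3] at hmain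
      linarith
    have h4 : cD s * (2 * isoI (SS x (s + 1)) + G ^ 2 * M / cD s ^ 2) =
        2 * (cD s * isoI (SS x (s + 1))) + G ^ 2 / cD s * M := by
      field_simp
    rw [← h4] at h2
    exact le_of_mul_le_mul_left h2 hcD
  have h5 : G ^ 2 * M / cD s ^ 2 = (Cg ^ 2 * M / cD s ^ 2) * (ε ^ 2 * (p : ℝ) ^ 3) := by
    rw [hG2]; ring
  rw [h5] at h1
  have h6 : 0 ≤ (n : ℝ) / (n : ℝ) ^ (s + 1) := by positivity
  have h7 : 0 ≤ ε ^ 2 * (p : ℝ) ^ 3 := by positivity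
  have h8 : 0 ≤ Cg ^ 2 * M / cD s ^ 2 := by positivity
  have h9 : 0 ≤ C1 := by linarith
  calc Q ≤ 2 * (15 * C1 * (n / (n : ℝ) ^ (s + 1))) +
        (Cg ^ 2 * M / cD s ^ 2) * (ε ^ 2 * (p : ℝ) ^ 3) := by linarith
    _ ≤ (30 * C1 + Cg ^ 2 * M / cD s ^ 2) * (n / (n : ℝ) ^ (s + 1) + ε ^ 2 * (p : ℝ) ^ 3) := by
        have e1 : 0 ≤ (Cg ^ 2 * M / cD s ^ 2) * (n / (n : ℝ) ^ (s + 1)) := by positivity
        have e2 : 0 ≤ 30 * C1 * (ε ^ 2 * (p : ℝ) ^ 3) := by positivity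
        nlinarith

end Pool.Agent.Helper47.LB
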