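import Pool.Agent.Helper47.LB.Linear0

/-!
# A priori bounds for the moments of the directions

From `grad_bound` (Helper24/Zono/Grad3):
`|DD x (fun u => dPsi ⟨u,y⟩ ⟨u,v⟩)| ≤ Γ ‖v‖ (1 + ‖y‖/√n)`, `Γ = Cg ε p √p`.

* `iso_moment`: `isoI (⟨·,u⟩^{2l}) ≤ C √n n^{-l}` for `‖u‖ ≤ 1` (`angular_moment_sharp`; scale
  for `‖u‖ < 1`).
* `ap_avg` (`l ≥ 1`, `s = l - 1`, `2l - 1 = 2s+1` independent Gaussian vectors `g`, `y = ∑ g_k`,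
  `v(g) = ∑_i wt_i prf(u_i)(g) • u_i`): integrate the gradient bound at `(y, v(g))` over `g`. By
  `integral_dPsi_prf` (for `u = dir x j` unit resp. `u = z/‖z‖`)
  `∫ dPsi⟨u,y⟩ ⟨u,v(g)⟩ = ∑_i wt_i ⟨u,u_i⟩ (±cD s ⟨u,u_i⟩^{2s+1}) = ± cD s ∑_i wt_i ⟨u,u_i⟩^{2l}`,
  so `∫ DD(...) = ± cD s (Q - ∑_i wt_i isoI(⟨·,u_i⟩^{2l}))`, `Q = ∑_j wt_j SS x l (dir x j)`
  (Fubini for the isotropic part). Upper bound: `∫ Γ ‖v‖ (1+‖y‖/√n) ≤ Γ √(∫‖v‖²) √(∫(1+‖y‖/√n)²)`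
  `≤ Γ √Q √(2 + 2(2s+1))`, as `∫‖v‖² = ∑_{ij} wt_i wt_j ⟨u_i,u_j⟩^{2l} = Q`,
  `∫‖y‖² = (2s+1) n`. So `cD s (Q - U) ≤ C Γ √Q`, `U ≤ W C √n n^{-l} ≤ C' n^{1-l}` (`W_le`), hence
  `Q ≤ 2U + (CΓ/cD s)²`.
* `ap_sup` : same with `l = 2`, three Gaussian vectors `g`, `y = ∑ g_k`, `v(g) = prf(u)(g) • u` for
  the fixed unit vector `u`:
  `cD 1 (SS x 2 u - isoI(⟨·,u⟩⁴)) ≤ ∫ Γ |prf(u)(g)| (1+‖y‖/√n) ≤ C Γ`.
-/

open MeasureTheory ProbabilityTheory Matrix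
open scoped RealInnerProductSpace ENNReal
open Pool.Agent.Helper24.Zono

namespace Pool.Agent.Helper47.LB

private theorem iso_unit {n : ℕ} (l : ℕ) (hl : 1 ≤ l) (hn : 1 ≤ n) (u : En n) (hu : ‖u‖ = 1) :
    isoI (fun v => ⟪v, u⟫ ^ (2 * l)) ≤
      (Psi 0)⁻¹ * (2 * (6 * (l : ℝ)) ^ l * ((n : ℝ) ^ l)⁻¹ * Real.sqrt n) := by
  unfold isoI
  refine mul_le_mul_of_nonneg_left ?_ (inv_pos.2 Psi_zero_pos).le
  refine le_trans (le_of_eq ?_) (angular_moment_sharp hn l hl u hu)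
  refine integral_congr_ae (Filter.Eventually.of_forall fun z => ?_)
  show ‖z‖ * ⟪‖z‖⁻¹ • z, u⟫ ^ (2 * l) = ‖z‖ * |⟪‖z‖⁻¹ • z, u⟫| ^ (2 * l)
  rw [(even_two_mul l).pow_abs]

private theorem iso_nonneg {n : ℕ} (l : ℕ) (u : En n) :
    0 ≤ isoI (fun v => ⟪v, u⟫ ^ (2 * l)) := by
  unfold isoI
  refine mul_nonneg (inv_pos.2 Psi_zero_pos).le (integral_nonneg fun z => ?_)
  show 0 ≤ ‖z‖ * ⟪‖z‖⁻¹ • z, u⟫ ^ (2 * l)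
  exact mul_nonneg (norm_nonneg _) ((even_two_mul l).pow_nonneg _)

theorem iso_moment (l : ℕ) (hl : 1 ≤ l) : ∃ C : ℝ, 1 ≤ C ∧ ∀ (n : ℕ) (u : En n), 1 ≤ n → ‖u‖ ≤ 1 →
    isoI (fun v => ⟪v, u⟫ ^ (2 * l)) ≤ C * Real.sqrt n / (n : ℝ) ^ l := by
  refine ⟨max 1 ((Psi 0)⁻¹ * (2 * (6 * (l : ℝ)) ^ l)), le_max_left _ _, ?_⟩
  intro n u hn hu
  have hC : 0 ≤ max 1 ((Psi 0)⁻¹ * (2 * (6 * (l : ℝ)) ^ l)) := zero_le_one.trans (le_max_left _ _)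
  by_cases h0 : u = 0
  · subst h0
    have h1 : isoI (fun v : En n => ⟪v, (0 : En n)⟫ ^ (2 * l)) = 0 := by
      unfold isoI
      have h2 : 2 * l ≠ 0 := by omega
      simp [inner_zero_right, zero_pow h2]
    rw [h1]
    positivity
  · have hpos : 0 < ‖u‖ := norm_pos_iff.2 h0
    have hu1 : ‖(‖u‖⁻¹ • u : En n)‖ = 1 := by
      rw [norm_smul, norm_inv, norm_norm, inv_mul_cancel₀ hpos.ne']
    have h1 : isoI (fun v : En n => ⟪v, u⟫ ^ (2 * l)) =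
        ‖u‖ ^ (2 * l) * isoI (fun v : En n => ⟪v, (‖u‖⁻¹ • u : En n)⟫ ^ (2 * l)) := by
      unfold isoI
      rw [mul_left_comm]
      refine congrArg (fun t : ℝ => (Psi 0)⁻¹ * t) ?_
      rw [← integral_const_mul]
      refine integral_congr_ae (Filter.Eventually.of_forall fun z => ?_)
      show ‖z‖ * ⟪‖z‖⁻¹ • z, u⟫ ^ (2 * l) =
        ‖u‖ ^ (2 * l) * (‖z‖ * ⟪‖z‖⁻¹ • z, (‖u‖⁻¹ • u : En n)⟫ ^ (2 * l))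
      rw [real_inner_smul_right, mul_pow ‖u‖⁻¹, inv_pow]
      field_simp
    have h2 := iso_unit (n := n) l hl hn (‖u‖⁻¹ • u) hu1
    have h3 := iso_nonneg (n := n) l (‖u‖⁻¹ • u)
    have h4 : ‖u‖ ^ (2 * l) ≤ 1 := pow_le_one₀ hpos.le hu
    rw [h1]
    calc ‖u‖ ^ (2 * l) * isoI (fun v : En n => ⟪v, (‖u‖⁻¹ • u : En n)⟫ ^ (2 * l))
        ≤ 1 * isoI (fun v : En n => ⟪v, (‖u‖⁻¹ • u : En n)⟫ ^ (2 * l)) :=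
          mul_le_mul_of_nonneg_right h4 h3
      _ ≤ (Psi 0)⁻¹ * (2 * (6 * (l : ℝ)) ^ l * ((n : ℝ) ^ l)⁻¹ * Real.sqrt n) := by
          rw [one_mul]
          exact h2
      _ = ((Psi 0)⁻¹ * (2 * (6 * (l : ℝ)) ^ l)) * Real.sqrt n / (n : ℝ) ^ l := by
          rw [div_eq_mul_inv]
          ring
      _ ≤ max 1 ((Psi 0)⁻¹ * (2 * (6 * (l : ℝ)) ^ l)) * Real.sqrt n / (n : ℝ) ^ l := by
          gcongr
          exact le_max_right _ _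

end Pool.Agent.Helper47.LB
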