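import Pool.Agent.Helper47.LB.APiso

/-!
# A priori bounds for the moments of the directions

From `grad_bound` (Helper24/Zono/Grad3):
`|DD x (fun u => dPsi ⟨u,y⟩ ⟨u,v⟩)| ≤ Γ ‖v‖ (1 + ‖y‖/√n)`, `Γ = Cg ε p √p`.

* `iso_moment`: `isoI (⟨·,u⟩^{2l}) ≤ C √n n^{-l}` for `‖u‖ ≤ 1` (`angular_moment_sharp`; scale
  for `‖u‖ < 1`).
* `ap_avg` (`l ≥ 1`, `s = l - 1`, `2l - 1 = 2s+1` independent Gaussian vectors `g`, `y = ∑ g_k`,
  `v(g) = ∑_i wt_i prf(u_i)(g) • u_i`): integrate the gradient bound at `(y, v(g))` over `g`. By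
  `integral_dPsi_prf` (for `u = dir x j` unit resp. `u = z/‖z‖`)
  `∫ dPsi⟨u,y⟩ ⟨u,v(g)⟩ = ∑_i wt_i ⟨u,u_i⟩ (±cD s ⟨u,u_i⟩^{2s+1}) = ± cD s ∑_i wt_i ⟨u,u_i⟩^{2l}`,
  so `∫ DD(...) = ± cD s (Q - ∑_i wt_i isoI(⟨·,u_i⟩^{2l}))`, `Q = ∑_j wt_j SS x l (dir x j)`
  (Fubini for the isotropic part). Upper bound: `∫ Γ ‖v‖ (1+‖y‖/√n) ≤ Γ √(∫‖v‖²) √(∫(1+‖y‖/√n)²)`
  `≤ Γ √Q √(2 + 2(2s+1))`, as `∫‖v‖² = ∑_{ij} wt_i wt_j ⟨u_i,u_j⟩^{2l} = Q`,
  `∫‖y‖² = (2s+1) n`. So `cD s (Q - U) ≤ C Γ √Q`, `U ≤ W C √n n^{-l} ≤ C' n^{1-l}` (`W_le`), hence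
  `Q ≤ 2U + (CΓ/cD s)²`.
* `ap_sup` : same with `l = 2`, three Gaussian vectors `g`, `y = ∑ g_k`, `v(g) = prf(u)(g) • u` for
  the fixed unit vector `u`:
  `cD 1 (SS x 2 u - isoI(⟨·,u⟩⁴)) ≤ ∫ Γ |prf(u)(g)| (1+‖y‖/√n) ≤ C Γ`.
-/

open MeasureTheory ProbabilityTheory Matrix
open scoped RealInnerProductSpace ENNReal
open Pool.Agent.Helper24.Zono

namespace Pool.Agent.Helper47.LB

private lemma aps_norm_sq (n : ℕ) : ∫ g : En n, ‖g‖ ^ 2 ∂(stdGaussian (En n)) = n := by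
  set b := EuclideanSpace.basisFun (Fin n) ℝ with hb
  have e1 : ∀ g : En n, ‖g‖ ^ 2 = ∑ i, ⟪b i, g⟫ ^ 2 := fun g => (b.sum_sq_inner_right g).symm
  have hmi : ∀ i, MemLp (fun g : En n => ⟪b i, g⟫) 2 (stdGaussian (En n)) := fun i =>
    (IsGaussian.memLp_two_id (μ := stdGaussian (En n))).const_inner (b i)
  simp_rw [e1]
  rw [integral_finsetSum _ fun i _ => (hmi i).integrable_sq]
  have e2 : ∀ i, ∫ g : En n, ⟪b i, g⟫ ^ 2 ∂(stdGaussian (En n)) = 1 := by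
    intro i
    have h3 := variance_dual_stdGaussian (innerSL ℝ (b i))
    have h4 := integral_strongDual_stdGaussian (innerSL ℝ (b i))
    have h5 : ⇑(innerSL ℝ (b i)) = fun g : En n => ⟪b i, g⟫ := rfl
    rw [innerSL_apply_norm, b.norm_eq_one, h5, variance_eq_sub (hmi i)] at h3
    rw [h5] at h4
    rw [h4] at h3
    simpa using h3
  simp [e2]

private lemma aps_integrable_norm_sq (n : ℕ) :
    Integrable (fun g : En n => ‖g‖ ^ 2) (stdGaussian (En n)) := by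
  have hm : MemLp (fun g : En n => ‖g‖) 2 (stdGaussian (En n)) := IsGaussian.memLp_two_id.norm
  exact hm.integrable_sq

private lemma aps_coord (n s : ℕ) (k : Fin s) :
    Integrable (fun g : Fin s → En n => ‖g k‖ ^ 2) (PG n s) ∧
      ∫ g : Fin s → En n, ‖g k‖ ^ 2 ∂(PG n s) = n := by
  have hm := measurePreserving_eval (fun _ : Fin s => stdGaussian (En n)) k
  constructor
  · exact hm.integrable_comp_of_integrable (aps_integrable_norm_sq n)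
  · have h1 := aps_norm_sq n
    rw [← hm.map_eq, integral_map hm.measurable.aemeasurable] at h1
    · exact h1
    · exact (by fun_prop : Measurable fun g : En n => ‖g‖ ^ 2).aestronglyMeasurable

private lemma aps_meas (n : ℕ) (u : En n) : Measurable (fun q : (Fin 3 → En n) × En n =>
    ‖q.2‖ * (dPsi ⟪‖q.2‖⁻¹ • q.2, ∑ l, q.1 l⟫ * ⟪‖q.2‖⁻¹ • q.2, prf (fun _ => u) q.1 • u⟫)) := by
  have h1 : Measurable (fun q : (Fin 3 → En n) × En n => dPsi ⟪‖q.2‖⁻¹ • q.2, ∑ l, q.1 l⟫) :=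
    measurable_dPsi.comp (by fun_prop)
  have h2 : Measurable (fun q : (Fin 3 → En n) × En n => prf (fun _ => u) q.1) :=
    (measurable_prf _).comp measurable_fst
  have h3 : Measurable (fun q : (Fin 3 → En n) × En n =>
      ⟪‖q.2‖⁻¹ • q.2, prf (fun _ => u) q.1 • u⟫) := by
    have h4 : (fun q : (Fin 3 → En n) × En n => ⟪‖q.2‖⁻¹ • q.2, prf (fun _ => u) q.1 • u⟫) =
        fun q => prf (fun _ => u) q.1 * ⟪‖q.2‖⁻¹ • q.2, u⟫ := by
      funext q; rw [inner_smul_right]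
    rw [h4]
    exact h2.mul (by fun_prop)
  exact (by fun_prop : Measurable fun q : (Fin 3 → En n) × En n => ‖q.2‖).mul (h1.mul h3)

private lemma aps_inner_hat_le {n : ℕ} (z u : En n) (hu : ‖u‖ = 1) : |⟪‖z‖⁻¹ • z, u⟫| ≤ 1 := by
  refine (abs_real_inner_le_norm _ _).trans ?_
  rw [hu, mul_one]
  exact norm_hat_le z

private lemma aps_integrable (n : ℕ) (u : En n) (hu : ‖u‖ = 1) :
    Integrable (fun q : (Fin 3 → En n) × En n =>
      ‖q.2‖ * (dPsi ⟪‖q.2‖⁻¹ • q.2, ∑ l, q.1 l⟫ * ⟪‖q.2‖⁻¹ • q.2, prf (fun _ => u) q.1 • u⟫))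
      ((PG n 3).prod (stdGaussian (En n))) := by
  have h0 : Integrable (fun g : Fin 3 → En n => |prf (fun _ => u) g|) (PG n 3) := by
    have h := memLp_prf (n := n) (s := 3) (fun _ => u) 1
    rw [Nat.cast_one, memLp_one_iff_integrable] at h
    exact h.abs
  have h1 := h0.mul_prod (integrable_norm_add (0 : En n))
  refine h1.mono' (aps_meas n u).aestronglyMeasurable (Filter.Eventually.of_forall fun q => ?_)
  rw [add_zero, norm_mul, norm_norm, Real.norm_eq_abs, abs_mul, inner_smul_right, abs_mul]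
  have h2 := abs_dPsi_le ⟪‖q.2‖⁻¹ • q.2, ∑ l, q.1 l⟫
  have h3 := aps_inner_hat_le q.2 u hu
  have h4 := abs_nonneg (prf (fun _ => u) q.1)
  have h5 := norm_nonneg q.2
  calc ‖q.2‖ * (|dPsi ⟪‖q.2‖⁻¹ • q.2, ∑ l, q.1 l⟫| * (|prf (fun _ => u) q.1| *
        |⟪‖q.2‖⁻¹ • q.2, u⟫|))
      ≤ ‖q.2‖ * (1 * (|prf (fun _ => u) q.1| * 1)) := by gcongr
    _ = |prf (fun _ => u) q.1| * ‖q.2‖ := by ring

/-- The pairing for one unit vector. -/
private lemma aps_pair (n : ℕ) (u w : En n) (hw : ‖w‖ = 1) :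
    ∫ g, dPsi ⟪w, ∑ l, g l⟫ * ⟪w, prf (fun _ => u) g • u⟫ ∂(PG n 3) =
      -(cD 1 * ⟪w, u⟫ ^ (2 * 2)) := by
  have h := integral_dPsi_prf (s := 1) w hw (fun _ => u)
  have h1 : ∀ g : Fin 3 → En n, dPsi ⟪w, ∑ l, g l⟫ * ⟪w, prf (fun _ => u) g • u⟫ =
      (dPsi (∑ l, ⟪w, g l⟫) * prf (fun _ => u) g) * ⟪w, u⟫ := by
    intro g
    rw [inner_smul_right, inner_sum]; ring
  simp_rw [h1]
  rw [integral_mul_const]
  have h2 : ∫ g : Fin 3 → En n, dPsi (∑ l, ⟪w, g l⟫) * prf (fun _ => u) g ∂(PG n 3) =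
      (-1) ^ 1 * cD 1 * ∏ _l : Fin 3, ⟪w, u⟫ := h
  rw [h2, Finset.prod_const, Finset.card_univ, Fintype.card_fin]
  ring

private lemma aps_iso (n : ℕ) (u : En n) (hu : ‖u‖ = 1) :
    ∫ g, isoI (fun w : En n => dPsi ⟪w, ∑ l, g l⟫ * ⟪w, prf (fun _ => u) g • u⟫) ∂(PG n 3) =
      -(cD 1 * isoI (fun w : En n => ⟪w, u⟫ ^ (2 * 2))) := by
  unfold isoI
  rw [integral_const_mul, integral_integral_swap (aps_integrable n u hu)]
  have h1 : ∀ z : En n, ∫ g : Fin 3 → En n, ‖z‖ * (dPsi ⟪‖z‖⁻¹ • z, ∑ l, g l⟫ *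
      ⟪‖z‖⁻¹ • z, prf (fun _ => u) g • u⟫) ∂(PG n 3) =
      -cD 1 * (‖z‖ * ⟪‖z‖⁻¹ • z, u⟫ ^ (2 * 2)) := by
    intro z
    rcases eq_or_ne z 0 with h | h
    · subst h; simp
    · rw [integral_const_mul, aps_pair n u _ (by
        rw [norm_smul, norm_inv, norm_norm, inv_mul_cancel₀ (norm_ne_zero_iff.2 h)])]
      ring
  simp_rw [h1]
  rw [integral_const_mul]
  ring

private lemma aps_iso_integrable (n : ℕ) (u : En n) (hu : ‖u‖ = 1) :
    Integrable (fun g => isoI (fun w : En n => dPsi ⟪w, ∑ l, g l⟫ *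
      ⟪w, prf (fun _ => u) g • u⟫)) (PG n 3) := by
  unfold isoI
  exact (aps_integrable n u hu).integral_prod_left.const_mul _

private lemma aps_one_integrable (n : ℕ) (u w : En n) :
    Integrable (fun g : Fin 3 → En n => dPsi ⟪w, ∑ l, g l⟫ *
      ⟪w, prf (fun _ => u) g • u⟫) (PG n 3) := by
  have h0 : Integrable (fun g : Fin 3 → En n => prf (fun _ => u) g) (PG n 3) := by
    have h := memLp_prf (n := n) (s := 3) (fun _ => u) 1
    rwa [Nat.cast_one, memLp_one_iff_integrable] at h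
  have h1 : Integrable (fun g : Fin 3 → En n => |prf (fun _ => u) g| * |⟪w, u⟫|) (PG n 3) :=
    h0.abs.mul_const _
  refine h1.mono' ?_ (Filter.Eventually.of_forall fun g => ?_)
  · have h2 : Measurable (fun g : Fin 3 → En n => dPsi ⟪w, ∑ l, g l⟫) :=
      measurable_dPsi.comp (by fun_prop)
    have h3 : (fun g : Fin 3 → En n => dPsi ⟪w, ∑ l, g l⟫ * ⟪w, prf (fun _ => u) g • u⟫) =
        fun g => dPsi ⟪w, ∑ l, g l⟫ * (prf (fun _ => u) g * ⟪w, u⟫) := by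
      funext g; rw [inner_smul_right]
    rw [h3]
    exact (h2.mul ((measurable_prf _).mul_const _)).aestronglyMeasurable
  · rw [norm_mul, Real.norm_eq_abs, Real.norm_eq_abs, inner_smul_right, abs_mul]
    have h2 := abs_dPsi_le ⟪w, ∑ l, g l⟫
    have h4 : 0 ≤ |prf (fun _ => u) g| * |⟪w, u⟫| := by positivity
    nlinarith

private lemma aps_DD_integral (n N : ℕ) (x : Fin N → En n) (u : En n) (hu : ‖u‖ = 1) :
    Integrable (fun g => DD x (fun w : En n => dPsi ⟪w, ∑ l, g l⟫ *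
      ⟪w, prf (fun _ => u) g • u⟫)) (PG n 3) ∧
    ∫ g, DD x (fun w : En n => dPsi ⟪w, ∑ l, g l⟫ * ⟪w, prf (fun _ => u) g • u⟫) ∂(PG n 3) =
      -(cD 1 * (SS x 2 u - isoI (fun w : En n => ⟪w, u⟫ ^ (2 * 2)))) := by
  unfold DD
  have h1 : ∀ j, Integrable (fun g : Fin 3 → En n => wt x j * (dPsi ⟪dir x j, ∑ l, g l⟫ *
      ⟪dir x j, prf (fun _ => u) g • u⟫)) (PG n 3) := fun j =>
    (aps_one_integrable n u (dir x j)).const_mul _
  have h2 : Integrable (fun g : Fin 3 → En n => ∑ j, wt x j * (dPsi ⟪dir x j, ∑ l, g l⟫ *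
      ⟪dir x j, prf (fun _ => u) g • u⟫)) (PG n 3) := integrable_finsetSum _ fun j _ => h1 j
  refine ⟨h2.sub (aps_iso_integrable n u hu), ?_⟩
  rw [integral_sub h2 (aps_iso_integrable n u hu), aps_iso n u hu,
    integral_finsetSum _ fun j _ => h1 j]
  have h3 : ∀ j, ∫ g : Fin 3 → En n, wt x j * (dPsi ⟪dir x j, ∑ l, g l⟫ *
      ⟪dir x j, prf (fun _ => u) g • u⟫) ∂(PG n 3) =
      -cD 1 * (wt x j * ⟪dir x j, u⟫ ^ (2 * 2)) := by
    intro j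
    rw [integral_const_mul]
    rcases wt_or x j with h | h
    · rw [h]; ring
    · rw [aps_pair n u _ h]; ring
  simp_rw [h3]
  rw [← Finset.mul_sum]
  unfold SS
  ring

private lemma aps_bound_integral (n : ℕ) (hn : 1 ≤ n) (u : En n) (hu : ‖u‖ = 1) :
    Integrable (fun g : Fin 3 → En n => (prf (fun _ => u) g ^ 2 + 1) / 2 +
      ∑ k, (prf (fun _ => u) g ^ 2 + ‖g k‖ ^ 2 / n) / 2) (PG n 3) ∧
    ∫ g : Fin 3 → En n, ((prf (fun _ => u) g ^ 2 + 1) / 2 +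
      ∑ k, (prf (fun _ => u) g ^ 2 + ‖g k‖ ^ 2 / n) / 2) ∂(PG n 3) = 4 := by
  have hnR : (n : ℝ) ≠ 0 := by
    have : (0 : ℝ) < n := by exact_mod_cast hn
    exact this.ne'
  have h1 : Integrable (fun g : Fin 3 → En n => prf (fun _ => u) g ^ 2) (PG n 3) := by
    have h := memLp_prf (n := n) (s := 3) (fun _ => u) 2
    exact MemLp.integrable_sq (by exact_mod_cast h)
  have h2 : ∫ g : Fin 3 → En n, prf (fun _ => u) g ^ 2 ∂(PG n 3) = 1 := by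
    have h := integral_prf_mul_prf (n := n) (s := 3) (fun _ => u) (fun _ => u)
    have h3 : (⟪u, u⟫ : ℝ) = 1 := by rw [real_inner_self_eq_norm_sq, hu]; norm_num
    rw [h3, Finset.prod_const_one] at h
    rw [← h]
    exact integral_congr_ae (Filter.Eventually.of_forall fun g => by simp only; ring)
  have h3 : ∀ k, Integrable (fun g : Fin 3 → En n => (prf (fun _ => u) g ^ 2 +
      ‖g k‖ ^ 2 / n) / 2) (PG n 3) := fun k =>
    (h1.add ((aps_coord n 3 k).1.div_const _)).div_const _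
  have h4 : ∀ k, ∫ g : Fin 3 → En n, (prf (fun _ => u) g ^ 2 + ‖g k‖ ^ 2 / n) / 2 ∂(PG n 3) = 1 := by
    intro k
    rw [integral_div, integral_add h1 ((aps_coord n 3 k).1.div_const _), integral_div, h2,
      (aps_coord n 3 k).2, div_self hnR]
    norm_num
  have h5 : Integrable (fun g : Fin 3 → En n => (prf (fun _ => u) g ^ 2 + 1) / 2) (PG n 3) :=
    (h1.add (integrable_const _)).div_const _
  have h6 : Integrable (fun g : Fin 3 → En n => ∑ k, (prf (fun _ => u) g ^ 2 +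
      ‖g k‖ ^ 2 / n) / 2) (PG n 3) := integrable_finsetSum _ fun k _ => h3 k
  refine ⟨h5.add h6, ?_⟩
  rw [integral_add h5 h6, integral_finsetSum _ fun k _ => h3 k, integral_div,
    integral_add h1 (integrable_const _), h2]
  simp_rw [h4]
  simp
  norm_num

theorem ap_sup : ∃ C : ℝ, 1 ≤ C ∧ ∀ (n N : ℕ) (x : Fin N → En n) (ε : ℝ)
    (p : ℕ), 1 ≤ n → 0 < ε → ε ≤ 1 / 2 → 1 ≤ p → Real.exp (-(p : ℝ)) ≤ ε →
    (∀ y, (1 - ε) * ‖y‖ ≤ ∑ j, |⟪y, x j⟫|) → (∀ y, ∑ j, |⟪y, x j⟫| ≤ (1 + ε) * ‖y‖) →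
    ∀ u : En n, ‖u‖ = 1 →
      SS x 2 u ≤ C * (Real.sqrt n / (n : ℝ) ^ 2 + ε * (p * Real.sqrt p)) := by
  obtain ⟨Cg, hCg, hg⟩ := grad_bound
  obtain ⟨Ci, hCi, hi⟩ := iso_moment 2 (by norm_num)
  have hc := cD_pos 1
  refine ⟨Ci + 4 * Cg / cD 1, by have : 0 < 4 * Cg / cD 1 := (by positivity)
                                 linarith, ?_⟩
  intro n N x ε p hn hε hε2 hp hep hlow hup u hu
  have hnR : (0 : ℝ) < n := by exact_mod_cast hn
  have hS : 0 < Real.sqrt n := Real.sqrt_pos.2 hnR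
  set Γ : ℝ := Cg * (ε * ((p : ℝ) * Real.sqrt p)) with hΓ
  have hΓ0 : 0 ≤ Γ := by positivity
  obtain ⟨hDi, hDe⟩ := aps_DD_integral n N x u hu
  obtain ⟨hBi, hBe⟩ := aps_bound_integral n hn u hu
  have key : |∫ g, DD x (fun w : En n => dPsi ⟪w, ∑ l, g l⟫ *
      ⟪w, prf (fun _ => u) g • u⟫) ∂(PG n 3)| ≤ Γ * 4 := by
    rw [← hBe, ← integral_const_mul, ← Real.norm_eq_abs]
    refine norm_integral_le_of_norm_le (hBi.const_mul _)
      (Filter.Eventually.of_forall fun g => ?_)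
    rw [Real.norm_eq_abs]
    refine (hg n N x ε (by omega) hε (by linarith) hlow hup p hp hep _ _).trans ?_
    rw [← hΓ, norm_smul, hu, mul_one, Real.norm_eq_abs, mul_assoc]
    refine mul_le_mul_of_nonneg_left ?_ hΓ0
    set P : ℝ := |prf (fun _ => u) g| with hP
    have hP0 : 0 ≤ P := abs_nonneg _
    have hP2 : prf (fun _ => u) g ^ 2 = P ^ 2 := by rw [hP, sq_abs]
    rw [hP2]
    have e1 : ‖∑ l, g l‖ ≤ ∑ l, ‖g l‖ := norm_sum_le _ _
    have e2 : ∀ k, P * (‖g k‖ / Real.sqrt n) ≤ (P ^ 2 + ‖g k‖ ^ 2 / n) / 2 := by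
      intro k
      have e3 : ‖g k‖ ^ 2 / n = (‖g k‖ / Real.sqrt n) ^ 2 := by
        rw [div_pow, Real.sq_sqrt hnR.le]
      rw [e3]
      nlinarith [sq_nonneg (P - ‖g k‖ / Real.sqrt n)]
    calc P * (1 + ‖∑ l, g l‖ / Real.sqrt n)
        ≤ P * (1 + (∑ l, ‖g l‖) / Real.sqrt n) := by gcongr
      _ = P + ∑ l, P * (‖g l‖ / Real.sqrt n) := by
          rw [mul_add, mul_one, Finset.sum_div, Finset.mul_sum]
      _ ≤ (P ^ 2 + 1) / 2 + ∑ l, (P ^ 2 + ‖g l‖ ^ 2 / n) / 2 := by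
          refine add_le_add ?_ (Finset.sum_le_sum fun k _ => e2 k)
          nlinarith [sq_nonneg (P - 1)]
  rw [hDe, abs_neg, abs_mul, abs_of_pos hc] at key
  have k1 : SS x 2 u - isoI (fun w : En n => ⟪w, u⟫ ^ (2 * 2)) ≤ Γ * 4 / cD 1 := by
    rw [le_div_iff₀ hc]
    have := le_abs_self (SS x 2 u - isoI (fun w : En n => ⟪w, u⟫ ^ (2 * 2)))
    nlinarith
  have k2 := hi n u hn hu.le
  have k3 : Γ * 4 / cD 1 = 4 * Cg / cD 1 * (ε * (p * Real.sqrt p)) := by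
    rw [hΓ]; ring
  have k4 : Ci * Real.sqrt n / (n : ℝ) ^ 2 = Ci * (Real.sqrt n / (n : ℝ) ^ 2) := by ring
  have k5 : 0 ≤ Real.sqrt n / (n : ℝ) ^ 2 := by positivity
  have k6 : 0 ≤ ε * (p * Real.sqrt p) := by positivity
  have k7 : 0 ≤ 4 * Cg / cD 1 := by positivity
  have k8 : 0 ≤ Ci := by linarith
  rw [k3] at k1
  rw [k4] at k2
  nlinarith [mul_nonneg k7 k5, mul_nonneg k8 k6]

end Pool.Agent.Helper47.LB
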