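import Pool.Agent.Helper47.LB.GMom

/-!
# Reflections

`flipz u e z i = z i` if `e i`, and `2⟨z i,u⟩u - z i` otherwise (reflection in the line of `u`): keeps
`⟨z i,u⟩`, changes the sign of the part orthogonal to `u`. It is a linear isometry for `‖u‖ = 1`, so
`(a,z) ↦ (a, flipz u e z)` preserves `PP n m` (`stdGaussian_map`, `measurePreserving_pi`), and the
average over `e` gives `flip_inv`.
`expand`: with `t_q = ⟨u_q,u⟩`, `⟨u_q, flipz u e z i⟩ = t_q ⟨u,z_i⟩ + sg (e i) ⟨u_q - t_q u, z_i⟩`,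
expand the product over `i` (`Finset.prod_add`): `C` = set of `i` where the first term is taken.
-/

open MeasureTheory ProbabilityTheory Matrix
open scoped RealInnerProductSpace ENNReal
open Pool.Agent.Helper24.Zono

namespace Pool.Agent.Helper47.LB

variable {n N m : ℕ}

/-- Flip of the components orthogonal to `u`. -/
noncomputable def flipz (u : En n) (e : Fin m → Bool) (z : Fin m → En n) : Fin m → En n :=
  fun i => if e i then z i else (2 * ⟪z i, u⟫) • u - z i

theorem inner_bb_flip (u : En n) (hu : ‖u‖ = 1) (e : Fin m → Bool)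
    (ω : (Fin (m + 1) → En n) × (Fin m → En n)) :
    ⟪u, bb (ω.1, flipz u e ω.2)⟫ = ⟪u, bb ω⟫ := by
  unfold bb
  rw [inner_add_right, inner_add_right, inner_sum, inner_sum]
  congr 1
  rw [inner_sum]
  refine Finset.sum_congr rfl fun i _ => ?_
  change ⟪u, (if e i then ω.2 i else (2 * ⟪ω.2 i, u⟫) • u - ω.2 i)⟫ = ⟪u, ω.2 i⟫
  split_ifs
  · rfl
  · rw [inner_sub_right, inner_smul_right, real_inner_self_eq_norm_sq, hu,
      real_inner_comm u (ω.2 i)]
    ring

private lemma prf_flip (u : En n) (d : En n) (e : Fin m → Bool) (z : Fin m → En n) :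
    prf (fun _ => d) (flipz u e z) = ∑ C : Finset (Fin m), (∏ i ∈ Cᶜ, sg (e i)) *
      (⟪d, u⟫ ^ C.card * prf (fun i => if i ∈ C then u else d - ⟪d, u⟫ • u) z) := by
  unfold prf
  have h1 : ∀ i, ⟪d, flipz u e z i⟫ = ⟪d, u⟫ * ⟪u, z i⟫ + sg (e i) * ⟪d - ⟪d, u⟫ • u, z i⟫ := by
    intro i
    unfold flipz
    rw [inner_sub_left, real_inner_smul_left]
    cases e i
    · rw [sg_false, if_neg (by simp), inner_sub_right, inner_smul_right, real_inner_comm u (z i)]
      ring
    · rw [sg_true, if_pos rfl]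
      ring
  simp_rw [h1]
  rw [Finset.prod_add, Finset.powerset_univ]
  refine Finset.sum_congr rfl fun C _ => ?_
  rw [Finset.prod_mul_distrib, Finset.prod_const, ← Finset.compl_eq_univ_sdiff,
    Finset.prod_mul_distrib,
    ← Finset.prod_mul_prod_compl C (fun i => ⟪if i ∈ C then u else d - ⟪d, u⟫ • u, z i⟫)]
  have h2 : ∏ i ∈ C, ⟪if i ∈ C then u else d - ⟪d, u⟫ • u, z i⟫ = ∏ i ∈ C, ⟪u, z i⟫ :=
    Finset.prod_congr rfl fun i hi => by rw [if_pos hi]
  have h3 : ∏ i ∈ Cᶜ, ⟪if i ∈ C then u else d - ⟪d, u⟫ • u, z i⟫ =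
      ∏ i ∈ Cᶜ, ⟪d - ⟪d, u⟫ • u, z i⟫ :=
    Finset.prod_congr rfl fun i hi => by rw [if_neg (Finset.mem_compl.1 hi)]
  rw [h2, h3]
  ring

theorem expand (x : Fin N → En n) (K : Matrix (Fin N) (Fin N) ℝ) (u : En n) (hu : ‖u‖ = 1)
    (e : Fin m → Bool) (ω : (Fin (m + 1) → En n) × (Fin m → En n)) :
    ⟪u, ww x K (ω.1, flipz u e ω.2)⟫ =
      ∑ C : Finset (Fin m), (∏ i ∈ Cᶜ, sg (e i)) * phiC x K u C ω := by
  unfold ww phiC
  simp only [Finset.mul_sum]
  rw [inner_sum, Finset.sum_comm]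
  refine Finset.sum_congr rfl fun q _ => ?_
  rw [inner_smul_right, real_inner_comm (dir x q) u, prf_flip, Finset.mul_sum, Finset.sum_mul]
  refine Finset.sum_congr rfl fun C _ => ?_
  rw [pow_succ]
  ring

private lemma mp_flip (u : En n) (hu : ‖u‖ = 1) (e : Fin m → Bool) :
    MeasurePreserving (fun ω : (Fin (m + 1) → En n) × (Fin m → En n) => (ω.1, flipz u e ω.2))
      (PP n m) (PP n m) := by
  have h1 : ∀ i : Fin m, MeasurePreserving
      (fun z : En n => if e i then z else (2 * ⟪z, u⟫) • u - z)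
      (stdGaussian (En n)) (stdGaussian (En n)) := by
    intro i
    cases e i
    · have h2 : (fun z : En n => if false = true then z else (2 * ⟪z, u⟫) • u - z) =
          ⇑((ℝ ∙ u).reflection) := by
        funext z
        rw [if_neg (by simp), Submodule.reflection_singleton_apply, hu,
          real_inner_comm u z]
        simp only [RCLike.ofReal_real_eq_id, id_eq, one_pow, div_one]
        rw [two_smul, mul_smul, two_smul]
      rw [h2]
      refine ⟨(ℝ ∙ u).reflection.continuous.measurable, ?_⟩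
      exact stdGaussian_map _
    · simp only [if_true]
      exact MeasurePreserving.id _
  have h3 : MeasurePreserving (fun z : Fin m → En n => flipz u e z) (PG n m) (PG n m) :=
    measurePreserving_pi (fun _ => stdGaussian (En n)) (fun _ => stdGaussian (En n)) h1
  exact (MeasurePreserving.id (PG n (m + 1))).prod h3

theorem flip_inv (u : En n) (hu : ‖u‖ = 1)
    (F : (Fin (m + 1) → En n) × (Fin m → En n) → ℝ) (hF : Integrable F (PP n m)) :
    ∫ ω, F ω ∂(PP n m) =
      ∫ ω, (2 ^ m : ℝ)⁻¹ * ∑ e : Fin m → Bool, F (ω.1, flipz u e ω.2) ∂(PP n m) ∧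
    Integrable (fun ω => (2 ^ m : ℝ)⁻¹ * ∑ e : Fin m → Bool, F (ω.1, flipz u e ω.2)) (PP n m) := by
  have h1 : ∀ e : Fin m → Bool, Integrable (fun ω => F (ω.1, flipz u e ω.2)) (PP n m) := fun e =>
    (mp_flip u hu e).integrable_comp_of_integrable hF
  have h2 : ∀ e : Fin m → Bool, ∫ ω, F (ω.1, flipz u e ω.2) ∂(PP n m) = ∫ ω, F ω ∂(PP n m) := by
    intro e
    have hmp := mp_flip (m := m) u hu e
    have h3 : AEStronglyMeasurable F (Measure.map
        (fun ω : (Fin (m + 1) → En n) × (Fin m → En n) => (ω.1, flipz u e ω.2)) (PP n m)) := by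
      rw [hmp.map_eq]
      exact hF.aestronglyMeasurable
    have h4 := integral_map hmp.measurable.aemeasurable h3
    rw [hmp.map_eq] at h4
    exact h4.symm
  refine ⟨?_, (integrable_finsetSum _ fun e _ => h1 e).const_mul _⟩
  rw [integral_const_mul, integral_finsetSum _ fun e _ => h1 e]
  simp_rw [h2]
  rw [Finset.sum_const, nsmul_eq_mul, Finset.card_univ]
  have h5 : (Fintype.card (Fin m → Bool) : ℝ) = 2 ^ m := by
    rw [Fintype.card_fun, Fintype.card_bool, Fintype.card_fin]
    push_cast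
    rfl
  rw [h5, ← mul_assoc, inv_mul_cancel₀ (by positivity), one_mul]

end Pool.Agent.Helper47.LB
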