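import Pool.Agent.Helper47.LB.Md0

/-!
# The flip lemma

`φ : Finset (Fin m) → ℝ`, `e : Fin m → Bool`, `e_C = ∏_{i∈C} sg (e i)`. For an odd function `G`:
`∑_C e_{Cᶜ} φ_C = e_univ ∑_C e_C φ_C`, so `avg_e G(∑_C e_{Cᶜ} φ_C) = avg_e e_univ G(∑_C e_C φ_C)`.
By `md_sum` with base point `φ_∅` and the index set `S` of all nonempty `C`,
`G(∑_C e_C φ_C) = ∑_{𝒜 ⊆ S} Δ_𝒜(e)`, `Δ_𝒜(e) = md G φ_∅ (C ↦ e_C φ_C) 𝒜`, which depends only on the
`e_i` with `i ∈ ⋃𝒜`; hence `avg_e e_univ Δ_𝒜 = 0` unless `⋃𝒜 = univ`.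
* `𝒜 = {univ}`: `avg = (G(φ_∅+φ_univ) - G(φ_∅-φ_univ))/2 = G1 φ_univ + O(K2 |φ_univ| (|φ_∅|+|φ_univ|))`
  (`h2` with `y = 0`, `G 0 = 0`, and `h1`).
* `univ ∈ 𝒜`, `𝒜 ∋ C ≠ univ`: by `md_sub` with `A' = {univ, C}`:
  `|Δ_𝒜| ≤ 2^{|𝒜|} K2 |φ_univ| |φ_C|`.
* `univ ∉ 𝒜`, `⋃𝒜 = univ` and some `C1 ∈ 𝒜` has `|C1| ≥ c₀`: some `C2 ∈ 𝒜` contains an element
  outside `C1`; `A' = {C1, C2}`.
* `univ ∉ 𝒜`, `⋃𝒜 = univ`, all `|C| < c₀`: `m ≤ ∑|C| ≤ |𝒜| (c₀-1)`, so `|𝒜| ≥ r₀` (as `m ≥ r₀ c₀`,
  `c₀ ≥ 1`; if `c₀ = 1` all sets would be empty, impossible since `m > 0`); `A'` = any `r₀` elements.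
There are at most `2^(2^m)` collections, each with at most `2^m` members.
-/

open Pool.Agent.Helper24.Zono

namespace Pool.Agent.Helper47.LB

/-- The error expression. -/
noncomputable def flipErr {m : ℕ} (c₀ r₀ : ℕ) (K2 Kr : ℝ) (φ : Finset (Fin m) → ℝ) : ℝ :=
  K2 * ∑ C : Finset (Fin m), |φ Finset.univ| * |φ C|
    + K2 * ∑ P ∈ (Finset.univ : Finset (Finset (Fin m) × Finset (Fin m))).filter
        (fun P => c₀ ≤ P.1.card ∧ P.2 ≠ ∅), |φ P.1| * |φ P.2|
    + Kr * ∑ A ∈ (Finset.univ : Finset (Finset (Finset (Fin m)))).filter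
        (fun A => A.card = r₀ ∧ ∀ C ∈ A, C ≠ ∅), ∏ C ∈ A, |φ C|

private noncomputable def ee {m : ℕ} (e : Fin m → Bool) (C : Finset (Fin m)) : ℝ := ∏ i ∈ C, sg (e i)

private lemma sg_sq (b : Bool) : sg b * sg b = 1 := by
  cases b <;> simp [sg]

private lemma abs_sg (b : Bool) : |sg b| = 1 := by
  cases b <;> simp [sg]

private lemma sg_not (b : Bool) : sg (!b) = - sg b := by
  cases b <;> simp [sg]

private lemma ee_sq {m : ℕ} (e : Fin m → Bool) (C : Finset (Fin m)) : ee e C * ee e C = 1 := by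
  unfold ee
  rw [← Finset.prod_mul_distrib]
  exact Finset.prod_eq_one fun i _ => sg_sq _

private lemma abs_ee {m : ℕ} (e : Fin m → Bool) (C : Finset (Fin m)) : |ee e C| = 1 := by
  unfold ee
  rw [Finset.abs_prod]
  exact Finset.prod_eq_one fun i _ => abs_sg _

private lemma ee_cases {m : ℕ} (e : Fin m → Bool) (C : Finset (Fin m)) : ee e C = 1 ∨ ee e C = -1 := by
  have h := abs_ee e C
  rcases abs_cases (ee e C) with h' | h'
  · left; linarith
  · right; linarith

private lemma ee_empty {m : ℕ} (e : Fin m → Bool) : ee e ∅ = 1 := by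
  unfold ee; simp

private lemma ee_compl {m : ℕ} (e : Fin m → Bool) (C : Finset (Fin m)) :
    ∏ i ∈ Cᶜ, sg (e i) = ee e Finset.univ * ee e C := by
  have h : ee e C * ∏ i ∈ Cᶜ, sg (e i) = ee e Finset.univ := Finset.prod_mul_prod_compl C _
  rw [← h]
  calc ∏ i ∈ Cᶜ, sg (e i) = (ee e C * ee e C) * ∏ i ∈ Cᶜ, sg (e i) := by rw [ee_sq, one_mul]
    _ = _ := by ring

/-- flip one coordinate. -/
private def fl {m : ℕ} (i : Fin m) (e : Fin m → Bool) : Fin m → Bool := Function.update e i (!e i)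

private lemma fl_fl {m : ℕ} (i : Fin m) : Function.Involutive (fl i) := by
  intro e
  funext j
  unfold fl
  by_cases h : j = i
  · subst h; simp
  · simp [Function.update_of_ne h]

private lemma ee_fl_notMem {m : ℕ} {i : Fin m} {C : Finset (Fin m)} (h : i ∉ C) (e : Fin m → Bool) :
    ee (fl i e) C = ee e C := by
  unfold ee
  refine Finset.prod_congr rfl fun j hj => ?_
  have : j ≠ i := fun hji => h (hji ▸ hj)
  unfold fl
  rw [Function.update_of_ne this]

private lemma ee_fl_mem {m : ℕ} {i : Fin m} {C : Finset (Fin m)} (h : i ∈ C) (e : Fin m → Bool) :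
    ee (fl i e) C = - ee e C := by
  have h1 : ee (fl i e) C = sg (fl i e i) * ee (fl i e) (C.erase i) :=
    (Finset.mul_prod_erase C (fun j => sg (fl i e j)) h).symm
  have h2 : ee e C = sg (e i) * ee e (C.erase i) :=
    (Finset.mul_prod_erase C (fun j => sg (e j)) h).symm
  rw [h1, h2, ee_fl_notMem (Finset.notMem_erase i C) e]
  have h3 : fl i e i = !e i := by unfold fl; simp
  rw [h3, sg_not]
  ring

private lemma sum_fl {m : ℕ} (i : Fin m) (f : (Fin m → Bool) → ℝ) : ∑ e, f (fl i e) = ∑ e, f e :=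
  Equiv.sum_comp (fl_fl i).toPerm f

private lemma md_single {ι : Type*} [DecidableEq ι] (g : ℝ → ℝ) (y : ℝ) (s : ι → ℝ) (p : ι) :
    md g y s {p} = g (y + s p) - g y := by
  unfold md
  rw [← insert_empty_eq p, Finset.sum_powerset_insert (Finset.notMem_empty p)]
  simp
  ring_nf

private lemma md_pair {ι : Type*} [DecidableEq ι] (g : ℝ → ℝ) (y : ℝ) (s : ι → ℝ) {p q : ι} (h : p ≠ q) :
    md g y s {p, q} = g (y + (s p + s q)) - g (y + s p) - g (y + s q) + g y := by
  unfold md
  have hp : p ∉ ({q} : Finset ι) := by rw [Finset.mem_singleton]; exact h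
  have hc : ({p, q} : Finset ι).card = 2 := Finset.card_pair h
  rw [hc, Finset.sum_powerset_insert hp, ← insert_empty_eq q,
    Finset.sum_powerset_insert (Finset.notMem_empty q), Finset.sum_powerset_insert (Finset.notMem_empty q)]
  simp only [Finset.powerset_empty, Finset.sum_singleton, Finset.card_empty, Finset.sum_empty,
    insert_empty_eq, Finset.card_singleton]
  have hc2 : (insert p ({q} : Finset ι)).card = 2 := hc
  rw [hc2, Finset.sum_insert hp, Finset.sum_singleton]
  norm_num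
  ring_nf

private lemma abs_prod_ee {m : ℕ} (e : Fin m → Bool) (φ : Finset (Fin m) → ℝ)
    (A : Finset (Finset (Fin m))) : ∏ C ∈ A, |ee e C * φ C| = ∏ C ∈ A, |φ C| := by
  refine Finset.prod_congr rfl fun C _ => ?_
  rw [abs_mul, abs_ee, one_mul]

/-- the average over the signs of one mixed difference. -/
private noncomputable def Av {m : ℕ} (G : ℝ → ℝ) (φ : Finset (Fin m) → ℝ)
    (A : Finset (Finset (Fin m))) : ℝ :=
  (2 ^ m : ℝ)⁻¹ * ∑ e : Fin m → Bool, ee e Finset.univ *
    md G (φ ∅) (fun C => ee e C * φ C) A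

private lemma expand {m : ℕ} (G : ℝ → ℝ) (hodd : ∀ t, G (-t) = -G t) (φ : Finset (Fin m) → ℝ) :
    (2 ^ m : ℝ)⁻¹ * ∑ e : Fin m → Bool, G (∑ C : Finset (Fin m), (∏ i ∈ Cᶜ, sg (e i)) * φ C)
      = ∑ A ∈ ((Finset.univ : Finset (Finset (Fin m))).erase ∅).powerset, Av G φ A := by
  unfold Av
  rw [← Finset.mul_sum, Finset.sum_comm]
  congr 1
  refine Finset.sum_congr rfl fun e _ => ?_
  rw [← Finset.mul_sum, ← md_sum G (φ ∅) (fun C => ee e C * φ C)]
  have h1 : ∑ C : Finset (Fin m), (∏ i ∈ Cᶜ, sg (e i)) * φ C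
      = ee e Finset.univ * (φ ∅ + ∑ C ∈ (Finset.univ : Finset (Finset (Fin m))).erase ∅, ee e C * φ C) := by
    have h2 : φ ∅ + ∑ C ∈ (Finset.univ : Finset (Finset (Fin m))).erase ∅, ee e C * φ C
        = ∑ C : Finset (Fin m), ee e C * φ C := by
      rw [← Finset.add_sum_erase Finset.univ (fun C => ee e C * φ C) (Finset.mem_univ ∅)]
      rw [ee_empty, one_mul]
    rw [h2, Finset.mul_sum]
    refine Finset.sum_congr rfl fun C _ => ?_
    rw [ee_compl]
    ring
  rw [h1]
  rcases ee_cases e Finset.univ with h | h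
  · rw [h, one_mul, one_mul]
  · rw [h, neg_one_mul, neg_one_mul, hodd]

private lemma Av_zero {m : ℕ} (G : ℝ → ℝ) (φ : Finset (Fin m) → ℝ) (A : Finset (Finset (Fin m)))
    (i : Fin m) (hi : ∀ C ∈ A, i ∉ C) : Av G φ A = 0 := by
  have h : ∑ e : Fin m → Bool, ee e Finset.univ * md G (φ ∅) (fun C => ee e C * φ C) A
      = - ∑ e : Fin m → Bool, ee e Finset.univ * md G (φ ∅) (fun C => ee e C * φ C) A := by
    have h1 := sum_fl i (fun e => ee e Finset.univ * md G (φ ∅) (fun C => ee e C * φ C) A)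
    rw [← Finset.sum_neg_distrib]
    rw [← h1]
    refine Finset.sum_congr rfl fun e _ => ?_
    rw [ee_fl_mem (Finset.mem_univ i) e, neg_mul]
    congr 2
    unfold md
    refine Finset.sum_congr rfl fun B hB => ?_
    rw [Finset.mem_powerset] at hB
    congr 3
    refine Finset.sum_congr rfl fun C hC => ?_
    show ee (fl i e) C * φ C = ee e C * φ C
    rw [ee_fl_notMem (hi C (hB hC)) e]
  unfold Av
  have h0 : ∑ e : Fin m → Bool, ee e Finset.univ * md G (φ ∅) (fun C => ee e C * φ C) A = 0 := by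
    linarith
  rw [h0, mul_zero]

private lemma Av_le {m : ℕ} (G : ℝ → ℝ) (φ : Finset (Fin m) → ℝ) (A : Finset (Finset (Fin m))) (c : ℝ)
    (hc : ∀ e : Fin m → Bool, |md G (φ ∅) (fun C => ee e C * φ C) A| ≤ c) : |Av G φ A| ≤ c := by
  unfold Av
  rw [abs_mul, abs_of_pos (by positivity : (0 : ℝ) < (2 ^ m : ℝ)⁻¹)]
  have h1 : |∑ e : Fin m → Bool, ee e Finset.univ * md G (φ ∅) (fun C => ee e C * φ C) A|
      ≤ ∑ e : Fin m → Bool, c := by
    refine (Finset.abs_sum_le_sum_abs _ _).trans (Finset.sum_le_sum fun e _ => ?_)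
    rw [abs_mul, abs_ee, one_mul]
    exact hc e
  rw [Finset.sum_const, Finset.card_univ] at h1
  have h2 : Fintype.card (Fin m → Bool) = 2 ^ m := by simp
  rw [h2, nsmul_eq_mul] at h1
  push_cast at h1
  calc (2 ^ m : ℝ)⁻¹ * _ ≤ (2 ^ m : ℝ)⁻¹ * (2 ^ m * c) := mul_le_mul_of_nonneg_left h1 (by positivity)
    _ = c := by rw [← mul_assoc, inv_mul_cancel₀ (by positivity), one_mul]

private lemma Av_univ {m : ℕ} (hm : 0 < m) (G : ℝ → ℝ) (φ : Finset (Fin m) → ℝ) :
    Av G φ {Finset.univ} = (G (φ ∅ + φ Finset.univ) - G (φ ∅ - φ Finset.univ)) / 2 := by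
  set a := φ ∅ with ha
  set b := φ Finset.univ with hb
  set T := ∑ e : Fin m → Bool, ee e Finset.univ * md G a (fun C => ee e C * φ C) {Finset.univ} with hT
  have hterm : ∀ e : Fin m → Bool, ee e Finset.univ * md G a (fun C => ee e C * φ C) {Finset.univ}
      + ee (fl ⟨0, hm⟩ e) Finset.univ * md G a (fun C => ee (fl ⟨0, hm⟩ e) C * φ C) {Finset.univ}
      = G (a + b) - G (a - b) := by
    intro e
    rw [md_single, md_single, ee_fl_mem (Finset.mem_univ _) e]
    rcases ee_cases e Finset.univ with h | h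
    · rw [h, ← hb]
      have e1 : a + -1 * b = a - b := by ring
      rw [e1, one_mul]
      ring_nf
    · rw [h, ← hb]
      have e1 : a + -1 * b = a - b := by ring
      rw [e1, neg_neg, one_mul]
      ring_nf
  have h2T : T + T = 2 ^ m * (G (a + b) - G (a - b)) := by
    have h1 := sum_fl ⟨0, hm⟩ (fun e => ee e Finset.univ * md G a (fun C => ee e C * φ C) {Finset.univ})
    have h2 : T + T = ∑ e : Fin m → Bool, (ee e Finset.univ * md G a (fun C => ee e C * φ C) {Finset.univ}
      + ee (fl ⟨0, hm⟩ e) Finset.univ * md G a (fun C => ee (fl ⟨0, hm⟩ e) C * φ C) {Finset.univ}) := by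
      rw [Finset.sum_add_distrib, h1]
    rw [h2, Finset.sum_congr rfl fun e _ => hterm e, Finset.sum_const, Finset.card_univ]
    have h3 : Fintype.card (Fin m → Bool) = 2 ^ m := by simp
    rw [h3, nsmul_eq_mul]
    push_cast
    ring
  unfold Av
  rw [← hT]
  have hp : (2 ^ m : ℝ) ≠ 0 := by positivity
  have hT2 : T = 2 ^ m * ((G (a + b) - G (a - b)) / 2) := by linarith
  rw [hT2, ← mul_assoc, inv_mul_cancel₀ hp, one_mul]

theorem flip_lemma {m c₀ r₀ : ℕ} (hc : 1 ≤ c₀) (hr : 2 ≤ r₀) (hm : r₀ * c₀ ≤ m)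
    (G : ℝ → ℝ) (hodd : ∀ t, G (-t) = -G t) (G1 K2 Kr : ℝ) (hK2 : 0 ≤ K2) (hKr : 0 ≤ Kr)
    (h1 : ∀ t, |G t - G1 * t| ≤ K2 * t ^ 2)
    (h2 : ∀ (y : ℝ) (s : Finset (Fin m) → ℝ) (A : Finset (Finset (Fin m))), A.card = 2 →
      |md G y s A| ≤ K2 * ∏ C ∈ A, |s C|)
    (h3 : ∀ (y : ℝ) (s : Finset (Fin m) → ℝ) (A : Finset (Finset (Fin m))), A.card = r₀ →
      |md G y s A| ≤ Kr * ∏ C ∈ A, |s C|)
    (φ : Finset (Fin m) → ℝ) :
    |(2 ^ m : ℝ)⁻¹ * ∑ e : Fin m → Bool, G (∑ C : Finset (Fin m),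
        (∏ i ∈ Cᶜ, sg (e i)) * φ C) - G1 * φ Finset.univ|
      ≤ 2 ^ (2 ^ (m + 1)) * flipErr c₀ r₀ K2 Kr φ := by
  classical
  have hm2 : 2 ≤ m := le_trans (by nlinarith) hm
  have hm0 : 0 < m := by omega
  have hne : (∅ : Finset (Fin m)) ≠ Finset.univ := by
    intro h
    have : (⟨0, hm0⟩ : Fin m) ∈ (∅ : Finset (Fin m)) := by rw [h]; exact Finset.mem_univ _
    exact absurd this (Finset.notMem_empty _)
  -- the three parts of the error
  set e1 := K2 * ∑ C : Finset (Fin m), |φ Finset.univ| * |φ C| with he1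
  set e2 := K2 * ∑ P ∈ (Finset.univ : Finset (Finset (Fin m) × Finset (Fin m))).filter
        (fun P => c₀ ≤ P.1.card ∧ P.2 ≠ ∅), |φ P.1| * |φ P.2| with he2
  set e3 := Kr * ∑ A ∈ (Finset.univ : Finset (Finset (Finset (Fin m)))).filter
        (fun A => A.card = r₀ ∧ ∀ C ∈ A, C ≠ ∅), ∏ C ∈ A, |φ C| with he3
  have hE : flipErr c₀ r₀ K2 Kr φ = e1 + e2 + e3 := rfl
  have p1 : 0 ≤ e1 := mul_nonneg hK2 (Finset.sum_nonneg fun _ _ => by positivity)
  have p2 : 0 ≤ e2 := mul_nonneg hK2 (Finset.sum_nonneg fun _ _ => by positivity)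
  have p3 : 0 ≤ e3 := mul_nonneg hKr (Finset.sum_nonneg fun _ _ => Finset.prod_nonneg fun _ _ => abs_nonneg _)
  set F := flipErr c₀ r₀ K2 Kr φ with hF
  have pF : 0 ≤ F := by rw [hE]; positivity
  have hone : (1 : ℝ) ≤ 2 ^ (2 ^ m) := one_le_pow₀ (by norm_num)
  -- bound with a pair
  have hpair : ∀ (A : Finset (Finset (Fin m))) (C1 C2 : Finset (Fin m)), C1 ∈ A → C2 ∈ A → C1 ≠ C2 →
      |Av G φ A| ≤ 2 ^ A.card * (K2 * (|φ C1| * |φ C2|)) := by
    intro A C1 C2 hC1 hC2 hC
    refine Av_le G φ A _ fun e => ?_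
    refine md_sub G (fun C => ee e C * φ C) A {C1, C2} ?_ _ (fun y => ?_) (φ ∅)
    · intro C hCm
      rw [Finset.mem_insert, Finset.mem_singleton] at hCm
      rcases hCm with rfl | rfl <;> assumption
    · have := h2 y (fun C => ee e C * φ C) {C1, C2} (Finset.card_pair hC)
      rw [abs_prod_ee, Finset.prod_pair hC] at this
      exact this
  have hcardA : ∀ A : Finset (Finset (Fin m)), (2 : ℝ) ^ A.card ≤ 2 ^ (2 ^ m) := by
    intro A
    refine pow_le_pow_right₀ (by norm_num) ?_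
    have := Finset.card_le_univ A
    simpa using this
  -- the term of the full set
  have hU : |Av G φ {Finset.univ} - G1 * φ Finset.univ| ≤ F := by
    rw [Av_univ hm0 G φ]
    set a := φ ∅ with ha
    set b := φ Finset.univ with hb
    have g0 : G 0 = 0 := by
      have := hodd 0
      rw [neg_zero] at this
      linarith
    have k1 := h2 0 (fun C => if C = ∅ then a else b) {∅, Finset.univ} (Finset.card_pair hne)
    have k2 := h2 0 (fun C => if C = ∅ then -a else b) {∅, Finset.univ} (Finset.card_pair hne)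
    rw [md_pair _ _ _ hne, Finset.prod_pair hne] at k1 k2
    simp only [if_true, if_neg hne.symm, zero_add, g0, add_zero, abs_neg] at k1 k2
    have k3 := h1 b
    have e4 : G (-a + b) = - G (a - b) := by
      rw [← hodd]
      congr 1
      ring
    rw [hodd a, e4] at k2
    have k4 : |(G (a + b) - G (a - b)) / 2 - G b| ≤ K2 * (|a| * |b|) := by
      rw [abs_le] at k1 k2 ⊢
      constructor <;> linarith [k1.1, k1.2, k2.1, k2.2]
    have k5 : |(G (a + b) - G (a - b)) / 2 - G1 * b| ≤ K2 * (|a| * |b|) + K2 * b ^ 2 := by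
      have : (G (a + b) - G (a - b)) / 2 - G1 * b
          = ((G (a + b) - G (a - b)) / 2 - G b) + (G b - G1 * b) := by ring
      rw [this]
      exact (abs_add_le _ _).trans (add_le_add k4 k3)
    have k6 : K2 * (|a| * |b|) + K2 * b ^ 2 ≤ e1 := by
      rw [he1, ← mul_add]
      refine mul_le_mul_of_nonneg_left ?_ hK2
      have k7 : ∑ C ∈ ({∅, Finset.univ} : Finset (Finset (Fin m))), |b| * |φ C| ≤
          ∑ C : Finset (Fin m), |b| * |φ C| :=
        Finset.sum_le_sum_of_subset_of_nonneg (Finset.subset_univ _) fun _ _ _ => by positivity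
      rw [Finset.sum_pair hne, ← ha, ← hb] at k7
      have k8 : |b| * |b| = b ^ 2 := by rw [abs_mul_abs_self, pow_two]
      rw [k8] at k7
      linarith
    rw [hE]
    linarith
  -- all other terms
  have hO : ∀ A ∈ ((Finset.univ : Finset (Finset (Fin m))).erase ∅).powerset, A ≠ {Finset.univ} →
      |Av G φ A| ≤ 2 ^ (2 ^ m) * F := by
    intro A hA hAu
    rw [Finset.mem_powerset] at hA
    have hAne : ∀ C ∈ A, C ≠ ∅ := fun C hC => (Finset.mem_erase.1 (hA hC)).1
    by_cases hcov : ∀ i : Fin m, ∃ C ∈ A, i ∈ C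
    · by_cases hu : Finset.univ ∈ A
      · -- the full set and another one
        obtain ⟨C, hC, hCu⟩ : ∃ C ∈ A, C ≠ Finset.univ := by
          by_contra hcon
          push Not at hcon
          apply hAu
          ext C
          rw [Finset.mem_singleton]
          exact ⟨fun h => hcon C h, fun h => h ▸ hu⟩
        have k1 := hpair A Finset.univ C hu hC hCu.symm
        have k2 : K2 * (|φ Finset.univ| * |φ C|) ≤ e1 := by
          rw [he1]
          refine mul_le_mul_of_nonneg_left ?_ hK2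
          exact Finset.single_le_sum (f := fun C => |φ Finset.univ| * |φ C|)
            (fun _ _ => by positivity) (Finset.mem_univ C)
        refine k1.trans (mul_le_mul (hcardA A) ?_ (by positivity) (by positivity))
        rw [hE]
        linarith
      · by_cases hbig : ∃ C ∈ A, c₀ ≤ C.card
        · obtain ⟨C1, hC1, hcard⟩ := hbig
          have hC1u : C1 ≠ Finset.univ := fun h => hu (h ▸ hC1)
          obtain ⟨i, hi⟩ : ∃ i, i ∉ C1 := by
            by_contra hcon
            push Not at hcon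
            exact hC1u (Finset.eq_univ_iff_forall.2 hcon)
          obtain ⟨C2, hC2, hiC2⟩ := hcov i
          have hne12 : C1 ≠ C2 := fun h => hi (h ▸ hiC2)
          have k1 := hpair A C1 C2 hC1 hC2 hne12
          have k2 : K2 * (|φ C1| * |φ C2|) ≤ e2 := by
            rw [he2]
            refine mul_le_mul_of_nonneg_left ?_ hK2
            exact Finset.single_le_sum (f := fun P : Finset (Fin m) × Finset (Fin m) => |φ P.1| * |φ P.2|)
              (fun _ _ => by positivity) (Finset.mem_filter.2 ⟨Finset.mem_univ (C1, C2), hcard, hAne C2 hC2⟩)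
          refine k1.trans (mul_le_mul (hcardA A) ?_ (by positivity) (by positivity))
          rw [hE]
          linarith
        · push Not at hbig
          have hmA : m ≤ A.card * (c₀ - 1) := by
            have q1 : (Finset.univ : Finset (Fin m)) ⊆ A.biUnion id := by
              intro i _
              obtain ⟨C, hC, hi⟩ := hcov i
              exact Finset.mem_biUnion.2 ⟨C, hC, hi⟩
            have q2 := (Finset.card_le_card q1).trans Finset.card_biUnion_le
            rw [Finset.card_univ, Fintype.card_fin] at q2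
            refine q2.trans ?_
            rw [← smul_eq_mul]
            refine Finset.sum_le_card_nsmul A _ _ fun C hC => ?_
            have := hbig C hC
            show C.card ≤ c₀ - 1
            omega
          have hrA : r₀ ≤ A.card := by
            by_contra hcon
            push Not at hcon
            have q3 : A.card * (c₀ - 1) ≤ A.card * c₀ := Nat.mul_le_mul_left _ (Nat.sub_le _ _)
            have q4 : A.card * c₀ < r₀ * c₀ := Nat.mul_lt_mul_of_pos_right hcon (by omega)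
            omega
          obtain ⟨A', hA', hA'c⟩ := Finset.exists_subset_card_eq hrA
          have k1 : |Av G φ A| ≤ 2 ^ A.card * (Kr * ∏ C ∈ A', |φ C|) := by
            refine Av_le G φ A _ fun e => ?_
            refine md_sub G (fun C => ee e C * φ C) A A' hA' _ (fun y => ?_) (φ ∅)
            have := h3 y (fun C => ee e C * φ C) A' hA'c
            rw [abs_prod_ee] at this
            exact this
          have k2 : Kr * ∏ C ∈ A', |φ C| ≤ e3 := by
            rw [he3]
            refine mul_le_mul_of_nonneg_left ?_ hKr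
            exact Finset.single_le_sum (f := fun A : Finset (Finset (Fin m)) => ∏ C ∈ A, |φ C|)
              (fun _ _ => Finset.prod_nonneg fun _ _ => abs_nonneg _)
              (Finset.mem_filter.2 ⟨Finset.mem_univ A', hA'c, fun C hC => hAne C (hA' hC)⟩)
          refine k1.trans (mul_le_mul (hcardA A) ?_ ?_ (by positivity))
          · rw [hE]
            linarith
          · exact mul_nonneg hKr (Finset.prod_nonneg fun _ _ => abs_nonneg _)
    · push Not at hcov
      obtain ⟨i, hi⟩ := hcov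
      rw [Av_zero G φ A i hi, abs_zero]
      positivity
  -- assembly
  rw [expand G hodd φ]
  set S := ((Finset.univ : Finset (Finset (Fin m))).erase ∅).powerset with hS
  have hUS : ({Finset.univ} : Finset (Finset (Fin m))) ∈ S := by
    rw [hS, Finset.mem_powerset]
    intro C hC
    rw [Finset.mem_singleton] at hC
    rw [hC]
    exact Finset.mem_erase.2 ⟨hne.symm, Finset.mem_univ _⟩
  have hsplit : ∑ A ∈ S, Av G φ A - G1 * φ Finset.univ
      = (Av G φ {Finset.univ} - G1 * φ Finset.univ) + ∑ A ∈ S.erase {Finset.univ}, Av G φ A := by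
    rw [← Finset.add_sum_erase S (Av G φ) hUS]
    ring
  rw [hsplit]
  have hsum : |∑ A ∈ S.erase {Finset.univ}, Av G φ A| ≤ ((S.erase {Finset.univ}).card : ℝ) * (2 ^ (2 ^ m) * F) := by
    refine (Finset.abs_sum_le_sum_abs _ _).trans ?_
    rw [← nsmul_eq_mul]
    refine Finset.sum_le_card_nsmul _ _ _ fun A hA => ?_
    rw [Finset.mem_erase] at hA
    exact hO A hA.2 hA.1
  have hcardS : ((S.erase {Finset.univ}).card : ℝ) + 1 ≤ 2 ^ (2 ^ m) := by
    have q1 : (S.erase {Finset.univ}).card + 1 = S.card := Finset.card_erase_add_one hUS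
    have q2 : S.card ≤ 2 ^ (2 ^ m) := by
      rw [hS, Finset.card_powerset]
      refine Nat.pow_le_pow_right (by norm_num) ?_
      have := Finset.card_le_univ ((Finset.univ : Finset (Finset (Fin m))).erase ∅)
      rwa [Fintype.card_finset, Fintype.card_fin] at this
    have q3 : (((S.erase {Finset.univ}).card + 1 : ℕ) : ℝ) ≤ ((2 ^ (2 ^ m) : ℕ) : ℝ) := by
      rw [q1]
      exact Nat.cast_le.2 q2
    push_cast at q3
    exact q3
  have hbig : F ≤ 2 ^ (2 ^ m) * F := le_mul_of_one_le_left pF hone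
  calc |(Av G φ {Finset.univ} - G1 * φ Finset.univ) + ∑ A ∈ S.erase {Finset.univ}, Av G φ A|
      ≤ |Av G φ {Finset.univ} - G1 * φ Finset.univ| + |∑ A ∈ S.erase {Finset.univ}, Av G φ A| :=
        abs_add_le _ _
    _ ≤ 2 ^ (2 ^ m) * F + ((S.erase {Finset.univ}).card : ℝ) * (2 ^ (2 ^ m) * F) :=
        add_le_add (hU.trans hbig) hsum
    _ = (((S.erase {Finset.univ}).card : ℝ) + 1) * (2 ^ (2 ^ m) * F) := by ring
    _ ≤ 2 ^ (2 ^ m) * (2 ^ (2 ^ m) * F) := mul_le_mul_of_nonneg_right hcardS (by positivity)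
    _ = 2 ^ (2 ^ (m + 1)) * F := by
        rw [← mul_assoc, ← pow_add]
        congr 2
        rw [pow_succ]
        ring

end Pool.Agent.Helper47.LB
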