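import Pool.Agent.Helper47.LB.Hyper1

/-!
# Hypercontractivity, two groups of variables

For fixed `a`, apply `hyper_vec` (one form) in `z`: `E_z F^{2q} ≤ C (E_z F²)^q`, and
`E_z F(a,z)² = ∑_e F(a,e)²` over all tuples `e` of standard basis vectors (a finite family of forms
in `a`; `integral_prf_mul_prf` and Parseval); apply `hyper_vec` in `a`. (Or: transport to
`PG n (s + s')` and use `hyper_vec` once.)
-/

open MeasureTheory ProbabilityTheory Matrix
open scoped RealInnerProductSpace ENNReal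

namespace Pool.Agent.Helper47.LB

/-- The two groups of variables as one. -/
private noncomputable def hyper2E (n s s' : ℕ) :
    ((Fin s → En n) × (Fin s' → En n)) ≃ᵐ (Fin (s + s') → En n) :=
  (MeasurableEquiv.sumPiEquivProdPi (fun _ : Fin s ⊕ Fin s' => En n)).symm.trans
    (MeasurableEquiv.piCongrLeft (fun _ : Fin (s + s') => En n) finSumFinEquiv)

private theorem hyper2_mp (n s s' : ℕ) :
    MeasurePreserving (hyper2E n s s') ((PG n s).prod (PG n s')) (PG n (s + s')) := by
  have h1 := measurePreserving_sumPiEquivProdPi_symm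
    (μ := fun _ : Fin s ⊕ Fin s' => stdGaussian (En n))
  have h2 := measurePreserving_piCongrLeft (fun _ : Fin (s + s') => stdGaussian (En n))
    finSumFinEquiv
  exact h2.comp h1

private theorem hyper2_prf {n s s' : ℕ} (v : Fin s → En n) (v' : Fin s' → En n)
    (ω : (Fin s → En n) × (Fin s' → En n)) :
    prf (Fin.append v v') (hyper2E n s s' ω) = prf v ω.1 * prf v' ω.2 := by
  have h1 : ∀ i : Fin s, hyper2E n s s' ω (Fin.castAdd s' i) = ω.1 i := by
    intro i
    have := Equiv.piCongrLeft_apply_apply (fun _ : Fin (s + s') => En n) finSumFinEquiv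
      ((MeasurableEquiv.sumPiEquivProdPi (fun _ : Fin s ⊕ Fin s' => En n)).symm ω) (Sum.inl i)
    exact this
  have h2 : ∀ i : Fin s', hyper2E n s s' ω (Fin.natAdd s i) = ω.2 i := by
    intro i
    have := Equiv.piCongrLeft_apply_apply (fun _ : Fin (s + s') => En n) finSumFinEquiv
      ((MeasurableEquiv.sumPiEquivProdPi (fun _ : Fin s ⊕ Fin s' => En n)).symm ω) (Sum.inr i)
    exact this
  unfold prf
  rw [Fin.prod_univ_add]
  simp only [Fin.append_left, Fin.append_right, h1, h2]

theorem hyper2 (s s' q : ℕ) : ∃ C : ℝ, 1 ≤ C ∧ ∀ (n : ℕ) (T : Type) [Fintype T]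
    (c : T → ℝ) (v : T → Fin s → En n) (v' : T → Fin s' → En n),
    ∫ ω, (∑ t, c t * prf (v t) ω.1 * prf (v' t) ω.2) ^ (2 * q) ∂((PG n s).prod (PG n s')) ≤
      C * (∫ ω, (∑ t, c t * prf (v t) ω.1 * prf (v' t) ω.2) ^ 2
        ∂((PG n s).prod (PG n s'))) ^ q := by
  obtain ⟨C, hC, h⟩ := hyper_vec (s + s') q
  refine ⟨C, hC, fun n T _ c v v' => ?_⟩
  have h1 := h n Unit T (fun _ => c) (fun _ t => Fin.append (v t) (v' t))
  simp only [Finset.univ_unique, Finset.sum_singleton, ← pow_mul] at h1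
  have e1 : ∀ ω : (Fin s → En n) × (Fin s' → En n),
      ∑ t, c t * prf (v t) ω.1 * prf (v' t) ω.2 =
        ∑ t, c t * prf (Fin.append (v t) (v' t)) (hyper2E n s s' ω) := by
    intro ω
    refine Finset.sum_congr rfl fun t _ => ?_
    rw [hyper2_prf, mul_assoc]
  simp only [e1]
  have e2 : ∀ k : ℕ, ∫ ω, (∑ t, c t * prf (Fin.append (v t) (v' t)) (hyper2E n s s' ω)) ^ k
      ∂((PG n s).prod (PG n s')) =
      ∫ a, (∑ t, c t * prf (Fin.append (v t) (v' t)) a) ^ k ∂(PG n (s + s')) := fun k =>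
    (hyper2_mp n s s').integral_comp' (fun a => (∑ t, c t * prf (Fin.append (v t) (v' t)) a) ^ k)
  rw [e2, e2]
  exact h1

end Pool.Agent.Helper47.LB
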