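import Pool.Agent.Helper47.LB.GMom

/-!
# Second moment in the variables `a`; integrability

* `sec_a`: for constants `χ`, `E_a (∑_q (∑_p K p q prf(u_p)(a)) χ_q)² = χᵀ K G K χ` (`Kᵀ = K`,
  `integral_prf_mul_prf`: `E prf(u_p) prf(u_p') = ⟨u_p,u_p'⟩^{m+1} = G p p'`).
* `memLp_*`: finite sums of products of a function of `a` and a function of `z`
  (`MemLp.comp_fst`-type lemmas and `memLp_prf`; for independent variables the product of an `L^p`
  function of `a` and an `L^p` function of `z` is `L^p`: `MemLp.mul_prod` or `Integrable.mul_prod`).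
-/

open MeasureTheory ProbabilityTheory Matrix
open scoped RealInnerProductSpace ENNReal
open Pool.Agent.Helper24.Zono

namespace Pool.Agent.Helper47.LB

variable {n N m : ℕ}

theorem sec_a (x : Fin N → En n) (K : Matrix (Fin N) (Fin N) ℝ) (hK : Kᵀ = K) (D : ℕ)
    (χ : Fin N → ℝ) :
    ∫ a, (∑ q, (∑ p, K p q * prf (fun _ => dir x p) a) * χ q) ^ 2 ∂(PG n D) =
      χ ⬝ᵥ ((K * gram x D * K) *ᵥ χ) := by
  have h1 : ∀ a : Fin D → En n, (∑ q, (∑ p, K p q * prf (fun _ => dir x p) a) * χ q) ^ 2 =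
      ∑ p, ∑ p', ((K *ᵥ χ) p * (K *ᵥ χ) p') *
        (prf (fun _ => dir x p) a * prf (fun _ => dir x p') a) := by
    intro a
    have h2 : (∑ q, (∑ p, K p q * prf (fun _ => dir x p) a) * χ q) =
        ∑ p, (K *ᵥ χ) p * prf (fun _ => dir x p) a := by
      simp only [Finset.sum_mul, Matrix.mulVec, dotProduct]
      rw [Finset.sum_comm]
      refine Finset.sum_congr rfl fun p _ => Finset.sum_congr rfl fun q _ => ?_
      ring
    rw [h2, sq, Finset.sum_mul_sum]
    refine Finset.sum_congr rfl fun p _ => Finset.sum_congr rfl fun q _ => ?_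
    ring
  have hint : ∀ p p' : Fin N, Integrable (fun a => prf (fun _ => dir x p) a *
      prf (fun _ => dir x p') a) (PG n D) := by
    intro p p'
    have h2 := memLp_prf (n := n) (s := D) (fun _ => dir x p) 2
    have h3 := memLp_prf (n := n) (s := D) (fun _ => dir x p') 2
    exact MemLp.integrable_mul (p := 2) (q := 2) (by exact_mod_cast h2) (by exact_mod_cast h3)
  rw [integral_congr_ae (Filter.Eventually.of_forall h1), integral_finsetSum _ fun p _ =>
    integrable_finsetSum _ fun p' _ => (hint p p').const_mul _]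
  have h4 : ∀ p : Fin N, ∫ a, ∑ p', ((K *ᵥ χ) p * (K *ᵥ χ) p') *
      (prf (fun _ => dir x p) a * prf (fun _ => dir x p') a) ∂(PG n D) =
        (K *ᵥ χ) p * (gram x D *ᵥ (K *ᵥ χ)) p := by
    intro p
    rw [integral_finsetSum _ fun p' _ => (hint p p').const_mul _]
    have h5 : (gram x D *ᵥ (K *ᵥ χ)) p = ∑ p', gram x D p p' * (K *ᵥ χ) p' := rfl
    rw [h5, Finset.mul_sum]
    refine Finset.sum_congr rfl fun p' _ => ?_
    rw [integral_const_mul, integral_prf_mul_prf]
    have h6 : gram x D p p' = ⟪dir x p, dir x p'⟫ ^ D := rfl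
    rw [h6, Finset.prod_const, Finset.card_univ, Fintype.card_fin]
    ring
  rw [Finset.sum_congr rfl fun p _ => h4 p]
  have h7 : ∑ p, (K *ᵥ χ) p * (gram x D *ᵥ (K *ᵥ χ)) p =
      (K *ᵥ χ) ⬝ᵥ (gram x D *ᵥ (K *ᵥ χ)) := rfl
  rw [h7]
  have h8 : K *ᵥ χ = χ ᵥ* K := by
    rw [← Matrix.mulVec_transpose, hK]
  have h9 : ∀ v : Fin N → ℝ, (K *ᵥ χ) ⬝ᵥ v = χ ⬝ᵥ (K *ᵥ v) := by
    intro v
    rw [h8]
    exact (Matrix.dotProduct_mulVec χ K v).symm
  rw [h9, Matrix.mulVec_mulVec, Matrix.mulVec_mulVec, Matrix.mul_assoc]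

private theorem Sec0_prod {α β : Type*} [MeasurableSpace α] [MeasurableSpace β] {μ : Measure α}
    {ν : Measure β} [IsProbabilityMeasure μ] [IsProbabilityMeasure ν] {f : α → ℝ} {g : β → ℝ}
    (hf : ∀ p : ℕ, MemLp f (p : ℝ≥0∞) μ) (hg : ∀ p : ℕ, MemLp g (p : ℝ≥0∞) ν) (p : ℕ) :
    MemLp (fun ω : α × β => f ω.1 * g ω.2) (p : ℝ≥0∞) (μ.prod ν) := by
  have h1 := (hf (2 * p)).comp_fst ν
  have h2 := (hg (2 * p)).comp_snd μ
  have h3 : ENNReal.HolderTriple ((2 * p : ℕ) : ℝ≥0∞) ((2 * p : ℕ) : ℝ≥0∞) (p : ℝ≥0∞) := by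
    constructor
    push_cast
    rw [ENNReal.mul_inv (Or.inl (by norm_num)) (Or.inl (by norm_num)), ← add_mul,
      ENNReal.inv_two_add_inv_two, one_mul]
  exact MemLp.mul' (hpqr := h3) h2 h1

theorem memLp_phiC (x : Fin N → En n) (K : Matrix (Fin N) (Fin N) ℝ) (u : En n)
    (C : Finset (Fin m)) (p : ℕ) : MemLp (phiC x K u C) (p : ℝ≥0∞) (PP n m) := by
  have h : phiC (m := m) x K u C = fun ω => ∑ q, ((∑ p, K p q * prf (fun _ => dir x p) ω.1) *
      ⟪dir x q, u⟫ ^ (C.card + 1)) *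
        prf (fun i => if i ∈ C then u else dir x q - ⟪dir x q, u⟫ • u) ω.2 := rfl
  rw [h]
  refine memLp_finsetSum _ fun q _ => ?_
  refine Sec0_prod (f := fun a => (∑ p, K p q * prf (fun _ => dir x p) a) *
    ⟪dir x q, u⟫ ^ (C.card + 1)) ?_ (fun p => memLp_prf _ p) p
  intro p'
  refine MemLp.mul_const ?_ _
  exact memLp_finsetSum _ fun r _ => (memLp_prf _ p').const_mul _

theorem memLp_ww (x : Fin N → En n) (K : Matrix (Fin N) (Fin N) ℝ) :
    MemLp (ww (m := m) x K) 2 (PP n m) := by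
  have h : ww (m := m) x K = fun ω => ∑ q, ((∑ p, K p q * prf (fun _ => dir x p) ω.1) *
      prf (fun _ => dir x q) ω.2) • dir x q := rfl
  rw [h]
  refine memLp_finsetSum _ fun q _ => ?_
  have h1 : MemLp (fun ω : (Fin (m + 1) → En n) × (Fin m → En n) =>
      (∑ p, K p q * prf (fun _ => dir x p) ω.1) * prf (fun _ => dir x q) ω.2) 2 (PP n m) := by
    have h2 := Sec0_prod (μ := PG n (m + 1)) (ν := PG n m)
      (f := fun a => (∑ p, K p q * prf (fun _ => dir x p) a))
      (g := prf (fun _ => dir x q))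
      (fun p' => memLp_finsetSum _ fun r _ => (memLp_prf _ p').const_mul _)
      (fun p' => memLp_prf _ p') 2
    exact_mod_cast h2
  exact (ContinuousLinearMap.toSpanSingleton ℝ (dir x q)).comp_memLp' h1

theorem memLp_bb : MemLp (bb (n := n) (m := m)) 2 (PP n m) := by
  have h : bb (n := n) (m := m) = fun ω => ∑ l, ω.1 l + ∑ i, ω.2 i := rfl
  rw [h]
  have h0 : ∀ (s : ℕ) (l : Fin s), MemLp (fun a : Fin s → En n => a l) 2 (PG n s) := by
    intro s l
    have h1 : MemLp (id : En n → En n) 2 (stdGaussian (En n)) :=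
      IsGaussian.memLp_id _ 2 (by norm_num)
    exact h1.comp_measurePreserving (measurePreserving_eval _ l)
  refine MemLp.add ?_ ?_
  · exact memLp_finsetSum _ fun l _ => (h0 (m + 1) l).comp_fst _
  · exact memLp_finsetSum _ fun l _ => (h0 m l).comp_snd _

end Pool.Agent.Helper47.LB
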