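import Pool.Agent.Helper47.LB.Linear0
import Pool.Agent.Helper47.LB.Sec0

/-!
# The linear term

`phiC univ ω = ∑_{p,q} K p q t_q^{m+1} prf(u_p)(a) prf(u)(z)`; transport the product of the two
families of vectors to `PG n (2m+1)` (`Fin.append`, `measurePreserving_piFinAppend`-like or
`measurePreserving_sumPiEquivProdPi` + reindexing) and use `integral_dPsi_prf`; or repeat its proof
on the product space. The value of a term is `(-1)^m cD m K p q t_q^{m+1} t_p^{m+1}`.
-/

open MeasureTheory ProbabilityTheory Matrix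
open scoped RealInnerProductSpace ENNReal
open Pool.Agent.Helper24.Zono

namespace Pool.Agent.Helper47.LB

variable {n N m : ℕ}

private theorem linear_one (m : ℕ) (w u : En n) (hu : ‖u‖ = 1) :
    Integrable (fun ω => dPsi ⟪u, bb ω⟫ * (prf (fun _ : Fin (m + 1) => w) ω.1 *
        prf (fun _ : Fin m => u) ω.2)) (PP n m) ∧
    ∫ ω, dPsi ⟪u, bb ω⟫ * (prf (fun _ : Fin (m + 1) => w) ω.1 *
        prf (fun _ : Fin m => u) ω.2) ∂(PP n m) = (-1) ^ m * cD m * ⟪w, u⟫ ^ (m + 1) := by
  let f : Fin (m + 1) ⊕ Fin m ≃ Fin (2 * m + 1) :=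
    finSumFinEquiv.trans (finCongr (by omega))
  let e : ((Fin (m + 1) → En n) × (Fin m → En n)) ≃ᵐ (Fin (2 * m + 1) → En n) :=
    (MeasurableEquiv.sumPiEquivProdPi (fun _ : Fin (m + 1) ⊕ Fin m => En n)).symm.trans
      (MeasurableEquiv.piCongrLeft (fun _ : Fin (2 * m + 1) => En n) f)
  have hmp : MeasurePreserving e (PP n m) (PG n (2 * m + 1)) := by
    have h1 := measurePreserving_sumPiEquivProdPi_symm
      (fun _ : Fin (m + 1) ⊕ Fin m => stdGaussian (En n))
    have h2 := measurePreserving_piCongrLeft (fun _ : Fin (2 * m + 1) => stdGaussian (En n)) f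
    exact h2.comp h1
  let v : Fin (2 * m + 1) → En n := fun j => Sum.elim (fun _ => w) (fun _ => u) (f.symm j)
  have el : ∀ (ω : (Fin (m + 1) → En n) × (Fin m → En n)) (i : Fin (m + 1)),
      e ω (f (Sum.inl i)) = ω.1 i := by
    intro ω i
    exact MeasurableEquiv.piCongrLeft_apply_apply (β := fun _ : Fin (2 * m + 1) => En n) f
      ((MeasurableEquiv.sumPiEquivProdPi (fun _ : Fin (m + 1) ⊕ Fin m => En n)).symm ω)
      (Sum.inl i)
  have er : ∀ (ω : (Fin (m + 1) → En n) × (Fin m → En n)) (i : Fin m),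
      e ω (f (Sum.inr i)) = ω.2 i := by
    intro ω i
    exact MeasurableEquiv.piCongrLeft_apply_apply (β := fun _ : Fin (2 * m + 1) => En n) f
      ((MeasurableEquiv.sumPiEquivProdPi (fun _ : Fin (m + 1) ⊕ Fin m => En n)).symm ω)
      (Sum.inr i)
  have hsum : ∀ ω : (Fin (m + 1) → En n) × (Fin m → En n),
      ∑ l, ⟪u, e ω l⟫ = ⟪u, bb ω⟫ := by
    intro ω
    rw [← Equiv.sum_comp f, Fintype.sum_sum_type]
    simp only [el, er]
    unfold bb
    rw [inner_add_right, inner_sum, inner_sum]
  have hprf : ∀ ω : (Fin (m + 1) → En n) × (Fin m → En n),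
      prf v (e ω) = prf (fun _ : Fin (m + 1) => w) ω.1 * prf (fun _ : Fin m => u) ω.2 := by
    intro ω
    unfold prf
    rw [← Equiv.prod_comp f, Fintype.prod_sum_type]
    simp only [el, er, v, Equiv.symm_apply_apply, Sum.elim_inl, Sum.elim_inr]
  have hfun : (fun ω => dPsi ⟪u, bb ω⟫ * (prf (fun _ : Fin (m + 1) => w) ω.1 *
        prf (fun _ : Fin m => u) ω.2)) =
      fun ω => (fun g => dPsi (∑ l, ⟪u, g l⟫) * prf v g) (e ω) := by
    funext ω
    simp only
    rw [hsum, hprf]
  have hint : Integrable (fun g => dPsi (∑ l, ⟪u, g l⟫) * prf v g) (PG n (2 * m + 1)) := by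
    have h1 : Integrable (prf v) (PG n (2 * m + 1)) :=
      (memLp_one_iff_integrable).1 (by simpa using memLp_prf v 1)
    refine h1.bdd_mul (c := 1) ?_ ?_
    · apply Measurable.aestronglyMeasurable
      apply measurable_dPsi.comp
      fun_prop
    · exact Filter.Eventually.of_forall (fun g => by
        rw [Real.norm_eq_abs]
        exact abs_dPsi_le _)
  constructor
  · rw [hfun]
    exact (hmp.integrable_comp_emb e.measurableEmbedding).2 hint
  · rw [hfun, hmp.integral_comp' (g := fun g => dPsi (∑ l, ⟪u, g l⟫) * prf v g),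
      integral_dPsi_prf u hu v]
    congr 1
    rw [← Equiv.prod_comp f, Fintype.prod_sum_type]
    simp only [v, Equiv.symm_apply_apply, Sum.elim_inl, Sum.elim_inr, Finset.prod_const,
      Finset.card_univ, Fintype.card_fin, real_inner_self_eq_norm_sq, hu, one_pow, mul_one]
    rw [real_inner_comm]

theorem linear_term (x : Fin N → En n) (K : Matrix (Fin N) (Fin N) ℝ) (u : En n)
    (hu : ‖u‖ = 1) :
    ∫ ω, dPsi ⟪u, bb ω⟫ * phiC x K u (Finset.univ : Finset (Fin m)) ω ∂(PP n m) =
      (-1) ^ m * cD m * pp m x K u := by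
  have hexp : ∀ ω : (Fin (m + 1) → En n) × (Fin m → En n),
      dPsi ⟪u, bb ω⟫ * phiC x K u (Finset.univ : Finset (Fin m)) ω =
      ∑ q, ∑ p, (K p q * ⟪dir x q, u⟫ ^ (m + 1)) * (dPsi ⟪u, bb ω⟫ *
        (prf (fun _ : Fin (m + 1) => dir x p) ω.1 * prf (fun _ : Fin m => u) ω.2)) := by
    intro ω
    unfold phiC
    simp only [Finset.mem_univ, if_true, Finset.card_univ, Fintype.card_fin]
    rw [Finset.mul_sum]
    apply Finset.sum_congr rfl
    intro q _
    rw [Finset.sum_mul, Finset.sum_mul, Finset.mul_sum]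
    apply Finset.sum_congr rfl
    intro p _
    ring
  simp_rw [hexp]
  rw [integral_finset_sum _ (fun q _ => integrable_finset_sum _ (fun p _ =>
    (linear_one m (dir x p) u hu).1.const_mul _))]
  simp_rw [integral_finset_sum Finset.univ (fun p _ =>
    (linear_one m (dir x p) u hu).1.const_mul _), integral_const_mul,
    fun p => (linear_one m (dir x p) u hu).2]
  unfold pp
  simp only [dotProduct, mulVec]
  rw [Finset.sum_comm, Finset.mul_sum]
  apply Finset.sum_congr rfl
  intro p _
  rw [Finset.mul_sum, Finset.mul_sum]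
  apply Finset.sum_congr rfl
  intro q _
  ring

end Pool.Agent.Helper47.LB
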