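import Pool.Agent.Helper47.LB.Md0

/-!
# Mixed differences of `Psi`

* `|md (fun t => cos (θ t)) y s A| ≤ ∏_{i∈A} |θ s i|` — real part of
  `e^{iθy} ∏ (e^{iθ s_i} - 1)` (induction on `A`, or product formula).
* `md_Psi`: `Psi t = cst⁻¹ ∫ (1 - e^{-θ²/2} cos(θ t))/θ² dθ`; for `|A| ≥ 1` the constant `1` cancels,
  so `|md Psi y s A| ≤ cst⁻¹ ∫ e^{-θ²/2} |θ|^{|A|-2} dθ ∏ |s i|` for `|A| ≥ 2`.
* `md_G`: `G t = Psi (β + τ t) - Psi (β - τ t)`: apply `md_Psi` twice, increments `± τ s i`.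
* `G_first`: `hasDerivAt_Psi` (Pair1), derivative of `G` at `t` is `τ (dPsi(β+τt) + dPsi(β-τt))`,
  `|dPsi a - dPsi b| ≤ k |a - b|` (`cst⁻¹ ∫ e^{-θ²/2} dθ`).
-/

open MeasureTheory ProbabilityTheory
open Pool.Agent.Helper24.Zono

namespace Pool.Agent.Helper47.LB

private lemma md_card {ι : Type*} [DecidableEq ι] {A B : Finset ι} (h : B ∈ A.powerset)
    {R : Type*} [CommRing R] : ∏ _i ∈ A \ B, (-1 : R) = (-1) ^ (A.card - B.card) := by
  rw [Finset.prod_const, Finset.card_sdiff_of_subset (Finset.mem_powerset.mp h)]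

private lemma md_cos {ι : Type*} [DecidableEq ι] (θ y : ℝ) (s : ι → ℝ) (A : Finset ι) :
    md (fun t => Real.cos (θ * t)) y s A =
      (Complex.exp (Complex.I * ((θ * y : ℝ) : ℂ)) *
        ∏ i ∈ A, (Complex.exp (Complex.I * ((θ * s i : ℝ) : ℂ)) - 1)).re := by
  have h1 : ∏ i ∈ A, (Complex.exp (Complex.I * ((θ * s i : ℝ) : ℂ)) - 1) =
      ∑ B ∈ A.powerset, (∏ i ∈ B, Complex.exp (Complex.I * ((θ * s i : ℝ) : ℂ))) *
        ∏ _i ∈ A \ B, (-1 : ℂ) := by
    rw [← Finset.prod_add]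
    refine Finset.prod_congr rfl fun i _ => ?_
    ring
  rw [h1, Finset.mul_sum, Complex.re_sum]
  unfold md
  refine Finset.sum_congr rfl fun B hB => ?_
  rw [md_card hB, ← Complex.exp_sum, ← mul_assoc, ← Complex.exp_add]
  have h2 : Complex.I * ((θ * y : ℝ) : ℂ) + ∑ i ∈ B, Complex.I * ((θ * s i : ℝ) : ℂ) =
      ((θ * (y + ∑ i ∈ B, s i) : ℝ) : ℂ) * Complex.I := by
    push_cast
    rw [← Finset.mul_sum, mul_add, add_mul, Finset.mul_sum (f := fun i => ((s i : ℝ) : ℂ))]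
    ring
  have h3 : ((-1 : ℂ)) ^ (A.card - B.card) = (((-1 : ℝ) ^ (A.card - B.card) : ℝ) : ℂ) := by
    push_cast; rfl
  rw [h2, h3, Complex.re_mul_ofReal, Complex.exp_ofReal_mul_I_re]
  ring

private lemma md_cos_le {ι : Type*} [DecidableEq ι] (θ y : ℝ) (s : ι → ℝ) (A : Finset ι) :
    |md (fun t => Real.cos (θ * t)) y s A| ≤ |θ| ^ A.card * ∏ i ∈ A, |s i| := by
  rw [md_cos]
  refine (Complex.abs_re_le_norm _).trans ?_
  rw [norm_mul, norm_prod]
  have h1 : ‖Complex.exp (Complex.I * ((θ * y : ℝ) : ℂ))‖ = 1 := by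
    rw [mul_comm, Complex.norm_exp_ofReal_mul_I]
  rw [h1, one_mul, ← Finset.prod_const, ← Finset.prod_mul_distrib]
  refine Finset.prod_le_prod (fun i _ => norm_nonneg _) fun i _ => ?_
  refine Real.norm_exp_I_mul_ofReal_sub_one_le.trans ?_
  rw [Real.norm_eq_abs, abs_mul]

private lemma md_int (m : ℕ) : Integrable (fun ω : ℝ => Real.exp (-ω ^ 2 / 2) * |ω| ^ m) := by
  have h := (integrable_rpow_mul_exp_neg_mul_sq (b := 1 / 2) (by norm_num) (s := (m : ℝ))
    (by have : (0 : ℝ) ≤ m := Nat.cast_nonneg m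
        linarith)).norm
  refine h.congr (Filter.Eventually.of_forall fun ω => ?_)
  simp only
  rw [Real.rpow_natCast, norm_mul, norm_pow, Real.norm_eq_abs, Real.norm_of_nonneg (Real.exp_pos _).le,
    mul_comm]
  congr 2
  ring

private lemma md_Psi_eq {ι : Type*} [DecidableEq ι] (y : ℝ) (s : ι → ℝ) (A : Finset ι)
    (hA : A.Nonempty) : md Psi y s A =
      cst⁻¹ * ∫ ω : ℝ, -(Real.exp (-ω ^ 2 / 2) * md (fun t => Real.cos (ω * t)) y s A) / ω ^ 2 := by
  have h0 : ∑ B ∈ A.powerset, (-1 : ℝ) ^ (A.card - B.card) = 0 := by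
    have h1 : ∏ _i ∈ A, ((1 : ℝ) + (-1)) = ∑ B ∈ A.powerset, (∏ _i ∈ B, (1 : ℝ)) *
        ∏ _i ∈ A \ B, (-1 : ℝ) := Finset.prod_add _ _ _
    have h2 : ∏ _i ∈ A, ((1 : ℝ) + (-1)) = 0 := by
      obtain ⟨i, hi⟩ := hA
      exact Finset.prod_eq_zero hi (by norm_num)
    rw [h2] at h1
    rw [h1]
    refine Finset.sum_congr rfl fun B hB => ?_
    rw [md_card hB, Finset.prod_const_one, one_mul]
  have h3 : md Psi y s A = cst⁻¹ * ∑ B ∈ A.powerset, ∫ ω : ℝ, (-1 : ℝ) ^ (A.card - B.card) *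
      ((1 - Real.exp (-ω ^ 2 / 2) * Real.cos (ω * (y + ∑ i ∈ B, s i))) / ω ^ 2) := by
    unfold md
    rw [Finset.mul_sum]
    refine Finset.sum_congr rfl fun B _ => ?_
    unfold Psi
    rw [integral_const_mul]
    ring
  rw [h3, ← integral_finsetSum _ (fun B _ => (integrable_Psi _).const_mul _)]
  congr 1
  refine integral_congr_ae (Filter.Eventually.of_forall fun ω => ?_)
  simp only
  have h4 : ∑ B ∈ A.powerset, (-1 : ℝ) ^ (A.card - B.card) *
      ((1 - Real.exp (-ω ^ 2 / 2) * Real.cos (ω * (y + ∑ i ∈ B, s i))) / ω ^ 2) =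
      (∑ B ∈ A.powerset, (-1 : ℝ) ^ (A.card - B.card) - Real.exp (-ω ^ 2 / 2) *
        ∑ B ∈ A.powerset, (-1 : ℝ) ^ (A.card - B.card) * Real.cos (ω * (y + ∑ i ∈ B, s i))) /
          ω ^ 2 := by
    rw [Finset.mul_sum, ← Finset.sum_sub_distrib, Finset.sum_div]
    refine Finset.sum_congr rfl fun B _ => ?_
    ring
  rw [h4, h0, zero_sub]
  rfl

theorem md_Psi (r : ℕ) (hr : 2 ≤ r) : ∃ k : ℝ, 0 < k ∧ ∀ (ι : Type) [DecidableEq ι] (y : ℝ)
    (s : ι → ℝ) (A : Finset ι), A.card = r → |md Psi y s A| ≤ k * ∏ i ∈ A, |s i| := by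
  refine ⟨cst⁻¹ * (∫ ω : ℝ, Real.exp (-ω ^ 2 / 2) * |ω| ^ (r - 2)) + 1, ?_, ?_⟩
  · have h1 : 0 ≤ ∫ ω : ℝ, Real.exp (-ω ^ 2 / 2) * |ω| ^ (r - 2) :=
      integral_nonneg fun ω => by positivity
    have h2 := inv_pos.2 cst_pos
    have h3 := mul_nonneg h2.le h1
    linarith
  · intro ι _ y s A hA
    have hne : A.Nonempty := by
      rw [← Finset.card_pos, hA]; omega
    rw [md_Psi_eq y s A hne, abs_mul, abs_of_pos (inv_pos.2 cst_pos)]
    have hp : 0 ≤ ∏ i ∈ A, |s i| := Finset.prod_nonneg fun i _ => abs_nonneg _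
    have h1 : |∫ ω : ℝ, -(Real.exp (-ω ^ 2 / 2) * md (fun t => Real.cos (ω * t)) y s A) / ω ^ 2| ≤
        ∫ ω : ℝ, (Real.exp (-ω ^ 2 / 2) * |ω| ^ (r - 2)) * ∏ i ∈ A, |s i| := by
      rw [← Real.norm_eq_abs]
      refine norm_integral_le_of_norm_le ((md_int (r - 2)).mul_const _)
        (Filter.Eventually.of_forall fun ω => ?_)
      have h2 := md_cos_le ω y s A
      rw [hA] at h2
      have he := Real.exp_pos (-ω ^ 2 / 2)
      rw [norm_div, norm_neg, norm_mul, Real.norm_of_nonneg he.le, Real.norm_eq_abs,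
        Real.norm_of_nonneg (sq_nonneg ω)]
      rcases eq_or_ne ω 0 with h | h
      · subst h
        simp only [ne_eq, OfNat.ofNat_ne_zero, not_false_eq_true, zero_pow, div_zero]
        positivity
      · have h0 : 0 < ω ^ 2 := by positivity
        rw [div_le_iff₀ h0]
        have h4 : |ω| ^ r = |ω| ^ (r - 2) * ω ^ 2 := by
          rw [← sq_abs ω, ← pow_add]
          congr 1
          omega
        rw [h4] at h2
        calc Real.exp (-ω ^ 2 / 2) * |md (fun t => Real.cos (ω * t)) y s A|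
            ≤ Real.exp (-ω ^ 2 / 2) * (|ω| ^ (r - 2) * ω ^ 2 * ∏ i ∈ A, |s i|) :=
              mul_le_mul_of_nonneg_left h2 he.le
          _ = _ := by ring
    rw [integral_mul_const] at h1
    have h5 := mul_le_mul_of_nonneg_left h1 (inv_pos.2 cst_pos).le
    nlinarith

theorem md_G (r : ℕ) (hr : 2 ≤ r) : ∃ k : ℝ, 0 < k ∧ ∀ (ι : Type) [DecidableEq ι] (β τ y : ℝ)
    (s : ι → ℝ) (A : Finset ι), 0 ≤ τ → A.card = r →
      |md (fun t => Psi (β + τ * t) - Psi (β - τ * t)) y s A| ≤ k * τ ^ r * ∏ i ∈ A, |s i| := by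
  obtain ⟨k, hk, H⟩ := md_Psi r hr
  refine ⟨2 * k, by linarith, ?_⟩
  intro ι _ β τ y s A hτ hA
  have h1 : md (fun t => Psi (β + τ * t) - Psi (β - τ * t)) y s A =
      md Psi (β + τ * y) (fun i => τ * s i) A - md Psi (β - τ * y) (fun i => -(τ * s i)) A := by
    unfold md
    rw [← Finset.sum_sub_distrib]
    refine Finset.sum_congr rfl fun B _ => ?_
    have e1 : β + τ * (y + ∑ i ∈ B, s i) = β + τ * y + ∑ i ∈ B, τ * s i := by
      rw [← Finset.mul_sum]; ring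
    have e2 : β - τ * (y + ∑ i ∈ B, s i) = β - τ * y + ∑ i ∈ B, -(τ * s i) := by
      rw [Finset.sum_neg_distrib, ← Finset.mul_sum]; ring
    simp only [e1, e2]
    ring
  have h2 : ∏ i ∈ A, |τ * s i| = τ ^ r * ∏ i ∈ A, |s i| := by
    simp only [abs_mul]
    rw [Finset.prod_mul_distrib, Finset.prod_const, hA, abs_of_nonneg hτ]
  have h3 := H ι (β + τ * y) (fun i => τ * s i) A hA
  have h4 := H ι (β - τ * y) (fun i => -(τ * s i)) A hA
  simp only [abs_neg] at h4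
  rw [h2] at h3 h4
  rw [h1]
  refine (abs_sub _ _).trans ?_
  linarith

private lemma dPsi_lip : ∃ k : ℝ, 0 < k ∧ ∀ a b : ℝ, |dPsi a - dPsi b| ≤ k * |a - b| := by
  refine ⟨cst⁻¹ * (∫ ω : ℝ, Real.exp (-ω ^ 2 / 2)) + 1, ?_, ?_⟩
  · have h1 : 0 ≤ ∫ ω : ℝ, Real.exp (-ω ^ 2 / 2) := integral_nonneg fun ω => by positivity
    have h2 := inv_pos.2 cst_pos
    have h3 := mul_nonneg h2.le h1
    linarith
  · intro a b
    unfold dPsi
    rw [← mul_sub, ← integral_sub (integrable_dPsi a) (integrable_dPsi b), abs_mul,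
      abs_of_pos (inv_pos.2 cst_pos)]
    have h1 : |∫ ω : ℝ, (Real.exp (-ω ^ 2 / 2) * (Real.sin (ω * a) / ω) -
        Real.exp (-ω ^ 2 / 2) * (Real.sin (ω * b) / ω))| ≤
        ∫ ω : ℝ, Real.exp (-ω ^ 2 / 2) * |a - b| := by
      rw [← Real.norm_eq_abs]
      refine norm_integral_le_of_norm_le (integrable_exp_half.mul_const _)
        (Filter.Eventually.of_forall fun ω => ?_)
      have he := Real.exp_pos (-ω ^ 2 / 2)
      rw [← mul_sub, ← sub_div, norm_mul, Real.norm_of_nonneg he.le, Real.norm_eq_abs]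
      refine mul_le_mul_of_nonneg_left ?_ he.le
      rcases eq_or_ne ω 0 with h | h
      · subst h; simp
      · rw [abs_div, div_le_iff₀ (abs_pos.2 h)]
        refine (Real.abs_sin_sub_sin_le _ _).trans ?_
        rw [← mul_sub, abs_mul, mul_comm]
    rw [integral_mul_const] at h1
    have h5 := mul_le_mul_of_nonneg_left h1 (inv_pos.2 cst_pos).le
    have h6 := abs_nonneg (a - b)
    nlinarith

/-- First order expansion at `0`. -/
theorem G_first : ∃ k : ℝ, 0 < k ∧ ∀ β τ t : ℝ, 0 ≤ τ →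
    |(Psi (β + τ * t) - Psi (β - τ * t)) - 2 * τ * dPsi β * t| ≤ k * τ ^ 2 * t ^ 2 := by
  obtain ⟨k, hk, H⟩ := dPsi_lip
  refine ⟨2 * k, by linarith, ?_⟩
  intro β τ t hτ
  set f : ℝ → ℝ := fun t => (Psi (β + τ * t) - Psi (β - τ * t)) - 2 * τ * dPsi β * t with hf
  set f' : ℝ → ℝ := fun t => dPsi (β + τ * t) * τ - dPsi (β - τ * t) * (-τ) - 2 * τ * dPsi β
    with hf'
  have hd : ∀ t, HasDerivAt f (f' t) t := by
    intro t
    have h1 : HasDerivAt (fun t : ℝ => β + τ * t) τ t := by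
      have := ((hasDerivAt_id t).const_mul τ).const_add β
      simpa using this
    have h2 : HasDerivAt (fun t : ℝ => β - τ * t) (-τ) t := by
      have := ((hasDerivAt_id t).const_mul τ).const_sub β
      simpa using this
    have h3 : HasDerivAt (fun t : ℝ => 2 * τ * dPsi β * t) (2 * τ * dPsi β) t := by
      have := (hasDerivAt_id t).const_mul (2 * τ * dPsi β)
      simpa using this
    exact (((hasDerivAt_Psi _).comp t h1).sub ((hasDerivAt_Psi _).comp t h2)).sub h3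
  have hb : ∀ u ∈ Metric.closedBall (0 : ℝ) |t|, ‖f' u‖ ≤ 2 * k * τ ^ 2 * |t| := by
    intro u hu
    rw [Metric.mem_closedBall, Real.dist_eq, sub_zero] at hu
    have h1 := H (β + τ * u) β
    have h2 := H (β - τ * u) β
    have e1 : β + τ * u - β = τ * u := by ring
    have e2 : β - τ * u - β = -(τ * u) := by ring
    rw [e1, abs_mul, abs_of_nonneg hτ] at h1
    rw [e2, abs_neg, abs_mul, abs_of_nonneg hτ] at h2
    have e3 : f' u = τ * (dPsi (β + τ * u) - dPsi β) + τ * (dPsi (β - τ * u) - dPsi β) := by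
      rw [hf']; ring
    rw [e3, Real.norm_eq_abs]
    refine (abs_add_le _ _).trans ?_
    rw [abs_mul, abs_mul, abs_of_nonneg hτ]
    have h3 := mul_le_mul_of_nonneg_left h1 hτ
    have h4 := mul_le_mul_of_nonneg_left h2 hτ
    have h5 : τ * (k * (τ * |u|)) ≤ k * τ ^ 2 * |t| := by
      have : k * τ ^ 2 * |u| ≤ k * τ ^ 2 * |t| := mul_le_mul_of_nonneg_left hu (by positivity)
      calc τ * (k * (τ * |u|)) = k * τ ^ 2 * |u| := by ring
        _ ≤ _ := this
    linarith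
  have h6 := (convex_closedBall (0 : ℝ) |t|).norm_image_sub_le_of_norm_hasDerivWithin_le
    (f := f) (f' := f') (C := 2 * k * τ ^ 2 * |t|) (fun u _ => (hd u).hasDerivWithinAt) hb
    (x := 0) (y := t) (by simp) (by simp)
  have h7 : f 0 = 0 := by
    rw [hf]; simp
  rw [h7, sub_zero, sub_zero, Real.norm_eq_abs, Real.norm_eq_abs] at h6
  calc |(Psi (β + τ * t) - Psi (β - τ * t)) - 2 * τ * dPsi β * t| = |f t| := rfl
    _ ≤ 2 * k * τ ^ 2 * |t| * |t| := h6
    _ = 2 * k * τ ^ 2 * t ^ 2 := by rw [← sq_abs t]; ring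

end Pool.Agent.Helper47.LB
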