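import Pool.Agent.Helper47.LB.Sec0

/-!
# Second moments of the components

* `phiC_sec`: Fubini; for fixed `z` apply `sec_a` with
  `χ_q(z) = t_q^{|C|+1} prf(if i ∈ C then u else u_q - t_q u)(z)`, `t_q = ⟨u_q,u⟩`, then `sec_le`, then
  `E_z χ_q² = t_q^{2(|C|+1)} 1^{|C|} (‖u_q‖² - t_q²)^{m-|C|} ≤ t_q^{2(|C|+1)}`
  (`integral_prf_mul_prf`, `‖u_q‖ ≤ 1`).
* `phiC_univ_sec`: for `C = univ`: `χ_q(z) = t_q^{m+1} ∏⟨u,z_i⟩`, the factor has second moment `1`
  (`‖u‖ = 1`), so the value is `eD`.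
-/

open MeasureTheory ProbabilityTheory Matrix
open scoped RealInnerProductSpace ENNReal
open Pool.Agent.Helper24.Zono

namespace Pool.Agent.Helper47.LB

variable {n N m : ℕ}

private noncomputable def secV (x : Fin N → En n) (u : En n) (C : Finset (Fin m)) (q : Fin N) :
    Fin m → En n := fun i => if i ∈ C then u else dir x q - ⟪dir x q, u⟫ • u

private noncomputable def secX (x : Fin N → En n) (u : En n) (C : Finset (Fin m))
    (z : Fin m → En n) (q : Fin N) : ℝ :=
  ⟪dir x q, u⟫ ^ (C.card + 1) * prf (secV x u C q) z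

private lemma phiC_eq (x : Fin N → En n) (K : Matrix (Fin N) (Fin N) ℝ) (u : En n)
    (C : Finset (Fin m)) (a : Fin (m + 1) → En n) (z : Fin m → En n) :
    phiC x K u C (a, z) =
      ∑ q, (∑ p, K p q * prf (fun _ => dir x p) a) * secX x u C z q := by
  unfold phiC secX secV
  refine Finset.sum_congr rfl fun q _ => ?_
  ring

private lemma phiC_int_a (x : Fin N → En n) (K : Matrix (Fin N) (Fin N) ℝ) (hK : Kᵀ = K)
    (u : En n) (C : Finset (Fin m)) (z : Fin m → En n) :
    ∫ a, phiC x K u C (a, z) ^ 2 ∂(PG n (m + 1)) =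
      secX x u C z ⬝ᵥ ((K * gram x (m + 1) * K) *ᵥ secX x u C z) := by
  rw [← sec_a x K hK (m + 1) (secX x u C z)]
  refine integral_congr_ae (Filter.Eventually.of_forall fun a => ?_)
  change phiC x K u C (a, z) ^ 2 = _
  rw [phiC_eq]

private lemma phiC_sq_int (x : Fin N → En n) (K : Matrix (Fin N) (Fin N) ℝ) (u : En n)
    (C : Finset (Fin m)) : Integrable (fun ω => phiC x K u C ω ^ 2) (PP n m) := by
  have h := memLp_phiC (m := m) x K u C 2
  have h2 : MemLp (phiC x K u C) 2 (PP n m) := by exact_mod_cast h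
  exact h2.integrable_sq

private lemma prf_sq_int (v : Fin m → En n) : Integrable (fun z => prf v z ^ 2) (PG n m) := by
  have h := memLp_prf v 2
  have h2 : MemLp (prf v) 2 (PG n m) := by exact_mod_cast h
  exact h2.integrable_sq

private lemma secV_norm (x : Fin N → En n) (u : En n) (hu : ‖u‖ = 1) (C : Finset (Fin m))
    (q : Fin N) (i : Fin m) : ⟪secV x u C q i, secV x u C q i⟫ ≤ 1 := by
  rw [real_inner_self_eq_norm_sq]
  unfold secV
  split_ifs with h
  · rw [hu]
    norm_num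
  · have h1 : ‖dir x q‖ ≤ 1 := norm_dir_le x q
    have h2 : ‖dir x q - ⟪dir x q, u⟫ • u‖ ^ 2 = ‖dir x q‖ ^ 2 - ⟪dir x q, u⟫ ^ 2 := by
      rw [norm_sub_sq_real, norm_smul, inner_smul_right, hu, Real.norm_eq_abs, mul_one, sq_abs]
      ring
    rw [h2]
    nlinarith [norm_nonneg (dir x q), sq_nonneg ⟪dir x q, u⟫]

private lemma secX_sq_int (x : Fin N → En n) (u : En n) (hu : ‖u‖ = 1) (C : Finset (Fin m))
    (q : Fin N) : ∫ z, secX x u C z q ^ 2 ∂(PG n m) ≤ ⟪dir x q, u⟫ ^ (2 * (C.card + 1)) := by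
  have e : ∀ z, secX x u C z q ^ 2 = ⟪dir x q, u⟫ ^ (2 * (C.card + 1)) *
      (prf (secV x u C q) z * prf (secV x u C q) z) := by
    intro z
    unfold secX
    ring
  simp only [e]
  rw [integral_const_mul, integral_prf_mul_prf]
  have h1 : ∏ l, ⟪secV x u C q l, secV x u C q l⟫ ≤ 1 :=
    Finset.prod_le_one (fun l _ => real_inner_self_nonneg) fun l _ => secV_norm x u hu C q l
  have h2 : 0 ≤ ⟪dir x q, u⟫ ^ (2 * (C.card + 1)) := by
    rw [pow_mul]
    positivity
  calc _ ≤ ⟪dir x q, u⟫ ^ (2 * (C.card + 1)) * 1 := mul_le_mul_of_nonneg_left h1 h2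
    _ = _ := mul_one _

theorem phiC_sec (x : Fin N → En n) (lam : ℝ) (hl : 0 < lam) (K : Matrix (Fin N) (Fin N) ℝ)
    (hK : KProps (wt x) (gram x (m + 1)) lam K) (u : En n) (hu : ‖u‖ = 1) (C : Finset (Fin m)) :
    ∫ ω, phiC x K u C ω ^ 2 ∂(PP n m) ≤ lam⁻¹ * SS x (C.card + 1) u := by
  have hint := phiC_sq_int (m := m) x K u C
  rw [integral_prod_symm _ hint]
  have hXi : ∀ q, Integrable (fun z => secX x u C z q ^ 2) (PG n m) := by
    intro q
    have e : (fun z => secX x u C z q ^ 2) = fun z =>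
        (⟪dir x q, u⟫ ^ (C.card + 1)) ^ 2 * prf (secV x u C q) z ^ 2 := by
      funext z
      unfold secX
      ring
    rw [e]
    exact (prf_sq_int _).const_mul _
  calc ∫ z, ∫ a, phiC x K u C (a, z) ^ 2 ∂(PG n (m + 1)) ∂(PG n m)
      ≤ ∫ z, lam⁻¹ * ∑ q, wt x q * secX x u C z q ^ 2 ∂(PG n m) := by
        refine integral_mono hint.integral_prod_right ?_ ?_
        · exact (integrable_finsetSum _ fun q _ => (hXi q).const_mul _).const_mul _
        · intro z
          change ∫ a, phiC x K u C (a, z) ^ 2 ∂(PG n (m + 1)) ≤ _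
          rw [phiC_int_a x K hK.symm]
          exact hK.sec_le _
    _ = lam⁻¹ * ∑ q, wt x q * ∫ z, secX x u C z q ^ 2 ∂(PG n m) := by
        rw [integral_const_mul, integral_finsetSum _ fun q _ => (hXi q).const_mul _]
        congr 1
        exact Finset.sum_congr rfl fun q _ => integral_const_mul _ _
    _ ≤ lam⁻¹ * SS x (C.card + 1) u := by
        unfold SS
        refine mul_le_mul_of_nonneg_left ?_ (inv_nonneg.2 hl.le)
        refine Finset.sum_le_sum fun q _ => ?_
        exact mul_le_mul_of_nonneg_left (secX_sq_int x u hu C q) (norm_nonneg _)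

theorem phiC_univ_sec (x : Fin N → En n) (lam : ℝ) (K : Matrix (Fin N) (Fin N) ℝ)
    (hK : KProps (wt x) (gram x (m + 1)) lam K) (u : En n) (hu : ‖u‖ = 1) :
    ∫ ω, phiC x K u (Finset.univ : Finset (Fin m)) ω ^ 2 ∂(PP n m) = eD m x K u := by
  have hint := phiC_sq_int (m := m) x K u Finset.univ
  rw [integral_prod_symm _ hint]
  have e1 : ∀ z : Fin m → En n, secX x u (Finset.univ : Finset (Fin m)) z =
      prf (fun _ : Fin m => u) z • fun q => ⟪dir x q, u⟫ ^ (m + 1) := by
    intro z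
    funext q
    rw [Pi.smul_apply, smul_eq_mul]
    unfold secX secV
    simp only [Finset.mem_univ, if_true, Finset.card_univ, Fintype.card_fin]
    ring
  have e2 : ∀ z : Fin m → En n, ∫ a, phiC x K u (Finset.univ : Finset (Fin m)) (a, z) ^ 2
      ∂(PG n (m + 1)) = (prf (fun _ : Fin m => u) z * prf (fun _ : Fin m => u) z) * eD m x K u := by
    intro z
    rw [phiC_int_a x K hK.symm, e1, Matrix.mulVec_smul, smul_dotProduct, dotProduct_smul]
    unfold eD
    simp only [smul_eq_mul]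
    ring
  simp only [e2]
  rw [integral_mul_const, integral_prf_mul_prf]
  have h3 : ∏ _l : Fin m, ⟪u, u⟫ = (1 : ℝ) := by
    rw [real_inner_self_eq_norm_sq, hu]
    simp
  rw [h3, one_mul]

end Pool.Agent.Helper47.LB
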