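import Pool.Agent.Helper47.LB.ErrDefs
import Pool.Agent.Helper47.LB.Sec
import Pool.Agent.Helper47.LB.Expand
import Pool.Agent.Helper47.LB.Linear
import Pool.Agent.Helper47.LB.Flip
import Pool.Agent.Helper47.LB.Md
import Pool.Agent.Helper47.LB.Hyper

/-!
# `PhiF` for a unit vector

`PhiF u = ∫ G_β(⟨u,ww⟩)`, `β = ⟨u,bb⟩`, `G_β(t) = Psi(β+τt) - Psi(β-τt)` (odd in `t`).
`flip_inv`, `inner_bb_flip`, `expand`: `PhiF u = ∫ 2^{-m} ∑_e G_β(∑_C e_{Cᶜ} φ_C)`. `flip_lemma` with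
`c₀`, `r₀ = 2q`, `G1 = 2 τ dPsi β`, `K2 = k τ²`, `Kr = k' τ^{2q}` (`md_G`, `G_first`):
`|PhiF u - 2τ ∫ dPsi β φ_univ| ≤ 2^(2^(m+1)) ∫ flipErr`, and `linear_term`.
`∫ flipErr`: `P_l = lam⁻¹ SS x l u`, decreasing in `l ≥ 1` (`|⟨u_i,u⟩| ≤ 1`).
* `∫ |φ_univ||φ_C| ≤ √(∫φ_univ²) √(∫φ_C²) ≤ √(eD P_1)` (`phiC_univ_sec`, `phiC_sec`);
* `c₀ ≤ |C1|`, `C2 ≠ ∅`: `≤ √(P_{c₀+1} P_2)`;
* `2q` nonempty sets: `∏ |φ_C| ≤ (1/2q) ∑ φ_C^{2q}` (AM-GM), `∫ φ_C^{2q} ≤ C (∫ φ_C²)^q ≤ C P_2^q`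
  (`hyper2`; `phiC` is a finite sum over `(p,q)` of constants times `prf * prf`).
-/

open MeasureTheory ProbabilityTheory Matrix
open scoped RealInnerProductSpace ENNReal
open Pool.Agent.Helper24.Zono

namespace Pool.Agent.Helper47.LB

section aux

variable {n N m : ℕ}

private lemma inner_dir_sq_le (x : Fin N → En n) (u : En n) (hu : ‖u‖ = 1) (i : Fin N) :
    ⟪dir x i, u⟫ ^ 2 ≤ 1 := by
  have h := abs_real_inner_le_norm (dir x i) u
  rw [hu, mul_one] at h
  have h2 : |⟪dir x i, u⟫| ≤ 1 := h.trans (norm_dir_le x i)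
  rw [← sq_abs]
  have := abs_nonneg ⟪dir x i, u⟫
  nlinarith

private lemma SS_nonneg' (x : Fin N → En n) (l : ℕ) (u : En n) : 0 ≤ SS x l u := by
  unfold SS
  refine Finset.sum_nonneg fun i _ => mul_nonneg (wt_nonneg x i) ?_
  rw [pow_mul]
  exact pow_nonneg (sq_nonneg _) _

private lemma SS_anti' (x : Fin N → En n) (u : En n) (hu : ‖u‖ = 1) {l l' : ℕ} (h : l ≤ l') :
    SS x l' u ≤ SS x l u := by
  unfold SS
  refine Finset.sum_le_sum fun i _ => mul_le_mul_of_nonneg_left ?_ (wt_nonneg x i)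
  rw [pow_mul, pow_mul]
  exact pow_le_pow_of_le_one (sq_nonneg _) (inner_dir_sq_le x u hu i) h

private lemma aesm_phi (x : Fin N → En n) (K : Matrix (Fin N) (Fin N) ℝ) (u : En n)
    (C : Finset (Fin m)) : AEStronglyMeasurable (phiC x K u C) (PP n m) :=
  (memLp_phiC x K u C 2).1

private lemma int_phi_pow (x : Fin N → En n) (K : Matrix (Fin N) (Fin N) ℝ) (u : En n)
    (C : Finset (Fin m)) (p : ℕ) : Integrable (fun ω => |phiC x K u C ω| ^ p) (PP n m) := by
  have h := memLp_phiC x K u C p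
  have h2 := h.integrable_norm_pow'
  simpa [Real.norm_eq_abs] using h2

private lemma int_phi_mul (x : Fin N → En n) (K : Matrix (Fin N) (Fin N) ℝ) (u : En n)
    (C C' : Finset (Fin m)) :
    Integrable (fun ω => |phiC x K u C ω| * |phiC x K u C' ω|) (PP n m) := by
  have h1 : MemLp (fun ω => |phiC x K u C ω|) 2 (PP n m) := by
    have := memLp_phiC x K u C 2
    simpa [Real.norm_eq_abs] using this.norm
  have h2 : MemLp (fun ω => |phiC x K u C' ω|) 2 (PP n m) := by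
    have := memLp_phiC x K u C' 2
    simpa [Real.norm_eq_abs] using this.norm
  exact h1.integrable_mul h2

private lemma cs_phi (x : Fin N → En n) (K : Matrix (Fin N) (Fin N) ℝ) (u : En n)
    (C C' : Finset (Fin m)) (a b : ℝ) 
    (ha : ∫ ω, phiC x K u C ω ^ 2 ∂(PP n m) ≤ a) (hb : ∫ ω, phiC x K u C' ω ^ 2 ∂(PP n m) ≤ b) :
    ∫ ω, |phiC x K u C ω| * |phiC x K u C' ω| ∂(PP n m) ≤ Real.sqrt (a * b) := by
  set f := phiC x K u C with hf
  set g := phiC x K u C' with hg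
  set A := ∫ ω, f ω ^ 2 ∂(PP n m) with hA
  set B := ∫ ω, |f ω| * |g ω| ∂(PP n m) with hB
  set D := ∫ ω, g ω ^ 2 ∂(PP n m) with hD
  have hA0 : 0 ≤ A := integral_nonneg fun ω => sq_nonneg _
  have hD0 : 0 ≤ D := integral_nonneg fun ω => sq_nonneg _
  have hB0 : 0 ≤ B := integral_nonneg fun ω => mul_nonneg (abs_nonneg _) (abs_nonneg _)
  have i1 : Integrable (fun ω => |f ω| ^ 2) (PP n m) := int_phi_pow x K u C 2
  have i2 : Integrable (fun ω => |g ω| ^ 2) (PP n m) := int_phi_pow x K u C' 2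
  have i3 : Integrable (fun ω => |f ω| * |g ω|) (PP n m) := int_phi_mul x K u C C'
  have hq : ∀ t : ℝ, 0 ≤ D * (t * t) + (-2 * B) * t + A := by
    intro t
    have h0 : 0 ≤ ∫ ω, (|f ω| - t * |g ω|) ^ 2 ∂(PP n m) := integral_nonneg fun ω => sq_nonneg _
    have h1 : ∫ ω, (|f ω| - t * |g ω|) ^ 2 ∂(PP n m) = D * (t * t) + (-2 * B) * t + A := by
      have e1 : (fun ω => (|f ω| - t * |g ω|) ^ 2) =
          fun ω => (|f ω| ^ 2 + (-2 * t) * (|f ω| * |g ω|)) + (t * t) * |g ω| ^ 2 := by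
        funext ω; ring
      have j3 : Integrable (fun ω => (-2 * t) * (|f ω| * |g ω|)) (PP n m) := i3.const_mul _
      have j12 : Integrable (fun ω => |f ω| ^ 2 + (-2 * t) * (|f ω| * |g ω|)) (PP n m) :=
        i1.add j3
      have j2 : Integrable (fun ω => (t * t) * |g ω| ^ 2) (PP n m) := i2.const_mul _
      rw [e1, integral_add j12 j2, integral_add i1 j3, integral_const_mul, integral_const_mul]
      simp only [sq_abs]
      rw [← hA, ← hB, ← hD]
      ring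
    rw [h1] at h0
    exact h0
  have hdis := discrim_le_zero hq
  unfold discrim at hdis
  refine Real.le_sqrt_of_sq_le ?_
  have h5 : B ^ 2 ≤ A * D := by nlinarith
  refine h5.trans ?_
  exact mul_le_mul ha hb hD0 (hA0.trans ha)

private lemma prod_le_sum {ι : Type*} (A : Finset ι) (hA : A.Nonempty) (f : ι → ℝ) :
    ∏ C ∈ A, |f C| ≤ ∑ C ∈ A, |f C| ^ A.card := by
  classical
  obtain ⟨c, hc, hmax⟩ := A.exists_max_image (fun C => |f C|) hA
  have h1 : ∏ C ∈ A, |f C| ≤ |f c| ^ A.card := by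
    calc ∏ C ∈ A, |f C| ≤ ∏ _C ∈ A, |f c| :=
          Finset.prod_le_prod (fun i _ => abs_nonneg _) (fun i hi => hmax i hi)
      _ = |f c| ^ A.card := by rw [Finset.prod_const]
  refine h1.trans ?_
  exact Finset.single_le_sum (f := fun C => |f C| ^ A.card)
    (fun i _ => pow_nonneg (abs_nonneg _) _) hc

private lemma int_phi_prod (x : Fin N → En n) (K : Matrix (Fin N) (Fin N) ℝ) (u : En n)
    (A : Finset (Finset (Fin m))) :
    Integrable (fun ω => ∏ C ∈ A, |phiC x K u C ω|) (PP n m) := by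
  classical
  rcases A.eq_empty_or_nonempty with h | h
  · subst h
    simp only [Finset.prod_empty]
    exact integrable_const 1
  · refine Integrable.mono' (g := fun ω => ∑ C ∈ A, |phiC x K u C ω| ^ A.card)
      (integrable_finsetSum _ fun C _ => int_phi_pow x K u C _) ?_ ?_
    · refine Finset.aestronglyMeasurable_fun_prod _ fun C _ => ?_
      have := (aesm_phi x K u C).norm
      simpa [Real.norm_eq_abs] using this
    · refine Filter.Eventually.of_forall fun ω => ?_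
      rw [Real.norm_eq_abs, abs_of_nonneg (Finset.prod_nonneg fun i _ => abs_nonneg _)]
      exact prod_le_sum A h _

private lemma phi_eq (x : Fin N → En n) (K : Matrix (Fin N) (Fin N) ℝ) (u : En n)
    (C : Finset (Fin m)) (ω : (Fin (m + 1) → En n) × (Fin m → En n)) :
    phiC x K u C ω = ∑ t : Fin N × Fin N, (K t.2 t.1 * ⟪dir x t.1, u⟫ ^ (C.card + 1)) *
      prf (fun _ => dir x t.2) ω.1 *
      prf (fun i => if i ∈ C then u else dir x t.1 - ⟪dir x t.1, u⟫ • u) ω.2 := by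
  unfold phiC
  rw [Fintype.sum_prod_type]
  refine Finset.sum_congr rfl fun q _ => ?_
  rw [Finset.sum_mul, Finset.sum_mul]
  refine Finset.sum_congr rfl fun p _ => ?_
  ring

end aux

theorem err_bound (m c₀ q : ℕ) (hc : 1 ≤ c₀) (hq : 1 ≤ q) (hm : 2 * q * c₀ ≤ m) :
    ∃ C : ℝ, 1 ≤ C ∧ ∀ (n N : ℕ) (x : Fin N → En n) (lam : ℝ) (K : Matrix (Fin N) (Fin N) ℝ)
      (τ : ℝ) (u : En n), 0 < lam → KProps (wt x) (gram x (m + 1)) lam K → 0 ≤ τ → ‖u‖ = 1 →
      |PhiF m x K τ u - 2 * τ * ((-1) ^ m * cD m * pp m x K u)| ≤ C * errB m c₀ q x lam K τ u := by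
  classical
  obtain ⟨k1, hk1, hG1⟩ := G_first
  obtain ⟨k2, hk2, hG2⟩ := md_G 2 le_rfl
  obtain ⟨k3, hk3, hG3⟩ := md_G (2 * q) (by omega)
  obtain ⟨Ch, hCh, hHy⟩ := hyper2 (m + 1) m q
  set κ : ℝ := max k1 k2 with hκ
  have hκ0 : 0 < κ := lt_of_lt_of_le hk1 (le_max_left _ _)
  set C0 : ℝ := κ * 4 ^ m + k3 * 2 ^ (2 ^ m) * (2 * q * Ch) with hC0
  have hq0 : (0 : ℝ) ≤ q := Nat.cast_nonneg q
  have hC00 : 0 ≤ C0 := by positivity
  refine ⟨1 + 2 ^ (2 ^ (m + 1)) * C0, by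
    have : (0 : ℝ) ≤ 2 ^ (2 ^ (m + 1)) * C0 := by positivity
    linarith, ?_⟩
  intro n N x lam K τ u hlam hK hτ hu
  -- abbreviations
  set P : ℕ → ℝ := fun l => lam⁻¹ * SS x l u with hP
  have hP0 : ∀ l, 0 ≤ P l := fun l => mul_nonneg (inv_nonneg.2 hlam.le) (SS_nonneg' x l u)
  have hPanti : ∀ {l l' : ℕ}, l ≤ l' → P l' ≤ P l := fun {l l'} h =>
    mul_le_mul_of_nonneg_left (SS_anti' x u hu h) (inv_nonneg.2 hlam.le)
  have hsec : ∀ C : Finset (Fin m), ∀ l, l ≤ C.card + 1 →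
      ∫ ω, phiC x K u C ω ^ 2 ∂(PP n m) ≤ P l := fun C l hl =>
    (phiC_sec x lam hlam K hK u hu C).trans (hPanti hl)
  have heD : ∫ ω, phiC x K u (Finset.univ : Finset (Fin m)) ω ^ 2 ∂(PP n m) = eD m x K u :=
    phiC_univ_sec x lam K hK u hu
  have heD0 : 0 ≤ eD m x K u := by
    rw [← heD]; exact integral_nonneg fun ω => sq_nonneg _
  -- constants
  set K2 : ℝ := κ * τ ^ 2 with hK2
  set Kr : ℝ := k3 * τ ^ (2 * q) with hKr
  have hK20 : 0 ≤ K2 := by positivity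
  have hKr0 : 0 ≤ Kr := by positivity
  -- integrability of the error
  set fe : (Fin (m + 1) → En n) × (Fin m → En n) → ℝ :=
    fun ω => flipErr c₀ (2 * q) K2 Kr (fun C => phiC x K u C ω) with hfe
  set S2 := (Finset.univ : Finset (Finset (Fin m) × Finset (Fin m))).filter
        (fun P => c₀ ≤ P.1.card ∧ P.2 ≠ ∅) with hS2
  set S3 := (Finset.univ : Finset (Finset (Finset (Fin m)))).filter
        (fun A => A.card = 2 * q ∧ ∀ C ∈ A, C ≠ ∅) with hS3
  have hfe' : fe = fun ω => (K2 * ∑ C : Finset (Fin m),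
        |phiC x K u Finset.univ ω| * |phiC x K u C ω|
      + K2 * ∑ P ∈ S2, |phiC x K u P.1 ω| * |phiC x K u P.2 ω|)
      + Kr * ∑ A ∈ S3, ∏ C ∈ A, |phiC x K u C ω| := rfl
  have iA : Integrable (fun ω => ∑ C : Finset (Fin m),
        |phiC x K u Finset.univ ω| * |phiC x K u C ω|) (PP n m) :=
    integrable_finsetSum _ fun C _ => int_phi_mul x K u _ C
  have iB : Integrable (fun ω => ∑ P ∈ S2, |phiC x K u P.1 ω| * |phiC x K u P.2 ω|) (PP n m) :=
    integrable_finsetSum _ fun P _ => int_phi_mul x K u P.1 P.2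
  have iC : Integrable (fun ω => ∑ A ∈ S3, ∏ C ∈ A, |phiC x K u C ω|) (PP n m) :=
    integrable_finsetSum _ fun A _ => int_phi_prod x K u A
  have ife : Integrable fe (PP n m) := by
    rw [hfe']
    exact ((iA.const_mul _).add (iB.const_mul _)).add (iC.const_mul _)
  have c1 : (Fintype.card (Finset (Fin m)) : ℝ) = 2 ^ m := by
    rw [Fintype.card_finset, Fintype.card_fin]; push_cast; rfl
  -- the integral of the error
  have bA : ∫ ω, ∑ C : Finset (Fin m), |phiC x K u Finset.univ ω| * |phiC x K u C ω| ∂(PP n m)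
      ≤ 4 ^ m * Real.sqrt (eD m x K u * P 1) := by
    rw [integral_finsetSum _ fun C _ => int_phi_mul x K u _ C]
    have h1 : ∀ C ∈ (Finset.univ : Finset (Finset (Fin m))),
        ∫ ω, |phiC x K u Finset.univ ω| * |phiC x K u C ω| ∂(PP n m) ≤
          Real.sqrt (eD m x K u * P 1) := fun C _ =>
      cs_phi x K u _ C _ _ heD.le (hsec C 1 (by omega))
    refine (Finset.sum_le_card_nsmul _ _ _ h1).trans ?_
    rw [nsmul_eq_mul, Finset.card_univ, c1]
    refine mul_le_mul_of_nonneg_right ?_ (Real.sqrt_nonneg _)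
    exact pow_le_pow_left₀ (by norm_num) (by norm_num) _
  have bB : ∫ ω, ∑ P ∈ S2, |phiC x K u P.1 ω| * |phiC x K u P.2 ω| ∂(PP n m)
      ≤ 4 ^ m * Real.sqrt (P (c₀ + 1) * P 2) := by
    rw [integral_finsetSum _ fun P _ => int_phi_mul x K u P.1 P.2]
    have h1 : ∀ Q ∈ S2,
        ∫ ω, |phiC x K u Q.1 ω| * |phiC x K u Q.2 ω| ∂(PP n m) ≤
          Real.sqrt (P (c₀ + 1) * P 2) := fun Q hQ => by
      rw [hS2, Finset.mem_filter] at hQ
      have hne : 0 < Q.2.card := Finset.card_pos.2 (Finset.nonempty_iff_ne_empty.2 hQ.2.2)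
      exact cs_phi x K u _ _ _ _ (hsec Q.1 (c₀ + 1) (by omega)) (hsec Q.2 2 (by omega))
    refine (Finset.sum_le_card_nsmul _ _ _ h1).trans ?_
    rw [nsmul_eq_mul]
    refine mul_le_mul_of_nonneg_right ?_ (Real.sqrt_nonneg _)
    have h2 : (S2.card : ℝ) ≤ (Fintype.card (Finset (Fin m) × Finset (Fin m)) : ℝ) := by
      exact_mod_cast Finset.card_le_univ S2
    refine h2.trans ?_
    rw [Fintype.card_prod]
    push_cast
    rw [c1, ← mul_pow]
    norm_num
  have hq2 : 0 < 2 * q := by omega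
  have bC1 : ∀ C : Finset (Fin m), C ≠ ∅ →
      ∫ ω, |phiC x K u C ω| ^ (2 * q) ∂(PP n m) ≤ Ch * P 2 ^ q := by
    intro C hC
    have hne : 0 < C.card := Finset.card_pos.2 (Finset.nonempty_iff_ne_empty.2 hC)
    have h1 := hHy n (Fin N × Fin N) (fun t => K t.2 t.1 * ⟪dir x t.1, u⟫ ^ (C.card + 1))
      (fun t _ => dir x t.2) (fun t i => if i ∈ C then u else dir x t.1 - ⟪dir x t.1, u⟫ • u)
    have e1 : ∫ ω, |phiC x K u C ω| ^ (2 * q) ∂(PP n m) =
        ∫ ω, phiC x K u C ω ^ (2 * q) ∂(PP n m) := by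
      refine integral_congr_ae (Filter.Eventually.of_forall fun ω => ?_)
      show |phiC x K u C ω| ^ (2 * q) = phiC x K u C ω ^ (2 * q)
      rw [pow_mul, sq_abs, ← pow_mul]
    rw [e1]
    have h2 : ∫ ω, phiC x K u C ω ^ (2 * q) ∂(PP n m) ≤
        Ch * (∫ ω, phiC x K u C ω ^ 2 ∂(PP n m)) ^ q := by
      simp only [phi_eq x K u C]
      exact h1
    refine h2.trans (mul_le_mul_of_nonneg_left ?_ (by linarith))
    exact pow_le_pow_left₀ (integral_nonneg fun ω => sq_nonneg _) (hsec C 2 (by omega)) _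
  have bC : ∫ ω, ∑ A ∈ S3, ∏ C ∈ A, |phiC x K u C ω| ∂(PP n m)
      ≤ 2 ^ (2 ^ m) * (2 * q * Ch) * P 2 ^ q := by
    rw [integral_finsetSum _ fun A _ => int_phi_prod x K u A]
    have h1 : ∀ A ∈ S3, ∫ ω, ∏ C ∈ A, |phiC x K u C ω| ∂(PP n m) ≤
        (2 * q * Ch) * P 2 ^ q := by
      intro A hA
      rw [hS3, Finset.mem_filter] at hA
      have hAne : A.Nonempty := by
        rw [← Finset.card_pos, hA.2.1]; exact hq2
      have h2 : ∫ ω, ∏ C ∈ A, |phiC x K u C ω| ∂(PP n m) ≤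
          ∫ ω, ∑ C ∈ A, |phiC x K u C ω| ^ (2 * q) ∂(PP n m) := by
        refine integral_mono (int_phi_prod x K u A)
          (integrable_finsetSum _ fun C _ => int_phi_pow x K u C _) fun ω => ?_
        have := prod_le_sum A hAne (fun C => phiC x K u C ω)
        rw [hA.2.1] at this
        exact this
      refine h2.trans ?_
      rw [integral_finsetSum _ fun C _ => int_phi_pow x K u C _]
      refine (Finset.sum_le_card_nsmul _ _ _ fun C hC => bC1 C (hA.2.2 C hC)).trans ?_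
      rw [nsmul_eq_mul, hA.2.1]
      push_cast
      exact le_of_eq (by ring)
    refine (Finset.sum_le_card_nsmul _ _ _ h1).trans ?_
    rw [nsmul_eq_mul]
    have h2 : (S3.card : ℝ) ≤ (2 : ℝ) ^ (2 ^ m) := by
      have h3 : (S3.card : ℝ) ≤ (Fintype.card (Finset (Finset (Fin m))) : ℝ) := by
        exact_mod_cast Finset.card_le_univ S3
      refine h3.trans ?_
      rw [Fintype.card_finset, Fintype.card_finset, Fintype.card_fin]
      push_cast
      exact le_rfl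
    have h4 : (0 : ℝ) ≤ (2 * q * Ch) * P 2 ^ q := by
      have := hP0 2
      positivity
    calc (S3.card : ℝ) * ((2 * q * Ch) * P 2 ^ q) ≤ 2 ^ (2 ^ m) * ((2 * q * Ch) * P 2 ^ q) :=
          mul_le_mul_of_nonneg_right h2 h4
      _ = _ := by ring
  have bfe : ∫ ω, fe ω ∂(PP n m) ≤ C0 * errB m c₀ q x lam K τ u := by
    have jA : Integrable (fun ω => K2 * ∑ C : Finset (Fin m),
        |phiC x K u Finset.univ ω| * |phiC x K u C ω|) (PP n m) := iA.const_mul _
    have jB : Integrable (fun ω => K2 * ∑ P ∈ S2, |phiC x K u P.1 ω| * |phiC x K u P.2 ω|)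
        (PP n m) := iB.const_mul _
    have jC : Integrable (fun ω => Kr * ∑ A ∈ S3, ∏ C ∈ A, |phiC x K u C ω|) (PP n m) :=
      iC.const_mul _
    have jAB : Integrable (fun ω => K2 * ∑ C : Finset (Fin m),
        |phiC x K u Finset.univ ω| * |phiC x K u C ω|
        + K2 * ∑ P ∈ S2, |phiC x K u P.1 ω| * |phiC x K u P.2 ω|) (PP n m) := jA.add jB
    have efe : ∫ ω, fe ω ∂(PP n m) = ∫ ω, ((K2 * ∑ C : Finset (Fin m),
        |phiC x K u Finset.univ ω| * |phiC x K u C ω|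
      + K2 * ∑ P ∈ S2, |phiC x K u P.1 ω| * |phiC x K u P.2 ω|)
      + Kr * ∑ A ∈ S3, ∏ C ∈ A, |phiC x K u C ω|) ∂(PP n m) := by rw [hfe']
    rw [efe, integral_add jAB jC, integral_add jA jB, integral_const_mul, integral_const_mul,
      integral_const_mul]
    have e1 : K2 * ∫ ω, ∑ C : Finset (Fin m), |phiC x K u Finset.univ ω| * |phiC x K u C ω|
        ∂(PP n m) ≤ (κ * 4 ^ m) * (τ ^ 2 * Real.sqrt (eD m x K u * P 1)) := by
      refine (mul_le_mul_of_nonneg_left bA hK20).trans (le_of_eq ?_)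
      rw [hK2]; ring
    have e2 : K2 * ∫ ω, ∑ P ∈ S2, |phiC x K u P.1 ω| * |phiC x K u P.2 ω| ∂(PP n m)
        ≤ (κ * 4 ^ m) * (τ ^ 2 * Real.sqrt (P (c₀ + 1) * P 2)) := by
      refine (mul_le_mul_of_nonneg_left bB hK20).trans (le_of_eq ?_)
      rw [hK2]; ring
    have e3 : Kr * ∫ ω, ∑ A ∈ S3, ∏ C ∈ A, |phiC x K u C ω| ∂(PP n m)
        ≤ (k3 * 2 ^ (2 ^ m) * (2 * q * Ch)) * (τ ^ (2 * q) * P 2 ^ q) := by
      refine (mul_le_mul_of_nonneg_left bC hKr0).trans (le_of_eq ?_)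
      rw [hKr]; ring
    have n1 : 0 ≤ τ ^ 2 * Real.sqrt (eD m x K u * P 1) := by positivity
    have n2 : 0 ≤ τ ^ 2 * Real.sqrt (P (c₀ + 1) * P 2) := by positivity
    have n3 : 0 ≤ τ ^ (2 * q) * P 2 ^ q := by
      have := hP0 2
      positivity
    have m1 : 0 ≤ κ * 4 ^ m := by positivity
    have m2 : 0 ≤ k3 * 2 ^ (2 ^ m) * (2 * q * Ch) := by positivity
    have e4 : errB m c₀ q x lam K τ u = τ ^ 2 * Real.sqrt (eD m x K u * P 1)
        + τ ^ 2 * Real.sqrt (P (c₀ + 1) * P 2) + τ ^ (2 * q) * P 2 ^ q := rfl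
    rw [e4, hC0]
    nlinarith [mul_nonneg m2 n1, mul_nonneg m2 n2, mul_nonneg m1 n3]
  have herr0 : 0 ≤ errB m c₀ q x lam K τ u := by
    have n3 : 0 ≤ τ ^ (2 * q) * P 2 ^ q := by
      have := hP0 2
      positivity
    have n1 : 0 ≤ τ ^ 2 * Real.sqrt (eD m x K u * P 1) := by positivity
    have n2 : 0 ≤ τ ^ 2 * Real.sqrt (P (c₀ + 1) * P 2) := by positivity
    have e4 : errB m c₀ q x lam K τ u = τ ^ 2 * Real.sqrt (eD m x K u * P 1)
        + τ ^ 2 * Real.sqrt (P (c₀ + 1) * P 2) + τ ^ (2 * q) * P 2 ^ q := rfl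
    rw [e4]; positivity
  -- the functional
  set F : (Fin (m + 1) → En n) × (Fin m → En n) → ℝ := fun ω =>
    Psi (⟪u, bb ω⟫ + τ * ⟪u, ww x K ω⟫) - Psi (⟪u, bb ω⟫ - τ * ⟪u, ww x K ω⟫) with hF
  have hPhi : PhiF m x K τ u = ∫ ω, F ω ∂(PP n m) := by
    unfold PhiF
    refine integral_congr_ae (Filter.Eventually.of_forall fun ω => ?_)
    simp only [hF, inner_add_right, inner_sub_right, real_inner_smul_right]
  have iW : Integrable (fun ω => ⟪u, ww x K ω⟫) (PP n m) := by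
    have h1 : Integrable (ww (m := m) x K) (PP n m) :=
      (memLp_ww x K).integrable (by norm_num)
    exact h1.const_inner u
  have mβ : AEMeasurable (fun ω : (Fin (m + 1) → En n) × (Fin m → En n) => ⟪u, bb ω⟫)
      (PP n m) := by
    have h1 : Integrable (bb (n := n) (m := m)) (PP n m) :=
      memLp_bb.integrable (by norm_num)
    exact (h1.const_inner u).1.aemeasurable
  have mW : AEMeasurable (fun ω => ⟪u, ww x K ω⟫) (PP n m) := iW.1.aemeasurable
  have iF : Integrable F (PP n m) := by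
    refine Integrable.mono' (g := fun ω => 2 * τ * |⟪u, ww x K ω⟫|)
      (iW.abs.const_mul _) ?_ ?_
    · refine AEMeasurable.aestronglyMeasurable ?_
      exact (measurable_Psi.comp_aemeasurable (mβ.add (mW.const_mul τ))).sub
        (measurable_Psi.comp_aemeasurable (mβ.sub (mW.const_mul τ)))
    · refine Filter.Eventually.of_forall fun ω => ?_
      rw [Real.norm_eq_abs]
      refine (Psi_lipschitz _ _).trans ?_
      have e1 : ⟪u, bb ω⟫ + τ * ⟪u, ww x K ω⟫ - (⟪u, bb ω⟫ - τ * ⟪u, ww x K ω⟫) =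
          (2 * τ) * ⟪u, ww x K ω⟫ := by ring
      rw [e1, abs_mul, abs_of_nonneg (by positivity : (0 : ℝ) ≤ 2 * τ)]
  obtain ⟨hflip, iflip⟩ := flip_inv u hu F iF
  have iL : Integrable (fun ω => dPsi ⟪u, bb ω⟫ * phiC x K u (Finset.univ : Finset (Fin m)) ω)
      (PP n m) := by
    have h1 : Integrable (phiC x K u (Finset.univ : Finset (Fin m))) (PP n m) := by
      have := memLp_phiC (m := m) x K u Finset.univ 2
      exact this.integrable (by norm_num)
    refine h1.bdd_mul (c := 1) ?_ ?_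
    · exact (measurable_dPsi.comp_aemeasurable mβ).aestronglyMeasurable
    · exact Filter.Eventually.of_forall fun ω => by
        rw [Real.norm_eq_abs]; exact abs_dPsi_le _
  have hlin := linear_term x K u hu (m := m)
  have hdiff : PhiF m x K τ u - 2 * τ * ((-1) ^ m * cD m * pp m x K u) =
      ∫ ω, ((2 ^ m : ℝ)⁻¹ * ∑ e : Fin m → Bool, F (ω.1, flipz u e ω.2) -
        2 * τ * (dPsi ⟪u, bb ω⟫ * phiC x K u (Finset.univ : Finset (Fin m)) ω)) ∂(PP n m) := by
    have eL : ∫ ω, 2 * τ * (dPsi ⟪u, bb ω⟫ * phiC x K u (Finset.univ : Finset (Fin m)) ω)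
        ∂(PP n m) = 2 * τ * ((-1) ^ m * cD m * pp m x K u) := by
      rw [integral_const_mul, hlin]
    rw [integral_sub iflip (iL.const_mul _), eL, hPhi, hflip]
  rw [hdiff]
  have hpt : ∀ ω, |(2 ^ m : ℝ)⁻¹ * ∑ e : Fin m → Bool, F (ω.1, flipz u e ω.2) -
        2 * τ * (dPsi ⟪u, bb ω⟫ * phiC x K u (Finset.univ : Finset (Fin m)) ω)| ≤
      2 ^ (2 ^ (m + 1)) * fe ω := by
    intro ω
    have h := flip_lemma (m := m) (c₀ := c₀) (r₀ := 2 * q) hc (by omega) hm
      (fun t => Psi (⟪u, bb ω⟫ + τ * t) - Psi (⟪u, bb ω⟫ - τ * t))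
      (fun t => by
        simp only [mul_neg, sub_neg_eq_add, ← sub_eq_add_neg]
        ring)
      (2 * τ * dPsi ⟪u, bb ω⟫) K2 Kr hK20 hKr0
      (fun t => by
        refine (hG1 _ τ t hτ).trans ?_
        refine mul_le_mul_of_nonneg_right ?_ (sq_nonneg _)
        exact mul_le_mul_of_nonneg_right (le_max_left _ _) (sq_nonneg _))
      (fun y s A hA => by
        refine (hG2 (Finset (Fin m)) _ τ y s A hτ hA).trans ?_
        refine mul_le_mul_of_nonneg_right ?_ (Finset.prod_nonneg fun i _ => abs_nonneg _)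
        exact mul_le_mul_of_nonneg_right (le_max_right _ _) (sq_nonneg _))
      (fun y s A hA => hG3 (Finset (Fin m)) _ τ y s A hτ hA)
      (fun C => phiC x K u C ω)
    have e1 : ∀ e : Fin m → Bool, F (ω.1, flipz u e ω.2) =
        (fun t => Psi (⟪u, bb ω⟫ + τ * t) - Psi (⟪u, bb ω⟫ - τ * t))
          (∑ C : Finset (Fin m), (∏ i ∈ Cᶜ, sg (e i)) * phiC x K u C ω) := by
      intro e
      simp only [hF]
      rw [inner_bb_flip u hu e ω, expand x K u hu e ω]
    simp only [e1]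
    have e2 : 2 * τ * (dPsi ⟪u, bb ω⟫ * phiC x K u (Finset.univ : Finset (Fin m)) ω) =
        2 * τ * dPsi ⟪u, bb ω⟫ * phiC x K u (Finset.univ : Finset (Fin m)) ω := by ring
    rw [e2]
    exact h
  calc |∫ ω, ((2 ^ m : ℝ)⁻¹ * ∑ e : Fin m → Bool, F (ω.1, flipz u e ω.2) -
        2 * τ * (dPsi ⟪u, bb ω⟫ * phiC x K u (Finset.univ : Finset (Fin m)) ω)) ∂(PP n m)|
      ≤ ∫ ω, |(2 ^ m : ℝ)⁻¹ * ∑ e : Fin m → Bool, F (ω.1, flipz u e ω.2) -
        2 * τ * (dPsi ⟪u, bb ω⟫ * phiC x K u (Finset.univ : Finset (Fin m)) ω)| ∂(PP n m) :=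
        abs_integral_le_integral_abs
    _ ≤ ∫ ω, 2 ^ (2 ^ (m + 1)) * fe ω ∂(PP n m) :=
        integral_mono (iflip.sub (iL.const_mul _)).abs (ife.const_mul _) hpt
    _ = 2 ^ (2 ^ (m + 1)) * ∫ ω, fe ω ∂(PP n m) := integral_const_mul _ _
    _ ≤ 2 ^ (2 ^ (m + 1)) * (C0 * errB m c₀ q x lam K τ u) :=
        mul_le_mul_of_nonneg_left bfe (by positivity)
    _ ≤ (1 + 2 ^ (2 ^ (m + 1)) * C0) * errB m c₀ q x lam K τ u := by
        nlinarith [herr0]

end Pool.Agent.Helper47.LB
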