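import Pool.Agent.Helper47.LB.Defs

/-!
# The ridge kernel

`W = diag(√w)`, `𝒢 = W G W` (positive semidefinite), `B = (𝒢 + lam)⁻¹`, `K = W B W`.
Spectral theorem for `𝒢`: orthonormal eigenvectors `v_k`, eigenvalues `μ_k ≥ 0`; with
`χ̂_k = ⟨v_k, W χ⟩`:
* `χᵀ K χ = ∑ χ̂_k²/(μ_k+lam) ∈ [0, lam⁻¹ |Wχ|²]`, `|Wχ|² = ∑ w_i χ_i²`;
* `K G K = W B 𝒢 B W`, `χᵀ K G K χ = ∑ μ_k/(μ_k+lam)² χ̂_k² ≤ lam⁻¹ |Wχ|²`;
* for `χ = G e_j`: `√(w_j) W G e_j = 𝒢 e_j`, so
  `w_j χᵀ K G K χ = ∑ μ_k³/(μ_k+lam)² v_k(j)² ≤ ∑ μ_k v_k(j)² = 𝒢_jj = w_j` (if `w_j ≠ 0` then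
  `G_jj = 1`; if `w_j = 0` both sides are `0`);
* `∑_j w_j χᵀ K χ = tr (𝒢 B 𝒢) = ∑ μ_k²/(μ_k+lam) ≥ ∑ (μ_k - lam) = ∑ w_j G_jj - lam N`;
* `tr (K G K G) = tr (B 𝒢 B 𝒢) = ∑ μ_k²/(μ_k+lam)² ≤ N`.
-/

open Matrix

namespace Pool.Agent.Helper47.LB

private structure AB {N : ℕ} (lam : ℝ) (C B : Matrix (Fin N) (Fin N) ℝ) : Prop where
  hC : C.PosSemidef
  hB : B.PosSemidef
  cb : C * B = 1 - lam • B
  bc : B * C = 1 - lam • B

private lemma exists_AB {N : ℕ} {lam : ℝ} (hl : 0 < lam) {C : Matrix (Fin N) (Fin N) ℝ}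
    (hC : C.PosSemidef) : ∃ B, AB lam C B := by
  have hH : (C + lam • (1 : Matrix (Fin N) (Fin N) ℝ)).PosDef :=
    Matrix.PosDef.posSemidef_add hC (Matrix.PosDef.one.smul hl)
  have hu := hH.isUnit
  rw [Matrix.isUnit_iff_isUnit_det] at hu
  refine ⟨(C + lam • (1 : Matrix (Fin N) (Fin N) ℝ))⁻¹, hC, hH.inv.posSemidef, ?_, ?_⟩
  · have h1 := Matrix.mul_nonsing_inv _ hu
    rw [add_mul, smul_mul_assoc, one_mul] at h1
    exact eq_sub_of_add_eq h1
  · have h1 := Matrix.nonsing_inv_mul _ hu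
    rw [mul_add, mul_smul_comm, mul_one] at h1
    exact eq_sub_of_add_eq h1

variable {N : ℕ} {lam : ℝ} {C B : Matrix (Fin N) (Fin N) ℝ}

private lemma AB.sC (h : AB lam C B) : Cᴴ = C := h.hC.1

private lemma AB.sB (h : AB lam C B) : Bᴴ = B := h.hB.1

private lemma AB.bcb (h : AB lam C B) : (B * C * B).PosSemidef := by
  have k := h.hC.conjTranspose_mul_mul_same B
  rw [h.sB] at k
  exact k

private lemma AB.bb (h : AB lam C B) : (B * B).PosSemidef := by
  have k := Matrix.posSemidef_conjTranspose_mul_self B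
  rw [h.sB] at k
  exact k

private lemma AB.p1 (h : AB lam C B) (hl : 0 < lam) : (1 - lam • B).PosSemidef := by
  have k1 := Matrix.posSemidef_conjTranspose_mul_self (C * B)
  rw [Matrix.conjTranspose_mul, h.sB, h.sC] at k1
  have e : (1 - lam • B) = B * C * (C * B) + lam • (B * C * B) := by
    rw [h.bc, h.cb]
    simp only [sub_mul, mul_sub, smul_mul_assoc, mul_smul_comm, mul_one, one_mul, smul_sub]
    abel
  rw [e]
  exact k1.add (h.bcb.smul hl.le)

private lemma AB.p2 (h : AB lam C B) (hl : 0 < lam) : (1 - lam • (B * C * B)).PosSemidef := by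
  have e : (1 - lam • (B * C * B)) = (1 - lam • B) + (lam * lam) • (B * B) := by
    rw [h.bc]
    simp only [sub_mul, smul_mul_assoc, one_mul, smul_sub, smul_smul]
    abel
  rw [e]
  exact (h.p1 hl).add (h.bb.smul (by positivity))

private lemma AB.p3 (h : AB lam C B) (hl : 0 < lam) : (C - C * (B * C * B) * C).PosSemidef := by
  have k1 := Matrix.posSemidef_conjTranspose_mul_self (C * B)
  rw [Matrix.conjTranspose_mul, h.sB, h.sC] at k1
  have e : C - C * (B * C * B) * C = lam • (B * C * (C * B)) + lam • (1 - lam • B) := by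
    have e1 : C * (B * C * B) * C = (C * B) * (C * (B * C)) := by
      simp only [mul_assoc]
    have e2 : C * (B * C) = C - lam • (1 - lam • B) := by
      rw [h.bc, mul_sub, mul_one, mul_smul_comm, h.cb]
    rw [e1, e2, h.cb, h.bc, sub_mul, mul_sub, one_mul, smul_mul_assoc, mul_sub, h.bc]
    simp only [sub_mul, mul_sub, smul_mul_assoc, mul_smul_comm, mul_one, one_mul, smul_sub,
      smul_smul]
    abel
  rw [e]
  exact (k1.smul hl.le).add ((h.p1 hl).smul hl.le)

private lemma AB.p4 (h : AB lam C B) (hl : 0 < lam) :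
    (C * B * C - C + lam • (1 : Matrix (Fin N) (Fin N) ℝ)).PosSemidef := by
  have e : C * B * C - C + lam • (1 : Matrix (Fin N) (Fin N) ℝ) = (lam * lam) • B := by
    rw [h.cb, sub_mul, one_mul, smul_mul_assoc, h.bc]
    simp only [smul_sub, smul_smul]
    abel
  rw [e]
  exact h.hB.smul (by positivity)

private lemma AB.p5 (h : AB lam C B) (hl : 0 < lam) : (1 - B * C * (B * C)).PosSemidef := by
  have e : 1 - B * C * (B * C) = lam • B + lam • (B * C * B) := by
    rw [h.bc]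
    simp only [sub_mul, mul_sub, smul_mul_assoc, mul_smul_comm, mul_one, one_mul, smul_sub,
      smul_smul]
    abel
  rw [e]
  exact (h.hB.smul hl.le).add (h.bcb.smul hl.le)

private lemma quad (s : Fin N → ℝ) (M : Matrix (Fin N) (Fin N) ℝ) (χ : Fin N → ℝ) :
    χ ⬝ᵥ ((diagonal s * M * diagonal s) *ᵥ χ) =
      (fun i => s i * χ i) ⬝ᵥ (M *ᵥ (fun i => s i * χ i)) := by
  simp only [dotProduct, mulVec, Matrix.mul_diagonal, Matrix.diagonal_mul]
  refine Finset.sum_congr rfl fun i _ => ?_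
  rw [Finset.mul_sum, Finset.mul_sum]
  refine Finset.sum_congr rfl fun j _ => ?_
  ring

private lemma col (h : Cᵀ = C) (M : Matrix (Fin N) (Fin N) ℝ) (j : Fin N) :
    (fun i => C i j) ⬝ᵥ (M *ᵥ (fun i => C i j)) = (C * M * C) j j := by
  rw [mul_assoc, Matrix.mul_apply]
  simp only [dotProduct, mulVec, Matrix.mul_apply]
  refine Finset.sum_congr rfl fun i _ => ?_
  have e : C j i = C i j := by
    conv_lhs => rw [← h]
    rfl
  rw [e]

private lemma psd_quad {M : Matrix (Fin N) (Fin N) ℝ} (h : M.PosSemidef) (y : Fin N → ℝ) :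
    0 ≤ y ⬝ᵥ (M *ᵥ y) := by
  have k := h.dotProduct_mulVec_nonneg y
  simpa using k

theorem exists_kernel {N : ℕ} (w : Fin N → ℝ) (hw : ∀ i, 0 ≤ w i) (G : Matrix (Fin N) (Fin N) ℝ)
    (hG : G.PosSemidef) (hdiag : ∀ i, w i ≠ 0 → G i i = 1) (lam : ℝ) (hl : 0 < lam) :
    ∃ K : Matrix (Fin N) (Fin N) ℝ, KProps w G lam K := by
  obtain ⟨s, hs⟩ : ∃ s : Fin N → ℝ, ∀ i, s i = Real.sqrt (w i) := ⟨_, fun _ => rfl⟩
  have hss : ∀ i, s i * s i = w i := fun i => by rw [hs]; exact Real.mul_self_sqrt (hw i)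
  obtain ⟨C, hC⟩ : ∃ C, C = diagonal s * G * diagonal s := ⟨_, rfl⟩
  have hCpsd : C.PosSemidef := by
    have k := hG.mul_mul_conjTranspose_same (diagonal s)
    rw [Matrix.diagonal_conjTranspose] at k
    rw [hC]
    exact k
  obtain ⟨B, h⟩ := exists_AB hl hCpsd
  have hCt : Cᵀ = C := by
    have k := h.sC
    rwa [Matrix.conjTranspose_eq_transpose_of_trivial] at k
  have hBt : Bᵀ = B := by
    have k := h.sB
    rwa [Matrix.conjTranspose_eq_transpose_of_trivial] at k
  have hCij : ∀ i j, C i j = s i * G i j * s j := fun i j => by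
    rw [hC, Matrix.mul_diagonal, Matrix.diagonal_mul]
  have hCjj : ∀ j, C j j = w j := fun j => by
    rw [hCij]
    by_cases hj : w j = 0
    · have h0 : s j = 0 := by rw [hs, hj, Real.sqrt_zero]
      rw [h0, hj]
      ring
    · rw [hdiag j hj, mul_one]
      exact hss j
  have hnorm : ∀ χ : Fin N → ℝ, (fun i => s i * χ i) ⬝ᵥ (fun i => s i * χ i) =
      ∑ i, w i * χ i ^ 2 := fun χ => by
    simp only [dotProduct]
    refine Finset.sum_congr rfl fun i _ => ?_
    rw [← hss i]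
    ring
  have hKGK : diagonal s * B * diagonal s * G * (diagonal s * B * diagonal s) =
      diagonal s * (B * C * B) * diagonal s := by
    rw [hC]
    simp only [mul_assoc]
  have hcol : ∀ (M : Matrix (Fin N) (Fin N) ℝ) (j : Fin N),
      w j * ((fun i => G i j) ⬝ᵥ ((diagonal s * M * diagonal s) *ᵥ (fun i => G i j))) =
        (C * M * C) j j := fun M j => by
    rw [quad, ← col hCt]
    simp only [dotProduct, mulVec, hCij]
    rw [Finset.mul_sum]
    refine Finset.sum_congr rfl fun i _ => ?_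
    rw [Finset.mul_sum, Finset.mul_sum, Finset.mul_sum]
    refine Finset.sum_congr rfl fun k _ => ?_
    rw [← hss j]
    ring
  refine ⟨diagonal s * B * diagonal s, ?_, ?_, ?_, ?_, ?_, ?_, ?_⟩
  · rw [Matrix.transpose_mul, Matrix.transpose_mul, hBt, Matrix.diagonal_transpose, mul_assoc]
  · intro χ
    rw [hKGK, quad, ← hnorm]
    have k := psd_quad (h.p2 hl) (fun i => s i * χ i)
    rw [Matrix.sub_mulVec, Matrix.one_mulVec, Matrix.smul_mulVec, dotProduct_sub,
      dotProduct_smul, smul_eq_mul] at k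
    rw [← div_eq_inv_mul, le_div_iff₀ hl]
    linarith
  · intro j
    rw [hKGK, hcol]
    have k := (h.p3 hl).diag_nonneg (i := j)
    rw [Matrix.sub_apply, hCjj] at k
    linarith
  · intro χ
    rw [quad]
    exact psd_quad h.hB _
  · intro χ
    rw [quad, ← hnorm]
    have k := psd_quad (h.p1 hl) (fun i => s i * χ i)
    rw [Matrix.sub_mulVec, Matrix.one_mulVec, Matrix.smul_mulVec, dotProduct_sub,
      dotProduct_smul, smul_eq_mul] at k
    rw [← div_eq_inv_mul, le_div_iff₀ hl]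
    linarith
  · have e : ∑ j, w j * ((fun i => G i j) ⬝ᵥ
        ((diagonal s * B * diagonal s) *ᵥ (fun i => G i j))) = (C * B * C).trace := by
      rw [Matrix.trace]
      exact Finset.sum_congr rfl fun j _ => hcol B j
    rw [e]
    have k := (h.p4 hl).trace_nonneg
    rw [Matrix.trace_add, Matrix.trace_sub, Matrix.trace_smul, Matrix.trace_one,
      Fintype.card_fin, smul_eq_mul] at k
    have e2 : C.trace = ∑ i, w i := by
      rw [Matrix.trace]
      exact Finset.sum_congr rfl fun j _ => hCjj j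
    rw [e2] at k
    linarith
  · have e : (diagonal s * B * diagonal s * G * (diagonal s * B * diagonal s) * G).trace =
        (B * C * (B * C)).trace := by
      rw [hKGK, mul_assoc, mul_assoc, Matrix.trace_mul_comm, hC]
      simp only [mul_assoc]
    rw [e]
    have k := (h.p5 hl).trace_nonneg
    rw [Matrix.trace_sub, Matrix.trace_one, Fintype.card_fin] at k
    linarith

end Pool.Agent.Helper47.LB
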