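import Pool.Agent.Helper47.LB.SecW

/-!
# Testing

`DD_Psi`: `|DD x (fun u => Psi ⟨u,y⟩)| ≤ ε (√n + ‖y‖)`. Use it at `y = bb ω ± τ ww ω` and integrate
over `ω`: `DD x (PhiF) = ∫ (DD x (Psi⟨·,bb+τww⟩) - DD x (Psi⟨·,bb-τww⟩))` (finite sum and
Fubini: `|Psi ⟨u,bb+τww⟩ - Psi ⟨u,bb-τww⟩| ≤ 2τ‖ww‖` for `‖u‖ ≤ 1` by `Psi_lipschitz`), so
`|DD x PhiF| ≤ ε (2√n + 2 E‖bb‖ + 2τ E‖ww‖) ≤ 2ε (√n + √((2m+1)n) + τ√N)` (`bb_sec`, `ww_sec`,
`(E‖X‖)² ≤ E‖X‖²`).
-/

open MeasureTheory ProbabilityTheory Matrix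
open scoped RealInnerProductSpace ENNReal
open Pool.Agent.Helper24.Zono

namespace Pool.Agent.Helper47.LB

variable {n N m : ℕ}

private noncomputable def FF (x : Fin N → En n) (K : Matrix (Fin N) (Fin N) ℝ) (τ : ℝ) (u : En n)
    (ω : (Fin (m + 1) → En n) × (Fin m → En n)) : ℝ :=
  Psi ⟪u, bb ω + τ • ww x K ω⟫ - Psi ⟪u, bb ω - τ • ww x K ω⟫

private lemma PhiF_eq (x : Fin N → En n) (K : Matrix (Fin N) (Fin N) ℝ) (τ : ℝ) (u : En n) :
    PhiF m x K τ u = ∫ ω, FF x K τ u ω ∂(PP n m) := rfl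

private lemma continuous_bb : Continuous (bb (n := n) (m := m)) := by
  unfold bb
  fun_prop

private lemma continuous_prf {s : ℕ} (v : Fin s → En n) : Continuous (prf v) := by
  unfold prf
  fun_prop

private lemma continuous_ww (x : Fin N → En n) (K : Matrix (Fin N) (Fin N) ℝ) :
    Continuous (ww (m := m) x K) := by
  unfold ww
  have h1 := fun p : Fin N => (continuous_prf (s := m + 1) (fun _ => dir x p)).comp
    (continuous_fst : Continuous (Prod.fst : (Fin (m + 1) → En n) × (Fin m → En n) → _))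
  have h2 := fun q : Fin N => (continuous_prf (s := m) (fun _ => dir x q)).comp
    (continuous_snd : Continuous (Prod.snd : (Fin (m + 1) → En n) × (Fin m → En n) → _))
  refine continuous_finsetSum _ fun q _ => Continuous.smul (Continuous.mul ?_ (h2 q)) continuous_const
  exact continuous_finsetSum _ fun p _ => continuous_const.mul (h1 p)

private lemma continuous_FF (x : Fin N → En n) (K : Matrix (Fin N) (Fin N) ℝ) (τ : ℝ) :
    Continuous (fun p : En n × ((Fin (m + 1) → En n) × (Fin m → En n)) => FF x K τ p.1 p.2) := by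
  unfold FF
  have hb : Continuous (fun p : En n × ((Fin (m + 1) → En n) × (Fin m → En n)) => bb p.2) :=
    continuous_bb.comp continuous_snd
  have hw : Continuous (fun p : En n × ((Fin (m + 1) → En n) × (Fin m → En n)) => ww x K p.2) :=
    (continuous_ww x K).comp continuous_snd
  exact (continuous_Psi.comp (continuous_fst.inner (hb.add (hw.const_smul τ)))).sub
    (continuous_Psi.comp (continuous_fst.inner (hb.sub (hw.const_smul τ))))

private lemma FF_le (x : Fin N → En n) (K : Matrix (Fin N) (Fin N) ℝ) (τ : ℝ) (hτ : 0 ≤ τ) (u : En n)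
    (hu : ‖u‖ ≤ 1) (ω : (Fin (m + 1) → En n) × (Fin m → En n)) :
    |FF x K τ u ω| ≤ 2 * τ * ‖ww x K ω‖ := by
  unfold FF
  refine (Psi_lipschitz _ _).trans ?_
  rw [← inner_sub_right]
  have h : bb ω + τ • ww x K ω - (bb ω - τ • ww x K ω) = (2 * τ) • ww x K ω := by
    rw [two_mul, add_smul]; abel
  rw [h]
  refine (abs_real_inner_le_norm _ _).trans ?_
  rw [norm_smul, Real.norm_of_nonneg (by positivity)]
  exact mul_le_of_le_one_left (by positivity) hu

private lemma int_ww (x : Fin N → En n) (K : Matrix (Fin N) (Fin N) ℝ) :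
    Integrable (fun ω => ‖ww (m := m) x K ω‖) (PP n m) :=
  ((memLp_ww x K).integrable (by norm_num)).norm

private lemma int_bb : Integrable (fun ω => ‖bb (n := n) (m := m) ω‖) (PP n m) :=
  (memLp_bb.integrable (by norm_num)).norm

private lemma int_FF (x : Fin N → En n) (K : Matrix (Fin N) (Fin N) ℝ) (τ : ℝ) (hτ : 0 ≤ τ) (u : En n)
    (hu : ‖u‖ ≤ 1) : Integrable (FF x K τ u) (PP n m) := by
  refine Integrable.mono' ((int_ww (m := m) x K).const_mul (2 * τ)) ?_
    (Filter.Eventually.of_forall fun ω => ?_)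
  · exact ((continuous_FF x K τ).comp (Continuous.prodMk_right u)).aestronglyMeasurable
  · rw [Real.norm_eq_abs]
    exact FF_le x K τ hτ u hu ω

theorem measurable_PhiF (x : Fin N → En n) (K : Matrix (Fin N) (Fin N) ℝ) (τ : ℝ) :
    Measurable (PhiF m x K τ) := by
  have h := (continuous_FF (m := m) x K τ).stronglyMeasurable
  exact (StronglyMeasurable.integral_prod_right (ν := PP n m) h).measurable

theorem PhiF_bdd (x : Fin N → En n) (K : Matrix (Fin N) (Fin N) ℝ) (τ : ℝ) (hτ : 0 ≤ τ) :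
    ∃ B : ℝ, ∀ u : En n, ‖u‖ ≤ 1 → |PhiF m x K τ u| ≤ B := by
  refine ⟨∫ ω, 2 * τ * ‖ww (m := m) x K ω‖ ∂(PP n m), fun u hu => ?_⟩
  rw [PhiF_eq, ← Real.norm_eq_abs]
  refine norm_integral_le_of_norm_le ((int_ww x K).const_mul (2 * τ))
    (Filter.Eventually.of_forall fun ω => ?_)
  rw [Real.norm_eq_abs]
  exact FF_le x K τ hτ u hu ω

private lemma int_norm_le {Ω : Type*} [MeasurableSpace Ω] (μ : Measure Ω) [IsProbabilityMeasure μ]
    {X : Ω → En n} (hX : MemLp X 2 μ) (B : ℝ) (hB : ∫ ω, ‖X ω‖ ^ 2 ∂μ ≤ B) :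
    ∫ ω, ‖X ω‖ ∂μ ≤ Real.sqrt B := by
  have h1 : Integrable (fun ω => ‖X ω‖) μ := (hX.integrable (by norm_num)).norm
  have h2 : Integrable (fun ω => ‖X ω‖ ^ 2) μ := hX.norm.integrable_sq
  set c := ∫ ω, ‖X ω‖ ∂μ with hc
  have h3 : 0 ≤ ∫ ω, (‖X ω‖ - c) ^ 2 ∂μ := integral_nonneg fun ω => sq_nonneg _
  have h4 : ∫ ω, (‖X ω‖ - c) ^ 2 ∂μ = ∫ ω, ‖X ω‖ ^ 2 ∂μ - c ^ 2 := by
    have e : ∀ ω, (‖X ω‖ - c) ^ 2 = ‖X ω‖ ^ 2 - (2 * c) * ‖X ω‖ + c ^ 2 := fun ω => by ring
    have i1 : Integrable (fun ω => ‖X ω‖ ^ 2 - (2 * c) * ‖X ω‖) μ := h2.sub (h1.const_mul _)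
    simp only [e]
    rw [integral_add i1 (integrable_const _), integral_sub h2 (h1.const_mul _),
      integral_const_mul, ← hc, integral_const, probReal_univ, one_smul]
    ring
  have h5 : c ^ 2 ≤ B := by linarith
  exact (le_abs_self _).trans (Real.abs_le_sqrt h5)

private lemma DD_int (x : Fin N → En n) (K : Matrix (Fin N) (Fin N) ℝ) (τ : ℝ) (hτ : 0 ≤ τ) :
    DD x (PhiF m x K τ) = ∫ ω, DD x (fun u => FF x K τ u ω) ∂(PP n m) := by
  have hprod : Integrable (Function.uncurry fun (z : En n)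
      (ω : (Fin (m + 1) → En n) × (Fin m → En n)) => ‖z‖ * FF x K τ (‖z‖⁻¹ • z) ω)
      ((stdGaussian (En n)).prod (PP n m)) := by
    have hb : Integrable (fun p : En n × ((Fin (m + 1) → En n) × (Fin m → En n)) =>
        ‖p.1‖ * (2 * τ * ‖ww x K p.2‖)) ((stdGaussian (En n)).prod (PP n m)) :=
      integrable_norm'.mul_prod ((int_ww x K).const_mul (2 * τ))
    refine Integrable.mono' hb ?_ (Filter.Eventually.of_forall fun p => ?_)
    · have hF : Measurable (fun p : En n × ((Fin (m + 1) → En n) × (Fin m → En n)) =>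
          FF x K τ p.1 p.2) := (continuous_FF x K τ).measurable
      have hg1 : Measurable (fun p : En n × ((Fin (m + 1) → En n) × (Fin m → En n)) => ‖p.1‖) :=
        measurable_fst.norm
      have hg2 : Measurable (fun p : En n × ((Fin (m + 1) → En n) × (Fin m → En n)) =>
          ‖p.1‖⁻¹ • p.1) := hg1.inv.smul measurable_fst
      have hg : Measurable (fun p : En n × ((Fin (m + 1) → En n) × (Fin m → En n)) =>
          ((‖p.1‖⁻¹ • p.1, p.2) : En n × ((Fin (m + 1) → En n) × (Fin m → En n)))) :=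
        hg2.prodMk measurable_snd
      have hc : Measurable (fun p : En n × ((Fin (m + 1) → En n) × (Fin m → En n)) =>
          FF x K τ (‖p.1‖⁻¹ • p.1) p.2) := by
        have h0 := hF.comp hg
        simp only [Function.comp_def] at h0
        exact h0
      exact (hg1.mul hc).aestronglyMeasurable
    · change ‖‖p.1‖ * FF x K τ (‖p.1‖⁻¹ • p.1) p.2‖ ≤ _
      rw [norm_mul, norm_norm, Real.norm_eq_abs]
      exact mul_le_mul_of_nonneg_left (FF_le x K τ hτ _ (norm_hat_le _) _) (norm_nonneg _)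
  have hswap := integral_integral_swap (μ := stdGaussian (En n)) (ν := PP n m)
    (f := fun (z : En n) (ω : (Fin (m + 1) → En n) × (Fin m → En n)) =>
      ‖z‖ * FF x K τ (‖z‖⁻¹ • z) ω) hprod
  have hiso : isoI (PhiF m x K τ) = ∫ ω, isoI (fun u => FF x K τ u ω) ∂(PP n m) := by
    unfold isoI
    rw [integral_const_mul, ← hswap]
    congr 1
    refine integral_congr_ae (Filter.Eventually.of_forall fun z => ?_)
    simp only
    rw [integral_const_mul, PhiF_eq]
  have hiso_int : Integrable (fun ω => isoI (fun u => FF x K τ u ω)) (PP n m) := by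
    unfold isoI
    exact (hprod.integral_prod_right).const_mul _
  have hsum : ∑ j, wt x j * PhiF m x K τ (dir x j)
      = ∫ ω, ∑ j, wt x j * FF x K τ (dir x j) ω ∂(PP n m) := by
    rw [integral_finsetSum _ fun j _ => (int_FF x K τ hτ _ (norm_dir_le x j)).const_mul _]
    refine Finset.sum_congr rfl fun j _ => ?_
    rw [integral_const_mul, PhiF_eq]
  unfold DD
  rw [hiso, hsum, ← integral_sub _ hiso_int]
  exact integrable_finsetSum _ fun j _ => (int_FF x K τ hτ _ (norm_dir_le x j)).const_mul _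

theorem main_ineq (x : Fin N → En n) (ε : ℝ) (hε : 0 ≤ ε)
    (hlow : ∀ y, (1 - ε) * ‖y‖ ≤ ∑ j, |⟪y, x j⟫|)
    (hup : ∀ y, ∑ j, |⟪y, x j⟫| ≤ (1 + ε) * ‖y‖)
    (lam : ℝ) (K : Matrix (Fin N) (Fin N) ℝ)
    (hK : KProps (wt x) (gram x (m + 1)) lam K) (τ : ℝ) (hτ : 0 ≤ τ) :
    |DD x (PhiF m x K τ)| ≤
      2 * ε * (Real.sqrt n + Real.sqrt ((2 * m + 1) * n) + τ * Real.sqrt N) := by
  have hpt : ∀ ω : (Fin (m + 1) → En n) × (Fin m → En n), |DD x (fun u => FF x K τ u ω)| ≤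
      ε * (2 * Real.sqrt n) + ((2 * ε) * ‖bb ω‖ + (2 * ε * τ) * ‖ww x K ω‖) := by
    intro ω
    have h1 := DD_Psi x ε hε hlow hup (bb ω + τ • ww x K ω)
    have h2 := DD_Psi x ε hε hlow hup (bb ω - τ • ww x K ω)
    have h3 : DD x (fun u => FF x K τ u ω) = DD x (fun u => Psi ⟪u, bb ω + τ • ww x K ω⟫)
        - DD x (fun u => Psi ⟪u, bb ω - τ • ww x K ω⟫) := DD_sub x (nice_Psi _) (nice_Psi _)
    have h4 : ‖bb ω + τ • ww x K ω‖ ≤ ‖bb ω‖ + τ * ‖ww x K ω‖ := by
      refine (norm_add_le _ _).trans ?_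
      rw [norm_smul, Real.norm_of_nonneg hτ]
    have h5 : ‖bb ω - τ • ww x K ω‖ ≤ ‖bb ω‖ + τ * ‖ww x K ω‖ := by
      refine (norm_sub_le _ _).trans ?_
      rw [norm_smul, Real.norm_of_nonneg hτ]
    have h6 := mul_le_mul_of_nonneg_left h4 hε
    have h7 := mul_le_mul_of_nonneg_left h5 hε
    rw [h3]
    refine (abs_sub _ _).trans ?_
    nlinarith
  rw [DD_int x K τ hτ, ← Real.norm_eq_abs]
  have hint : Integrable (fun ω : (Fin (m + 1) → En n) × (Fin m → En n) =>
      ε * (2 * Real.sqrt n) + ((2 * ε) * ‖bb ω‖ + (2 * ε * τ) * ‖ww x K ω‖)) (PP n m) :=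
    (integrable_const _).add ((int_bb.const_mul _).add ((int_ww x K).const_mul _))
  refine (norm_integral_le_of_norm_le hint (Filter.Eventually.of_forall fun ω => ?_)).trans ?_
  · rw [Real.norm_eq_abs]; exact hpt ω
  · have i2 : Integrable (fun ω : (Fin (m + 1) → En n) × (Fin m → En n) =>
        (2 * ε) * ‖bb ω‖ + (2 * ε * τ) * ‖ww x K ω‖) (PP n m) :=
      (int_bb.const_mul _).add ((int_ww x K).const_mul _)
    have e1 : ∫ ω : (Fin (m + 1) → En n) × (Fin m → En n), (2 * ε) * ‖bb ω‖ ∂(PP n m) =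
        (2 * ε) * ∫ ω, ‖bb ω‖ ∂(PP n m) := integral_const_mul _ _
    have e2 : ∫ ω : (Fin (m + 1) → En n) × (Fin m → En n), (2 * ε * τ) * ‖ww x K ω‖ ∂(PP n m) =
        (2 * ε * τ) * ∫ ω, ‖ww x K ω‖ ∂(PP n m) := integral_const_mul _ _
    rw [integral_add (integrable_const _) i2,
      integral_add (int_bb.const_mul _) ((int_ww x K).const_mul _), e1, e2]
    have hb := int_norm_le (PP n m) (memLp_bb (n := n) (m := m)) ((2 * m + 1) * n) bb_sec.le
    have hw := int_norm_le (PP n m) (memLp_ww (m := m) x K) N (ww_sec x lam K hK)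
    have h8 := mul_le_mul_of_nonneg_left hb (by positivity : 0 ≤ 2 * ε)
    have h9 := mul_le_mul_of_nonneg_left hw (by positivity : 0 ≤ 2 * ε * τ)
    simp only [integral_const, probReal_univ, one_smul]
    nlinarith

end Pool.Agent.Helper47.LB
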