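import Pool.Agent.Helper47.LB.ErrDefs
import Pool.Agent.Helper47.LB.APsup

/-!
# Sums of the errors over the atoms, and over the isotropic measure

`ν F = ∑_j wt x j F(dir x j)` resp. `ν F = isoI F`; both are positive linear functionals and satisfy
Cauchy-Schwarz `ν(√(fg)) ≤ √(ν f) √(ν g)` (`f, g ≥ 0`). `lam⁻¹ = 2N/W ≤ 4N/√n` for
`lam = W/(2N)`, `W = ∑ wt x j ∈ [√n/2, 15√n]` (`W_ge`, `W_le`).
`T l = lam⁻¹ ν(SS x l)`: `≤ C √n (N/n^l + N ε² p³/n)` for atoms by `ap_avg`; for `isoI`: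
`isoI (SS x l) = ∑ wt_i isoI(⟨·,u_i⟩^{2l}) ≤ C √n W/n^l`, even better. `ν(eD)`: atoms `≤ W` by
`sec_atom` (`eD` at `dir x j` is the expression in `sec_atom`); `isoI`: `eD ≤ lam⁻¹ SS x (m+1)`
(`sec_le`), `isoI ≤ C √n N/n^{m+1}`.
Supremum (unit `u`): `lam⁻¹ SS x 2 u ≤ C N/√n (√n/n² + ε p√p)` by `ap_sup`;
`(lam⁻¹ SS x 2)^q ≤ sup^{q-1} lam⁻¹ SS x 2`. In `isoI` the argument `z/‖z‖` is a unit vector for
almost every `z`.
-/

open MeasureTheory ProbabilityTheory Matrix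
open scoped RealInnerProductSpace ENNReal
open Pool.Agent.Helper24.Zono

namespace Pool.Agent.Helper47.LB

private lemma SumI_SS_nonneg {n N : ℕ} (x : Fin N → En n) (l : ℕ) (u : En n) :
    0 ≤ SS x l u := by
  unfold SS
  refine Finset.sum_nonneg fun i _ => mul_nonneg (wt_nonneg x i) ?_
  rw [pow_mul]
  exact pow_nonneg (sq_nonneg _) l

private lemma SumI_sqrt_le {a b : ℝ} (ha : 1 ≤ a) (_hb : 0 ≤ b) :
    Real.sqrt (a * b) ≤ a * Real.sqrt b := by
  rw [Real.sqrt_mul (by linarith)]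
  refine mul_le_mul_of_nonneg_right ?_ (Real.sqrt_nonneg b)
  rw [Real.sqrt_le_left (by linarith)]
  nlinarith

private lemma SumI_nice {n : ℕ} {F : En n → ℝ} (hF : Continuous F) : Nice F := by
  obtain ⟨B, hB⟩ := (isCompact_closedBall (0 : En n) 1).exists_bound_of_continuousOn
    hF.continuousOn
  refine nice_of_bdd F hF.measurable B fun v hv => ?_
  have h := hB v (by rw [mem_closedBall_zero_iff]; exact hv)
  rwa [Real.norm_eq_abs] at h

private lemma SumI_mono {n : ℕ} {F G : En n → ℝ} (hF : Nice F) (hG : Nice G)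
    (h : ∀ u, ‖u‖ = 1 → F u ≤ G u) : isoI F ≤ isoI G := by
  unfold isoI
  refine mul_le_mul_of_nonneg_left ?_ (inv_pos.2 Psi_zero_pos).le
  refine integral_mono hF hG fun z => ?_
  rcases eq_or_ne z 0 with h0 | h0
  · subst h0
    simp
  · refine mul_le_mul_of_nonneg_left (h _ ?_) (norm_nonneg _)
    rw [norm_smul, norm_inv, norm_norm, inv_mul_cancel₀ (norm_ne_zero_iff.2 h0)]

private lemma SumI_cs {n : ℕ} {f g : En n → ℝ} (hf : Continuous f) (hg : Continuous g)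
    (hf0 : ∀ u, 0 ≤ f u) (hg0 : ∀ u, 0 ≤ g u) {A B : ℝ} (hA : isoI f ≤ A) (hB : isoI g ≤ B)
    (hA0 : 0 < A) (hB0 : 0 < B) :
    isoI (fun u => Real.sqrt (f u * g u)) ≤ Real.sqrt (A * B) := by
  set t : ℝ := Real.sqrt B / Real.sqrt A with ht
  have hsA : 0 < Real.sqrt A := Real.sqrt_pos.2 hA0
  have hsB : 0 < Real.sqrt B := Real.sqrt_pos.2 hB0
  have ht0 : 0 < t := div_pos hsB hsA
  have h1 : isoI (fun u => Real.sqrt (f u * g u)) ≤
      isoI (fun u => t / 2 * f u + t⁻¹ / 2 * g u) := by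
    refine SumI_mono (SumI_nice (by fun_prop)) (SumI_nice (by fun_prop)) fun u _ => ?_
    rw [Real.sqrt_mul (hf0 u)]
    have e1 : f u = Real.sqrt (f u) ^ 2 := (Real.sq_sqrt (hf0 u)).symm
    have e2 : g u = Real.sqrt (g u) ^ 2 := (Real.sq_sqrt (hg0 u)).symm
    set a := Real.sqrt (f u)
    set b := Real.sqrt (g u)
    rw [e1, e2]
    have e3 : t / 2 * a ^ 2 + t⁻¹ / 2 * b ^ 2 - a * b = t⁻¹ / 2 * (t * a - b) ^ 2 := by
      field_simp
      ring
    have e4 : 0 ≤ t⁻¹ / 2 * (t * a - b) ^ 2 := by positivity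
    linarith
  have h2 : isoI (fun u => t / 2 * f u + t⁻¹ / 2 * g u) = t / 2 * isoI f + t⁻¹ / 2 * isoI g := by
    rw [isoI_add ((SumI_nice hf).const_mul _) ((SumI_nice hg).const_mul _), isoI_const_mul,
      isoI_const_mul]
  rw [h2] at h1
  refine h1.trans ?_
  have h3 : t / 2 * isoI f ≤ t / 2 * A := mul_le_mul_of_nonneg_left hA (by positivity)
  have h4 : t⁻¹ / 2 * isoI g ≤ t⁻¹ / 2 * B := mul_le_mul_of_nonneg_left hB (by positivity)
  have h5 : t / 2 * A + t⁻¹ / 2 * B = Real.sqrt (A * B) := by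
    rw [Real.sqrt_mul hA0.le]
    have e1 : A = Real.sqrt A ^ 2 := (Real.sq_sqrt hA0.le).symm
    have e2 : B = Real.sqrt B ^ 2 := (Real.sq_sqrt hB0.le).symm
    rw [ht, inv_div]
    set a := Real.sqrt A
    set b := Real.sqrt B
    rw [e1, e2]
    field_simp
    ring
  linarith

private lemma SumI_cont_SS {n N : ℕ} (x : Fin N → En n) (l : ℕ) : Continuous (SS x l) := by
  unfold SS
  fun_prop

private lemma SumI_cont_eD {n N : ℕ} (m : ℕ) (x : Fin N → En n) (K : Matrix (Fin N) (Fin N) ℝ) :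
    Continuous (eD m x K) := by
  unfold eD
  simp only [dotProduct, mulVec]
  fun_prop

private lemma SumI_iso_SS {n N : ℕ} (x : Fin N → En n) (l : ℕ) (C : ℝ) (_hn : 1 ≤ n)
    (hC : ∀ u : En n, ‖u‖ ≤ 1 → isoI (fun v => ⟪v, u⟫ ^ (2 * l)) ≤ C) :
    isoI (SS x l) ≤ (∑ i, wt x i) * C := by
  have h1 : isoI (SS x l) = ∑ i, wt x i * isoI (fun u : En n => ⟪u, dir x i⟫ ^ (2 * l)) := by
    have e1 : SS x l = fun u => ∑ i, wt x i * ⟪u, dir x i⟫ ^ (2 * l) := by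
      funext u
      unfold SS
      exact Finset.sum_congr rfl fun i _ => by rw [real_inner_comm]
    rw [e1, isoI_sum fun i => (SumI_nice (by fun_prop : Continuous fun u : En n =>
      ⟪u, dir x i⟫ ^ (2 * l))).const_mul _]
    exact Finset.sum_congr rfl fun i _ => isoI_const_mul _ _
  rw [h1, Finset.sum_mul]
  refine Finset.sum_le_sum fun i _ => ?_
  rcases wt_or x i with h | h
  · rw [h]; simp
  · exact mul_le_mul_of_nonneg_left (hC _ h.le) (wt_nonneg x i)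

theorem iso_errB (m c₀ q : ℕ) (hc : 1 ≤ c₀) (hq : 1 ≤ q) :
    ∃ C : ℝ, 1 ≤ C ∧ ∀ (n N : ℕ) (x : Fin N → En n) (ε : ℝ)
      (p : ℕ), 1 ≤ n → 1 ≤ N → 0 < ε → ε ≤ 1 / 2 → 1 ≤ p → Real.exp (-(p : ℝ)) ≤ ε →
      (∀ y, (1 - ε) * ‖y‖ ≤ ∑ j, |⟪y, x j⟫|) → (∀ y, ∑ j, |⟪y, x j⟫| ≤ (1 + ε) * ‖y‖) →
      ∀ (lam : ℝ) (K : Matrix (Fin N) (Fin N) ℝ), lam = (∑ j, wt x j) / (2 * N) →
        KProps (wt x) (gram x (m + 1)) lam K → ∀ τ : ℝ, 0 ≤ τ →
        Nice (fun u => errB m c₀ q x lam K τ u) ∧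
        isoI (fun u => errB m c₀ q x lam K τ u) ≤ C * numE m c₀ q p n N ε τ := by
  obtain ⟨C₁, hC₁, h₁⟩ := iso_moment 1 le_rfl
  obtain ⟨C₂, hC₂, h₂⟩ := iso_moment 2 (by norm_num)
  obtain ⟨C₃, hC₃, h₃⟩ := iso_moment (c₀ + 1) (by omega)
  obtain ⟨C₄, hC₄, h₄⟩ := iso_moment (m + 1) (by omega)
  obtain ⟨Cs, hCs, hs⟩ := ap_sup
  have hC5 : 0 ≤ (4 * Cs) ^ (q - 1) * (2 * C₂) := by positivity
  have hC41 : 1 ≤ C₄ * C₁ := by nlinarith
  have hC32 : 1 ≤ C₃ * C₂ := by nlinarith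
  refine ⟨2 * (C₄ * C₁) + 2 * (C₃ * C₂) + (4 * Cs) ^ (q - 1) * (2 * C₂), by linarith, ?_⟩
  intro n N x ε p hn hN hε hε2 hp hpe hlow hup lam K hlam hK τ hτ
  have hn0 : (0 : ℝ) < n := by exact_mod_cast hn
  have hN0 : (0 : ℝ) < N := by exact_mod_cast hN
  have hp0 : (0 : ℝ) < p := by exact_mod_cast hp
  have hsn : 0 < Real.sqrt n := Real.sqrt_pos.2 hn0
  set sn := Real.sqrt n with hsn_def
  have hW1 : sn / 2 ≤ ∑ j, wt x j := by
    have h := W_ge x ε hlow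
    have h2 : sn / 2 ≤ (1 - ε) * sn := by nlinarith
    exact h2.trans h
  set W := ∑ j, wt x j with hW_def
  have hW0 : 0 < W := by linarith
  have hlam0 : 0 < lam := by rw [hlam]; positivity
  have hLW : lam⁻¹ * W = 2 * N := by
    rw [hlam, inv_div]
    field_simp
  have hL : lam⁻¹ ≤ 4 * (N / sn) := by
    rw [hlam, inv_div, div_le_iff₀ hW0]
    have h3 : 4 * (N / sn) * (sn / 2) = 2 * N := by field_simp; ring
    have h4 : 4 * (N / sn) * (sn / 2) ≤ 4 * (N / sn) * W :=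
      mul_le_mul_of_nonneg_left hW1 (by positivity)
    linarith
  have hL0 : 0 < lam⁻¹ := inv_pos.2 hlam0
  set L := lam⁻¹ with hL_def
  set E : ℝ := ε ^ 2 * p ^ 3 with hE_def
  have hE0 : 0 ≤ E := by positivity
  have hcS : ∀ l : ℕ, Continuous fun u : En n => L * SS x l u := fun l =>
    continuous_const.mul (SumI_cont_SS x l)
  have hSn : ∀ (l : ℕ) (u : En n), 0 ≤ L * SS x l u := fun l u =>
    mul_nonneg hL0.le (SumI_SS_nonneg x l u)
  have hA : ∀ (l : ℕ) (C : ℝ), (∀ (n : ℕ) (u : En n), 1 ≤ n → ‖u‖ ≤ 1 →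
      isoI (fun v => ⟪v, u⟫ ^ (2 * l)) ≤ C * Real.sqrt n / (n : ℝ) ^ l) →
      isoI (fun u => L * SS x l u) ≤ 2 * C * (sn * (N / (n : ℝ) ^ l)) := by
    intro l C h
    have e1 := SumI_iso_SS x l (C * Real.sqrt n / (n : ℝ) ^ l) hn fun u hu => h n u hn hu
    rw [isoI_const_mul]
    calc L * isoI (fun u => SS x l u) ≤ L * (W * (C * Real.sqrt n / (n : ℝ) ^ l)) :=
          mul_le_mul_of_nonneg_left e1 hL0.le
      _ = (L * W) * (C * Real.sqrt n / (n : ℝ) ^ l) := by ring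
      _ = _ := by rw [hLW, ← hsn_def]; ring
  have hA1 := hA 1 C₁ h₁
  have hA2 := hA 2 C₂ h₂
  have hA3 := hA (c₀ + 1) C₃ h₃
  have hA4 := hA (m + 1) C₄ h₄
  have hP : ∀ l : ℕ, 0 < sn * (N / (n : ℝ) ^ l) := fun l => by positivity
  have hT : ∀ l : ℕ, 0 ≤ N / (n : ℝ) ^ l + N * E / n := fun l => by positivity
  set T1 := N / (n : ℝ) ^ 1 + N * E / n with hT1_def
  set T2 := N / (n : ℝ) ^ 2 + N * E / n with hT2_def
  set T3 := N / (n : ℝ) ^ (c₀ + 1) + N * E / n with hT3_def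
  have hNE : 0 ≤ N * E / n := by positivity
  -- the three functions
  have c1 : Continuous fun u : En n => Real.sqrt (eD m x K u * (L * SS x 1 u)) :=
    ((SumI_cont_eD m x K).mul (hcS 1)).sqrt
  have c2 : Continuous fun u : En n => Real.sqrt ((L * SS x (c₀ + 1) u) * (L * SS x 2 u)) :=
    ((hcS (c₀ + 1)).mul (hcS 2)).sqrt
  have c3 : Continuous fun u : En n => (L * SS x 2 u) ^ q := (hcS 2).pow q
  -- first term
  have t1 : isoI (fun u => Real.sqrt (eD m x K u * (L * SS x 1 u))) ≤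
      2 * (C₄ * C₁) * (sn * Real.sqrt ((1 + N / (n : ℝ) ^ (m + 1)) * T1)) := by
    have h5 : isoI (fun u => Real.sqrt (eD m x K u * (L * SS x 1 u))) ≤
        isoI (fun u => Real.sqrt ((L * SS x (m + 1) u) * (L * SS x 1 u))) := by
      refine SumI_mono (SumI_nice c1) (SumI_nice (((hcS (m + 1)).mul (hcS 1)).sqrt)) fun u _ => ?_
      refine Real.sqrt_le_sqrt (mul_le_mul_of_nonneg_right ?_ (hSn 1 u))
      have h6 := hK.sec_le (fun q => ⟪dir x q, u⟫ ^ (m + 1))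
      refine h6.trans (le_of_eq ?_)
      unfold SS
      refine congrArg (fun t : ℝ => L * t) (Finset.sum_congr rfl fun i _ => ?_)
      rw [← pow_mul, mul_comm (m + 1) 2]
    have h7 := SumI_cs (hcS (m + 1)) (hcS 1) (hSn (m + 1)) (hSn 1) hA4 hA1
      (by have := hP (m + 1); positivity) (by have := hP 1; positivity)
    refine h5.trans (h7.trans ?_)
    have h8 : 2 * C₄ * (sn * (N / (n : ℝ) ^ (m + 1))) * (2 * C₁ * (sn * (N / (n : ℝ) ^ 1))) =
        (2 * sn) ^ 2 * ((C₄ * C₁) * ((N / (n : ℝ) ^ (m + 1)) * (N / (n : ℝ) ^ 1))) := by ring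
    rw [h8, Real.sqrt_mul (sq_nonneg _), Real.sqrt_sq (by positivity)]
    have h9 : 0 ≤ (N / (n : ℝ) ^ (m + 1)) * (N / (n : ℝ) ^ 1) := by positivity
    calc 2 * sn * Real.sqrt ((C₄ * C₁) * ((N / (n : ℝ) ^ (m + 1)) * (N / (n : ℝ) ^ 1)))
        ≤ 2 * sn * ((C₄ * C₁) * Real.sqrt ((N / (n : ℝ) ^ (m + 1)) * (N / (n : ℝ) ^ 1))) :=
          mul_le_mul_of_nonneg_left (SumI_sqrt_le hC41 h9) (by positivity)
      _ ≤ 2 * sn * ((C₄ * C₁) * Real.sqrt ((1 + N / (n : ℝ) ^ (m + 1)) * T1)) := by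
          refine mul_le_mul_of_nonneg_left (mul_le_mul_of_nonneg_left (Real.sqrt_le_sqrt ?_)
            (by linarith)) (by positivity)
          have k1 : 0 ≤ N / (n : ℝ) ^ (m + 1) := by positivity
          have k2 : 0 ≤ N / (n : ℝ) ^ 1 := by positivity
          refine mul_le_mul (by linarith) ?_ k2 (by linarith)
          rw [hT1_def]
          linarith
      _ = _ := by ring
  -- second term
  have t2 : isoI (fun u => Real.sqrt ((L * SS x (c₀ + 1) u) * (L * SS x 2 u))) ≤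
      2 * (C₃ * C₂) * (sn * Real.sqrt (T3 * T2)) := by
    have h7 := SumI_cs (hcS (c₀ + 1)) (hcS 2) (hSn (c₀ + 1)) (hSn 2) hA3 hA2
      (by have := hP (c₀ + 1); positivity) (by have := hP 2; positivity)
    refine h7.trans ?_
    have h8 : 2 * C₃ * (sn * (N / (n : ℝ) ^ (c₀ + 1))) * (2 * C₂ * (sn * (N / (n : ℝ) ^ 2))) =
        (2 * sn) ^ 2 * ((C₃ * C₂) * ((N / (n : ℝ) ^ (c₀ + 1)) * (N / (n : ℝ) ^ 2))) := by ring
    rw [h8, Real.sqrt_mul (sq_nonneg _), Real.sqrt_sq (by positivity)]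
    have h9 : 0 ≤ (N / (n : ℝ) ^ (c₀ + 1)) * (N / (n : ℝ) ^ 2) := by positivity
    calc 2 * sn * Real.sqrt ((C₃ * C₂) * ((N / (n : ℝ) ^ (c₀ + 1)) * (N / (n : ℝ) ^ 2)))
        ≤ 2 * sn * ((C₃ * C₂) * Real.sqrt ((N / (n : ℝ) ^ (c₀ + 1)) * (N / (n : ℝ) ^ 2))) :=
          mul_le_mul_of_nonneg_left (SumI_sqrt_le hC32 h9) (by positivity)
      _ ≤ 2 * sn * ((C₃ * C₂) * Real.sqrt (T3 * T2)) := by
          refine mul_le_mul_of_nonneg_left (mul_le_mul_of_nonneg_left (Real.sqrt_le_sqrt ?_)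
            (by linarith)) (by positivity)
          have k1 : 0 ≤ N / (n : ℝ) ^ (c₀ + 1) := by positivity
          have k2 : 0 ≤ N / (n : ℝ) ^ 2 := by positivity
          rw [hT3_def, hT2_def]
          exact mul_le_mul (by linarith) (by linarith) k2 (by linarith)
      _ = _ := by ring
  -- third term
  set M : ℝ := N / sn * (sn / (n : ℝ) ^ 2 + ε * (p * Real.sqrt p)) with hM_def
  have hM0 : 0 ≤ M := by positivity
  have t3 : isoI (fun u => (L * SS x 2 u) ^ q) ≤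
      (4 * Cs) ^ (q - 1) * (2 * C₂) * (M ^ (q - 1) * (sn * T2)) := by
    have h5 : isoI (fun u => (L * SS x 2 u) ^ q) ≤
        isoI (fun u => (4 * Cs * M) ^ (q - 1) * (L * SS x 2 u)) := by
      refine SumI_mono (SumI_nice c3) ((SumI_nice (hcS 2)).const_mul _) fun u hu => ?_
      have h6 : L * SS x 2 u ≤ 4 * Cs * M := by
        calc L * SS x 2 u
            ≤ (4 * (N / sn)) * (Cs * (sn / (n : ℝ) ^ 2 + ε * (p * Real.sqrt p))) :=
              mul_le_mul hL (hs n N x ε p hn hε hε2 hp hpe hlow hup _ hu)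
                (SumI_SS_nonneg x 2 _) (by positivity)
          _ = _ := by
              rw [hM_def]
              ring
      have h8 : (L * SS x 2 u) ^ q = (L * SS x 2 u) ^ (q - 1) * (L * SS x 2 u) := by
        conv_lhs => rw [show q = (q - 1) + 1 by omega]
        rw [pow_succ]
      show (L * SS x 2 u) ^ q ≤ _
      rw [h8]
      exact mul_le_mul_of_nonneg_right (pow_le_pow_left₀ (hSn 2 u) h6 _) (hSn 2 u)
    rw [isoI_const_mul] at h5
    refine h5.trans ?_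
    have h9 : isoI (fun u => L * SS x 2 u) ≤ 2 * C₂ * (sn * T2) := by
      refine hA2.trans ?_
      refine mul_le_mul_of_nonneg_left (mul_le_mul_of_nonneg_left ?_ hsn.le) (by linarith)
      rw [hT2_def]
      linarith
    calc (4 * Cs * M) ^ (q - 1) * isoI (fun u => L * SS x 2 u)
        ≤ (4 * Cs * M) ^ (q - 1) * (2 * C₂ * (sn * T2)) :=
          mul_le_mul_of_nonneg_left h9 (by positivity)
      _ = _ := by
          rw [mul_pow (4 * Cs) M]
          ring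
  -- sum
  have e0 : (fun u => errB m c₀ q x lam K τ u) = fun u =>
      (τ ^ 2 * Real.sqrt (eD m x K u * (L * SS x 1 u)) +
        τ ^ 2 * Real.sqrt ((L * SS x (c₀ + 1) u) * (L * SS x 2 u))) +
        τ ^ (2 * q) * (L * SS x 2 u) ^ q := by
    funext u
    unfold errB
    rw [← hL_def]
  have n1 : Nice fun u : En n => τ ^ 2 * Real.sqrt (eD m x K u * (L * SS x 1 u)) :=
    (SumI_nice c1).const_mul _
  have n2 : Nice fun u : En n => τ ^ 2 * Real.sqrt ((L * SS x (c₀ + 1) u) * (L * SS x 2 u)) :=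
    (SumI_nice c2).const_mul _
  have n3 : Nice fun u : En n => τ ^ (2 * q) * (L * SS x 2 u) ^ q := (SumI_nice c3).const_mul _
  refine ⟨by rw [e0]; exact (n1.add n2).add n3, ?_⟩
  have e1 : numE m c₀ q p n N ε τ =
      τ ^ 2 * (sn * Real.sqrt ((1 + N / (n : ℝ) ^ (m + 1)) * T1)) +
        τ ^ 2 * (sn * Real.sqrt (T3 * T2)) + τ ^ (2 * q) * (M ^ (q - 1) * (sn * T2)) := by
    unfold numE
    have e2 : (N : ℝ) * ε ^ 2 * p ^ 3 / n = N * E / n := by
      rw [hE_def]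
      ring
    rw [e2, hT1_def, hT2_def, hT3_def, hM_def, pow_one, ← hsn_def]
    ring
  rw [e0, isoI_add (n1.add n2) n3, isoI_add n1 n2, isoI_const_mul, isoI_const_mul,
    isoI_const_mul, e1]
  set Q1 := sn * Real.sqrt ((1 + N / (n : ℝ) ^ (m + 1)) * T1) with hQ1
  set Q2 := sn * Real.sqrt (T3 * T2) with hQ2
  set Q3 := M ^ (q - 1) * (sn * T2) with hQ3
  have hQ1' : 0 ≤ Q1 := by positivity
  have hQ2' : 0 ≤ Q2 := by positivity
  have hQ3' : 0 ≤ Q3 := mul_nonneg (pow_nonneg hM0 _) (mul_nonneg hsn.le (hT 2))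
  have hτ2 : 0 ≤ τ ^ 2 := sq_nonneg τ
  have hτq : 0 ≤ τ ^ (2 * q) := pow_nonneg hτ _
  set CC := 2 * (C₄ * C₁) + 2 * (C₃ * C₂) + (4 * Cs) ^ (q - 1) * (2 * C₂) with hCC
  have k1 := mul_le_mul_of_nonneg_left (t1.trans (mul_le_mul_of_nonneg_right
    (show 2 * (C₄ * C₁) ≤ CC by linarith) hQ1')) hτ2
  have k2 := mul_le_mul_of_nonneg_left (t2.trans (mul_le_mul_of_nonneg_right
    (show 2 * (C₃ * C₂) ≤ CC by linarith) hQ2')) hτ2
  have k3 := mul_le_mul_of_nonneg_left (t3.trans (mul_le_mul_of_nonneg_right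
    (show (4 * Cs) ^ (q - 1) * (2 * C₂) ≤ CC by linarith) hQ3')) hτq
  calc _ ≤ τ ^ 2 * (CC * Q1) + τ ^ 2 * (CC * Q2) + τ ^ (2 * q) * (CC * Q3) := by
        linarith
    _ = _ := by ring

end Pool.Agent.Helper47.LB
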