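import Pool.Agent.Helper47.LB.ErrDefs
import Pool.Agent.Helper47.LB.APiso

/-!
# Sums of the errors over the atoms, and over the isotropic measure

`ν F = ∑_j wt x j F(dir x j)` resp. `ν F = isoI F`; both are positive linear functionals and satisfy
Cauchy-Schwarz `ν(√(fg)) ≤ √(ν f) √(ν g)` (`f, g ≥ 0`). `lam⁻¹ = 2N/W ≤ 4N/√n` for
`lam = W/(2N)`, `W = ∑ wt x j ∈ [√n/2, 15√n]` (`W_ge`, `W_le`).
`T l = lam⁻¹ ν(SS x l)`: `≤ C √n (N/n^l + N ε² p³/n)` for atoms by `ap_avg`; for `isoI`: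
`isoI (SS x l) = ∑ wt_i isoI(⟨·,u_i⟩^{2l}) ≤ C √n W/n^l`, even better. `ν(eD)`: atoms `≤ W` by
`sec_atom` (`eD` at `dir x j` is the expression in `sec_atom`); `isoI`: `eD ≤ lam⁻¹ SS x (m+1)`
(`sec_le`), `isoI ≤ C √n N/n^{m+1}`.
Supremum (unit `u`): `lam⁻¹ SS x 2 u ≤ C N/√n (√n/n² + ε p√p)` by `ap_sup`;
`(lam⁻¹ SS x 2)^q ≤ sup^{q-1} lam⁻¹ SS x 2`. In `isoI` the argument `z/‖z‖` is a unit vector for
almost every `z`.
-/

open MeasureTheory ProbabilityTheory Matrix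
open scoped RealInnerProductSpace ENNReal
open Pool.Agent.Helper24.Zono

namespace Pool.Agent.Helper47.LB

theorem iso_pp (m : ℕ) :
    ∃ C : ℝ, 1 ≤ C ∧ ∀ (n N : ℕ) (x : Fin N → En n) (ε : ℝ), 1 ≤ n → 1 ≤ N → 0 < ε → ε ≤ 1 / 2 →
      (∀ y, (1 - ε) * ‖y‖ ≤ ∑ j, |⟪y, x j⟫|) → (∀ y, ∑ j, |⟪y, x j⟫| ≤ (1 + ε) * ‖y‖) →
      ∀ (lam : ℝ) (K : Matrix (Fin N) (Fin N) ℝ), lam = (∑ j, wt x j) / (2 * N) →
        KProps (wt x) (gram x (m + 1)) lam K →
        Nice (fun u => pp m x K u) ∧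
        isoI (fun u => pp m x K u) ≤ C * Real.sqrt n * (N / (n : ℝ) ^ (m + 1)) := by
  obtain ⟨C0, hC0, hmom⟩ := iso_moment (m + 1) (by omega)
  refine ⟨2 * C0, by linarith, ?_⟩
  intro n N x ε hn hN hε hε2 hlow hup lam K hlam hK
  have hW0 : 0 ≤ ∑ j, wt x j := Finset.sum_nonneg fun j _ => wt_nonneg x j
  have hNR : (0 : ℝ) < N := by exact_mod_cast hN
  have hnR : (0 : ℝ) < n := by exact_mod_cast hn
  have hlam0 : 0 ≤ lam := by rw [hlam]; positivity
  have hli : 0 ≤ lam⁻¹ := inv_nonneg.2 hlam0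
  have hform : ∀ u, pp m x K u ≤ lam⁻¹ * ∑ i, wt x i * ⟪u, dir x i⟫ ^ (2 * (m + 1)) := by
    intro u
    have h := hK.form_le (fun q => ⟪dir x q, u⟫ ^ (m + 1))
    refine h.trans (le_of_eq ?_)
    congr 1
    refine Finset.sum_congr rfl fun i _ => ?_
    rw [real_inner_comm, ← pow_mul, mul_comm (m + 1) 2]
  have hnn : ∀ u, 0 ≤ pp m x K u := fun u => hK.form_nonneg _
  have hle1 : ∀ i (u : En n), ‖u‖ ≤ 1 → ⟪u, dir x i⟫ ^ (2 * (m + 1)) ≤ 1 := by
    intro i u hu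
    rw [pow_mul, ← sq_abs]
    refine pow_le_one₀ (sq_nonneg _) (pow_le_one₀ (abs_nonneg _) ?_)
    refine (abs_real_inner_le_norm _ _).trans ?_
    exact mul_le_one₀ hu (norm_nonneg _) (norm_dir_le x i)
  have hge0 : ∀ i (u : En n), 0 ≤ ⟪u, dir x i⟫ ^ (2 * (m + 1)) := by
    intro i u
    rw [pow_mul]
    positivity
  have hn1 : ∀ i, Nice (fun u : En n => ⟪u, dir x i⟫ ^ (2 * (m + 1))) := fun i => by
    refine nice_of_bdd _ ?_ 1 ?_
    · exact (by fun_prop : Continuous fun u : En n =>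
        ⟪u, dir x i⟫ ^ (2 * (m + 1))).measurable
    · intro v hv
      rw [abs_of_nonneg (hge0 i v)]
      exact hle1 i v hv
  have hns : Nice (fun u : En n => lam⁻¹ * ∑ i, wt x i * ⟪u, dir x i⟫ ^ (2 * (m + 1))) :=
    (Nice.sum fun i => (hn1 i).const_mul (wt x i)).const_mul _
  have hnp : Nice (fun u : En n => pp m x K u) := by
    refine nice_of_bdd _ ?_ (lam⁻¹ * ∑ i, wt x i) ?_
    · have hc : Continuous fun u : En n => pp m x K u := by
        unfold pp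
        simp only [dotProduct, mulVec]
        fun_prop
      exact hc.measurable
    · intro v hv
      rw [abs_of_nonneg (hnn v)]
      refine (hform v).trans (mul_le_mul_of_nonneg_left (Finset.sum_le_sum fun i _ => ?_) hli)
      have h1 := hle1 i v hv
      have h2 := wt_nonneg x i
      nlinarith
  refine ⟨hnp, ?_⟩
  have hWl : lam⁻¹ * ∑ i, wt x i ≤ 2 * N := by
    rcases hW0.eq_or_lt with h0 | h0
    · rw [← h0]
      simp only [mul_zero]
      positivity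
    · rw [hlam, inv_div]
      rw [div_mul_cancel₀ _ h0.ne']
  set B : ℝ := C0 * Real.sqrt n / (n : ℝ) ^ (m + 1) with hB
  have hB0 : 0 ≤ B := by positivity
  calc isoI (fun u => pp m x K u)
      ≤ isoI (fun u => lam⁻¹ * ∑ i, wt x i * ⟪u, dir x i⟫ ^ (2 * (m + 1))) :=
        isoI_mono hnp hns fun u _ => hform u
    _ = lam⁻¹ * ∑ i, wt x i * isoI (fun u => ⟪u, dir x i⟫ ^ (2 * (m + 1))) := by
        rw [isoI_const_mul, isoI_sum (fun i => (hn1 i).const_mul (wt x i))]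
        simp only [isoI_const_mul]
    _ ≤ lam⁻¹ * ∑ i, wt x i * B := by
        refine mul_le_mul_of_nonneg_left (Finset.sum_le_sum fun i _ => ?_) hli
        exact mul_le_mul_of_nonneg_left (hmom n (dir x i) hn (norm_dir_le x i)) (wt_nonneg x i)
    _ = (lam⁻¹ * ∑ i, wt x i) * B := by rw [← Finset.sum_mul, mul_assoc]
    _ ≤ (2 * N) * B := mul_le_mul_of_nonneg_right hWl hB0
    _ = 2 * C0 * Real.sqrt n * (N / (n : ℝ) ^ (m + 1)) := by
        rw [hB]; ring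

end Pool.Agent.Helper47.LB
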