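import Pool.Agent.Helper47.LB.SumA
import Pool.Agent.Helper47.LB.SumI
import Pool.Agent.Helper47.LB.SumP
import Pool.Agent.Helper47.LB.Err
import Pool.Agent.Helper47.LB.MainIneq
import Pool.Agent.Helper47.LB.Kernel

/-!
# The core inequality

`W = ∑ wt x j`, `lam = W/(2N)`, `K` from `exists_kernel` with `G = gram x (m+1)`
(`gram_posSemidef`, `gram_diag`). `DD x PhiF = ∑_j wt_j PhiF(u_j) - isoI PhiF` and by `err_bound`
(unit vectors; terms with `wt_j = 0` vanish; `isoI` only sees unit vectors a.e.)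
`(-1)^m ∑_j wt_j PhiF(u_j) ≥ 2τ cD ∑_j wt_j pp(u_j) - C ∑_j wt_j errB(u_j)`,
`∑_j wt_j pp(u_j) ≥ W - lam N = W/2 ≥ √n/4` by `trace_ge` (`pp` at `dir x j` is the form at `G e_j`),
`|isoI PhiF| ≤ 2τ cD isoI(pp) + C isoI(errB)`. Combine with `main_ineq`, `sum_errB`, `iso_errB`,
`iso_pp`.
-/

open MeasureTheory ProbabilityTheory Matrix
open scoped RealInnerProductSpace ENNReal
open Pool.Agent.Helper24.Zono

namespace Pool.Agent.Helper47.LB

private theorem Core_abs_isoI_le {n : ℕ} {F G : En n → ℝ} (hG : Nice G)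
    (h : ∀ u, ‖u‖ = 1 → |F u| ≤ G u) : |isoI F| ≤ isoI G := by
  unfold isoI
  rw [abs_mul, abs_of_pos (inv_pos.2 Psi_zero_pos)]
  refine mul_le_mul_of_nonneg_left ?_ (inv_pos.2 Psi_zero_pos).le
  rw [← Real.norm_eq_abs]
  refine norm_integral_le_of_norm_le hG (Filter.Eventually.of_forall fun z => ?_)
  rw [norm_mul, norm_norm, Real.norm_eq_abs]
  by_cases hz : z = 0
  · rw [hz, norm_zero, zero_mul, zero_mul]
  · refine mul_le_mul_of_nonneg_left (h _ ?_) (norm_nonneg _)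
    rw [norm_smul, norm_inv, norm_norm, inv_mul_cancel₀ (norm_ne_zero_iff.2 hz)]

private theorem Core_numE_nonneg (m c₀ q p n N : ℕ) {ε τ : ℝ} (hε : 0 ≤ ε) (hτ : 0 ≤ τ) :
    0 ≤ numE m c₀ q p n N ε τ := by
  unfold numE
  positivity

private theorem Core_pp_nonneg {n N m : ℕ} {x : Fin N → En n} {lam : ℝ}
    {K : Matrix (Fin N) (Fin N) ℝ} (hK : KProps (wt x) (gram x (m + 1)) lam K) (u : En n) :
    0 ≤ pp m x K u := hK.form_nonneg _

theorem core (m c₀ q : ℕ) (hc : 1 ≤ c₀) (hq : 1 ≤ q) (hm : 2 * q * c₀ ≤ m) :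
    ∃ C : ℝ, 1 ≤ C ∧ ∀ (n N : ℕ) (x : Fin N → En n) (ε : ℝ)
      (p : ℕ), 1 ≤ n → 1 ≤ N → 0 < ε → ε ≤ 1 / 2 → 1 ≤ p → Real.exp (-(p : ℝ)) ≤ ε →
      (∀ y, (1 - ε) * ‖y‖ ≤ ∑ j, |⟪y, x j⟫|) → (∀ y, ∑ j, |⟪y, x j⟫| ≤ (1 + ε) * ‖y‖) →
      ∀ τ : ℝ, 0 ≤ τ →
        τ * Real.sqrt n ≤ C * (ε * (Real.sqrt n + τ * Real.sqrt N)
          + τ * Real.sqrt n * (N / (n : ℝ) ^ (m + 1)) + numE m c₀ q p n N ε τ) := by
  obtain ⟨C1, hC1, H1⟩ := err_bound m c₀ q hc hq hm
  obtain ⟨C2, hC2, H2⟩ := sum_errB m c₀ q hc hq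
  obtain ⟨C3, hC3, H3⟩ := iso_errB m c₀ q hc hq
  obtain ⟨C4, hC4, H4⟩ := iso_pp m
  have hcD := cD_pos m
  obtain ⟨A, hA⟩ : ∃ A : ℝ, A = 2 / cD m := ⟨_, rfl⟩
  have hA0 : 0 < A := by rw [hA]; positivity
  refine ⟨1 + (A * (4 * m + 4) + 4 * C4 + A * (C1 * (C2 + C3))), ?_, ?_⟩
  · have : 0 ≤ A * (4 * m + 4) + 4 * C4 + A * (C1 * (C2 + C3)) := by positivity
    linarith
  intro n N x ε p hn hN hε hε2 hp hpe hlow hup τ hτ
  have hnR : (0 : ℝ) < n := by exact_mod_cast hn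
  have hNR : (0 : ℝ) < N := by exact_mod_cast hN
  have hS0 : 0 < Real.sqrt n := Real.sqrt_pos.2 hnR
  obtain ⟨W, hW⟩ : ∃ W : ℝ, W = ∑ j, wt x j := ⟨_, rfl⟩
  have hW2 : Real.sqrt n / 2 ≤ W := by
    rw [hW]
    refine le_trans ?_ (W_ge x ε hlow)
    have h1 : (1 / 2) * Real.sqrt n ≤ (1 - ε) * Real.sqrt n :=
      mul_le_mul_of_nonneg_right (by linarith) hS0.le
    linarith
  have hW0 : 0 < W := by linarith
  obtain ⟨lam, hlam⟩ : ∃ lam : ℝ, lam = (∑ j, wt x j) / (2 * N) := ⟨_, rfl⟩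
  have hlam0 : 0 < lam := by rw [hlam, ← hW]; positivity
  obtain ⟨K, hK⟩ := exists_kernel (wt x) (wt_nonneg x) (gram x (m + 1))
    (gram_posSemidef x (m + 1)) (fun i hi => gram_diag x (m + 1) i hi) lam hlam0
  obtain ⟨hN3, h3⟩ := H3 n N x ε p hn hN hε hε2 hp hpe hlow hup lam K hlam hK τ hτ
  have h2 := H2 n N x ε p hn hN hε hε2 hp hpe hlow hup lam K hlam hK τ hτ
  obtain ⟨hN4, h4⟩ := H4 n N x ε hn hN hε hε2 hlow hup lam K hlam hK
  have hmain := main_ineq x ε hε.le hlow hup lam K hK τ hτ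
  have hE := Core_numE_nonneg m c₀ q p n N hε.le hτ
  obtain ⟨E, hEE⟩ : ∃ E : ℝ, E = numE m c₀ q p n N ε τ := ⟨_, rfl⟩
  rw [← hEE] at h2 h3 hE ⊢
  -- the atoms
  have hsP : |∑ j, wt x j * PhiF m x K τ (dir x j) -
      2 * τ * ((-1) ^ m * cD m) * ∑ j, wt x j * pp m x K (dir x j)| ≤ C1 * (C2 * E) := by
    have e1 : ∑ j, wt x j * PhiF m x K τ (dir x j) -
        2 * τ * ((-1) ^ m * cD m) * ∑ j, wt x j * pp m x K (dir x j) =
        ∑ j, wt x j * (PhiF m x K τ (dir x j) -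
          2 * τ * ((-1) ^ m * cD m * pp m x K (dir x j))) := by
      rw [Finset.mul_sum, ← Finset.sum_sub_distrib]
      apply Finset.sum_congr rfl
      intro j _
      ring
    rw [e1]
    refine (Finset.abs_sum_le_sum_abs _ _).trans ?_
    have h5 : ∀ j ∈ Finset.univ, |wt x j * (PhiF m x K τ (dir x j) -
          2 * τ * ((-1) ^ m * cD m * pp m x K (dir x j)))| ≤
          C1 * (wt x j * errB m c₀ q x lam K τ (dir x j)) := by
      intro j _
      rw [abs_mul, abs_of_nonneg (wt_nonneg x j)]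
      rcases (wt_nonneg x j).eq_or_lt with h0 | h0
      · rw [← h0, zero_mul, zero_mul, mul_zero]
      · have hd : ‖dir x j‖ = 1 := by
          unfold dir
          unfold wt at h0
          rw [norm_smul, norm_inv, norm_norm, inv_mul_cancel₀ h0.ne']
        have h6 := H1 n N x lam K τ (dir x j) hlam0 hK hτ hd
        calc wt x j * |PhiF m x K τ (dir x j) -
              2 * τ * ((-1) ^ m * cD m * pp m x K (dir x j))|
            ≤ wt x j * (C1 * errB m c₀ q x lam K τ (dir x j)) :=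
              mul_le_mul_of_nonneg_left h6 (wt_nonneg x j)
          _ = _ := by ring
    refine (Finset.sum_le_sum h5).trans ?_
    rw [← Finset.mul_sum]
    exact mul_le_mul_of_nonneg_left h2 (by linarith)
  have hpp : W / 2 ≤ ∑ j, wt x j * pp m x K (dir x j) := by
    have h5 := hK.trace_ge
    have h6 : W - lam * N = W / 2 := by
      rw [hlam, ← hW]
      field_simp
      ring
    rw [← hW, h6] at h5
    exact h5
  have hpp0 : 0 ≤ ∑ j, wt x j * pp m x K (dir x j) := by linarith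
  have habs : |2 * τ * ((-1) ^ m * cD m) * ∑ j, wt x j * pp m x K (dir x j)| =
      2 * τ * cD m * ∑ j, wt x j * pp m x K (dir x j) := by
    rw [abs_mul, abs_mul, abs_mul, abs_mul, abs_pow, abs_neg, abs_one, one_pow, one_mul,
      abs_of_nonneg hτ, abs_of_pos hcD, abs_of_nonneg hpp0, abs_of_pos (by norm_num : (0:ℝ) < 2)]
  -- the isotropic part
  have hiso : |isoI (PhiF m x K τ)| ≤
      2 * τ * cD m * (C4 * Real.sqrt n * (N / (n : ℝ) ^ (m + 1))) + C1 * (C3 * E) := by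
    have hNi : Nice (fun u => (2 * τ * cD m) * pp m x K u + C1 * errB m c₀ q x lam K τ u) :=
      (hN4.const_mul _).add (hN3.const_mul _)
    refine (Core_abs_isoI_le hNi ?_).trans ?_
    · intro u hu
      have h6 := H1 n N x lam K τ u hlam0 hK hτ hu
      have h7 := Core_pp_nonneg hK u
      have h8 : |2 * τ * ((-1) ^ m * cD m * pp m x K u)| = 2 * τ * cD m * pp m x K u := by
        rw [abs_mul, abs_mul, abs_mul, abs_mul, abs_pow, abs_neg, abs_one, one_pow, one_mul,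
          abs_of_nonneg hτ, abs_of_pos hcD, abs_of_nonneg h7, abs_of_pos (by norm_num : (0:ℝ) < 2)]
        ring
      have h9 := abs_sub_abs_le_abs_sub (PhiF m x K τ u) (2 * τ * ((-1) ^ m * cD m * pp m x K u))
      rw [h8] at h9
      linarith
    · rw [isoI_add (hN4.const_mul _) (hN3.const_mul _), isoI_const_mul, isoI_const_mul]
      exact add_le_add (mul_le_mul_of_nonneg_left h4 (by positivity))
        (mul_le_mul_of_nonneg_left h3 (by linarith))
  -- combination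
  have hDD : |∑ j, wt x j * PhiF m x K τ (dir x j)| ≤
      |DD x (PhiF m x K τ)| + |isoI (PhiF m x K τ)| := by
    have e1 : ∑ j, wt x j * PhiF m x K τ (dir x j) =
        DD x (PhiF m x K τ) + isoI (PhiF m x K τ) := by
      unfold DD
      ring
    rw [e1]
    exact abs_add_le _ _
  have h10 : 2 * τ * cD m * ∑ j, wt x j * pp m x K (dir x j) ≤
      |∑ j, wt x j * PhiF m x K τ (dir x j)| + C1 * (C2 * E) := by
    have h11 := abs_sub_abs_le_abs_sub
      (2 * τ * ((-1) ^ m * cD m) * ∑ j, wt x j * pp m x K (dir x j))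
      (∑ j, wt x j * PhiF m x K τ (dir x j))
    rw [habs, abs_sub_comm] at h11
    linarith
  have h12 : 2 * τ * cD m * (Real.sqrt n / 4) ≤
      2 * τ * cD m * ∑ j, wt x j * pp m x K (dir x j) :=
    mul_le_mul_of_nonneg_left (by linarith) (by positivity)
  have hsq : Real.sqrt ((2 * m + 1) * n) ≤ (2 * m + 1) * Real.sqrt n := by
    rw [Real.sqrt_mul (by positivity)]
    apply mul_le_mul_of_nonneg_right _ hS0.le
    rw [Real.sqrt_le_left (by positivity)]
    have : (0 : ℝ) ≤ m := Nat.cast_nonneg m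
    nlinarith
  obtain ⟨X, hX⟩ : ∃ X : ℝ, X = ε * (Real.sqrt n + τ * Real.sqrt N) := ⟨_, rfl⟩
  have hX0 : 0 ≤ X := by rw [hX]; positivity
  obtain ⟨Y, hY⟩ : ∃ Y : ℝ, Y = τ * Real.sqrt n * (N / (n : ℝ) ^ (m + 1)) := ⟨_, rfl⟩
  have hY0 : 0 ≤ Y := by rw [hY]; positivity
  have h13 : 2 * ε * (Real.sqrt n + Real.sqrt ((2 * m + 1) * n) + τ * Real.sqrt N) ≤
      (4 * m + 4) * X := by
    have h14 : 2 * ε * (Real.sqrt n + Real.sqrt ((2 * m + 1) * n) + τ * Real.sqrt N) ≤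
        2 * ε * (Real.sqrt n + (2 * m + 1) * Real.sqrt n + τ * Real.sqrt N) :=
      mul_le_mul_of_nonneg_left (by linarith) (by positivity)
    refine h14.trans ?_
    rw [hX]
    have h15 : 0 ≤ (m : ℝ) * (ε * (τ * Real.sqrt N)) := by positivity
    have h16 : 0 ≤ ε * (τ * Real.sqrt N) := by positivity
    nlinarith
  have h17 : 2 * τ * cD m * (C4 * Real.sqrt n * (N / (n : ℝ) ^ (m + 1))) =
      2 * cD m * C4 * Y := by
    rw [hY]
    ring
  rw [h17] at hiso
  have h18 : cD m / 2 * (τ * Real.sqrt n) ≤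
      (4 * m + 4) * X + 2 * cD m * C4 * Y + C1 * (C2 + C3) * E := by
    have e1 : 2 * τ * cD m * (Real.sqrt n / 4) = cD m / 2 * (τ * Real.sqrt n) := by ring
    rw [e1] at h12
    linarith
  have h19 : τ * Real.sqrt n ≤ A * ((4 * m + 4) * X + 2 * cD m * C4 * Y + C1 * (C2 + C3) * E) := by
    have e1 : τ * Real.sqrt n = A * (cD m / 2 * (τ * Real.sqrt n)) := by
      rw [hA]
      field_simp
    rw [e1]
    exact mul_le_mul_of_nonneg_left h18 hA0.le
  have h20 : A * ((4 * m + 4) * X + 2 * cD m * C4 * Y + C1 * (C2 + C3) * E) =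
      A * (4 * m + 4) * X + 4 * C4 * Y + A * (C1 * (C2 + C3)) * E := by
    have e1 : A * (2 * cD m) = 4 := by
      rw [hA]
      field_simp
      ring
    linear_combination C4 * Y * e1
  rw [h20] at h19
  rw [← hX, ← hY]
  have k1 : 0 ≤ A * (4 * m + 4) := by positivity
  have k2 : 0 ≤ A * (C1 * (C2 + C3)) := by positivity
  have k3 : 0 ≤ 4 * C4 := by linarith
  refine h19.trans ?_
  have m1 : 0 ≤ (1 + (4 * C4 + A * (C1 * (C2 + C3)))) * X := by positivity
  have m2 : 0 ≤ (1 + (A * (4 * m + 4) + A * (C1 * (C2 + C3)))) * Y := by positivity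
  have m3 : 0 ≤ (1 + (A * (4 * m + 4) + 4 * C4)) * E := by positivity
  linarith

end Pool.Agent.Helper47.LB
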