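import Mathlib
import Pool.Agent.Helper24.Zono.Grad3
import Pool.Agent.Helper24.Zono.Pair3

/-!
# Log-free bound in the polynomial range: definitions

Notation: `wt x j = ‖x j‖`, `dir x j = ‖x j‖⁻¹ • x j`, `Psi`, `dPsi`, `cst`, `isoI`, `DD`, `Nice`
from `Helper24/Zono`. `D = m + 1` is the degree of the tensors.

Random vectors: `ω = (a, z)`, `a : Fin (m+1) → ℝⁿ`, `z : Fin m → ℝⁿ`, all standard Gaussian and
independent. `K` is a symmetric `N × N` matrix (see `Kernel.lean`),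
`ww = ∑_{p,q} K p q (∏_l ⟨u_p, a_l⟩) (∏_i ⟨u_q, z_i⟩) u_q`, `bb = ∑ a_l + ∑ z_i`, and
`PhiF u = E (Psi ⟨u, bb + τ ww⟩ - Psi ⟨u, bb - τ ww⟩)`.
-/

open MeasureTheory ProbabilityTheory Matrix
open scoped RealInnerProductSpace
open Pool.Agent.Helper24.Zono

namespace Pool.Agent.Helper47.LB

abbrev En (n : ℕ) := EuclideanSpace ℝ (Fin n)

/-- The product of `s` standard Gaussian measures on `ℝⁿ`. -/
noncomputable abbrev PG (n s : ℕ) : Measure (Fin s → En n) :=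
  Measure.pi (fun _ : Fin s => stdGaussian (En n))

/-- The probability space for `ω = (a, z)`. -/
noncomputable abbrev PP (n m : ℕ) : Measure ((Fin (m + 1) → En n) × (Fin m → En n)) :=
  (PG n (m + 1)).prod (PG n m)

/-- Product of linear functionals. -/
noncomputable def prf {n s : ℕ} (v : Fin s → En n) (a : Fin s → En n) : ℝ := ∏ l, ⟪v l, a l⟫

/-- Gram matrix of the `D`-th tensor powers of the directions. -/
noncomputable def gram {n N : ℕ} (x : Fin N → En n) (D : ℕ) : Matrix (Fin N) (Fin N) ℝ :=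
  Matrix.of fun i j => ⟪dir x i, dir x j⟫ ^ D

/-- The properties of the ridge kernel. -/
structure KProps {N : ℕ} (w : Fin N → ℝ) (G : Matrix (Fin N) (Fin N) ℝ) (lam : ℝ)
    (K : Matrix (Fin N) (Fin N) ℝ) : Prop where
  symm : Kᵀ = K
  sec_le : ∀ χ : Fin N → ℝ, χ ⬝ᵥ ((K * G * K) *ᵥ χ) ≤ lam⁻¹ * ∑ i, w i * χ i ^ 2
  sec_atom : ∀ j, w j * ((fun i => G i j) ⬝ᵥ ((K * G * K) *ᵥ (fun i => G i j))) ≤ w j
  form_nonneg : ∀ χ : Fin N → ℝ, 0 ≤ χ ⬝ᵥ (K *ᵥ χ)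
  form_le : ∀ χ : Fin N → ℝ, χ ⬝ᵥ (K *ᵥ χ) ≤ lam⁻¹ * ∑ i, w i * χ i ^ 2
  trace_ge : ∑ i, w i - lam * N ≤ ∑ j, w j * ((fun i => G i j) ⬝ᵥ (K *ᵥ (fun i => G i j)))
  hs_le : (K * G * K * G).trace ≤ N

/-- The random displacement. -/
noncomputable def ww {n N m : ℕ} (x : Fin N → En n) (K : Matrix (Fin N) (Fin N) ℝ)
    (ω : (Fin (m + 1) → En n) × (Fin m → En n)) : En n :=
  ∑ q, ((∑ p, K p q * prf (fun _ => dir x p) ω.1) * prf (fun _ => dir x q) ω.2) • dir x q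

/-- The base point. -/
noncomputable def bb {n m : ℕ} (ω : (Fin (m + 1) → En n) × (Fin m → En n)) : En n :=
  ∑ l, ω.1 l + ∑ i, ω.2 i

/-- The functional. -/
noncomputable def PhiF {n N : ℕ} (m : ℕ) (x : Fin N → En n) (K : Matrix (Fin N) (Fin N) ℝ)
    (τ : ℝ) (u : En n) : ℝ :=
  ∫ ω, (Psi ⟪u, bb ω + τ • ww x K ω⟫ - Psi ⟪u, bb ω - τ • ww x K ω⟫) ∂(PP n m)

/-- The components of `⟨u, ww⟩` with respect to the decomposition `z_i = ⟨z_i,u⟩ u + z_i^⊥`. -/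
noncomputable def phiC {n N m : ℕ} (x : Fin N → En n) (K : Matrix (Fin N) (Fin N) ℝ) (u : En n)
    (C : Finset (Fin m)) (ω : (Fin (m + 1) → En n) × (Fin m → En n)) : ℝ :=
  ∑ q, ((∑ p, K p q * prf (fun _ => dir x p) ω.1) * ⟪dir x q, u⟫ ^ (C.card + 1)) *
    prf (fun i => if i ∈ C then u else dir x q - ⟪dir x q, u⟫ • u) ω.2

/-- `⟨R u^{⊗D}, u^{⊗D}⟩`. -/
noncomputable def pp {n N : ℕ} (m : ℕ) (x : Fin N → En n) (K : Matrix (Fin N) (Fin N) ℝ)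
    (u : En n) : ℝ :=
  (fun q => ⟪dir x q, u⟫ ^ (m + 1)) ⬝ᵥ (K *ᵥ (fun q => ⟪dir x q, u⟫ ^ (m + 1)))

/-- `|R u^{⊗D}|²`. -/
noncomputable def eD {n N : ℕ} (m : ℕ) (x : Fin N → En n) (K : Matrix (Fin N) (Fin N) ℝ)
    (u : En n) : ℝ :=
  (fun q => ⟪dir x q, u⟫ ^ (m + 1)) ⬝ᵥ
    ((K * gram x (m + 1) * K) *ᵥ (fun q => ⟪dir x q, u⟫ ^ (m + 1)))

/-- Moments of the directions. -/
noncomputable def SS {n N : ℕ} (x : Fin N → En n) (l : ℕ) (u : En n) : ℝ :=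
  ∑ i, wt x i * ⟪dir x i, u⟫ ^ (2 * l)

/-- The constant of the linear term. -/
noncomputable def cD (m : ℕ) : ℝ :=
  cst⁻¹ * ∫ t : ℝ, t ^ (2 * m) * Real.exp (-(((m : ℝ) + 1) * t ^ 2))

/-- Mixed difference of `g` at `y` with increments `s i`, `i ∈ A`. -/
noncomputable def md {ι : Type*} (g : ℝ → ℝ) (y : ℝ) (s : ι → ℝ) (A : Finset ι) : ℝ :=
  ∑ B ∈ A.powerset, (-1) ^ (A.card - B.card) * g (y + ∑ i ∈ B, s i)

end Pool.Agent.Helper47.LB
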