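import Pool.Agent.Helper47.LB.Defs

/-! # Error expressions -/

open MeasureTheory ProbabilityTheory Matrix
open scoped RealInnerProductSpace ENNReal
open Pool.Agent.Helper24.Zono

namespace Pool.Agent.Helper47.LB

/-- The error bound. -/
noncomputable def errB {n N : ℕ} (m c₀ q : ℕ) (x : Fin N → En n) (lam : ℝ)
    (K : Matrix (Fin N) (Fin N) ℝ) (τ : ℝ) (u : En n) : ℝ :=
  τ ^ 2 * Real.sqrt (eD m x K u * (lam⁻¹ * SS x 1 u))
    + τ ^ 2 * Real.sqrt ((lam⁻¹ * SS x (c₀ + 1) u) * (lam⁻¹ * SS x 2 u))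
    + τ ^ (2 * q) * (lam⁻¹ * SS x 2 u) ^ q

/-- The numerical error bound. `T l` stands for `N/n^l + N ε² p³/n`. -/
noncomputable def numE (m c₀ q p : ℕ) (n N ε τ : ℝ) : ℝ :=
  τ ^ 2 * Real.sqrt n * Real.sqrt ((1 + N / n ^ (m + 1)) * (N / n + N * ε ^ 2 * p ^ 3 / n))
    + τ ^ 2 * Real.sqrt n * Real.sqrt ((N / n ^ (c₀ + 1) + N * ε ^ 2 * p ^ 3 / n)
        * (N / n ^ 2 + N * ε ^ 2 * p ^ 3 / n))
    + τ ^ (2 * q) * (N / Real.sqrt n * (Real.sqrt n / n ^ 2 + ε * (p * Real.sqrt p))) ^ (q - 1)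
        * (Real.sqrt n * (N / n ^ 2 + N * ε ^ 2 * p ^ 3 / n))

end Pool.Agent.Helper47.LB
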