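import Mathlib
import Pool.Agent.Helper47.LB.ErrDefs

/-!
# Numerics

`α ≥ 2`, `c₀ = α`, `q = 2α+1`, `m = 2 q c₀`. Let `τ = δ √(n/N)`, `0 < δ ≤ 1`, with
`c₁ n² ≤ N ≤ n^α` (`0 < c₁ ≤ 1`), `ε² ≤ n/N`, `p ≤ P log n + P`. Claim: for `n ≥ n₀(α,c₁,P,δ)`
`τ√n N/n^{m+1} + numE ≤ C₂ δ τ √n` where `C₂` depends only on `α` — in fact each of the following is
`≤ C δ τ √n` for `n` large, `C` absolute:
* `τ√n N/n^{m+1} ≤ τ√n/n`;
* first term of `numE`: `1 + N/n^{m+1} ≤ 2`, `N ε² p³/n ≤ p³ ≤ N/n` (for `n` large, as `N/n ≥ c₁ n`),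
  so it is `≤ τ² √n √(4 N/n) = 2 δ τ √n`;
* second term: `N/n^{c₀+1} ≤ 1 ≤ p³`, `N/n² + p³ ≤ 2 p³ N/(c₁ n²)`, so it is
  `≤ τ² √n √(2p³ * 2p³N/(c₁n²)) = 2 τ² p³ √N/√(c₁ n) = 2 δ τ p³/√c₁ ≤ δ τ √n`;
* third term: `τ² (N/√n)(√n/n² + ε p√p) ≤ δ² (1/n + n N^{-1/2} p√p) =: δ² b`, and
  `τ² √n (N/n² + p³) ≤ δ² √n (1/n + (n/N) p³) ≤ 2 δ² √n p³/(c₁ n)`. So the third term is
  `≤ δ² √n b^{2α} 2p³/(c₁n)`, to be compared with `δ τ √n = δ² √n √(n/N)`: need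
  `b^{2α} 2p³/(c₁ n) ≤ √(n/N)`. If `N ≤ n^{5/2}`: `b ≤ 2 p²/√c₁`, `√(n/N) ≥ n^{-3/4}`. If `N > n^{5/2}`:
  `b ≤ 2 n^{-1/4} p²`, `b^{2α} ≤ (2p²)^{2α} n^{-α/2}` and `√(n/N) ≥ n^{(1-α)/2}`. In both cases the
  polynomial factor in `p ≤ P log n + P` is beaten by `n^{1/4}`.
-/

open Pool.Agent.Helper24.Zono

namespace Pool.Agent.Helper47.LB

private theorem num_log (K : ℝ) (k : ℕ) :
    ∃ n₀ : ℕ, ∀ n : ℕ, n₀ ≤ n → K * Real.log n ^ k ≤ n := by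
  have h := (Real.isLittleO_pow_log_id_atTop (n := k)).comp_tendsto tendsto_natCast_atTop_atTop
  have h2 := h.bound (c := 1 / (|K| + 1)) (by positivity)
  obtain ⟨n₀, hn₀⟩ := Filter.eventually_atTop.1 h2
  refine ⟨n₀, fun n hn => ?_⟩
  have h3 := hn₀ n hn
  simp only [Function.comp, id, Real.norm_eq_abs] at h3
  rw [abs_of_nonneg (by positivity : (0 : ℝ) ≤ n), one_div, inv_mul_eq_div,
    le_div_iff₀ (by positivity)] at h3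
  have h4 : K * Real.log n ^ k ≤ |K| * |Real.log n ^ k| := by
    rw [← abs_mul]
    exact le_abs_self _
  have h5 := abs_nonneg (Real.log n ^ k)
  nlinarith

private theorem num_div {n N : ℝ} {a k : ℕ} (hn : 1 ≤ n) (hN : N ≤ n ^ a) (hk : a + 1 ≤ k) :
    N / n ^ k ≤ 1 / n := by
  have h0 : 0 < n := by linarith
  rw [div_le_div_iff₀ (by positivity) h0]
  calc N * n ≤ n ^ a * n := mul_le_mul_of_nonneg_right hN h0.le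
    _ = n ^ (a + 1) := by ring
    _ ≤ n ^ k := pow_le_pow_right₀ hn hk
    _ = 1 * n ^ k := by ring

private theorem num_core {α : ℕ} (hα : 1 ≤ α) {s r p γ : ℝ} (hs : 1 ≤ s) (hr : 0 < r)
    (hp : 1 ≤ p) (hγ : 0 < γ) (hγ1 : γ ≤ 1) (h1 : γ * s ^ 2 ≤ r) (h2 : r * s ^ 2 ≤ s ^ (2 * α))
    (h3 : (2 * p ^ 2 / γ) ^ (2 * α) * (2 * p ^ 3) ≤ 3 * γ ^ 2 * s) :
    (1 / s ^ 4 + s ^ 2 / r * p ^ 2) ^ (2 * α) * (2 * p ^ 3) * r ≤ 3 * γ ^ 2 * s ^ 4 := by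
  have hs0 : 0 < s := by linarith
  have hp0 : 0 < p := by linarith
  have hp2 : 1 ≤ p ^ 2 := one_le_pow₀ hp
  have hs2 : 1 ≤ s ^ 2 := one_le_pow₀ hs
  have hs4 : 1 ≤ s ^ 4 := one_le_pow₀ hs
  have hb0 : 0 ≤ 1 / s ^ 4 + s ^ 2 / r * p ^ 2 := by positivity
  by_cases hc : r ≤ s ^ 3
  · have hb : 1 / s ^ 4 + s ^ 2 / r * p ^ 2 ≤ 2 * p ^ 2 / γ := by
      have e1 : 1 / s ^ 4 ≤ p ^ 2 / γ := by
        rw [div_le_div_iff₀ (by positivity) hγ]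
        nlinarith [mul_le_mul hp2 hs4 (by norm_num) (by positivity)]
      have e2 : s ^ 2 / r ≤ 1 / γ := by
        rw [div_le_div_iff₀ hr hγ]
        linarith
      have e3 : s ^ 2 / r * p ^ 2 ≤ 1 / γ * p ^ 2 := mul_le_mul_of_nonneg_right e2 (by positivity)
      calc 1 / s ^ 4 + s ^ 2 / r * p ^ 2 ≤ p ^ 2 / γ + 1 / γ * p ^ 2 := add_le_add e1 e3
        _ = 2 * p ^ 2 / γ := by ring
    calc (1 / s ^ 4 + s ^ 2 / r * p ^ 2) ^ (2 * α) * (2 * p ^ 3) * r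
        ≤ (2 * p ^ 2 / γ) ^ (2 * α) * (2 * p ^ 3) * s ^ 3 := by
          apply mul_le_mul _ hc hr.le (by positivity)
          exact mul_le_mul_of_nonneg_right (pow_le_pow_left₀ hb0 hb _) (by positivity)
      _ ≤ 3 * γ ^ 2 * s * s ^ 3 := mul_le_mul_of_nonneg_right h3 (by positivity)
      _ = 3 * γ ^ 2 * s ^ 4 := by ring
  · push Not at hc
    have hb : 1 / s ^ 4 + s ^ 2 / r * p ^ 2 ≤ 2 * p ^ 2 / s := by
      have e1 : 1 / s ^ 4 ≤ p ^ 2 / s := by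
        rw [div_le_div_iff₀ (by positivity) hs0]
        have : s ≤ s ^ 4 := by
          calc s = s ^ 1 := by ring
            _ ≤ s ^ 4 := pow_le_pow_right₀ hs (by norm_num)
        nlinarith [mul_le_mul hp2 this hs0.le (by positivity)]
      have e2 : s ^ 2 / r ≤ 1 / s := by
        rw [div_le_div_iff₀ hr hs0]
        nlinarith
      have e3 : s ^ 2 / r * p ^ 2 ≤ 1 / s * p ^ 2 := mul_le_mul_of_nonneg_right e2 (by positivity)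
      calc 1 / s ^ 4 + s ^ 2 / r * p ^ 2 ≤ p ^ 2 / s + 1 / s * p ^ 2 := add_le_add e1 e3
        _ = 2 * p ^ 2 / s := by ring
    have hb2 : (1 / s ^ 4 + s ^ 2 / r * p ^ 2) ^ (2 * α) * s ^ (2 * α) ≤
        (2 * p ^ 2 / γ) ^ (2 * α) := by
      rw [← mul_pow]
      apply pow_le_pow_left₀ (by positivity)
      calc (1 / s ^ 4 + s ^ 2 / r * p ^ 2) * s ≤ 2 * p ^ 2 / s * s :=
            mul_le_mul_of_nonneg_right hb hs0.le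
        _ = 2 * p ^ 2 := by field_simp
        _ ≤ 2 * p ^ 2 / γ := by
          rw [le_div_iff₀ hγ]
          nlinarith
    have hr2 : r ≤ s ^ (2 * α) := by nlinarith
    calc (1 / s ^ 4 + s ^ 2 / r * p ^ 2) ^ (2 * α) * (2 * p ^ 3) * r
        ≤ (1 / s ^ 4 + s ^ 2 / r * p ^ 2) ^ (2 * α) * (2 * p ^ 3) * s ^ (2 * α) :=
          mul_le_mul_of_nonneg_left hr2 (by positivity)
      _ = (1 / s ^ 4 + s ^ 2 / r * p ^ 2) ^ (2 * α) * s ^ (2 * α) * (2 * p ^ 3) := by ring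
      _ ≤ (2 * p ^ 2 / γ) ^ (2 * α) * (2 * p ^ 3) :=
          mul_le_mul_of_nonneg_right hb2 (by positivity)
      _ ≤ 3 * γ ^ 2 * s := h3
      _ ≤ 3 * γ ^ 2 * s ^ 4 := by
        have : s ≤ s ^ 4 := by
          calc s = s ^ 1 := by ring
            _ ≤ s ^ 4 := pow_le_pow_right₀ hs (by norm_num)
        exact mul_le_mul_of_nonneg_left this (by positivity)

private theorem num_third {α : ℕ} (hα : 2 ≤ α) {s r γ δ ε P : ℝ} (hs : 1 ≤ s)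
    (hr : 0 < r) (hp : 1 ≤ P) (hγ : 0 < γ) (hγ1 : γ ≤ 1) (hδ : 0 < δ) (hδ1 : δ ≤ 1)
    (hε : 0 < ε) (hεr : ε * r ≤ 1) (h1 : γ * s ^ 2 ≤ r) (h2 : r * s ^ 2 ≤ s ^ (2 * α))
    (h3 : (2 * P ^ 2 / γ) ^ (2 * α) * (2 * P ^ 3) ≤ 3 * γ ^ 2 * s)
    (hsec : r ^ 2 / s ^ 4 + r ^ 2 * s ^ 4 * ε ^ 2 * P ^ 3 / s ^ 4 ≤
      2 * P ^ 3 * r ^ 2 / (γ ^ 2 * s ^ 4)) :
    (δ / r) ^ (2 * (2 * α + 1)) * (r ^ 2 * s ^ 4 / Real.sqrt (s ^ 4) *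
      (Real.sqrt (s ^ 4) / (s ^ 4) ^ 2 + ε * (P * Real.sqrt P))) ^ (2 * α + 1 - 1) *
        (Real.sqrt (s ^ 4) *
          (r ^ 2 * s ^ 4 / (s ^ 4) ^ 2 + r ^ 2 * s ^ 4 * ε ^ 2 * P ^ 3 / s ^ 4)) ≤
      3 * δ * (δ / r * s ^ 2) := by
  have hs0 : 0 < s := by linarith
  have hs4' : 0 < s ^ 4 := by positivity
  have hP0 : 0 < P := by linarith
  have hsq : Real.sqrt (s ^ 4) = s ^ 2 := by
    rw [show s ^ 4 = (s ^ 2) ^ 2 by ring, Real.sqrt_sq (by positivity)]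
  have hNn2 : r ^ 2 * s ^ 4 / (s ^ 4) ^ 2 = r ^ 2 / s ^ 4 := by field_simp
  rw [hsq, hNn2, Nat.add_sub_cancel]
  have e1 : (δ / r) ^ (2 * (2 * α + 1)) * (r ^ 2 * s ^ 4 / s ^ 2 *
    (s ^ 2 / (s ^ 4) ^ 2 + ε * (P * Real.sqrt P))) ^ (2 * α) *
      (s ^ 2 * (r ^ 2 / s ^ 4 + r ^ 2 * s ^ 4 * ε ^ 2 * P ^ 3 / s ^ 4)) =
      ((δ / r) ^ 2 * (r ^ 2 * s ^ 4 / s ^ 2 *
        (s ^ 2 / (s ^ 4) ^ 2 + ε * (P * Real.sqrt P)))) ^ (2 * α) *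
        ((δ / r) ^ 2 * s ^ 2 *
          (r ^ 2 / s ^ 4 + r ^ 2 * s ^ 4 * ε ^ 2 * P ^ 3 / s ^ 4)) := by
    rw [mul_pow ((δ / r) ^ 2), ← pow_mul (δ / r) 2 (2 * α),
      show 2 * (2 * α + 1) = 2 * (2 * α) + 2 by ring, pow_add]
    ring
  rw [e1]
  have hX : (δ / r) ^ 2 * (r ^ 2 * s ^ 4 / s ^ 2 *
        (s ^ 2 / (s ^ 4) ^ 2 + ε * (P * Real.sqrt P))) ≤ 1 / s ^ 4 + s ^ 2 / r * P ^ 2 := by
    have e2 : (δ / r) ^ 2 * (r ^ 2 * s ^ 4 / s ^ 2 *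
        (s ^ 2 / (s ^ 4) ^ 2 + ε * (P * Real.sqrt P))) =
        δ ^ 2 * (1 / s ^ 4 + s ^ 2 * ε * (P * Real.sqrt P)) := by
      field_simp
    rw [e2]
    have e3 : Real.sqrt P ≤ P := by
      rw [Real.sqrt_le_iff]
      exact ⟨hP0.le, by nlinarith⟩
    have e4 : ε ≤ 1 / r := by
      rw [le_div_iff₀ hr]
      exact hεr
    have e5 : s ^ 2 * ε * (P * Real.sqrt P) ≤ s ^ 2 / r * P ^ 2 := by
      calc s ^ 2 * ε * (P * Real.sqrt P) ≤ s ^ 2 * (1 / r) * (P * P) := by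
            apply mul_le_mul _ _ (by positivity) (by positivity)
            · exact mul_le_mul_of_nonneg_left e4 (by positivity)
            · exact mul_le_mul_of_nonneg_left e3 hP0.le
        _ = s ^ 2 / r * P ^ 2 := by ring
    have e6 : δ ^ 2 ≤ 1 := pow_le_one₀ hδ.le hδ1
    have e7 : 0 ≤ 1 / s ^ 4 + s ^ 2 * ε * (P * Real.sqrt P) := by positivity
    calc δ ^ 2 * (1 / s ^ 4 + s ^ 2 * ε * (P * Real.sqrt P))
        ≤ 1 * (1 / s ^ 4 + s ^ 2 * ε * (P * Real.sqrt P)) :=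
          mul_le_mul_of_nonneg_right e6 e7
      _ ≤ 1 / s ^ 4 + s ^ 2 / r * P ^ 2 := by linarith
  have hY : (δ / r) ^ 2 * s ^ 2 *
          (r ^ 2 / s ^ 4 + r ^ 2 * s ^ 4 * ε ^ 2 * P ^ 3 / s ^ 4) ≤
          (δ / r) ^ 2 * s ^ 2 * (2 * P ^ 3 * r ^ 2 / (γ ^ 2 * s ^ 4)) :=
    mul_le_mul_of_nonneg_left hsec (by positivity)
  have hcore := num_core (by omega : 1 ≤ α) hs hr hp hγ hγ1 h1 h2 h3
  calc ((δ / r) ^ 2 * (r ^ 2 * s ^ 4 / s ^ 2 *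
        (s ^ 2 / (s ^ 4) ^ 2 + ε * (P * Real.sqrt P)))) ^ (2 * α) *
        ((δ / r) ^ 2 * s ^ 2 *
          (r ^ 2 / s ^ 4 + r ^ 2 * s ^ 4 * ε ^ 2 * P ^ 3 / s ^ 4))
      ≤ (1 / s ^ 4 + s ^ 2 / r * P ^ 2) ^ (2 * α) *
          ((δ / r) ^ 2 * s ^ 2 * (2 * P ^ 3 * r ^ 2 / (γ ^ 2 * s ^ 4))) :=
        mul_le_mul (pow_le_pow_left₀ (by positivity) hX _) hY (by positivity) (by positivity)
    _ = ((1 / s ^ 4 + s ^ 2 / r * P ^ 2) ^ (2 * α) * (2 * P ^ 3) * r) *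
          (δ ^ 2 * s ^ 2 / (r * (γ ^ 2 * s ^ 4))) := by
        field_simp
    _ ≤ (3 * γ ^ 2 * s ^ 4) * (δ ^ 2 * s ^ 2 / (r * (γ ^ 2 * s ^ 4))) :=
        mul_le_mul_of_nonneg_right hcore (by positivity)
    _ = 3 * δ * (δ / r * s ^ 2) := by
        field_simp

private theorem num_main {α : ℕ} (hα : 2 ≤ α) {s r γ δ ε : ℝ} {p : ℕ} (hs : 1 ≤ s) (hr : 0 < r)
    (hp : 1 ≤ (p : ℝ)) (hγ : 0 < γ) (hγ1 : γ ≤ 1) (hδ : 0 < δ) (hδ1 : δ ≤ 1) (hε : 0 < ε)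
    (hεr : ε * r ≤ 1) (h1 : γ * s ^ 2 ≤ r) (h2 : r * s ^ 2 ≤ s ^ (2 * α))
    (h3 : (2 * (p : ℝ) ^ 2 / γ) ^ (2 * α) * (2 * (p : ℝ) ^ 3) ≤ 3 * γ ^ 2 * s)
    (h4 : (p : ℝ) ^ 6 ≤ γ ^ 2 * s ^ 4) (h5 : 1 ≤ δ * s ^ 4) :
    δ / r * s ^ 2 * (r ^ 2 * s ^ 4 / (s ^ 4) ^ (2 * (2 * α + 1) * α + 1))
        + numE (2 * (2 * α + 1) * α) α (2 * α + 1) p (s ^ 4) (r ^ 2 * s ^ 4) ε (δ / r) ≤
      8 * δ * (δ / r * s ^ 2) := by
  have hs0 : 0 < s := by linarith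
  have hs4 : 1 ≤ s ^ 4 := one_le_pow₀ hs
  have hs4' : 0 < s ^ 4 := by positivity
  set P : ℝ := (p : ℝ) with hP
  have hP0 : 0 < P := by linarith
  set L : ℝ := P ^ 3 with hL
  have hL1 : 1 ≤ L := one_le_pow₀ hp
  have hL2 : L ^ 2 ≤ γ ^ 2 * s ^ 4 := by
    rw [hL]
    calc (P ^ 3) ^ 2 = P ^ 6 := by ring
      _ ≤ _ := h4
  have hr2 : γ ^ 2 * s ^ 4 ≤ r ^ 2 := by
    calc γ ^ 2 * s ^ 4 = (γ * s ^ 2) ^ 2 := by ring
      _ ≤ r ^ 2 := pow_le_pow_left₀ (by positivity) h1 2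
  have hLr : L ≤ r ^ 2 := by nlinarith
  have hN : r ^ 2 * s ^ 4 ≤ (s ^ 4) ^ α := by
    calc r ^ 2 * s ^ 4 = (r * s ^ 2) ^ 2 := by ring
      _ ≤ (s ^ (2 * α)) ^ 2 := pow_le_pow_left₀ (by positivity) h2 2
      _ = (s ^ 4) ^ α := by
        rw [← pow_mul, ← pow_mul]
        congr 1
        ring
  have hsq : Real.sqrt (s ^ 4) = s ^ 2 := by
    rw [show s ^ 4 = (s ^ 2) ^ 2 by ring, Real.sqrt_sq (by positivity)]
  have hm : α + 1 ≤ 2 * (2 * α + 1) * α + 1 := by nlinarith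
  have hd1 : r ^ 2 * s ^ 4 / (s ^ 4) ^ (2 * (2 * α + 1) * α + 1) ≤ 1 / s ^ 4 :=
    num_div hs4 hN hm
  have hd2 : r ^ 2 * s ^ 4 / (s ^ 4) ^ (α + 1) ≤ 1 / s ^ 4 := num_div hs4 hN le_rfl
  have hinv : 1 / s ^ 4 ≤ 1 := by
    rw [div_le_one hs4']
    exact hs4
  have hinvδ : 1 / s ^ 4 ≤ δ := by
    rw [div_le_iff₀ hs4']
    exact h5
  have he : r ^ 2 * s ^ 4 * ε ^ 2 * P ^ 3 / s ^ 4 ≤ L := by
    have e1 : r ^ 2 * s ^ 4 * ε ^ 2 * P ^ 3 / s ^ 4 = (ε * r) ^ 2 * L := by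
      rw [hL]
      field_simp
    rw [e1]
    have e2 : (ε * r) ^ 2 ≤ 1 := pow_le_one₀ (by positivity) hεr
    nlinarith
  have he0 : 0 ≤ r ^ 2 * s ^ 4 * ε ^ 2 * P ^ 3 / s ^ 4 := by positivity
  have hNn : r ^ 2 * s ^ 4 / s ^ 4 = r ^ 2 := by field_simp
  have hNn2 : r ^ 2 * s ^ 4 / (s ^ 4) ^ 2 = r ^ 2 / s ^ 4 := by field_simp
  have hsec : r ^ 2 / s ^ 4 + r ^ 2 * s ^ 4 * ε ^ 2 * P ^ 3 / s ^ 4 ≤
      2 * L * r ^ 2 / (γ ^ 2 * s ^ 4) := by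
    have e1 : r ^ 2 / s ^ 4 ≤ L * r ^ 2 / (γ ^ 2 * s ^ 4) := by
      rw [div_le_div_iff₀ hs4' (by positivity)]
      have : γ ^ 2 ≤ 1 := pow_le_one₀ hγ.le hγ1
      have h7 : γ ^ 2 ≤ L := by linarith
      have := mul_le_mul_of_nonneg_left h7 (by positivity : 0 ≤ r ^ 2 * s ^ 4)
      linarith
    have e2 : L ≤ L * r ^ 2 / (γ ^ 2 * s ^ 4) := by
      rw [le_div_iff₀ (by positivity)]
      exact mul_le_mul_of_nonneg_left hr2 (by positivity)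
    calc r ^ 2 / s ^ 4 + r ^ 2 * s ^ 4 * ε ^ 2 * P ^ 3 / s ^ 4
        ≤ L * r ^ 2 / (γ ^ 2 * s ^ 4) + L * r ^ 2 / (γ ^ 2 * s ^ 4) :=
          add_le_add e1 (he.trans e2)
      _ = 2 * L * r ^ 2 / (γ ^ 2 * s ^ 4) := by ring
  set T : ℝ := δ / r * s ^ 2 with hT
  have hT0 : 0 < T := by positivity
  -- term 0
  have t0 : T * (r ^ 2 * s ^ 4 / (s ^ 4) ^ (2 * (2 * α + 1) * α + 1)) ≤ δ * T := by
    calc T * (r ^ 2 * s ^ 4 / (s ^ 4) ^ (2 * (2 * α + 1) * α + 1)) ≤ T * δ :=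
          mul_le_mul_of_nonneg_left (hd1.trans hinvδ) hT0.le
      _ = δ * T := by ring
  have hτ : (δ / r) ^ 2 * s ^ 2 * (2 * r) = 2 * δ * T := by
    rw [hT]
    field_simp
  -- term 1
  have t1 : (δ / r) ^ 2 * Real.sqrt (s ^ 4) *
      Real.sqrt ((1 + r ^ 2 * s ^ 4 / (s ^ 4) ^ (2 * (2 * α + 1) * α + 1)) *
        (r ^ 2 * s ^ 4 / s ^ 4 + r ^ 2 * s ^ 4 * ε ^ 2 * P ^ 3 / s ^ 4)) ≤ 2 * δ * T := by
    rw [hsq, ← hτ]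
    apply mul_le_mul_of_nonneg_left _ (by positivity)
    rw [Real.sqrt_le_iff]
    refine ⟨by positivity, ?_⟩
    rw [hNn]
    calc (1 + r ^ 2 * s ^ 4 / (s ^ 4) ^ (2 * (2 * α + 1) * α + 1)) *
          (r ^ 2 + r ^ 2 * s ^ 4 * ε ^ 2 * P ^ 3 / s ^ 4) ≤ 2 * (r ^ 2 + r ^ 2) := by
          apply mul_le_mul _ _ (by positivity) (by norm_num)
          · linarith [hd1.trans hinv]
          · linarith [he.trans hLr]
      _ = (2 * r) ^ 2 := by ring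
  -- term 2
  have t2 : (δ / r) ^ 2 * Real.sqrt (s ^ 4) *
      Real.sqrt ((r ^ 2 * s ^ 4 / (s ^ 4) ^ (α + 1) + r ^ 2 * s ^ 4 * ε ^ 2 * P ^ 3 / s ^ 4) *
        (r ^ 2 * s ^ 4 / (s ^ 4) ^ 2 + r ^ 2 * s ^ 4 * ε ^ 2 * P ^ 3 / s ^ 4)) ≤ 2 * δ * T := by
    rw [hsq, ← hτ]
    apply mul_le_mul_of_nonneg_left _ (by positivity)
    rw [Real.sqrt_le_iff]
    refine ⟨by positivity, ?_⟩
    rw [hNn2]
    calc (r ^ 2 * s ^ 4 / (s ^ 4) ^ (α + 1) + r ^ 2 * s ^ 4 * ε ^ 2 * P ^ 3 / s ^ 4) *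
          (r ^ 2 / s ^ 4 + r ^ 2 * s ^ 4 * ε ^ 2 * P ^ 3 / s ^ 4)
          ≤ (2 * L) * (2 * L * r ^ 2 / (γ ^ 2 * s ^ 4)) := by
          apply mul_le_mul _ hsec (by positivity) (by positivity)
          linarith [hd2.trans hinv]
      _ = 4 * r ^ 2 * (L ^ 2 / (γ ^ 2 * s ^ 4)) := by ring
      _ ≤ 4 * r ^ 2 * 1 := by
          apply mul_le_mul_of_nonneg_left _ (by positivity)
          rw [div_le_one (by positivity)]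
          exact hL2
      _ = (2 * r) ^ 2 := by ring
  -- term 3
  have t3 := num_third hα hs hr hp hγ hγ1 hδ hδ1 hε hεr h1 h2 h3 hsec
  unfold numE
  calc _ ≤ δ * T + (2 * δ * T + 2 * δ * T + 3 * δ * T) :=
        add_le_add t0 (add_le_add (add_le_add t1 t2) t3)
    _ = 8 * δ * T := by ring

theorem num_bound (α : ℕ) (hα : 2 ≤ α) (c₁ P δ : ℝ) (hc₁ : 0 < c₁) (hc₁' : c₁ ≤ 1) (hP : 1 ≤ P)
    (hδ : 0 < δ) (hδ' : δ ≤ 1) : ∃ n₀ : ℕ, ∀ (n N p : ℕ) (ε τ : ℝ), n₀ ≤ n → 1 ≤ n →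
      c₁ * (n : ℝ) ^ 2 ≤ N → (N : ℝ) ≤ (n : ℝ) ^ α → 0 < ε → ε ^ 2 ≤ n / N → 1 ≤ p →
      (p : ℝ) ≤ P * Real.log n + P → τ = δ * Real.sqrt (n / N) →
      τ * Real.sqrt n * (N / (n : ℝ) ^ (2 * (2 * α + 1) * α + 1))
        + numE (2 * (2 * α + 1) * α) α (2 * α + 1) p n N ε τ ≤ 8 * δ * (τ * Real.sqrt n) := by
  set γ : ℝ := Real.sqrt c₁ with hγ
  have hγ0 : 0 < γ := Real.sqrt_pos.2 hc₁
  have hγ1 : γ ≤ 1 := by
    rw [hγ]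
    exact Real.sqrt_le_one.2 hc₁'
  have hγ2 : γ ^ 2 = c₁ := Real.sq_sqrt hc₁.le
  set K : ℝ := (2 / γ) ^ (2 * α) * 2 * (2 * P) ^ (4 * α + 3) / (3 * γ ^ 2) with hK
  have hK0 : 0 < K := by positivity
  obtain ⟨n₁, hn₁⟩ := num_log (K ^ 4) (4 * (4 * α + 3))
  obtain ⟨n₂, hn₂⟩ := num_log ((2 * P) ^ 6 / γ ^ 2) 6
  obtain ⟨n₃, hn₃⟩ := exists_nat_ge (1 / δ)
  refine ⟨max (max n₁ n₂) (max n₃ 3), ?_⟩
  intro n N p ε τ hn hn1 hcN hNα hε hε2 hp1 hpP hτ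
  have g1 : n₁ ≤ n := le_trans (le_trans (le_max_left _ _) (le_max_left _ _)) hn
  have g2 : n₂ ≤ n := le_trans (le_trans (le_max_right _ _) (le_max_left _ _)) hn
  have g3 : n₃ ≤ n := le_trans (le_trans (le_max_left _ _) (le_max_right _ _)) hn
  have g4 : 3 ≤ n := le_trans (le_trans (le_max_right _ _) (le_max_right _ _)) hn
  have hnR : (1 : ℝ) ≤ n := by exact_mod_cast hn1
  have hnR0 : (0 : ℝ) < n := by linarith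
  have hlog : 1 ≤ Real.log n := by
    rw [Real.le_log_iff_exp_le hnR0]
    have h3 : (3 : ℝ) ≤ n := by exact_mod_cast g4
    linarith [Real.exp_one_lt_d9]
  have hNR0 : (0 : ℝ) < N := lt_of_lt_of_le (by positivity) hcN
  set s : ℝ := Real.sqrt (Real.sqrt n) with hs
  have hs2 : s ^ 2 = Real.sqrt n := Real.sq_sqrt (Real.sqrt_nonneg _)
  have hs4 : s ^ 4 = n := by
    calc s ^ 4 = (s ^ 2) ^ 2 := by ring
      _ = (n : ℝ) := by rw [hs2, Real.sq_sqrt hnR0.le]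
  have hs1 : 1 ≤ s := by
    rw [hs, Real.one_le_sqrt, Real.one_le_sqrt]
    exact hnR
  have hs0 : 0 < s := by linarith
  set r : ℝ := Real.sqrt (N / n) with hr
  have hr0 : 0 < r := Real.sqrt_pos.2 (by positivity)
  have hr2 : r ^ 2 = N / n := Real.sq_sqrt (by positivity)
  have hrN : r ^ 2 * s ^ 4 = N := by
    rw [hr2, hs4]
    field_simp
  have hp1' : (1 : ℝ) ≤ p := by exact_mod_cast hp1
  have hp2 : (p : ℝ) ≤ 2 * P * Real.log n := by nlinarith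
  have hτ' : τ = δ / r := by
    rw [hτ, hr]
    have : (n : ℝ) / N = ((N : ℝ) / n)⁻¹ := by rw [inv_div]
    rw [this, Real.sqrt_inv]
    ring
  have hεr : ε * r ≤ 1 := by
    have h1 : (ε * r) ^ 2 ≤ 1 := by
      rw [mul_pow, hr2]
      calc ε ^ 2 * (N / n) ≤ n / N * (N / n) := mul_le_mul_of_nonneg_right hε2 (by positivity)
        _ = 1 := by field_simp
    have h2 : (0 : ℝ) ≤ ε * r := by positivity
    nlinarith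
  have h1 : γ * s ^ 2 ≤ r := by
    have h2 : (γ * s ^ 2) ^ 2 ≤ r ^ 2 := by
      calc (γ * s ^ 2) ^ 2 = γ ^ 2 * s ^ 4 := by ring
        _ = c₁ * (n : ℝ) := by rw [hγ2, hs4]
        _ ≤ r ^ 2 := by
          rw [hr2, le_div_iff₀ hnR0]
          linarith
    exact le_of_pow_le_pow_left₀ (by norm_num) hr0.le h2
  have h2 : r * s ^ 2 ≤ s ^ (2 * α) := by
    have h3 : (r * s ^ 2) ^ 2 ≤ (s ^ (2 * α)) ^ 2 := by
      calc (r * s ^ 2) ^ 2 = r ^ 2 * s ^ 4 := by ring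
        _ = (N : ℝ) := hrN
        _ ≤ (n : ℝ) ^ α := hNα
        _ = (s ^ (2 * α)) ^ 2 := by
          rw [← hs4, ← pow_mul, ← pow_mul]
          congr 1
          ring
    exact le_of_pow_le_pow_left₀ (by norm_num) (by positivity) h3
  have h3 : (2 * (p : ℝ) ^ 2 / γ) ^ (2 * α) * (2 * (p : ℝ) ^ 3) ≤ 3 * γ ^ 2 * s := by
    have e1 : (2 * (p : ℝ) ^ 2 / γ) ^ (2 * α) * (2 * (p : ℝ) ^ 3) =
        (2 / γ) ^ (2 * α) * 2 * (p : ℝ) ^ (4 * α + 3) := by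
      rw [show 2 * (p : ℝ) ^ 2 / γ = 2 / γ * (p : ℝ) ^ 2 by ring, mul_pow, ← pow_mul, pow_add,
        show 2 * (2 * α) = 4 * α by ring]
      ring
    have e2 : (p : ℝ) ^ (4 * α + 3) ≤ (2 * P) ^ (4 * α + 3) * Real.log n ^ (4 * α + 3) := by
      rw [← mul_pow]
      exact pow_le_pow_left₀ (by positivity) hp2 _
    have e3 : K * Real.log n ^ (4 * α + 3) ≤ s := by
      have e4 : (K * Real.log n ^ (4 * α + 3)) ^ 4 ≤ s ^ 4 := by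
        rw [mul_pow, ← pow_mul, hs4, mul_comm (4 * α + 3) 4]
        exact hn₁ n g1
      exact le_of_pow_le_pow_left₀ (by norm_num) hs0.le e4
    rw [e1]
    calc (2 / γ) ^ (2 * α) * 2 * (p : ℝ) ^ (4 * α + 3)
        ≤ (2 / γ) ^ (2 * α) * 2 * ((2 * P) ^ (4 * α + 3) * Real.log n ^ (4 * α + 3)) :=
          mul_le_mul_of_nonneg_left e2 (by positivity)
      _ = 3 * γ ^ 2 * (K * Real.log n ^ (4 * α + 3)) := by
          rw [hK]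
          field_simp
      _ ≤ 3 * γ ^ 2 * s := mul_le_mul_of_nonneg_left e3 (by positivity)
  have h4 : (p : ℝ) ^ 6 ≤ γ ^ 2 * s ^ 4 := by
    have e1 := hn₂ n g2
    have e2 : (p : ℝ) ^ 6 ≤ (2 * P) ^ 6 * Real.log n ^ 6 := by
      rw [← mul_pow]
      exact pow_le_pow_left₀ (by positivity) hp2 _
    rw [hs4]
    calc (p : ℝ) ^ 6 ≤ (2 * P) ^ 6 * Real.log n ^ 6 := e2
      _ = γ ^ 2 * ((2 * P) ^ 6 / γ ^ 2 * Real.log n ^ 6) := by field_simp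
      _ ≤ γ ^ 2 * n := mul_le_mul_of_nonneg_left e1 (by positivity)
  have h5 : 1 ≤ δ * s ^ 4 := by
    rw [hs4]
    have : (n₃ : ℝ) ≤ n := by exact_mod_cast g3
    have h6 : 1 / δ ≤ n := hn₃.trans this
    rw [div_le_iff₀ hδ] at h6
    linarith
  have := num_main hα hs1 hr0 hp1' hγ0 hγ1 hδ hδ' hε hεr h1 h2 h3 h4 h5
  rw [hrN, hs4, hs2, ← hτ'] at this
  exact this

end Pool.Agent.Helper47.LB
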