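import Pool.Agent.Helper47.LB.Core
import Pool.Agent.Helper47.LB.Num
import Pool.Agent.Helper61.Zono.Main

/-!
# The log-free bound in the polynomial range

Given `A`, put `α = 2A + 2`, `c₀ = α`, `q = 2α+1`, `m = 2 q α`, `C` from `core`. `Helper61.Zono.main`:
`N ≥ c₁ min(n², n/ε²)` (make `c₁ ≤ 1`). If the minimum is `n/ε²`, done; so `N ≥ c₁ n²`. If
`n/ε² ≤ N`, done; so `ε² ≤ n/N`, and `N ≤ n/ε² ≤ n^{1+2A} ≤ n^α`. Choose `p = ⌈A log n⌉₊ + 1`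
(`e^{-p} ≤ n^{-A} ≤ ε`), `P = A + 2`. Choose `δ = 1/(16 C)` (depends on `A` only) and `n₀` from `num_bound`. For
`n ≥ n₀`, `τ = δ√(n/N)`: `τ√N = δ√n`, so `core` gives
`τ√n ≤ C (2 ε √n + 8 δ τ√n) = 2Cε√n + τ√n/2`, `τ ≤ 4 C ε`, i.e. `δ² n/N ≤ 16 C² ε²`,
`N ≥ δ²/(16 C²) n/ε²`. For `n < n₀`: `ε ≥ n^{-A} ≥ n₀^{-A}` and `N ≥ 1` (as `N = 0` is impossible for
`n ≥ 1`), so `N ≥ c n/ε²` with `c = 1/(n₀^{2A+1})`.
-/

open MeasureTheory ProbabilityTheory Matrix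
open scoped RealInnerProductSpace ENNReal
open Pool.Agent.Helper24.Zono

namespace Pool.Agent.Helper47.LB

theorem log_free_poly (A : ℕ) : ∃ c : ℝ, 0 < c ∧ ∀ (n N : ℕ) (x : Fin N → En n) (ε : ℝ),
    1 ≤ n → 1 ≤ ε * (n : ℝ) ^ A → ε ≤ 1 / 2 →
    (∀ y, (1 - ε) * ‖y‖ ≤ ∑ j, |⟪y, x j⟫|) → (∀ y, ∑ j, |⟪y, x j⟫| ≤ (1 + ε) * ‖y‖) →
    c * (n / ε ^ 2) ≤ N := by
  obtain ⟨C, hC1, hcore⟩ := core (2 * (2 * (2 * A + 2) + 1) * (2 * A + 2)) (2 * A + 2)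
    (2 * (2 * A + 2) + 1) (by omega) (by omega) le_rfl
  obtain ⟨c₁', hc₁', hmain⟩ := Pool.Agent.Helper61.Zono.main
  set c₁ : ℝ := min c₁' 1 with hc₁def
  have hc₁ : 0 < c₁ := lt_min hc₁' one_pos
  have hc₁1 : c₁ ≤ 1 := min_le_right _ _
  have hc₁c : c₁ ≤ c₁' := min_le_left _ _
  have hC0 : 0 < C := by linarith
  set δ : ℝ := 1 / (16 * C) with hδdef
  have hδ0 : 0 < δ := by positivity
  have hδ1 : δ ≤ 1 := by
    rw [hδdef, div_le_one (by positivity)]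
    linarith
  have hδC : 8 * δ * C = 1 / 2 := by
    rw [hδdef]
    field_simp
    norm_num
  obtain ⟨n₀, hnum⟩ := num_bound (2 * A + 2) (by omega) c₁ ((A : ℝ) + 2) δ hc₁ hc₁1
    (by have : (0 : ℝ) ≤ (A : ℝ) := Nat.cast_nonneg A
        linarith) hδ0 hδ1
  have hM : (0 : ℝ) < ((n₀ : ℝ) + 1) ^ (2 * A + 1) := by positivity
  refine ⟨min (min c₁ (δ ^ 2 / (16 * C ^ 2))) (1 / ((n₀ : ℝ) + 1) ^ (2 * A + 1)),
    lt_min (lt_min hc₁ (by positivity)) (by positivity), ?_⟩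
  intro n N x ε hn hεn hε2 hlow hup
  set c : ℝ := min (min c₁ (δ ^ 2 / (16 * C ^ 2))) (1 / ((n₀ : ℝ) + 1) ^ (2 * A + 1)) with hcdef
  have hcc1 : c ≤ c₁ := (min_le_left _ _).trans (min_le_left _ _)
  have hcc2 : c ≤ δ ^ 2 / (16 * C ^ 2) := (min_le_left _ _).trans (min_le_right _ _)
  have hcc3 : c ≤ 1 / ((n₀ : ℝ) + 1) ^ (2 * A + 1) := min_le_right _ _
  have hn1 : (1 : ℝ) ≤ (n : ℝ) := by exact_mod_cast hn
  have hn0 : (0 : ℝ) < (n : ℝ) := by linarith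
  have hnA : (0 : ℝ) < (n : ℝ) ^ A := by positivity
  have hε0 : 0 < ε := by
    by_contra hneg
    have : ε * (n : ℝ) ^ A ≤ 0 := mul_nonpos_of_nonpos_of_nonneg (not_lt.1 hneg) hnA.le
    linarith
  have hq0 : 0 < (n : ℝ) / ε ^ 2 := by positivity
  have hmn := hmain n N ε x hε0 (by linarith) (fun v => ⟨hlow v, hup v⟩)
  rcases le_total ((n : ℝ) / ε ^ 2) ((n : ℝ) ^ 2) with h1 | h1
  · rw [min_eq_right h1] at hmn
    calc c * (n / ε ^ 2) ≤ c₁' * (n / ε ^ 2) :=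
          mul_le_mul_of_nonneg_right (hcc1.trans hc₁c) hq0.le
      _ ≤ N := hmn
  rw [min_eq_left h1] at hmn
  have hN2 : c₁ * (n : ℝ) ^ 2 ≤ N :=
    (mul_le_mul_of_nonneg_right hc₁c (by positivity)).trans hmn
  rcases le_total ((n : ℝ) / ε ^ 2) (N : ℝ) with h2 | h2
  · calc c * (n / ε ^ 2) ≤ 1 * (n / ε ^ 2) :=
          mul_le_mul_of_nonneg_right (hcc1.trans hc₁1) hq0.le
      _ ≤ N := by rw [one_mul]; exact h2
  have hNpos : (0 : ℝ) < (N : ℝ) := lt_of_lt_of_le (by positivity) hN2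
  have hNnat : 1 ≤ N := by
    have : 0 < N := by exact_mod_cast hNpos
    exact this
  have hN1 : (1 : ℝ) ≤ (N : ℝ) := by exact_mod_cast hNnat
  have hεsq : ε ^ 2 ≤ (n : ℝ) / N := by
    rw [le_div_iff₀ hNpos]
    rw [le_div_iff₀ (by positivity)] at h2
    linarith
  have hinv : (n : ℝ) / ε ^ 2 ≤ (n : ℝ) ^ (2 * A + 1) := by
    rw [div_le_iff₀ (by positivity)]
    have h3 : (1 : ℝ) ≤ (ε * (n : ℝ) ^ A) ^ 2 := one_le_pow₀ hεn
    calc (n : ℝ) = n * 1 := (mul_one _).symm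
      _ ≤ n * (ε * (n : ℝ) ^ A) ^ 2 := mul_le_mul_of_nonneg_left h3 hn0.le
      _ = (n : ℝ) ^ (2 * A + 1) * ε ^ 2 := by ring
  rcases lt_or_ge n n₀ with h4 | h4
  · -- small `n`
    have h5 : (n : ℝ) ^ (2 * A + 1) ≤ ((n₀ : ℝ) + 1) ^ (2 * A + 1) := by
      refine pow_le_pow_left₀ hn0.le ?_ _
      have : (n : ℝ) ≤ (n₀ : ℝ) := by exact_mod_cast h4.le
      linarith
    calc c * (n / ε ^ 2) ≤ 1 / ((n₀ : ℝ) + 1) ^ (2 * A + 1) * ((n₀ : ℝ) + 1) ^ (2 * A + 1) :=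
          mul_le_mul hcc3 (hinv.trans h5) hq0.le (by positivity)
      _ = 1 := by field_simp
      _ ≤ N := hN1
  -- large `n`
  have hNα : (N : ℝ) ≤ (n : ℝ) ^ (2 * A + 2) := by
    refine (h2.trans hinv).trans ?_
    exact pow_le_pow_right₀ hn1 (by omega)
  have hlog : 0 ≤ Real.log (n : ℝ) := Real.log_nonneg hn1
  have hAlog : 0 ≤ (A : ℝ) * Real.log n := mul_nonneg (Nat.cast_nonneg A) hlog
  set p : ℕ := ⌈(A : ℝ) * Real.log n⌉₊ + 1 with hp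
  have hp1 : 1 ≤ p := by omega
  have hpexp : Real.exp (-(p : ℝ)) ≤ ε := by
    have h6 : (A : ℝ) * Real.log n ≤ (p : ℝ) := by
      rw [hp]
      push_cast
      have := Nat.le_ceil ((A : ℝ) * Real.log n)
      linarith
    have h7 : Real.exp (-((A : ℝ) * Real.log n)) = ((n : ℝ) ^ A)⁻¹ := by
      rw [Real.exp_neg, ← Real.log_pow, Real.exp_log hnA]
    calc Real.exp (-(p : ℝ)) ≤ Real.exp (-((A : ℝ) * Real.log n)) :=
          Real.exp_le_exp.2 (by linarith)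
      _ = ((n : ℝ) ^ A)⁻¹ := h7
      _ ≤ ε := by
          rw [inv_le_iff_one_le_mul₀ hnA]
          exact hεn
  have hpP : (p : ℝ) ≤ ((A : ℝ) + 2) * Real.log n + ((A : ℝ) + 2) := by
    have h8 : (⌈(A : ℝ) * Real.log n⌉₊ : ℝ) < (A : ℝ) * Real.log n + 1 :=
      Nat.ceil_lt_add_one hAlog
    have h9 : (0 : ℝ) ≤ (A : ℝ) := Nat.cast_nonneg A
    rw [hp]
    push_cast
    nlinarith
  set τ : ℝ := δ * Real.sqrt (n / N) with hτ
  have hτ0 : 0 ≤ τ := by positivity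
  have hnb := hnum n N p ε τ h4 hn hN2 hNα hε0 hεsq hp1 hpP rfl
  have hco := hcore n N x ε p hn hNnat hε0 hε2 hp1 hpexp hlow hup τ hτ0
  have hsqn : 0 < Real.sqrt (n : ℝ) := Real.sqrt_pos.2 hn0
  have hτN : τ * Real.sqrt N = δ * Real.sqrt n := by
    rw [hτ, mul_assoc, ← Real.sqrt_mul (by positivity)]
    congr 2
    field_simp
  have h10 : τ * Real.sqrt n ≤ C * (ε * (Real.sqrt n + δ * Real.sqrt n)
      + 8 * δ * (τ * Real.sqrt n)) := by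
    refine hco.trans (mul_le_mul_of_nonneg_left ?_ hC0.le)
    rw [hτN]
    linarith
  have h11 : τ * Real.sqrt n ≤ 4 * C * ε * Real.sqrt n := by
    have e1 : C * (ε * (Real.sqrt n + δ * Real.sqrt n) + 8 * δ * (τ * Real.sqrt n)) =
        C * ε * (1 + δ) * Real.sqrt n + 8 * δ * C * (τ * Real.sqrt n) := by ring
    rw [e1, hδC] at h10
    have e2 : C * ε * (1 + δ) * Real.sqrt n ≤ C * ε * 2 * Real.sqrt n := by
      refine mul_le_mul_of_nonneg_right ?_ hsqn.le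
      exact mul_le_mul_of_nonneg_left (by linarith) (by positivity)
    nlinarith
  have h12 : τ ≤ 4 * C * ε := le_of_mul_le_mul_right h11 hsqn
  have h13 : τ ^ 2 = δ ^ 2 * (n / N) := by
    rw [hτ, mul_pow, Real.sq_sqrt (by positivity)]
  have h14 : δ ^ 2 * ((n : ℝ) / N) ≤ 16 * C ^ 2 * ε ^ 2 := by
    rw [← h13]
    calc τ ^ 2 ≤ (4 * C * ε) ^ 2 := pow_le_pow_left₀ hτ0 h12 2
      _ = 16 * C ^ 2 * ε ^ 2 := by ring
  have h15 : δ ^ 2 / (16 * C ^ 2) * ((n : ℝ) / ε ^ 2) ≤ N := by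
    rw [div_mul_div_comm, div_le_iff₀ (by positivity)]
    have h16 : δ ^ 2 * ((n : ℝ) / N) * N ≤ 16 * C ^ 2 * ε ^ 2 * N :=
      mul_le_mul_of_nonneg_right h14 hNpos.le
    have h17 : δ ^ 2 * ((n : ℝ) / N) * N = δ ^ 2 * n := by
      field_simp
    linarith
  exact (mul_le_mul_of_nonneg_right hcc2 hq0.le).trans h15

end Pool.Agent.Helper47.LB
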