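import Pool.Agent.Helper47.LB.Defs
import Pool.Agent.Helper61.Zono.Gauss

/-!
# Gaussian moments of products of linear functionals

Everything factorises over the coordinates `l : Fin s`
(`integral_fintype_prod_eq_prod`, `Integrable.fintype_prod` or similar), and in one coordinate
`∫ ⟨v,g⟩⟨v',g⟩ = ⟨v,v'⟩` (polarise `Helper61.Zono.integral_inner_sq` or Mathlib's covariance of
`stdGaussian`), all moments finite (`IsGaussian.memLp_id`), `E|⟨v,g⟩|^k ≤ ‖v‖^k E‖g‖^k`.
`memLp_prf`: all powers of `|prf|` are integrable: products of powers of the factors.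
-/

open MeasureTheory ProbabilityTheory Matrix
open scoped RealInnerProductSpace ENNReal
open Pool.Agent.Helper24.Zono

namespace Pool.Agent.Helper47.LB

theorem measurable_prf {n s : ℕ} (v : Fin s → En n) : Measurable (prf v) := by
  unfold prf
  exact Finset.measurable_prod _ fun l _ => by fun_prop

private lemma int_abs_pow {n : ℕ} (v : En n) (p : ℕ) :
    Integrable (fun z : En n => |⟪v, z⟫| ^ p) (stdGaussian (En n)) := by
  have h := (Pool.Agent.Helper61.Zono.norm_pow_integrable (E := En n) p).const_mul (‖v‖ ^ p)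
  refine h.mono' (by fun_prop) (Filter.Eventually.of_forall fun z => ?_)
  rw [Real.norm_eq_abs, abs_of_nonneg (by positivity), ← mul_pow]
  exact pow_le_pow_left₀ (abs_nonneg _) (abs_real_inner_le_norm v z) p

private lemma int_mul {n : ℕ} (v v' : En n) :
    Integrable (fun z : En n => ⟪v, z⟫ * ⟪v', z⟫) (stdGaussian (En n)) := by
  have h := (Pool.Agent.Helper61.Zono.norm_pow_integrable (E := En n) 2).const_mul (‖v‖ * ‖v'‖)
  refine h.mono' (by fun_prop) (Filter.Eventually.of_forall fun z => ?_)
  rw [Real.norm_eq_abs, abs_mul]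
  have h1 := abs_real_inner_le_norm v z
  have h2 := abs_real_inner_le_norm v' z
  calc |⟪v, z⟫| * |⟪v', z⟫| ≤ (‖v‖ * ‖z‖) * (‖v'‖ * ‖z‖) :=
        mul_le_mul h1 h2 (abs_nonneg _) (by positivity)
    _ = ‖v‖ * ‖v'‖ * ‖z‖ ^ 2 := by ring

private lemma one_coord {n : ℕ} (v v' : En n) :
    ∫ z, ⟪v, z⟫ * ⟪v', z⟫ ∂(stdGaussian (En n)) = ⟪v, v'⟫ := by
  have hs := Pool.Agent.Helper61.Zono.integral_inner_sq (v + v')
  have hd := Pool.Agent.Helper61.Zono.integral_inner_sq (v - v')
  have i1 : Integrable (fun z : En n => ⟪v + v', z⟫ ^ 2) (stdGaussian (En n)) := by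
    have := int_mul (v + v') (v + v')
    simpa [pow_two] using this
  have i2 : Integrable (fun z : En n => ⟪v - v', z⟫ ^ 2) (stdGaussian (En n)) := by
    have := int_mul (v - v') (v - v')
    simpa [pow_two] using this
  have e : ∀ z : En n, ⟪v, z⟫ * ⟪v', z⟫ = 4⁻¹ * (⟪v + v', z⟫ ^ 2 - ⟪v - v', z⟫ ^ 2) := by
    intro z
    rw [inner_add_left, inner_sub_left]
    ring
  simp_rw [e]
  rw [integral_const_mul, integral_sub i1 i2, hs, hd, @norm_add_sq_real, @norm_sub_sq_real]
  ring

theorem memLp_prf {n s : ℕ} (v : Fin s → En n) (p : ℕ) : MemLp (prf v) (p : ℝ≥0∞) (PG n s) := by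
  have hm : AEStronglyMeasurable (prf v) (PG n s) := (measurable_prf v).aestronglyMeasurable
  rcases Nat.eq_zero_or_pos p with rfl | hp
  · simpa using hm
  · have hp0 : (p : ℝ≥0∞) ≠ 0 := by
      simpa using hp.ne'
    refine (integrable_norm_rpow_iff hm hp0 (ENNReal.natCast_ne_top p)).1 ?_
    have h := Integrable.fintype_prod (μ := fun _ : Fin s => stdGaussian (En n))
      (f := fun (l : Fin s) (z : En n) => |⟪v l, z⟫| ^ p) fun l => int_abs_pow (v l) p
    refine h.congr (Filter.Eventually.of_forall fun a => ?_)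
    simp only [ENNReal.toReal_natCast, Real.rpow_natCast, prf, Real.norm_eq_abs,
      Finset.abs_prod, Finset.prod_pow]

theorem integral_prf_mul_prf {n s : ℕ} (v v' : Fin s → En n) :
    ∫ a, prf v a * prf v' a ∂(PG n s) = ∏ l, ⟪v l, v' l⟫ := by
  have h := integral_fintype_prod_eq_prod (𝕜 := ℝ) (μ := fun _ : Fin s => stdGaussian (En n))
    (fun (l : Fin s) (z : En n) => ⟪v l, z⟫ * ⟪v' l, z⟫)
  simp only [one_coord] at h
  rw [← h]
  refine integral_congr_ae (Filter.Eventually.of_forall fun a => ?_)
  simp only [prf, Finset.prod_mul_distrib]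

theorem gram_posSemidef {n N : ℕ} (x : Fin N → En n) (D : ℕ) : (gram x D).PosSemidef := by
  refine Matrix.PosSemidef.of_dotProduct_mulVec_nonneg ?_ ?_
  · ext i j
    simp [gram, real_inner_comm]
  · intro y
    have hint : ∀ i j, Integrable (fun a => prf (fun _ : Fin D => dir x i) a *
        prf (fun _ : Fin D => dir x j) a) (PG n D) := fun i j => by
      have h1 := memLp_prf (fun _ : Fin D => dir x i) 2
      have h2 := memLp_prf (fun _ : Fin D => dir x j) 2
      exact MemLp.integrable_mul (by simpa using h1) (by simpa using h2)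
    have e : star y ⬝ᵥ (gram x D *ᵥ y) =
        ∫ a, (∑ i, y i * prf (fun _ : Fin D => dir x i) a) ^ 2 ∂(PG n D) := by
      have e1 : ∀ a, (∑ i, y i * prf (fun _ : Fin D => dir x i) a) ^ 2 =
          ∑ i, ∑ j, y i * y j * (prf (fun _ : Fin D => dir x i) a *
            prf (fun _ : Fin D => dir x j) a) := by
        intro a
        rw [pow_two, Finset.sum_mul_sum]
        refine Finset.sum_congr rfl fun i _ => Finset.sum_congr rfl fun j _ => by ring
      simp_rw [e1]
      rw [integral_finsetSum _ fun i _ => integrable_finsetSum _ fun j _ =>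
        (hint i j).const_mul _]
      simp only [dotProduct, mulVec, Pi.star_apply, star_trivial, gram, of_apply]
      refine Finset.sum_congr rfl fun i _ => ?_
      rw [integral_finsetSum _ fun j _ => (hint i j).const_mul _, Finset.mul_sum]
      refine Finset.sum_congr rfl fun j _ => ?_
      rw [integral_const_mul, integral_prf_mul_prf]
      simp only [Finset.prod_const, Finset.card_univ, Fintype.card_fin]
      ring
    rw [e]
    exact integral_nonneg fun a => sq_nonneg _

theorem gram_diag {n N : ℕ} (x : Fin N → En n) (D : ℕ) (i : Fin N) (hi : wt x i ≠ 0) :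
    gram x D i i = 1 := by
  have h0 : ‖dir x i‖ = 1 := by
    unfold dir
    rw [norm_smul, norm_inv, norm_norm]
    exact inv_mul_cancel₀ hi
  simp only [gram, of_apply]
  rw [real_inner_self_eq_norm_sq, h0]
  simp

end Pool.Agent.Helper47.LB
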