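import Pool.Agent.Helper47.LB.GMom
import Pool.Agent.Helper61.Zono.Gauss

/-!
# Hypercontractivity for multilinear Gaussian forms

`hyper_vec` by induction on `s`: for finitely many forms `F_k(a) = ∑_t c k t prf (v k t) a`,
`E (∑_k F_k²)^q ≤ C (∑_k E F_k²)^q` with `C = C(s,q)`. `s = 0`: constants. Step: split off the
first variable, `F_k(a_0, a') = ⟨a_0, V_k(a')⟩` (`Fin.cons`, `measurePreserving_piFinSuccAbove` or
similar). For fixed `a'`, with `A_k = ‖V_k‖²`, `A = ∑ A_k`: by convexity of `t^q`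
`(∑ X_k²)^q ≤ A^q ∑ (A_k/A) (X_k²/A_k)^q` (terms with `A_k = 0` vanish a.s.), and
`E ⟨a_0,V⟩^{2q} = c_q ‖V‖^{2q}` (`Helper61.Zono.integral_inner`), so
`E_{a_0} (∑ F_k²)^q ≤ c_q (∑ ‖V_k(a')‖²)^q`, and `‖V_k‖² = ∑_e ⟨V_k, e⟩²` over an orthonormal basis is
again a finite sum of squares of forms in `a'`; also `E F_k² = E ∑_e ⟨V_k,e⟩²`.
-/

open MeasureTheory ProbabilityTheory Matrix
open scoped RealInnerProductSpace ENNReal

namespace Pool.Agent.Helper47.LB

/-- all moments are finite -/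
private def AM {Ω : Type*} [MeasurableSpace Ω] (μ : Measure Ω) (f : Ω → ℝ) : Prop :=
  AEStronglyMeasurable f μ ∧ ∀ p : ℕ, Integrable (fun a => |f a| ^ p) μ

section am

variable {Ω : Type*} [MeasurableSpace Ω] {μ : Measure Ω} {f g : Ω → ℝ}

private lemma AM.integrable (hf : AM μ f) : Integrable f μ := by
  have h := hf.2 1
  refine h.mono' hf.1 (Filter.Eventually.of_forall fun a => ?_)
  rw [pow_one, Real.norm_eq_abs]

private lemma AM.add (hf : AM μ f) (hg : AM μ g) : AM μ (fun a => f a + g a) := by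
  refine ⟨hf.1.add hg.1, fun p => ?_⟩
  have h := ((hf.2 p).add (hg.2 p)).const_mul ((2 : ℝ) ^ (p - 1))
  refine h.mono' ((hf.1.add hg.1).norm.pow p) (Filter.Eventually.of_forall fun a => ?_)
  rw [Real.norm_eq_abs, abs_of_nonneg (by positivity)]
  refine (pow_le_pow_left₀ (abs_nonneg _) (abs_add_le (f a) (g a)) p).trans ?_
  exact add_pow_le (abs_nonneg _) (abs_nonneg _) p

private lemma AM.mul (hf : AM μ f) (hg : AM μ g) : AM μ (fun a => f a * g a) := by
  refine ⟨hf.1.mul hg.1, fun p => ?_⟩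
  have h := (hf.2 (2 * p)).add (hg.2 (2 * p))
  refine h.mono' ((hf.1.mul hg.1).norm.pow p) (Filter.Eventually.of_forall fun a => ?_)
  rw [Real.norm_eq_abs, abs_of_nonneg (by positivity), abs_mul, mul_pow]
  simp only [Pi.add_apply]
  have e1 : |f a| ^ (2 * p) = (|f a| ^ p) ^ 2 := by rw [← pow_mul, mul_comm]
  have e2 : |g a| ^ (2 * p) = (|g a| ^ p) ^ 2 := by rw [← pow_mul, mul_comm]
  rw [e1, e2]
  nlinarith [sq_nonneg (|f a| ^ p - |g a| ^ p), sq_nonneg (|f a| ^ p), sq_nonneg (|g a| ^ p)]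

private lemma AM.const [IsFiniteMeasure μ] (c : ℝ) : AM μ (fun _ => c) :=
  ⟨aestronglyMeasurable_const, fun _ => integrable_const _⟩

private lemma AM.pow [IsFiniteMeasure μ] (hf : AM μ f) (q : ℕ) : AM μ (fun a => f a ^ q) := by
  refine ⟨hf.1.pow q, fun p => ?_⟩
  have h := hf.2 (q * p)
  refine h.congr (Filter.Eventually.of_forall fun a => ?_)
  simp only [abs_pow]
  rw [pow_mul]

private lemma AM.sum [IsFiniteMeasure μ] {ι : Type*} (S : Finset ι) {F : ι → Ω → ℝ}
    (h : ∀ i, AM μ (F i)) : AM μ (fun a => ∑ i ∈ S, F i a) := by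
  classical
  induction S using Finset.induction_on with
  | empty =>
    simp only [Finset.sum_empty]
    exact AM.const 0
  | insert i S hi ih =>
    simp only [Finset.sum_insert hi]
    exact (h i).add ih

end am

private lemma am_inner {n : ℕ} (V : En n) : AM (stdGaussian (En n)) (fun a => ⟪V, a⟫) := by
  have hc : Continuous (fun a : En n => ⟪V, a⟫) := by fun_prop
  refine ⟨hc.aestronglyMeasurable, fun p => ?_⟩
  have h := (Pool.Agent.Helper61.Zono.norm_pow_integrable (E := En n) p).const_mul (‖V‖ ^ p)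
  refine h.mono' ((hc.abs.pow p).aestronglyMeasurable) (Filter.Eventually.of_forall fun a => ?_)
  rw [Real.norm_eq_abs, abs_of_nonneg (by positivity), ← mul_pow]
  exact pow_le_pow_left₀ (abs_nonneg _) (abs_real_inner_le_norm V a) p

private lemma am_prf {n s : ℕ} (v : Fin s → En n) : AM (PG n s) (prf v) := by
  refine ⟨(measurable_prf v).aestronglyMeasurable, fun p => ?_⟩
  have h := (memLp_prf v p).integrable_norm_pow'
  refine h.congr (Filter.Eventually.of_forall fun a => ?_)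
  simp only [Real.norm_eq_abs]

private lemma am_form {n s : ℕ} {T : Type} [Fintype T] (c : T → ℝ) (v : T → Fin s → En n) :
    AM (PG n s) (fun a => ∑ t, c t * prf (v t) a) :=
  AM.sum _ fun t => (AM.const (c t)).mul (am_prf (v t))

private lemma am_big {n s q : ℕ} {κ T : Type} [Fintype κ] [Fintype T]
    (c : κ → T → ℝ) (v : κ → T → Fin s → En n) :
    AM (PG n s) (fun a => (∑ k, (∑ t, c k t * prf (v k t) a) ^ 2) ^ q) :=
  (AM.sum _ fun k => (am_form (c k) (v k)).pow 2).pow q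

private noncomputable def cq (q : ℕ) : ℝ := ∫ x, x ^ (2 * q) ∂(gaussianReal 0 1)

private lemma cq_nonneg (q : ℕ) : 0 ≤ cq q :=
  integral_nonneg fun x => by
    rw [pow_mul]
    positivity

private lemma cq_zero : cq 0 = 1 := by
  unfold cq
  simp

private lemma int_inner_pow {n : ℕ} (V : En n) (q : ℕ) :
    ∫ a, (⟪V, a⟫ ^ 2) ^ q ∂(stdGaussian (En n)) = (‖V‖ ^ 2) ^ q * cq q := by
  have h := Pool.Agent.Helper61.Zono.integral_inner V (fun x : ℝ => (x ^ 2) ^ q) (by fun_prop)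
  rw [h]
  unfold cq
  rw [← integral_const_mul]
  refine integral_congr_ae (Filter.Eventually.of_forall fun x => ?_)
  simp only
  rw [mul_pow, mul_pow, ← pow_mul x]

private lemma inner_bound {n q : ℕ} {κ : Type} [Fintype κ] (V : κ → En n) :
    ∫ a, (∑ k, ⟪V k, a⟫ ^ 2) ^ q ∂(stdGaussian (En n)) ≤ cq q * (∑ k, ‖V k‖ ^ 2) ^ q := by
  obtain ⟨A, hA⟩ : ∃ A, A = ∑ k, ‖V k‖ ^ 2 := ⟨_, rfl⟩
  have hA0 : 0 ≤ A := by rw [hA]; positivity
  rw [← hA]
  rcases hA0.eq_or_lt with h0 | hpos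
  · have hV : ∀ k, V k = 0 := fun k => by
      have h1 := (Finset.sum_eq_zero_iff_of_nonneg (s := Finset.univ)
        (f := fun k => ‖V k‖ ^ 2) (fun k _ => by positivity)).1 (by rw [← hA, ← h0]) k
        (Finset.mem_univ k)
      have h2 : ‖V k‖ = 0 := by
        simpa using h1
      exact norm_eq_zero.1 h2
    rw [← h0]
    simp only [hV, inner_zero_left]
    rcases Nat.eq_zero_or_pos q with rfl | hq
    · rw [cq_zero]
      simp
    · simp [hq.ne']
  · have hz : ∀ a : En n, (∑ k, ⟪V k, a⟫ ^ 2) ^ q ≤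
        A ^ q * ∑ k, (‖V k‖ ^ 2 / A) * (⟪V k, a⟫ ^ 2 / ‖V k‖ ^ 2) ^ q := fun a => by
      have k1 := Real.pow_arith_mean_le_arith_mean_pow Finset.univ
        (fun k => ‖V k‖ ^ 2 / A) (fun k => ⟪V k, a⟫ ^ 2 / ‖V k‖ ^ 2)
        (fun k _ => by positivity) (by rw [← Finset.sum_div, ← hA, div_self hpos.ne'])
        (fun k _ => by positivity) q
      have k2 : ∑ k, ⟪V k, a⟫ ^ 2 =
          A * ∑ k, (‖V k‖ ^ 2 / A) * (⟪V k, a⟫ ^ 2 / ‖V k‖ ^ 2) := by
        rw [Finset.mul_sum]
        refine Finset.sum_congr rfl fun k _ => ?_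
        by_cases hk : V k = 0
        · rw [hk]
          simp
        · have hk' : ‖V k‖ ≠ 0 := norm_ne_zero_iff.2 hk
          field_simp
      rw [k2, mul_pow]
      exact mul_le_mul_of_nonneg_left k1 (by positivity)
    have i1 : Integrable (fun a => (∑ k, ⟪V k, a⟫ ^ 2) ^ q) (stdGaussian (En n)) :=
      ((AM.sum Finset.univ fun k => (am_inner (V k)).pow 2).pow q).integrable
    have i3 : ∀ k, Integrable (fun a => (‖V k‖ ^ 2 / A) * (⟪V k, a⟫ ^ 2 / ‖V k‖ ^ 2) ^ q)
        (stdGaussian (En n)) := fun k => by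
      have h1 := ((((am_inner (V k)).pow 2).mul (AM.const ((‖V k‖ ^ 2)⁻¹))).pow q).integrable
      have h2 := h1.const_mul (‖V k‖ ^ 2 / A)
      refine h2.congr (Filter.Eventually.of_forall fun a => ?_)
      simp only [div_eq_mul_inv]
    have i2 : Integrable (fun a => A ^ q * ∑ k, (‖V k‖ ^ 2 / A) *
        (⟪V k, a⟫ ^ 2 / ‖V k‖ ^ 2) ^ q) (stdGaussian (En n)) :=
      (integrable_finsetSum _ fun k _ => i3 k).const_mul _
    refine (integral_mono i1 i2 hz).trans ?_
    rw [integral_const_mul, integral_finsetSum _ fun k _ => i3 k, mul_comm (cq q)]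
    refine mul_le_mul_of_nonneg_left ?_ (by positivity)
    have k3 : ∀ k, ∫ a, (‖V k‖ ^ 2 / A) * (⟪V k, a⟫ ^ 2 / ‖V k‖ ^ 2) ^ q
        ∂(stdGaussian (En n)) ≤ (‖V k‖ ^ 2 / A) * cq q := fun k => by
      rw [integral_const_mul]
      by_cases hk : V k = 0
      · rw [hk]
        simp
      · have hk' : ‖V k‖ ≠ 0 := norm_ne_zero_iff.2 hk
        refine mul_le_mul_of_nonneg_left (le_of_eq ?_) (by positivity)
        simp only [div_pow]
        rw [integral_div, int_inner_pow]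
        field_simp
    refine (Finset.sum_le_sum fun k _ => k3 k).trans (le_of_eq ?_)
    rw [← Finset.sum_mul, ← Finset.sum_div, ← hA, div_self hpos.ne', one_mul]

private noncomputable def tl {n s : ℕ} (v : Fin (s + 1) → En n) : Fin s → En n :=
  fun l => v l.succ

private lemma prf_cons {n s : ℕ} (v : Fin (s + 1) → En n) (p : En n × (Fin s → En n)) :
    prf v ((MeasurableEquiv.piFinSuccAbove (fun _ : Fin (s + 1) => En n) 0).symm p) =
      ⟪v 0, p.1⟫ * prf (tl v) p.2 := by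
  unfold prf tl
  rw [Fin.prod_univ_succ]
  rfl

private lemma mp {n s : ℕ} :
    MeasurePreserving (MeasurableEquiv.piFinSuccAbove (fun _ : Fin (s + 1) => En n) 0)
      (PG n (s + 1)) ((stdGaussian (En n)).prod (PG n s)) :=
  measurePreserving_piFinSuccAbove (fun _ : Fin (s + 1) => stdGaussian (En n)) 0

private lemma split {n s : ℕ} (F : (Fin (s + 1) → En n) → ℝ) (hF : Integrable F (PG n (s + 1))) :
    Integrable (fun p : En n × (Fin s → En n) =>
      F ((MeasurableEquiv.piFinSuccAbove (fun _ : Fin (s + 1) => En n) 0).symm p))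
        ((stdGaussian (En n)).prod (PG n s)) ∧
    ∫ a, F a ∂(PG n (s + 1)) = ∫ a', ∫ a0,
      F ((MeasurableEquiv.piFinSuccAbove (fun _ : Fin (s + 1) => En n) 0).symm (a0, a'))
        ∂(stdGaussian (En n)) ∂(PG n s) := by
  have h1 : Integrable (fun p : En n × (Fin s → En n) =>
      F ((MeasurableEquiv.piFinSuccAbove (fun _ : Fin (s + 1) => En n) 0).symm p))
        ((stdGaussian (En n)).prod (PG n s)) :=
    ((mp (n := n) (s := s)).symm.integrable_comp_emb
      (MeasurableEquiv.measurableEmbedding _)).2 hF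
  refine ⟨h1, ?_⟩
  rw [← (mp (n := n) (s := s)).symm.integral_comp' F]
  exact integral_prod_symm _ h1

private noncomputable def Vv {n s : ℕ} {T : Type} [Fintype T] (c : T → ℝ)
    (v : T → Fin (s + 1) → En n) (a' : Fin s → En n) : En n :=
  ∑ t, (c t * prf (tl (v t)) a') • v t 0

private lemma form_cons {n s : ℕ} {T : Type} [Fintype T] (c : T → ℝ)
    (v : T → Fin (s + 1) → En n) (p : En n × (Fin s → En n)) :
    ∑ t, c t * prf (v t)
      ((MeasurableEquiv.piFinSuccAbove (fun _ : Fin (s + 1) => En n) 0).symm p) =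
      ⟪Vv c v p.2, p.1⟫ := by
  unfold Vv
  rw [sum_inner]
  refine Finset.sum_congr rfl fun t _ => ?_
  rw [prf_cons, real_inner_smul_left]
  ring

private lemma norm_Vv {n s : ℕ} {T : Type} [Fintype T] (c : T → ℝ)
    (v : T → Fin (s + 1) → En n) (a' : Fin s → En n) :
    ‖Vv c v a'‖ ^ 2 = ∑ i : Fin n, (∑ t, (c t * ⟪EuclideanSpace.basisFun (Fin n) ℝ i, v t 0⟫) *
      prf (tl (v t)) a') ^ 2 := by
  rw [← OrthonormalBasis.sum_sq_inner_right (EuclideanSpace.basisFun (Fin n) ℝ) (Vv c v a')]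
  refine Finset.sum_congr rfl fun i _ => ?_
  congr 1
  unfold Vv
  rw [inner_sum]
  refine Finset.sum_congr rfl fun t _ => ?_
  rw [real_inner_smul_right]
  ring

theorem hyper_vec (s q : ℕ) : ∃ C : ℝ, 1 ≤ C ∧ ∀ (n : ℕ) (κ T : Type) [Fintype κ] [Fintype T]
    (c : κ → T → ℝ) (v : κ → T → Fin s → En n),
    ∫ a, (∑ k, (∑ t, c k t * prf (v k t) a) ^ 2) ^ q ∂(PG n s) ≤
      C * (∑ k, ∫ a, (∑ t, c k t * prf (v k t) a) ^ 2 ∂(PG n s)) ^ q := by
  induction s with
  | zero =>
    refine ⟨1, le_rfl, fun n κ T _ _ c v => ?_⟩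
    have e : ∀ (u : Fin 0 → En n) (a : Fin 0 → En n), prf u a = 1 := fun u a => by
      unfold prf
      simp
    simp only [e, mul_one, integral_const, probReal_univ, one_smul, one_mul]
    exact le_rfl
  | succ s ih =>
    obtain ⟨C, hC, h⟩ := ih
    have hc0 := cq_nonneg q
    refine ⟨(1 + cq q) * C, by nlinarith, fun n κ T _ _ c v => ?_⟩
    have hs2 : ∀ k, ∫ a, (∑ t, c k t * prf (v k t) a) ^ 2 ∂(PG n (s + 1)) =
        ∫ a', ‖Vv (c k) (v k) a'‖ ^ 2 ∂(PG n s) := fun k => by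
      rw [(split _ ((am_form (c k) (v k)).pow 2).integrable).2]
      refine integral_congr_ae (Filter.Eventually.of_forall fun a' => ?_)
      simp only [form_cons]
      exact Pool.Agent.Helper61.Zono.integral_inner_sq _
    have hrhs : ∑ k, ∫ a, (∑ t, c k t * prf (v k t) a) ^ 2 ∂(PG n (s + 1)) =
        ∑ ki : κ × Fin n, ∫ a', (∑ t, (c ki.1 t *
          ⟪EuclideanSpace.basisFun (Fin n) ℝ ki.2, v ki.1 t 0⟫) *
            prf (tl (v ki.1 t)) a') ^ 2 ∂(PG n s) := by
      rw [Fintype.sum_prod_type]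
      refine Finset.sum_congr rfl fun k _ => ?_
      rw [hs2]
      simp only [norm_Vv]
      exact integral_finsetSum _ fun i _ =>
        ((am_form (fun t => c k t * ⟪EuclideanSpace.basisFun (Fin n) ℝ i, v k t 0⟫)
          (fun t => tl (v k t))).pow 2).integrable
    have hsum : ∀ a', ∑ k, ‖Vv (c k) (v k) a'‖ ^ 2 = ∑ ki : κ × Fin n, (∑ t, (c ki.1 t *
          ⟪EuclideanSpace.basisFun (Fin n) ℝ ki.2, v ki.1 t 0⟫) *
            prf (tl (v ki.1 t)) a') ^ 2 := fun a' => by
      rw [Fintype.sum_prod_type]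
      exact Finset.sum_congr rfl fun k _ => norm_Vv (c k) (v k) a'
    have h1 := split (fun a => (∑ k, (∑ t, c k t * prf (v k t) a) ^ 2) ^ q)
      (am_big c v).integrable
    have h2 : ∫ a, (∑ k, (∑ t, c k t * prf (v k t) a) ^ 2) ^ q ∂(PG n (s + 1)) ≤
        ∫ a', cq q * (∑ k, ‖Vv (c k) (v k) a'‖ ^ 2) ^ q ∂(PG n s) := by
      rw [h1.2]
      refine integral_mono h1.1.integral_prod_right ?_ fun a' => ?_
      · simp only [hsum]
        exact (am_big (fun (ki : κ × Fin n) t => c ki.1 t *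
          ⟪EuclideanSpace.basisFun (Fin n) ℝ ki.2, v ki.1 t 0⟫)
          (fun ki t => tl (v ki.1 t))).integrable.const_mul _
      · simp only [form_cons]
        exact inner_bound fun k => Vv (c k) (v k) a'
    have h3 := h n (κ × Fin n) T (fun (ki : κ × Fin n) t => c ki.1 t *
          ⟪EuclideanSpace.basisFun (Fin n) ℝ ki.2, v ki.1 t 0⟫) (fun ki t => tl (v ki.1 t))
    rw [← hrhs] at h3
    simp only [hsum] at h2
    rw [integral_const_mul] at h2
    have h4 : 0 ≤ (∑ k, ∫ a, (∑ t, c k t * prf (v k t) a) ^ 2 ∂(PG n (s + 1))) ^ q := by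
      refine pow_nonneg (Finset.sum_nonneg fun k _ => integral_nonneg fun a => ?_) q
      exact sq_nonneg _
    have h5 := mul_le_mul_of_nonneg_left h3 hc0
    have h6 : 0 ≤ C * (∑ k, ∫ a, (∑ t, c k t * prf (v k t) a) ^ 2 ∂(PG n (s + 1))) ^ q :=
      mul_nonneg (by linarith) h4
    refine h2.trans (h5.trans ?_)
    rw [mul_assoc]
    nlinarith

end Pool.Agent.Helper47.LB
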