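import Pool.Agent.Helper47.LB.GMom

/-!
# The linear term

`dPsi s = cst⁻¹ ∫ e^{-θ²/2} sin(θ s)/θ dθ` (Pair1). One Gaussian vector: `∫ e^{iθ⟨u,g⟩} ⟨v,g⟩ dγ = iθ⟨u,v⟩ e^{-θ²/2}` for `‖u‖=1`
(differentiate the characteristic function, or decompose). Product over the `2s+1` vectors:
`∫ e^{iθ∑⟨u,g_l⟩} prf(v)(g) = (iθ)^{2s+1} ∏⟨u,v_l⟩ e^{-(2s+1)θ²/2}`; imaginary part
`(-1)^s θ^{2s+1} ∏⟨u,v_l⟩ e^{-(2s+1)θ²/2}`. Multiply with `e^{-θ²/2}/θ` and integrate (Fubini as in
`Pair1.integral_dPsi_mul_sin`; `|sin(θ s)/θ| ≤ |s|`).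
-/

open MeasureTheory ProbabilityTheory Matrix
open scoped RealInnerProductSpace ENNReal
open Pool.Agent.Helper24.Zono

namespace Pool.Agent.Helper47.LB

variable {n N m : ℕ}

theorem cD_pos (m : ℕ) : 0 < cD m := by
  unfold cD
  apply mul_pos (inv_pos.mpr cst_pos)
  have hb : (0 : ℝ) < (m : ℝ) + 1 := by positivity
  have hi : Integrable (fun t : ℝ => t ^ (2 * m) * Real.exp (-(((m : ℝ) + 1) * t ^ 2))) := by
    have h := integrable_rpow_mul_exp_neg_mul_sq hb (s := ((2 * m : ℕ) : ℝ))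
      (by have : (0 : ℝ) ≤ ((2 * m : ℕ) : ℝ) := Nat.cast_nonneg _
          linarith)
    refine h.congr (Filter.Eventually.of_forall fun t => ?_)
    simp only [Real.rpow_natCast, neg_mul]
  have hn : 0 ≤ fun t : ℝ => t ^ (2 * m) * Real.exp (-(((m : ℝ) + 1) * t ^ 2)) := fun t => by
    have : 0 ≤ t ^ (2 * m) := (even_two_mul m).pow_nonneg t
    exact mul_nonneg this (Real.exp_pos _).le
  rw [integral_pos_iff_support_of_nonneg hn hi]
  refine lt_of_lt_of_le ?_ (measure_mono (s := Set.Ioo 0 1) fun t ht => ?_)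
  · simp
  · rw [Function.mem_support]
    exact (mul_pos (pow_pos ht.1 _) (Real.exp_pos _)).ne'

/-- one Gaussian vector -/
private lemma lz_one (u v : En n) (hu : ‖u‖ = 1) (θ : ℝ) :
    ∫ g, Complex.exp ((θ * ⟪u, g⟫ : ℝ) * Complex.I) * (⟪v, g⟫ : ℝ) ∂(stdGaussian (En n)) =
      Complex.I * (θ * ⟪u, v⟫ * Real.exp (-θ ^ 2 / 2) : ℝ) := by
  have hF : ∀ t : ℝ, ∫ g, Complex.exp ((⟪g, θ • u + t • v⟫ : ℝ) * Complex.I) ∂(stdGaussian (En n))
      = ((Real.exp (-‖θ • u + t • v‖ ^ 2 / 2) : ℝ) : ℂ) := by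
    intro t
    have h := charFun_stdGaussian (E := En n) (θ • u + t • v)
    rw [charFun_apply] at h
    rw [h]
    push_cast
    rfl
  have hL2 : Integrable (fun g : En n => ‖g‖) (stdGaussian (En n)) :=
    (IsGaussian.integrable_id (μ := stdGaussian (En n))).norm
  have hd := hasDerivAt_integral_of_dominated_loc_of_deriv_le
    (μ := stdGaussian (En n)) (𝕜 := ℝ) (E := ℂ)
    (F := fun t g => Complex.exp ((⟪g, θ • u + t • v⟫ : ℝ) * Complex.I))
    (F' := fun t g => Complex.exp ((⟪g, θ • u + t • v⟫ : ℝ) * Complex.I) *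
      ((⟪g, v⟫ : ℝ) * Complex.I))
    (x₀ := 0) (s := Set.univ) (bound := fun g => ‖g‖ * ‖v‖) Filter.univ_mem
    (Filter.Eventually.of_forall fun t =>
      (by fun_prop : Continuous fun g : En n =>
        Complex.exp ((⟪g, θ • u + t • v⟫ : ℝ) * Complex.I)).aestronglyMeasurable)
    (by
      refine Integrable.mono' (integrable_const (1 : ℝ))
        (by fun_prop : Continuous fun g : En n =>
          Complex.exp ((⟪g, θ • u + (0 : ℝ) • v⟫ : ℝ) * Complex.I)).aestronglyMeasurable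
        (Filter.Eventually.of_forall fun g => ?_)
      rw [Complex.norm_exp_ofReal_mul_I])
    (by fun_prop : Continuous fun g : En n =>
      Complex.exp ((⟪g, θ • u + (0 : ℝ) • v⟫ : ℝ) * Complex.I) *
      ((⟪g, v⟫ : ℝ) * Complex.I)).aestronglyMeasurable
    (Filter.Eventually.of_forall fun g t _ => by
      rw [norm_mul, Complex.norm_exp_ofReal_mul_I, one_mul, norm_mul, Complex.norm_I, mul_one,
        Complex.norm_real]
      exact abs_real_inner_le_norm g v)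
    (hL2.mul_const _)
    (Filter.Eventually.of_forall fun g t _ => by
      have h1 : HasDerivAt (fun t : ℝ => ⟪g, θ • u + t • v⟫) ⟪g, v⟫ t := by
        have h2 : (fun t : ℝ => ⟪g, θ • u + t • v⟫) = fun t : ℝ => θ * ⟪g, u⟫ + t * ⟪g, v⟫ := by
          funext t
          rw [inner_add_right, inner_smul_right, inner_smul_right]
        rw [h2]
        simpa using ((hasDerivAt_id t).mul_const ⟪g, v⟫).const_add (θ * ⟪g, u⟫)
      exact (h1.ofReal_comp.mul_const Complex.I).cexp)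
  have h2 := hd.2
  simp only [hF] at h2
  have h3 : HasDerivAt (fun t : ℝ => ((Real.exp (-‖θ • u + t • v‖ ^ 2 / 2) : ℝ) : ℂ))
      ((Real.exp (-θ ^ 2 / 2) * (-(θ * ⟪u, v⟫)) : ℝ) : ℂ) 0 := by
    have h4 : (fun t : ℝ => -‖θ • u + t • v‖ ^ 2 / 2)
        = fun t : ℝ => -(θ ^ 2 + 2 * (t * (θ * ⟪u, v⟫)) + t ^ 2 * ‖v‖ ^ 2) / 2 := by
      funext t
      rw [norm_add_sq_real, norm_smul, norm_smul, hu, inner_smul_left, inner_smul_right]
      simp only [Real.norm_eq_abs, mul_one, mul_pow, sq_abs]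
      simp
      ring
    have h5 : HasDerivAt (fun t : ℝ => -‖θ • u + t • v‖ ^ 2 / 2) (-(θ * ⟪u, v⟫)) 0 := by
      rw [h4]
      have h6 := (((((hasDerivAt_id (0 : ℝ)).mul_const (θ * ⟪u, v⟫)).const_mul 2).const_add
        (θ ^ 2)).add ((hasDerivAt_pow 2 (0 : ℝ)).mul_const (‖v‖ ^ 2))).neg.div_const 2
      refine h6.congr_deriv ?_
      simp
      ring
    have h7 := h5.exp.ofReal_comp
    refine h7.congr_deriv ?_
    congr 2
    congr 1
    rw [zero_smul, add_zero, norm_smul, hu, mul_one, Real.norm_eq_abs, sq_abs]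
  have h4 := h2.unique h3
  have h5 : ∀ g : En n, Complex.exp ((⟪g, θ • u + (0 : ℝ) • v⟫ : ℝ) * Complex.I) *
      ((⟪g, v⟫ : ℝ) * Complex.I) =
      (Complex.exp ((θ * ⟪u, g⟫ : ℝ) * Complex.I) * (⟪v, g⟫ : ℝ)) * Complex.I := by
    intro g
    rw [zero_smul, add_zero, inner_smul_right, real_inner_comm g u, real_inner_comm g v]
    ring
  simp only [h5] at h4
  rw [integral_mul_const] at h4
  have h6 : ∀ z : ℂ, z * Complex.I = ((Real.exp (-θ ^ 2 / 2) * (-(θ * ⟪u, v⟫)) : ℝ) : ℂ) →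
      z = Complex.I * (θ * ⟪u, v⟫ * Real.exp (-θ ^ 2 / 2) : ℝ) := by
    intro z hz
    have h7 : z = -(z * Complex.I) * Complex.I := by
      linear_combination z * Complex.I_mul_I
    rw [h7, hz]
    push_cast
    ring
  exact h6 _ h4

/-- the product over the vectors -/
private lemma lz_prod {s : ℕ} (u : En n) (hu : ‖u‖ = 1) (v : Fin (2 * s + 1) → En n) (θ : ℝ) :
    ∫ g, Complex.exp ((θ * ∑ l, ⟪u, g l⟫ : ℝ) * Complex.I) * (prf v g : ℝ)
        ∂(PG n (2 * s + 1)) =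
      (((-1) ^ s * θ ^ (2 * s + 1) * (∏ l, ⟪u, v l⟫) * Real.exp (-θ ^ 2 / 2) ^ (2 * s + 1) : ℝ) : ℂ)
        * Complex.I := by
  have h1 : ∀ g : Fin (2 * s + 1) → En n,
      Complex.exp ((θ * ∑ l, ⟪u, g l⟫ : ℝ) * Complex.I) * (prf v g : ℝ) =
        ∏ l, (Complex.exp ((θ * ⟪u, g l⟫ : ℝ) * Complex.I) * (⟪v l, g l⟫ : ℝ)) := by
    intro g
    rw [Finset.prod_mul_distrib, ← Complex.exp_sum, prf, Complex.ofReal_prod, Finset.mul_sum,
      Complex.ofReal_sum, Finset.sum_mul]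
  simp only [h1]
  rw [integral_fintype_prod_eq_prod (f := fun l (x : En n) =>
    Complex.exp ((θ * ⟪u, x⟫ : ℝ) * Complex.I) * (⟪v l, x⟫ : ℝ))]
  simp only [lz_one u _ hu θ]
  rw [Finset.prod_mul_distrib, Finset.prod_const, Finset.card_univ, Fintype.card_fin,
    ← Complex.ofReal_prod, Finset.prod_mul_distrib, Finset.prod_mul_distrib, Finset.prod_const,
    Finset.prod_const, Finset.card_univ, Fintype.card_fin, pow_succ, pow_mul, Complex.I_sq]
  push_cast
  ring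

private lemma lz_prf_int {s : ℕ} (v : Fin s → En n) : Integrable (prf v) (PG n s) := by
  have h := memLp_prf v 1
  rw [Nat.cast_one] at h
  exact memLp_one_iff_integrable.mp h

private lemma lz_sin {s : ℕ} (u : En n) (hu : ‖u‖ = 1) (v : Fin (2 * s + 1) → En n) (θ : ℝ) :
    ∫ g, Real.sin (θ * ∑ l, ⟪u, g l⟫) * prf v g ∂(PG n (2 * s + 1)) =
      (-1) ^ s * θ ^ (2 * s + 1) * (∏ l, ⟪u, v l⟫) * Real.exp (-θ ^ 2 / 2) ^ (2 * s + 1) := by
  have hint : Integrable (fun g : Fin (2 * s + 1) → En n =>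
      Complex.exp ((θ * ∑ l, ⟪u, g l⟫ : ℝ) * Complex.I) * (prf v g : ℝ)) (PG n (2 * s + 1)) := by
    refine (lz_prf_int v).norm.mono' ?_ (Filter.Eventually.of_forall fun g => ?_)
    · refine Measurable.aestronglyMeasurable ?_
      refine Measurable.mul (by fun_prop) ?_
      exact Complex.measurable_ofReal.comp (measurable_prf v)
    · rw [norm_mul, Complex.norm_exp_ofReal_mul_I, one_mul, Complex.norm_real]
  have h1 : ∀ g : Fin (2 * s + 1) → En n, Real.sin (θ * ∑ l, ⟪u, g l⟫) * prf v g =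
      RCLike.im (Complex.exp ((θ * ∑ l, ⟪u, g l⟫ : ℝ) * Complex.I) * (prf v g : ℝ)) := by
    intro g
    rw [RCLike.im_to_complex, Complex.im_mul_ofReal, Complex.exp_ofReal_mul_I_im]
  simp only [h1]
  rw [integral_im hint, lz_prod u hu v θ, RCLike.im_to_complex, Complex.im_ofReal_mul,
    Complex.I_im, mul_one]

private lemma lz_S_memLp {s : ℕ} (u : En n) :
    MemLp (fun g : Fin s → En n => ∑ l, ⟪u, g l⟫) 2 (PG n s) := by
  refine memLp_finsetSum _ fun l _ => ?_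
  have h := IsGaussian.memLp_dual (stdGaussian (En n)) (innerSL ℝ u) 2 (by simp)
  have h2 := h.comp_measurePreserving
    (measurePreserving_eval (fun _ : Fin s => stdGaussian (En n)) l)
  exact h2

/-- The general pairing formula. -/
theorem integral_dPsi_prf {s : ℕ} (u : En n) (hu : ‖u‖ = 1) (v : Fin (2 * s + 1) → En n) :
    ∫ g, dPsi (∑ l, ⟪u, g l⟫) * prf v g ∂(PG n (2 * s + 1)) =
      (-1) ^ s * cD s * ∏ l, ⟪u, v l⟫ := by
  have h1 : ∀ g : Fin (2 * s + 1) → En n, dPsi (∑ l, ⟪u, g l⟫) * prf v g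
      = cst⁻¹ * ∫ θ : ℝ, Real.exp (-θ ^ 2 / 2) * (Real.sin (θ * ∑ l, ⟪u, g l⟫) / θ)
        * prf v g := by
    intro g
    unfold dPsi
    rw [integral_mul_const]
    ring
  simp only [h1]
  rw [integral_const_mul]
  have hSP : Integrable (fun g : Fin (2 * s + 1) → En n => |∑ l, ⟪u, g l⟫| * |prf v g|)
      (PG n (2 * s + 1)) := by
    have h2 := memLp_prf v 2
    rw [Nat.cast_ofNat] at h2
    exact (lz_S_memLp u).norm.integrable_mul h2.norm
  have hint : Integrable (fun q : (Fin (2 * s + 1) → En n) × ℝ =>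
      Real.exp (-q.2 ^ 2 / 2) * (Real.sin (q.2 * ∑ l, ⟪u, q.1 l⟫) / q.2) * prf v q.1)
      ((PG n (2 * s + 1)).prod volume) := by
    have h2 : Integrable (fun q : (Fin (2 * s + 1) → En n) × ℝ =>
        (|∑ l, ⟪u, q.1 l⟫| * |prf v q.1|) * Real.exp (-q.2 ^ 2 / 2))
        ((PG n (2 * s + 1)).prod volume) := hSP.mul_prod integrable_exp_half
    refine h2.mono' ?_ (Filter.Eventually.of_forall fun q => ?_)
    · refine Measurable.aestronglyMeasurable ?_
      exact Measurable.mul (by fun_prop) ((measurable_prf v).comp measurable_fst)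
    · rw [norm_mul, norm_mul, Real.norm_of_nonneg (Real.exp_pos _).le, Real.norm_eq_abs,
        Real.norm_eq_abs]
      calc Real.exp (-q.2 ^ 2 / 2) * |Real.sin (q.2 * ∑ l, ⟪u, q.1 l⟫) / q.2| * |prf v q.1|
          ≤ Real.exp (-q.2 ^ 2 / 2) * |∑ l, ⟪u, q.1 l⟫| * |prf v q.1| :=
            mul_le_mul_of_nonneg_right (mul_le_mul_of_nonneg_left (abs_sin_div_le _ _)
              (Real.exp_pos _).le) (abs_nonneg _)
        _ = _ := by ring
  rw [integral_integral_swap hint]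
  have h3 : ∀ᵐ θ : ℝ, ∫ g, Real.exp (-θ ^ 2 / 2) * (Real.sin (θ * ∑ l, ⟪u, g l⟫) / θ) * prf v g
      ∂(PG n (2 * s + 1)) = (-1) ^ s * (∏ l, ⟪u, v l⟫) *
        (θ ^ (2 * s) * Real.exp (-(((s : ℝ) + 1) * θ ^ 2))) := by
    have hae : ∀ᵐ θ : ℝ, θ ≠ 0 := by simp [ae_iff]
    filter_upwards [hae] with θ hθ
    have h5 : ∀ g : Fin (2 * s + 1) → En n,
        Real.exp (-θ ^ 2 / 2) * (Real.sin (θ * ∑ l, ⟪u, g l⟫) / θ) * prf v g
        = (Real.exp (-θ ^ 2 / 2) / θ) * (Real.sin (θ * ∑ l, ⟪u, g l⟫) * prf v g) := by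
      intro g
      ring
    simp only [h5]
    rw [integral_const_mul, lz_sin u hu v θ]
    have h6 : Real.exp (-(((s : ℝ) + 1) * θ ^ 2))
        = Real.exp (-θ ^ 2 / 2) * Real.exp (-θ ^ 2 / 2) ^ (2 * s + 1) := by
      rw [← pow_succ', ← Real.exp_nat_mul]
      congr 1
      push_cast
      ring
    rw [h6]
    field_simp
    ring
  rw [integral_congr_ae h3, integral_const_mul]
  unfold cD
  ring

end Pool.Agent.Helper47.LB
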