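import Pool.Agent.Helper47.LB.Defs

/-!
# Mixed differences, algebra

* `md_sum` (Moebius inversion): `g (y + ∑_{i∈S} s i) = ∑_{A ⊆ S} md g y s A`.
* `md_sub`: mixed difference over a subset `A' ⊆ A` first: `md g y s A` is a signed sum of
  `2^{|A \ A'|}` mixed differences `md g y' s A'` at translated points.
* `md_insert`, `md_congr` as needed.
-/

open MeasureTheory ProbabilityTheory
open Pool.Agent.Helper24.Zono

namespace Pool.Agent.Helper47.LB

private theorem md_ins {ι : Type*} [DecidableEq ι] (g : ℝ → ℝ) (s : ι → ℝ) (A : Finset ι) (i : ι)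
    (hi : i ∉ A) (y : ℝ) : md g y s (insert i A) = md g (y + s i) s A - md g y s A := by
  unfold md
  rw [Finset.sum_powerset_insert hi, add_comm, sub_eq_add_neg, ← Finset.sum_neg_distrib]
  congr 1
  · refine Finset.sum_congr rfl fun B hB => ?_
    have hB' := Finset.mem_powerset.1 hB
    have hiB : i ∉ B := fun h => hi (hB' h)
    rw [Finset.card_insert_of_notMem hi, Finset.card_insert_of_notMem hiB,
      Nat.add_sub_add_right, Finset.sum_insert hiB, add_assoc]
  · refine Finset.sum_congr rfl fun B hB => ?_
    have hB' := Finset.mem_powerset.1 hB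
    have hle := Finset.card_le_card hB'
    rw [Finset.card_insert_of_notMem hi, Nat.succ_sub hle, pow_succ]
    ring

theorem md_sum {ι : Type*} [DecidableEq ι] (g : ℝ → ℝ) (y : ℝ) (s : ι → ℝ) (S : Finset ι) :
    g (y + ∑ i ∈ S, s i) = ∑ A ∈ S.powerset, md g y s A := by
  induction S using Finset.induction_on generalizing y with
  | empty => simp [md]
  | insert i S hi ih =>
    rw [Finset.sum_insert hi, Finset.sum_powerset_insert hi, ← add_assoc, ih (y + s i),
      ← Finset.sum_add_distrib]
    refine Finset.sum_congr rfl fun A hA => ?_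
    have hiA : i ∉ A := fun h => hi (Finset.mem_powerset.1 hA h)
    rw [md_ins g s A i hiA y]
    ring


theorem md_sub {ι : Type*} [DecidableEq ι] (g : ℝ → ℝ) (s : ι → ℝ) (A A' : Finset ι)
    (h : A' ⊆ A) (c : ℝ) (hc : ∀ y, |md g y s A'| ≤ c) (y : ℝ) :
    |md g y s A| ≤ 2 ^ A.card * c := by
  have hc0 : 0 ≤ c := (abs_nonneg _).trans (hc y)
  have key : ∀ E : Finset ι, Disjoint A' E → ∀ y, |md g y s (A' ∪ E)| ≤ 2 ^ E.card * c := by
    intro E
    induction E using Finset.induction_on with
    | empty =>
      intro _ y
      rw [Finset.union_empty, Finset.card_empty, pow_zero, one_mul]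
      exact hc y
    | insert i E hi ih =>
      intro hd y
      rw [Finset.disjoint_insert_right] at hd
      have hni : i ∉ A' ∪ E := by
        rw [Finset.mem_union]
        rintro (h1 | h1)
        · exact hd.1 h1
        · exact hi h1
      rw [Finset.union_insert, md_ins g s _ i hni y, Finset.card_insert_of_notMem hi, pow_succ]
      refine (abs_sub _ _).trans ?_
      have h1 := ih hd.2 (y + s i)
      have h2 := ih hd.2 y
      linarith
  have h1 := key (A \ A') Finset.disjoint_sdiff y
  rw [Finset.union_sdiff_of_subset h] at h1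
  refine h1.trans (mul_le_mul_of_nonneg_right ?_ hc0)
  exact pow_le_pow_right₀ (by norm_num) (Finset.card_le_card Finset.sdiff_subset)


end Pool.Agent.Helper47.LB
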