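import Pool.Agent.Helper47.LB.Sec0

/-!
# Second moments of `ww` and `bb`

* `ww_sec`: `ww = ∑_q c_q(a) prf(u_q)(z) • u_q`, `c_q = ∑_p K p q prf(u_p)(a)`,
  `E‖ww‖² = ∑_{q,q'} E[c_q c_q'] ⟨u_q,u_q'⟩^m ⟨u_q,u_q'⟩ = ∑ (K G K)_{q q'} G_{q' q}
  = tr (K G K G) ≤ N` (`hs_le`).
* `bb_sec`: `E‖bb‖² = (2m+1) n` (independence, centred; `Helper24.Zono.integral_norm_sq` in Pair3).
-/

open MeasureTheory ProbabilityTheory Matrix
open scoped RealInnerProductSpace ENNReal
open Pool.Agent.Helper24.Zono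

namespace Pool.Agent.Helper47.LB

variable {n N m : ℕ}

private lemma SecW_int4 (x : Fin N → En n) (p p' q q' : Fin N) :
    Integrable (fun ω : (Fin (m + 1) → En n) × (Fin m → En n) =>
      (prf (fun _ => dir x p) ω.1 * prf (fun _ => dir x p') ω.1) *
        (prf (fun _ => dir x q) ω.2 * prf (fun _ => dir x q') ω.2)) (PP n m) := by
  have h1 : Integrable (fun a : Fin (m + 1) → En n =>
      prf (fun _ => dir x p) a * prf (fun _ => dir x p') a) (PG n (m + 1)) := by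
    have a1 := memLp_prf (n := n) (s := m + 1) (fun _ => dir x p) 2
    have a2 := memLp_prf (n := n) (s := m + 1) (fun _ => dir x p') 2
    exact MemLp.integrable_mul (by exact_mod_cast a1) (by exact_mod_cast a2)
  have h2 : Integrable (fun a : Fin m → En n =>
      prf (fun _ => dir x q) a * prf (fun _ => dir x q') a) (PG n m) := by
    have a1 := memLp_prf (n := n) (s := m) (fun _ => dir x q) 2
    have a2 := memLp_prf (n := n) (s := m) (fun _ => dir x q') 2
    exact MemLp.integrable_mul (by exact_mod_cast a1) (by exact_mod_cast a2)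
  exact h1.mul_prod h2

private lemma SecW_val4 (x : Fin N → En n) (p p' q q' : Fin N) :
    ∫ ω : (Fin (m + 1) → En n) × (Fin m → En n),
      (prf (fun _ => dir x p) ω.1 * prf (fun _ => dir x p') ω.1) *
        (prf (fun _ => dir x q) ω.2 * prf (fun _ => dir x q') ω.2) ∂(PP n m) =
      ⟪dir x p, dir x p'⟫ ^ (m + 1) * ⟪dir x q, dir x q'⟫ ^ m := by
  rw [integral_prod_mul (fun a : Fin (m + 1) → En n =>
      prf (fun _ => dir x p) a * prf (fun _ => dir x p') a)
    (fun a : Fin m → En n => prf (fun _ => dir x q) a * prf (fun _ => dir x q') a),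
    integral_prf_mul_prf, integral_prf_mul_prf]
  simp

private lemma SecW_expand (x : Fin N → En n) (K : Matrix (Fin N) (Fin N) ℝ)
    (ω : (Fin (m + 1) → En n) × (Fin m → En n)) :
    ‖ww (m := m) x K ω‖ ^ 2 = ∑ q, ∑ q', ∑ p, ∑ p',
      (K p q * K p' q' * ⟪dir x q, dir x q'⟫) *
        ((prf (fun _ => dir x p) ω.1 * prf (fun _ => dir x p') ω.1) *
        (prf (fun _ => dir x q) ω.2 * prf (fun _ => dir x q') ω.2)) := by
  rw [← real_inner_self_eq_norm_sq]
  unfold ww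
  rw [sum_inner]
  refine Finset.sum_congr rfl fun q _ => ?_
  rw [inner_sum]
  refine Finset.sum_congr rfl fun q' _ => ?_
  rw [real_inner_smul_left, real_inner_smul_right]
  have e : ∀ A B C D E : ℝ, A * C * (B * D * E) = (A * B) * (C * D * E) := by
    intro A B C D E
    ring
  rw [e, Finset.sum_mul_sum, Finset.sum_mul]
  refine Finset.sum_congr rfl fun p _ => ?_
  rw [Finset.sum_mul]
  refine Finset.sum_congr rfl fun p' _ => ?_
  ring

private lemma SecW_comm (f : Fin N → Fin N → Fin N → ℝ) :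
    ∑ q, ∑ q', ∑ p, f q q' p = ∑ p, ∑ q', ∑ q, f q q' p := by
  rw [Finset.sum_congr rfl fun q _ => Finset.sum_comm, Finset.sum_comm]
  exact Finset.sum_congr rfl fun p _ => Finset.sum_comm

theorem ww_sec (x : Fin N → En n) (lam : ℝ) (K : Matrix (Fin N) (Fin N) ℝ)
    (hK : KProps (wt x) (gram x (m + 1)) lam K) :
    ∫ ω, ‖ww (m := m) x K ω‖ ^ 2 ∂(PP n m) ≤ N := by
  have hsym : ∀ i j, K i j = K j i := fun i j => by
    conv_lhs => rw [← hK.symm]
    rfl
  simp_rw [SecW_expand]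
  rw [integral_finsetSum _ fun q _ => integrable_finsetSum _ fun q' _ =>
    integrable_finsetSum _ fun p _ => integrable_finsetSum _ fun p' _ =>
      (SecW_int4 x p p' q q').const_mul _]
  have e1 : ∀ q, ∫ ω : (Fin (m + 1) → En n) × (Fin m → En n), ∑ q', ∑ p, ∑ p',
      (K p q * K p' q' * ⟪dir x q, dir x q'⟫) *
        ((prf (fun _ => dir x p) ω.1 * prf (fun _ => dir x p') ω.1) *
        (prf (fun _ => dir x q) ω.2 * prf (fun _ => dir x q') ω.2)) ∂(PP n m) =
      ∑ q', ∑ p, ∑ p', K p q * gram x (m + 1) q q' * (K q' p' * gram x (m + 1) p' p) := by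
    intro q
    rw [integral_finsetSum _ fun q' _ =>
      integrable_finsetSum _ fun p _ => integrable_finsetSum _ fun p' _ =>
        (SecW_int4 x p p' q q').const_mul _]
    refine Finset.sum_congr rfl fun q' _ => ?_
    rw [integral_finsetSum _ fun p _ => integrable_finsetSum _ fun p' _ =>
        (SecW_int4 x p p' q q').const_mul _]
    refine Finset.sum_congr rfl fun p _ => ?_
    rw [integral_finsetSum _ fun p' _ => (SecW_int4 x p p' q q').const_mul _]
    refine Finset.sum_congr rfl fun p' _ => ?_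
    rw [integral_const_mul, SecW_val4]
    simp only [gram, Matrix.of_apply]
    rw [hsym p' q', real_inner_comm (dir x p) (dir x p')]
    ring
  rw [Finset.sum_congr rfl fun q _ => e1 q]
  refine le_trans (le_of_eq ?_) hK.hs_le
  rw [Matrix.mul_assoc (K * gram x (m + 1)) K (gram x (m + 1))]
  have e3 : (K * gram x (m + 1) * (K * gram x (m + 1))).trace =
      ∑ p, ∑ q', ∑ q, ∑ p', K p q * gram x (m + 1) q q' * (K q' p' * gram x (m + 1) p' p) := by
    simp only [Matrix.trace, Matrix.diag_apply]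
    refine Finset.sum_congr rfl fun p _ => ?_
    rw [Matrix.mul_apply]
    refine Finset.sum_congr rfl fun q' _ => ?_
    rw [Matrix.mul_apply, Matrix.mul_apply, Finset.sum_mul_sum]
  rw [e3, SecW_comm]

private lemma SecW_lin (s : ℕ) (v : En n) :
    MemLp (fun a : Fin s → En n => ∑ l, ⟪v, a l⟫) 2 (PG n s) ∧
      ∫ a, (∑ l, ⟪v, a l⟫) ∂(PG n s) = 0 ∧
      ∫ a, (∑ l, ⟪v, a l⟫) ^ 2 ∂(PG n s) = s * ‖v‖ ^ 2 := by
  have hv : MemLp (fun g : En n => ⟪v, g⟫) 2 (stdGaussian (En n)) :=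
    (IsGaussian.memLp_two_id (μ := stdGaussian (En n))).const_inner v
  have hm : ∀ l : Fin s, MemLp (fun a : Fin s → En n => ⟪v, a l⟫) 2 (PG n s) := fun l =>
    hv.comp_measurePreserving (measurePreserving_eval (fun _ : Fin s => stdGaussian (En n)) l)
  have h0 : ∫ g, ⟪v, g⟫ ∂(stdGaussian (En n)) = 0 :=
    integral_strongDual_stdGaussian (innerSL ℝ v)
  have h1 : MemLp (fun a : Fin s → En n => ∑ l, ⟪v, a l⟫) 2 (PG n s) :=
    memLp_finsetSum _ fun l _ => hm l
  have h2 : ∫ a, (∑ l, ⟪v, a l⟫) ∂(PG n s) = 0 := by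
    rw [integral_finsetSum _ fun l _ => (hm l).integrable (by norm_num)]
    refine Finset.sum_eq_zero fun l _ => ?_
    have h3 := (measurePreserving_eval (fun _ : Fin s => stdGaussian (En n)) l)
    have h4 : AEStronglyMeasurable (fun g : En n => ⟪v, g⟫)
        (Measure.map (Function.eval l) (PG n s)) := by
      rw [h3.map_eq]
      exact hv.1
    have h5 := integral_map h3.measurable.aemeasurable h4
    rw [h3.map_eq, h0] at h5
    exact h5.symm
  refine ⟨h1, h2, ?_⟩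
  have h6 := variance_sum_pi (μ := fun _ : Fin s => stdGaussian (En n))
    (X := fun _ g => ⟪v, g⟫) (fun _ => hv)
  have h7 : Var[fun g : En n => ⟪v, g⟫; stdGaussian (En n)] = ‖v‖ ^ 2 := by
    have h3 := variance_dual_stdGaussian (innerSL ℝ v)
    rw [innerSL_apply_norm] at h3
    exact h3
  have h8 : (∑ i : Fin s, fun ω : Fin s → En n => ⟪v, ω i⟫) =
      fun a : Fin s → En n => ∑ l, ⟪v, a l⟫ := by
    funext a
    simp
  rw [h8, variance_eq_sub h1, h2, h7] at h6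
  simp only [Pi.pow_apply] at h6
  have h9 : ∫ a, (∑ l, ⟪v, a l⟫) ^ 2 ∂(PG n s) = ∑ _i : Fin s, ‖v‖ ^ 2 := by
    rw [← h6]
    ring
  rw [h9]
  simp

theorem bb_sec : ∫ ω, ‖bb (n := n) (m := m) ω‖ ^ 2 ∂(PP n m) = (2 * m + 1) * n := by
  set b := EuclideanSpace.basisFun (Fin n) ℝ with hb
  have e1 : ∀ ω : (Fin (m + 1) → En n) × (Fin m → En n), ‖bb ω‖ ^ 2 =
      ∑ i, (∑ l, ⟪b i, ω.1 l⟫ + ∑ l, ⟪b i, ω.2 l⟫) ^ 2 := by
    intro ω
    rw [← b.sum_sq_inner_right (bb ω)]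
    refine Finset.sum_congr rfl fun i _ => ?_
    unfold bb
    rw [inner_add_right, inner_sum, inner_sum]
  simp_rw [e1]
  have e2 : ∀ i, Integrable (fun ω : (Fin (m + 1) → En n) × (Fin m → En n) =>
      (∑ l, ⟪b i, ω.1 l⟫ + ∑ l, ⟪b i, ω.2 l⟫) ^ 2) (PP n m) ∧
      ∫ ω : (Fin (m + 1) → En n) × (Fin m → En n),
        (∑ l, ⟪b i, ω.1 l⟫ + ∑ l, ⟪b i, ω.2 l⟫) ^ 2 ∂(PP n m) = 2 * m + 1 := by
    intro i
    obtain ⟨a1, a2, a3⟩ := SecW_lin (n := n) (m + 1) (b i)
    obtain ⟨c1, c2, c3⟩ := SecW_lin (n := n) m (b i)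
    have i1 : Integrable (fun ω : (Fin (m + 1) → En n) × (Fin m → En n) =>
        (∑ l, ⟪b i, ω.1 l⟫) ^ 2) (PP n m) :=
      (a1.integrable_sq).comp_fst _
    have i2 : Integrable (fun ω : (Fin (m + 1) → En n) × (Fin m → En n) =>
        (∑ l, ⟪b i, ω.2 l⟫) ^ 2) (PP n m) :=
      (c1.integrable_sq).comp_snd _
    have i3 : Integrable (fun ω : (Fin (m + 1) → En n) × (Fin m → En n) =>
        (∑ l, ⟪b i, ω.1 l⟫) * (∑ l, ⟪b i, ω.2 l⟫)) (PP n m) :=
      (a1.integrable (by norm_num)).mul_prod (c1.integrable (by norm_num))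
    have e3 : ∀ ω : (Fin (m + 1) → En n) × (Fin m → En n),
        (∑ l, ⟪b i, ω.1 l⟫ + ∑ l, ⟪b i, ω.2 l⟫) ^ 2 =
        (∑ l, ⟪b i, ω.1 l⟫) ^ 2 + (∑ l, ⟪b i, ω.2 l⟫) ^ 2 +
          2 * ((∑ l, ⟪b i, ω.1 l⟫) * (∑ l, ⟪b i, ω.2 l⟫)) := by
      intro ω
      ring
    simp_rw [e3]
    have i4 : Integrable (fun ω : (Fin (m + 1) → En n) × (Fin m → En n) =>
        (∑ l, ⟪b i, ω.1 l⟫) ^ 2 + (∑ l, ⟪b i, ω.2 l⟫) ^ 2) (PP n m) := i1.add i2
    refine ⟨i4.add (i3.const_mul 2), ?_⟩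
    rw [integral_add i4 (i3.const_mul 2), integral_add i1 i2, integral_const_mul,
      integral_prod_mul (fun a : Fin (m + 1) → En n => ∑ l, ⟪b i, a l⟫)
        (fun a : Fin m → En n => ∑ l, ⟪b i, a l⟫), a2, zero_mul, mul_zero, add_zero,
      integral_fun_fst (μ := PG n (m + 1)) (ν := PG n m)
        (fun a : Fin (m + 1) → En n => (∑ l, ⟪b i, a l⟫) ^ 2),
      integral_fun_snd (μ := PG n (m + 1)) (ν := PG n m)
        (fun a : Fin m → En n => (∑ l, ⟪b i, a l⟫) ^ 2), a3, c3, b.norm_eq_one]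
    simp
    ring
  rw [integral_finsetSum _ fun i _ => (e2 i).1, Finset.sum_congr rfl fun i _ => (e2 i).2]
  simp
  ring

end Pool.Agent.Helper47.LB
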