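import Pool.Agent.Helper47.LB.ErrDefs
import Pool.Agent.Helper47.LB.APavg
import Pool.Agent.Helper47.LB.APsup

/-!
# Sums of the errors over the atoms, and over the isotropic measure

`ν F = ∑_j wt x j F(dir x j)` resp. `ν F = isoI F`; both are positive linear functionals and satisfy
Cauchy-Schwarz `ν(√(fg)) ≤ √(ν f) √(ν g)` (`f, g ≥ 0`). `lam⁻¹ = 2N/W ≤ 4N/√n` for
`lam = W/(2N)`, `W = ∑ wt x j ∈ [√n/2, 15√n]` (`W_ge`, `W_le`).
`T l = lam⁻¹ ν(SS x l)`: `≤ C √n (N/n^l + N ε² p³/n)` for atoms by `ap_avg`; for `isoI`: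
`isoI (SS x l) = ∑ wt_i isoI(⟨·,u_i⟩^{2l}) ≤ C √n W/n^l`, even better. `ν(eD)`: atoms `≤ W` by
`sec_atom` (`eD` at `dir x j` is the expression in `sec_atom`); `isoI`: `eD ≤ lam⁻¹ SS x (m+1)`
(`sec_le`), `isoI ≤ C √n N/n^{m+1}`.
Supremum (unit `u`): `lam⁻¹ SS x 2 u ≤ C N/√n (√n/n² + ε p√p)` by `ap_sup`;
`(lam⁻¹ SS x 2)^q ≤ sup^{q-1} lam⁻¹ SS x 2`. In `isoI` the argument `z/‖z‖` is a unit vector for
almost every `z`.
-/

open MeasureTheory ProbabilityTheory Matrix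
open scoped RealInnerProductSpace ENNReal
open Pool.Agent.Helper24.Zono

namespace Pool.Agent.Helper47.LB

private lemma SumA_SS_nonneg {n N : ℕ} (x : Fin N → En n) (l : ℕ) (u : En n) :
    0 ≤ SS x l u := by
  unfold SS
  refine Finset.sum_nonneg fun i _ => mul_nonneg (wt_nonneg x i) ?_
  rw [pow_mul]
  exact pow_nonneg (sq_nonneg _) l

private lemma SumA_scale {n N : ℕ} (hn : 1 ≤ n) (l : ℕ) (E : ℝ) :
    (N : ℝ) / Real.sqrt n * ((n : ℝ) / (n : ℝ) ^ l + E) =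
      Real.sqrt n * ((N : ℝ) / (n : ℝ) ^ l + N * E / n) := by
  have hn0 : (0 : ℝ) < n := by exact_mod_cast hn
  have hs : 0 < Real.sqrt n := Real.sqrt_pos.2 hn0
  have h1 : (n : ℝ) / Real.sqrt n = Real.sqrt n := Real.div_sqrt
  have h2 : (1 : ℝ) / Real.sqrt n = Real.sqrt n / n := by
    rw [div_eq_div_iff hs.ne' hn0.ne', one_mul, Real.mul_self_sqrt hn0.le]
  calc (N : ℝ) / Real.sqrt n * ((n : ℝ) / (n : ℝ) ^ l + E)
      = N * ((n : ℝ) / Real.sqrt n) / (n : ℝ) ^ l + N * E * (1 / Real.sqrt n) := by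
        field_simp
    _ = _ := by
        rw [h1, h2]
        ring

private lemma SumA_sqrt_le {a b : ℝ} (ha : 1 ≤ a) (_hb : 0 ≤ b) :
    Real.sqrt (a * b) ≤ a * Real.sqrt b := by
  rw [Real.sqrt_mul (by linarith)]
  refine mul_le_mul_of_nonneg_right ?_ (Real.sqrt_nonneg b)
  rw [Real.sqrt_le_left (by linarith)]
  nlinarith

theorem sum_errB (m c₀ q : ℕ) (hc : 1 ≤ c₀) (hq : 1 ≤ q) :
    ∃ C : ℝ, 1 ≤ C ∧ ∀ (n N : ℕ) (x : Fin N → En n) (ε : ℝ)
      (p : ℕ), 1 ≤ n → 1 ≤ N → 0 < ε → ε ≤ 1 / 2 → 1 ≤ p → Real.exp (-(p : ℝ)) ≤ ε →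
      (∀ y, (1 - ε) * ‖y‖ ≤ ∑ j, |⟪y, x j⟫|) → (∀ y, ∑ j, |⟪y, x j⟫| ≤ (1 + ε) * ‖y‖) →
      ∀ (lam : ℝ) (K : Matrix (Fin N) (Fin N) ℝ), lam = (∑ j, wt x j) / (2 * N) →
        KProps (wt x) (gram x (m + 1)) lam K → ∀ τ : ℝ, 0 ≤ τ →
        ∑ j, wt x j * errB m c₀ q x lam K τ (dir x j) ≤ C * numE m c₀ q p n N ε τ := by
  obtain ⟨C₁, hC₁, h₁⟩ := ap_avg 1 le_rfl
  obtain ⟨C₂, hC₂, h₂⟩ := ap_avg 2 (by norm_num)
  obtain ⟨C₃, hC₃, h₃⟩ := ap_avg (c₀ + 1) (by omega)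
  obtain ⟨Cs, hCs, hs⟩ := ap_sup
  have hC4 : 0 ≤ (4 * Cs) ^ (q - 1) * (4 * C₂) := by positivity
  have hC23 : 1 ≤ C₂ * C₃ := by nlinarith
  refine ⟨60 * C₁ + 16 * (C₂ * C₃) + (4 * Cs) ^ (q - 1) * (4 * C₂), by linarith, ?_⟩
  intro n N x ε p hn hN hε hε2 hp hpe hlow hup lam K hlam hK τ hτ
  have hn0 : (0 : ℝ) < n := by exact_mod_cast hn
  have hN0 : (0 : ℝ) < N := by exact_mod_cast hN
  have hp0 : (0 : ℝ) < p := by exact_mod_cast hp
  have hsn : 0 < Real.sqrt n := Real.sqrt_pos.2 hn0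
  set sn := Real.sqrt n with hsn_def
  have hW1 : sn / 2 ≤ ∑ j, wt x j := by
    have h := W_ge x ε hlow
    have h2 : sn / 2 ≤ (1 - ε) * sn := by nlinarith
    exact h2.trans h
  have hW2 : ∑ j, wt x j ≤ 15 * sn := by
    have h := W_le x ε hup
    have h2 : 10 * ((1 + ε) * sn) ≤ 15 * sn := by nlinarith
    exact h.trans h2
  set W := ∑ j, wt x j with hW_def
  have hW0 : 0 < W := by linarith
  have hlam0 : 0 < lam := by rw [hlam]; positivity
  have hL : lam⁻¹ ≤ 4 * (N / sn) := by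
    rw [hlam, inv_div, div_le_iff₀ hW0]
    have h3 : 4 * (N / sn) * (sn / 2) = 2 * N := by field_simp; ring
    have h4 : 4 * (N / sn) * (sn / 2) ≤ 4 * (N / sn) * W :=
      mul_le_mul_of_nonneg_left hW1 (by positivity)
    linarith
  have hL0 : 0 < lam⁻¹ := inv_pos.2 hlam0
  set L := lam⁻¹ with hL_def
  set E : ℝ := ε ^ 2 * p ^ 3 with hE_def
  have hE0 : 0 ≤ E := by positivity
  -- averages
  have hA : ∀ (l : ℕ) (C : ℝ), 0 ≤ C →
      ∑ j, wt x j * SS x l (dir x j) ≤ C * (n / (n : ℝ) ^ l + E) →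
      ∑ j, wt x j * (L * SS x l (dir x j)) ≤ 4 * C * (sn * (N / (n : ℝ) ^ l + N * E / n)) := by
    intro l C hC h
    have e1 : ∑ j, wt x j * (L * SS x l (dir x j)) = L * ∑ j, wt x j * SS x l (dir x j) := by
      rw [Finset.mul_sum]
      exact Finset.sum_congr rfl fun j _ => by ring
    rw [e1, ← SumA_scale hn l E]
    calc L * ∑ j, wt x j * SS x l (dir x j)
        ≤ (4 * (N / sn)) * (C * (n / (n : ℝ) ^ l + E)) := by
          refine mul_le_mul hL h ?_ (by positivity)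
          exact Finset.sum_nonneg fun j _ => mul_nonneg (wt_nonneg x j) (SumA_SS_nonneg x l _)
      _ = _ := by ring
  have hA1 := hA 1 C₁ (by linarith) (h₁ n N x ε p hn hε hε2 hp hpe hlow hup)
  have hA2 := hA 2 C₂ (by linarith) (h₂ n N x ε p hn hε hε2 hp hpe hlow hup)
  have hA3 := hA (c₀ + 1) C₃ (by linarith) (h₃ n N x ε p hn hε hε2 hp hpe hlow hup)
  have hT : ∀ l : ℕ, 0 ≤ N / (n : ℝ) ^ l + N * E / n := fun l => by positivity
  have hT1 := hT 1
  have hT2 := hT 2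
  have hT3 := hT (c₀ + 1)
  set T1 := N / (n : ℝ) ^ 1 + N * E / n with hT1_def
  set T2 := N / (n : ℝ) ^ 2 + N * E / n with hT2_def
  set T3 := N / (n : ℝ) ^ (c₀ + 1) + N * E / n with hT3_def
  have hnn : ∀ (l : ℕ) (j : Fin N), 0 ≤ wt x j * (L * SS x l (dir x j)) := fun l j =>
    mul_nonneg (wt_nonneg x j) (mul_nonneg hL0.le (SumA_SS_nonneg x l _))
  -- first term
  have t1 : ∑ j, wt x j * Real.sqrt (eD m x K (dir x j) * (L * SS x 1 (dir x j))) ≤
      60 * C₁ * (sn * Real.sqrt ((1 + N / (n : ℝ) ^ (m + 1)) * T1)) := by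
    have h5 : ∀ j, wt x j * Real.sqrt (eD m x K (dir x j) * (L * SS x 1 (dir x j))) ≤
        Real.sqrt (wt x j) * Real.sqrt (wt x j * (L * SS x 1 (dir x j))) := by
      intro j
      have hw := wt_nonneg x j
      have h6 : wt x j * eD m x K (dir x j) ≤ wt x j := hK.sec_atom j
      rw [← Real.sqrt_mul hw]
      calc wt x j * Real.sqrt (eD m x K (dir x j) * (L * SS x 1 (dir x j)))
          = Real.sqrt (wt x j ^ 2) * Real.sqrt (eD m x K (dir x j) * (L * SS x 1 (dir x j))) := by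
            rw [Real.sqrt_sq hw]
        _ = Real.sqrt (wt x j ^ 2 * (eD m x K (dir x j) * (L * SS x 1 (dir x j)))) := by
            rw [Real.sqrt_mul (sq_nonneg _)]
        _ ≤ _ := by
            refine Real.sqrt_le_sqrt ?_
            calc wt x j ^ 2 * (eD m x K (dir x j) * (L * SS x 1 (dir x j)))
                = (wt x j * eD m x K (dir x j)) * (wt x j * (L * SS x 1 (dir x j))) := by ring
              _ ≤ wt x j * (wt x j * (L * SS x 1 (dir x j))) :=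
                  mul_le_mul_of_nonneg_right h6 (hnn 1 j)
    calc ∑ j, wt x j * Real.sqrt (eD m x K (dir x j) * (L * SS x 1 (dir x j)))
        ≤ ∑ j, Real.sqrt (wt x j) * Real.sqrt (wt x j * (L * SS x 1 (dir x j))) :=
          Finset.sum_le_sum fun j _ => h5 j
      _ ≤ Real.sqrt (∑ j, wt x j) * Real.sqrt (∑ j, wt x j * (L * SS x 1 (dir x j))) :=
          Real.sum_sqrt_mul_sqrt_le _ (fun j => wt_nonneg x j) (hnn 1)
      _ ≤ Real.sqrt (15 * sn) * Real.sqrt (4 * C₁ * (sn * T1)) :=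
          mul_le_mul (Real.sqrt_le_sqrt hW2) (Real.sqrt_le_sqrt hA1) (Real.sqrt_nonneg _)
            (Real.sqrt_nonneg _)
      _ = Real.sqrt (sn ^ 2 * ((60 * C₁) * T1)) := by
          rw [← Real.sqrt_mul (by positivity)]
          congr 1
          ring
      _ = sn * Real.sqrt ((60 * C₁) * T1) := by
          rw [Real.sqrt_mul (sq_nonneg _), Real.sqrt_sq hsn.le]
      _ ≤ sn * (60 * C₁ * Real.sqrt T1) :=
          mul_le_mul_of_nonneg_left (SumA_sqrt_le (by linarith) hT1) hsn.le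
      _ ≤ sn * (60 * C₁ * Real.sqrt ((1 + N / (n : ℝ) ^ (m + 1)) * T1)) := by
          refine mul_le_mul_of_nonneg_left (mul_le_mul_of_nonneg_left (Real.sqrt_le_sqrt ?_)
            (by linarith)) hsn.le
          have h7 : 0 ≤ N / (n : ℝ) ^ (m + 1) := by positivity
          nlinarith
      _ = _ := by ring
  -- second term
  have t2 : ∑ j, wt x j * Real.sqrt ((L * SS x (c₀ + 1) (dir x j)) * (L * SS x 2 (dir x j))) ≤
      16 * (C₂ * C₃) * (sn * Real.sqrt (T3 * T2)) := by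
    have h5 : ∀ j, wt x j * Real.sqrt ((L * SS x (c₀ + 1) (dir x j)) *
        (L * SS x 2 (dir x j))) = Real.sqrt (wt x j * (L * SS x (c₀ + 1) (dir x j))) *
          Real.sqrt (wt x j * (L * SS x 2 (dir x j))) := by
      intro j
      have hw := wt_nonneg x j
      rw [← Real.sqrt_mul (hnn _ j)]
      calc wt x j * Real.sqrt ((L * SS x (c₀ + 1) (dir x j)) * (L * SS x 2 (dir x j)))
          = Real.sqrt (wt x j ^ 2) *
              Real.sqrt ((L * SS x (c₀ + 1) (dir x j)) * (L * SS x 2 (dir x j))) := by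
            rw [Real.sqrt_sq hw]
        _ = Real.sqrt (wt x j ^ 2 *
              ((L * SS x (c₀ + 1) (dir x j)) * (L * SS x 2 (dir x j)))) := by
            rw [Real.sqrt_mul (sq_nonneg _)]
        _ = _ := by
            congr 1
            ring
    calc ∑ j, wt x j * Real.sqrt ((L * SS x (c₀ + 1) (dir x j)) * (L * SS x 2 (dir x j)))
        = ∑ j, Real.sqrt (wt x j * (L * SS x (c₀ + 1) (dir x j))) *
            Real.sqrt (wt x j * (L * SS x 2 (dir x j))) := Finset.sum_congr rfl fun j _ => h5 j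
      _ ≤ Real.sqrt (∑ j, wt x j * (L * SS x (c₀ + 1) (dir x j))) *
            Real.sqrt (∑ j, wt x j * (L * SS x 2 (dir x j))) :=
          Real.sum_sqrt_mul_sqrt_le _ (hnn (c₀ + 1)) (hnn 2)
      _ ≤ Real.sqrt (4 * C₃ * (sn * T3)) * Real.sqrt (4 * C₂ * (sn * T2)) :=
          mul_le_mul (Real.sqrt_le_sqrt hA3) (Real.sqrt_le_sqrt hA2) (Real.sqrt_nonneg _)
            (Real.sqrt_nonneg _)
      _ = Real.sqrt (sn ^ 2 * ((16 * (C₂ * C₃)) * (T3 * T2))) := by
          rw [← Real.sqrt_mul (by positivity)]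
          congr 1
          ring
      _ = sn * Real.sqrt ((16 * (C₂ * C₃)) * (T3 * T2)) := by
          rw [Real.sqrt_mul (sq_nonneg _), Real.sqrt_sq hsn.le]
      _ ≤ sn * (16 * (C₂ * C₃) * Real.sqrt (T3 * T2)) :=
          mul_le_mul_of_nonneg_left (SumA_sqrt_le (by linarith) (mul_nonneg hT3 hT2)) hsn.le
      _ = _ := by ring
  -- third term
  set M : ℝ := N / sn * (sn / (n : ℝ) ^ 2 + ε * (p * Real.sqrt p)) with hM_def
  have hM0 : 0 ≤ M := by positivity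
  have t3 : ∑ j, wt x j * (L * SS x 2 (dir x j)) ^ q ≤
      (4 * Cs) ^ (q - 1) * (4 * C₂) * (M ^ (q - 1) * (sn * T2)) := by
    have h5 : ∀ j, wt x j * (L * SS x 2 (dir x j)) ^ q ≤
        (4 * Cs * M) ^ (q - 1) * (wt x j * (L * SS x 2 (dir x j))) := by
      intro j
      rcases wt_or x j with h0 | h1
      · rw [h0]
        simp
      · have h6 : L * SS x 2 (dir x j) ≤ 4 * Cs * M := by
          calc L * SS x 2 (dir x j)
              ≤ (4 * (N / sn)) * (Cs * (sn / (n : ℝ) ^ 2 + ε * (p * Real.sqrt p))) :=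
                mul_le_mul hL (hs n N x ε p hn hε hε2 hp hpe hlow hup _ h1)
                  (SumA_SS_nonneg x 2 _) (by positivity)
            _ = _ := by
                rw [hM_def]
                ring
        have h7 : 0 ≤ L * SS x 2 (dir x j) := mul_nonneg hL0.le (SumA_SS_nonneg x 2 _)
        have h8 : (L * SS x 2 (dir x j)) ^ q =
            (L * SS x 2 (dir x j)) ^ (q - 1) * (L * SS x 2 (dir x j)) := by
          conv_lhs => rw [show q = (q - 1) + 1 by omega]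
          rw [pow_succ]
        rw [h8]
        calc wt x j * ((L * SS x 2 (dir x j)) ^ (q - 1) * (L * SS x 2 (dir x j)))
            = (L * SS x 2 (dir x j)) ^ (q - 1) * (wt x j * (L * SS x 2 (dir x j))) := by ring
          _ ≤ _ := mul_le_mul_of_nonneg_right (pow_le_pow_left₀ h7 h6 _) (hnn 2 j)
    calc ∑ j, wt x j * (L * SS x 2 (dir x j)) ^ q
        ≤ ∑ j, (4 * Cs * M) ^ (q - 1) * (wt x j * (L * SS x 2 (dir x j))) :=
          Finset.sum_le_sum fun j _ => h5 j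
      _ = (4 * Cs * M) ^ (q - 1) * ∑ j, wt x j * (L * SS x 2 (dir x j)) := by
          rw [Finset.mul_sum]
      _ ≤ (4 * Cs * M) ^ (q - 1) * (4 * C₂ * (sn * T2)) :=
          mul_le_mul_of_nonneg_left hA2 (by positivity)
      _ = _ := by
          rw [mul_pow (4 * Cs) M]
          ring
  -- sum
  have e0 : ∑ j, wt x j * errB m c₀ q x lam K τ (dir x j) =
      τ ^ 2 * ∑ j, wt x j * Real.sqrt (eD m x K (dir x j) * (L * SS x 1 (dir x j))) +
        τ ^ 2 * ∑ j, wt x j * Real.sqrt ((L * SS x (c₀ + 1) (dir x j)) *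
          (L * SS x 2 (dir x j))) +
        τ ^ (2 * q) * ∑ j, wt x j * (L * SS x 2 (dir x j)) ^ q := by
    rw [Finset.mul_sum, Finset.mul_sum, Finset.mul_sum, ← Finset.sum_add_distrib,
      ← Finset.sum_add_distrib]
    refine Finset.sum_congr rfl fun j _ => ?_
    unfold errB
    rw [← hL_def]
    ring
  have e1 : numE m c₀ q p n N ε τ =
      τ ^ 2 * (sn * Real.sqrt ((1 + N / (n : ℝ) ^ (m + 1)) * T1)) +
        τ ^ 2 * (sn * Real.sqrt (T3 * T2)) + τ ^ (2 * q) * (M ^ (q - 1) * (sn * T2)) := by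
    unfold numE
    have e2 : (N : ℝ) * ε ^ 2 * p ^ 3 / n = N * E / n := by
      rw [hE_def]
      ring
    rw [e2, hT1_def, hT2_def, hT3_def, hM_def, pow_one, ← hsn_def]
    ring
  rw [e0, e1]
  set Q1 := sn * Real.sqrt ((1 + N / (n : ℝ) ^ (m + 1)) * T1) with hQ1
  set Q2 := sn * Real.sqrt (T3 * T2) with hQ2
  set Q3 := M ^ (q - 1) * (sn * T2) with hQ3
  have hQ1' : 0 ≤ Q1 := by positivity
  have hQ2' : 0 ≤ Q2 := by positivity
  have hQ3' : 0 ≤ Q3 := by positivity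
  have hτ2 : 0 ≤ τ ^ 2 := sq_nonneg τ
  have hτq : 0 ≤ τ ^ (2 * q) := pow_nonneg hτ _
  set CC := 60 * C₁ + 16 * (C₂ * C₃) + (4 * Cs) ^ (q - 1) * (4 * C₂) with hCC
  have k1 := mul_le_mul_of_nonneg_left (t1.trans (mul_le_mul_of_nonneg_right
    (show 60 * C₁ ≤ CC by linarith) hQ1')) hτ2
  have k2 := mul_le_mul_of_nonneg_left (t2.trans (mul_le_mul_of_nonneg_right
    (show 16 * (C₂ * C₃) ≤ CC by linarith) hQ2')) hτ2
  have k3 := mul_le_mul_of_nonneg_left (t3.trans (mul_le_mul_of_nonneg_right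
    (show (4 * Cs) ^ (q - 1) * (4 * C₂) ≤ CC by linarith) hQ3')) hτq
  calc _ ≤ τ ^ 2 * (CC * Q1) + τ ^ 2 * (CC * Q2) + τ ^ (2 * q) * (CC * Q3) := by
        linarith
    _ = _ := by ring

end Pool.Agent.Helper47.LB
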